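import Pool.Agent.Simpl.Core

set_option autoImplicit false

/-! # Transport of arrangements by linear isomorphisms (complete file) -/

namespace Pool.Agent.SimplV

open Module Classical Pool.Agent.Simpl

section

variable {V V' : Type} [AddCommGroup V] [Module ℝ V] [AddCommGroup V'] [Module ℝ V']

theorem map_inj (e : V ≃ₗ[ℝ] V') : Function.Injective (Submodule.map e.toLinearMap) :=
  Submodule.map_injective_of_injective e.injective

theorem map_le (e : V ≃ₗ[ℝ] V') (P Q : Submodule ℝ V) :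
    P.map e.toLinearMap ≤ Q.map e.toLinearMap ↔ P ≤ Q :=
  Submodule.map_le_map_iff_of_injective e.injective P Q

theorem mult_map' (A : Finset (Submodule ℝ V)) (e : V ≃ₗ[ℝ] V') (P : Submodule ℝ V) :
    mult (A.image (Submodule.map e.toLinearMap)) (P.map e.toLinearMap) = mult A P := by
  unfold mult
  have h1 : (A.image (Submodule.map e.toLinearMap)).filter (P.map e.toLinearMap ≤ ·) =
      (A.filter (P ≤ ·)).image (Submodule.map e.toLinearMap) := by
    ext H
    simp only [Finset.mem_filter, Finset.mem_image]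
    constructor
    · rintro ⟨⟨G, hG, rfl⟩, hle⟩
      exact ⟨G, ⟨hG, (map_le e P G).1 hle⟩, rfl⟩
    · rintro ⟨G, ⟨hG, hle⟩, rfl⟩
      exact ⟨⟨G, hG, rfl⟩, (map_le e P G).2 hle⟩
  rw [h1, Finset.card_image_of_injective _ (map_inj e)]

theorem image_trans {V'' : Type} [AddCommGroup V''] [Module ℝ V''] (A : Finset (Submodule ℝ V))
    (f : V ≃ₗ[ℝ] V') (g : V' ≃ₗ[ℝ] V'') : A.image (Submodule.map (f.trans g).toLinearMap) =
      (A.image (Submodule.map f.toLinearMap)).image (Submodule.map g.toLinearMap) := by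
  rw [Finset.image_image]
  refine Finset.image_congr fun H _ => ?_
  exact Submodule.map_comp f.toLinearMap g.toLinearMap H

end

section

variable {V V' : Type} [AddCommGroup V] [Module ℝ V] [AddCommGroup V'] [Module ℝ V']
  [TopologicalSpace V] [TopologicalSpace V']

theorem compl_map (A : Finset (Submodule ℝ V)) (e : V ≃L[ℝ] V') :
    compl (A.image (Submodule.map e.toLinearEquiv.toLinearMap)) = e.toHomeomorph '' compl A := by
  ext x
  unfold Pool.Agent.Simpl.compl
  simp only [Set.mem_image]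
  constructor
  · intro h
    refine ⟨e.symm x, fun H hH hx => ?_, ?_⟩
    · refine h (H.map e.toLinearEquiv.toLinearMap) (Finset.mem_image_of_mem _ hH) ?_
      exact ⟨e.symm x, hx, e.apply_symm_apply x⟩
    · exact e.apply_symm_apply x
  · rintro ⟨y, hy, rfl⟩ H' hH' hH'x
    obtain ⟨H, hH, rfl⟩ := Finset.mem_image.1 hH'
    obtain ⟨z, hz, hzy⟩ := hH'x
    have h1 : z = y := e.injective hzy
    exact hy H hH (h1 ▸ hz)

theorem isEdge_map (e : V ≃L[ℝ] V') (C : Set V) (H : Submodule ℝ V) :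
    IsEdge (e.toHomeomorph '' C) (H.map e.toLinearEquiv.toLinearMap) ↔ IsEdge C H := by
  unfold IsEdge
  have h1 : closure (e.toHomeomorph '' C) ∩ ((H.map e.toLinearEquiv.toLinearMap : Submodule ℝ V') : Set V') =
      e.toLinearEquiv.toLinearMap '' (closure C ∩ (H : Set V)) := by
    rw [← e.toHomeomorph.image_closure]
    ext x
    constructor
    · rintro ⟨⟨y, hy, rfl⟩, ⟨z, hz, hzy⟩⟩
      have h1 : z = y := e.injective hzy
      exact ⟨y, ⟨hy, h1 ▸ hz⟩, rfl⟩
    · rintro ⟨y, ⟨hy, hyH⟩, rfl⟩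
      exact ⟨⟨y, hy, rfl⟩, ⟨y, hyH, rfl⟩⟩
  rw [h1, Submodule.span_image]
  exact (map_inj e.toLinearEquiv).eq_iff

theorem isSimplicial_map (A : Finset (Submodule ℝ V)) (e : V ≃L[ℝ] V') (h : IsSimplicial A) :
    IsSimplicial (A.image (Submodule.map e.toLinearEquiv.toLinearMap)) := by
  rintro C' ⟨x', hx', rfl⟩
  rw [compl_map] at hx' ⊢
  obtain ⟨x, hx, rfl⟩ := hx'
  rw [← e.toHomeomorph.image_connectedComponentIn hx]
  set C := connectedComponentIn (compl A) x with hC
  have h1 := h C ⟨x, hx, hC⟩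
  have h2 : {H' | H' ∈ A.image (Submodule.map e.toLinearEquiv.toLinearMap) ∧
      IsEdge (e.toHomeomorph '' C) H'} =
      (Submodule.map e.toLinearEquiv.toLinearMap) '' {H | H ∈ A ∧ IsEdge C H} := by
    ext H'
    simp only [Finset.mem_image, Set.mem_image]
    constructor
    · rintro ⟨⟨H, hH, rfl⟩, hE⟩
      exact ⟨H, ⟨hH, (isEdge_map e C H).1 hE⟩, rfl⟩
    · rintro ⟨H, ⟨hH, hE⟩, rfl⟩
      exact ⟨⟨H, hH, rfl⟩, (isEdge_map e C H).2 hE⟩
  rw [h2, Set.ncard_image_of_injective _ (map_inj e.toLinearEquiv), h1]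

end

end Pool.Agent.SimplV
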