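import Pool.Agent.SimplV.Main
import Pool.Agent.SimplV.MapS
import Pool.Agent.Simpl.ToReal

set_option autoImplicit false

/-! # The theorem in `ℝ³` -/

namespace Pool.Agent.SimplV

open Module Classical Pool.Agent.Simpl

/-- A point of `P(ℝ³)` can be moved to `org`. -/
theorem exists_to_org (P : Submodule ℝ (Fin 3 → ℝ)) (hP : finrank ℝ P = 1) :
    ∃ e : (Fin 3 → ℝ) ≃L[ℝ] (ℂ × ℝ), P.map e.toLinearEquiv.toLinearMap = org := by
  obtain ⟨v, hv0, hv⟩ := finrank_eq_one_iff'.1 hP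
  have hv0' : (v : Fin 3 → ℝ) ≠ 0 := fun h => hv0 (Subtype.ext h)
  have hPv : P = Submodule.span ℝ {(v : Fin 3 → ℝ)} := by
    refine le_antisymm (fun x hx => ?_) ((Submodule.span_singleton_le_iff_mem _ _).2 v.2)
    obtain ⟨c, hc⟩ := hv ⟨x, hx⟩
    rw [Submodule.mem_span_singleton]
    exact ⟨c, congrArg Subtype.val hc⟩
  have hV : finrank ℝ (Fin 3 → ℝ) = finrank ℝ (ℂ × ℝ) := by rw [finrank_CR]; simp
  let e₀ : (Fin 3 → ℝ) ≃L[ℝ] (ℂ × ℝ) := ContinuousLinearEquiv.ofFinrankEq hV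
  have h1 : e₀ v ≠ 0 := fun h => hv0' (e₀.map_eq_zero_iff.1 h)
  have h2 : ((0, 1) : ℂ × ℝ) ≠ 0 := fun h => one_ne_zero (congrArg Prod.snd h)
  obtain ⟨g, hg⟩ := SeparatingDual.exists_continuousLinearEquiv_apply_eq (R := ℝ) h1 h2
  refine ⟨e₀.trans g, ?_⟩
  rw [hPv, Submodule.map_span, Set.image_singleton]
  unfold org
  congr 2

theorem high_mult (A : Finset (Submodule ℝ (Fin 3 → ℝ))) (hA : IsArrangement A)
    (hS : IsSimplicial A) (hn : 1000000 ≤ A.card) (P : Submodule ℝ (Fin 3 → ℝ))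
    (hP : finrank ℝ P = 1) (hm : (1 / 2 - 1 / 100000 : ℝ) * A.card ≤ mult A P) :
    IsNearPencil A ∨ ∃ N : ℕ, 3 ≤ N ∧ ∃ e : (Fin 3 → ℝ) ≃ₗ[ℝ] (Fin 3 → ℝ),
      A.image (Submodule.map e.toLinearMap) = regular N ∨
      (Even N ∧ A.image (Submodule.map e.toLinearMap) = insert (plane 0 0 1) (regular N)) := by
  obtain ⟨e, he⟩ := exists_to_org P hP
  have hcard : (A.image (Submodule.map e.toLinearEquiv.toLinearMap)).card = A.card :=
    Finset.card_image_of_injective _ (map_inj e.toLinearEquiv)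
  have h := core_org (A := A.image (Submodule.map e.toLinearEquiv.toLinearMap))
    (isArrangement_map A e.toLinearEquiv hA) (isSimplicial_map A e hS) (by rw [hcard]; exact hn)
    (by rw [hcard, ← he, mult_map' A e.toLinearEquiv P]; exact hm)
  rcases h with h | ⟨N, hN, e₂, h⟩
  · exact Or.inl (isNearPencil_map A e.toLinearEquiv h)
  right
  obtain ⟨e₃, h3, h3'⟩ := exists_toReal
  refine ⟨N, hN, (e.toLinearEquiv.trans e₂).trans e₃, ?_⟩
  rcases h with h | ⟨hev, h⟩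
  · left
    rw [image_trans, image_trans, h, h3 N (by omega)]
  · right
    refine ⟨hev, ?_⟩
    rw [image_trans, image_trans, h, Finset.image_insert, h3 N (by omega), h3']

end Pool.Agent.SimplV
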