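import Pool.Agent.SimplV.Defs
import Pool.Agent.Simpl.Cells

set_option autoImplicit false

/-! # A cell of a simplicial arrangement has no four walls (HM_Proof.md, 1.2)

Let `B = {H ∈ A : 0 < fn H x}` (`Simpl/RDefs.lean`; `ker (fn H) = H` by `ker_fn`, `Simpl/Regs.lean`, as
`finrank H = 2`, `finrank_CR`). `x ∈ cone A B` since `x` is in no plane of `A`, so `B ∈ regs ⊤ A`,
`cone A B` is a cell (`isCell_cone`) and exactly three `H ∈ A` have `IsEdge (cone A B) H`
(`IsSimplicial`). By `isEdge_iff` this is `B.erase H ∈ regs H (A.erase H)`. For `H ∈ W` it holds with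
the witness `y`: for `H' ∈ A`, `H' ≠ H`, we have `fn H' = c • f` with `c ≠ 0` (same kernel, a plane), so
`fn H' x * fn H' y = c² (f x * f y) > 0` and `fn H' y` has the sign of `fn H' x`.
So `W` is a subset of a set with three elements. -/

namespace Pool.Agent.SimplV

open Complex Module ComplexConjugate Pool.Agent.Simpl

theorem walls_le_three {A : Finset (Submodule ℝ (ℂ × ℝ))} (hA : ∀ H ∈ A, finrank ℝ H = 2)
    (hS : IsSimplicial A) {x : ℂ × ℝ} (hx : ∀ H ∈ A, x ∉ H) (W : Finset (Submodule ℝ (ℂ × ℝ)))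
    (hW : W ⊆ A)
    (h : ∀ H ∈ W, ∃ y ∈ H, ∀ H' ∈ A, H' ≠ H →
      ∃ f : (ℂ × ℝ) →ₗ[ℝ] ℝ, LinearMap.ker f = H' ∧ 0 < f x * f y) : W.card ≤ 3 := by
  classical
  have hV := finrank_CR
  have hk : Hyp A := fun H hH => ker_fn (by rw [hA H hH, hV])
  have hz : ∀ H ∈ A, ∀ y, fn H y = 0 ↔ y ∈ H := fun H hH y => Cells_zero hk hH y
  set B := A.filter fun H => 0 < fn H x with hBdef
  have hxB : x ∈ cone A B := by
    constructor
    · intro H hH
      exact (Finset.mem_filter.1 hH).2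
    · intro H hH
      rw [Finset.mem_sdiff, hBdef, Finset.mem_filter] at hH
      have h1 : fn H x ≠ 0 := fun h0 => hx H hH.1 ((hz H hH.1 x).1 h0)
      have h2 : ¬ 0 < fn H x := fun h3 => hH.2 ⟨hH.1, h3⟩
      exact lt_of_le_of_ne (not_lt.1 h2) h1
  have hBr : B ∈ regs ⊤ A :=
    Finset.mem_filter.2 ⟨Finset.mem_powerset.2 (Finset.filter_subset _ _), x, trivial, hxB⟩
  have h3 := hS _ (isCell_cone A hk hBr)
  rw [← h3, ← Set.ncard_coe_finset W]
  refine Set.ncard_le_ncard ?_ (A.finite_toSet.subset fun H hH => hH.1)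
  intro H hH
  have hHA : H ∈ A := hW hH
  refine ⟨hHA, (isEdge_iff hV A hA hBr hHA).2 ?_⟩
  obtain ⟨y, hyH, hy⟩ := h H hH
  have key : ∀ H' ∈ A, H' ≠ H → 0 < fn H' x * fn H' y := by
    intro H' hH' hne
    obtain ⟨f, hf, hpos⟩ := hy H' hH' hne
    have hfx : f x ≠ 0 := by
      intro h0
      rw [h0, zero_mul] at hpos
      exact lt_irrefl _ hpos
    have h1 : y - (f y / f x) • x ∈ H' := by
      rw [← hf, LinearMap.mem_ker, map_sub, map_smul, smul_eq_mul, div_mul_cancel₀ _ hfx,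
        sub_self]
    have h2 := (hz H' hH' _).2 h1
    rw [map_sub, map_smul, smul_eq_mul, sub_eq_zero] at h2
    have h3 : fn H' x ≠ 0 := fun h0 => hx H' hH' ((hz H' hH' x).1 h0)
    have h4 : 0 < f y / f x := by
      have e : f y / f x = (f x * f y) / (f x) ^ 2 := by field_simp
      rw [e]
      positivity
    have h5 : 0 < fn H' x ^ 2 := by positivity
    rw [h2]
    nlinarith [mul_pos h4 h5]
  refine Finset.mem_filter.2 ⟨Finset.mem_powerset.2
    (Finset.erase_subset_erase _ (Finset.filter_subset _ _)), y, hyH, ?_, ?_⟩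
  · intro H' hH'
    rw [Finset.mem_erase, hBdef, Finset.mem_filter] at hH'
    exact (mul_pos_iff_of_pos_left hH'.2.2).1 (key H' hH'.2.1 hH'.1)
  · intro H' hH'
    rw [Finset.mem_sdiff, Finset.mem_erase, Finset.mem_erase] at hH'
    obtain ⟨⟨hne, hA'⟩, hn⟩ := hH'
    have h1 : fn H' x < 0 := hxB.2 H' (Finset.mem_sdiff.2 ⟨hA', fun hB' => hn ⟨hne, hB'⟩⟩)
    have h2 := key H' hA' hne
    by_contra hc
    rw [not_lt] at hc
    nlinarith [mul_nonneg (neg_nonneg.2 h1.le) hc]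

end Pool.Agent.SimplV
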