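import Pool.Agent.SimplV.MelReg
import Pool.Agent.Simpl.GCase

set_option autoImplicit false

/-! # A further line contains few intersection points of tangents (HM_Proof.md, 8.5)

`classify L`:
* `L = tang ρ w₀`, `ρ ≠ 1`: for a pair `(w, w')` in the set, `tang 1 w ⊓ tang 1 w' = pt t p` (`meet`) is on `L`, so
`concur_GG` (`ρ₁ = 1`, `ρ₂ = ρ`, `w₁ = w`, `w₂ = w₀`, `w₃ = w'`): `GG 1 ρ (w₀/w) (w'/w) = 0`. The map
`(w, w') ↦ (w₀/w, w'/w)` is injective, the images satisfy `z.1^N = w₀^N`, `z.2^N = 1`: `boundG`, at most 22.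
* `L = tang 1 w₀`: `w₀ ∉ rts N` (`L ∉ polReg N`), three tangents of radius `1` through one point: impossible
(`card_same_radius`).
* `L = ax s`: `p² = w w'` (`same_radius`) and `p² = s` (`pt_le_ax`): `s ∈ rts N`, `L ∈ polReg N`, impossible.
* `L = infl`, `N` odd: `t = 0`, `w' = -w` (`meet_infl`), `(-w)^N = -1`: impossible. -/

namespace Pool.Agent.SimplV

open Complex Module ComplexConjugate Pool.Agent.Simpl Classical

private theorem meet_one {w w' : Circle} (hne : w ≠ w') {L : Submodule ℝ (ℂ × ℝ)}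
    (h : tang 1 w ⊓ tang 1 w' ≤ L) :
    ∃ (t : ℝ) (p : Circle), pt t p ≤ tang 1 w ∧ pt t p ≤ tang 1 w' ∧ pt t p ≤ L := by
  have h1 : tang 1 w ≠ tang 1 w' := fun h2 => hne (tang_inj one_pos one_pos h2).2
  obtain ⟨t, p, -, hp⟩ := meet one_pos (finrank_tang 1 w') h1
  exact ⟨t, p, hp ▸ inf_le_left, hp ▸ inf_le_right, hp ▸ h⟩

private theorem coe_pow_one {N : ℕ} {w : Circle} (h : w ^ N = 1) : (w : ℂ) ^ N = 1 := by
  have h1 := congrArg (fun z : Circle => (z : ℂ)) h
  simpa using h1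

theorem card_vij {N : ℕ} (hN : 3 ≤ N) {L : Submodule ℝ (ℂ × ℝ)} (hL : finrank ℝ L = 2)
    (hL' : L ∉ polReg N) (hinf : L = infl → ¬ Even N) :
    ((rts N ×ˢ rts N).filter fun x : Circle × Circle =>
      x.1 ≠ x.2 ∧ tang 1 x.1 ⊓ tang 1 x.2 ≤ L).card ≤ 22 := by
  have hN0 : 0 < N := by omega
  have hmem : ∀ x ∈ (rts N ×ˢ rts N).filter (fun x : Circle × Circle =>
      x.1 ≠ x.2 ∧ tang 1 x.1 ⊓ tang 1 x.2 ≤ L),
      x.1 ^ N = 1 ∧ x.2 ^ N = 1 ∧ x.1 ≠ x.2 ∧ tang 1 x.1 ⊓ tang 1 x.2 ≤ L := by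
    intro x hx
    rw [Finset.mem_filter, Finset.mem_product, mem_rts hN0, mem_rts hN0] at hx
    exact ⟨hx.1.1, hx.1.2, hx.2.1, hx.2.2⟩
  rcases classify L hL with ⟨ρ, w₀, hρ, hLe⟩ | ⟨s, hLe⟩ | hLe
  · by_cases hρ1 : ρ = 1
    · -- no such pairs
      have hempty : (rts N ×ˢ rts N).filter (fun x : Circle × Circle =>
          x.1 ≠ x.2 ∧ tang 1 x.1 ⊓ tang 1 x.2 ≤ L) = ∅ := by
        refine Finset.eq_empty_of_forall_notMem fun x hx => ?_
        obtain ⟨h1, h2, h3, h4⟩ := hmem x hx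
        obtain ⟨t, p, hp1, hp2, hp3⟩ := meet_one h3 h4
        have hw0 : w₀ ^ N ≠ 1 := fun h5 =>
          hL' ((mem_polReg hN0 L).2 (Or.inl ⟨w₀, h5, by rw [hLe, hρ1]⟩))
        rw [hLe, hρ1] at hp3
        have h6 : w₀ ≠ x.1 := fun h => hw0 (h ▸ h1)
        have h7 : w₀ ≠ x.2 := fun h => hw0 (h ▸ h2)
        have h8 : ({w₀, x.1, x.2} : Finset Circle).card ≤ 2 := by
          refine card_same_radius (t := t) (ρ := 1) (p := p) _ fun w hw => ?_
          simp only [Finset.mem_insert, Finset.mem_singleton] at hw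
          rcases hw with hw | hw | hw
          · rw [hw]; exact hp3
          · rw [hw]; exact hp1
          · rw [hw]; exact hp2
        rw [Finset.card_eq_three.2 ⟨w₀, x.1, x.2, h6, h7, h3, rfl⟩] at h8
        omega
      rw [hempty]
      simp
    · -- another radius
      let f : Circle × Circle → ℂ × ℂ := fun x => ((w₀ : ℂ) / x.1, (x.2 : ℂ) / x.1)
      have hinj : Function.Injective f := by
        intro x y hxy
        have h1 : (w₀ : ℂ) / x.1 = (w₀ : ℂ) / y.1 := congrArg Prod.fst hxy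
        have h2 : (x.2 : ℂ) / x.1 = (y.2 : ℂ) / y.1 := congrArg Prod.snd hxy
        have hx := Circle.coe_ne_zero x.1
        have hy := Circle.coe_ne_zero y.1
        have h0 := Circle.coe_ne_zero w₀
        have h3 : (x.1 : ℂ) = y.1 := by
          rw [div_eq_div_iff hx hy] at h1
          exact (mul_left_cancel₀ h0 h1).symm
        rw [h3, div_left_inj' hy] at h2
        exact Prod.ext (Circle.ext h3) (Circle.ext h2)
      rw [← Finset.card_image_of_injective _ hinj]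
      refine boundG (ρ₁ := 1) (ρ₂ := ρ) one_pos hρ (fun h => hρ1 h.symm) hN0
        (pow_ne_zero N (Circle.coe_ne_zero w₀)) one_ne_zero _ fun z hz => ?_
      obtain ⟨x, hx, rfl⟩ := Finset.mem_image.1 hz
      obtain ⟨h1, h2, h3, h4⟩ := hmem x hx
      obtain ⟨t, p, hp1, hp2, hp3⟩ := meet_one h3 h4
      rw [hLe] at hp3
      refine ⟨?_, ?_, ?_⟩
      · show ((w₀ : ℂ) / x.1) ^ N = (w₀ : ℂ) ^ N
        rw [div_pow, coe_pow_one h1, div_one]
      · show ((x.2 : ℂ) / x.1) ^ N = 1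
        rw [div_pow, coe_pow_one h1, coe_pow_one h2, div_one]
      · exact concur_GG hp1 hp3 hp2 (Ne.symm h3)
  · have hempty : (rts N ×ˢ rts N).filter (fun x : Circle × Circle =>
        x.1 ≠ x.2 ∧ tang 1 x.1 ⊓ tang 1 x.2 ≤ L) = ∅ := by
      refine Finset.eq_empty_of_forall_notMem fun x hx => ?_
      obtain ⟨h1, h2, h3, h4⟩ := hmem x hx
      obtain ⟨t, p, hp1, hp2, hp3⟩ := meet_one h3 h4
      rw [hLe, pt_le_ax] at hp3
      have h5 := same_radius hp1 hp2 h3
      have h6 : s ^ N = 1 := by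
        rw [← hp3, ← h5, mul_pow, h1, h2, one_mul]
      exact hL' ((mem_polReg hN0 L).2 (Or.inr ⟨s, h6, hLe⟩))
    rw [hempty]
    simp
  · have hempty : (rts N ×ˢ rts N).filter (fun x : Circle × Circle =>
        x.1 ≠ x.2 ∧ tang 1 x.1 ⊓ tang 1 x.2 ≤ L) = ∅ := by
      refine Finset.eq_empty_of_forall_notMem fun x hx => ?_
      obtain ⟨h1, h2, h3, h4⟩ := hmem x hx
      rw [hLe] at h4
      have hodd : Odd N := Nat.not_even_iff_odd.1 (hinf hLe)
      have h5 : tang 1 x.1 ≠ tang 1 x.2 := fun h => h3 (tang_inj one_pos one_pos h).2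
      rcases meet_infl one_pos one_pos h5 h4 with h6 | h6
      · exact h3 h6.symm
      · have h7 := coe_pow_one h2
        rw [h6, Circle.coe_neg, hodd.neg_pow, coe_pow_one h1] at h7
        norm_num at h7
    rw [hempty]
    simp

/-- at most two contact points on a further line -/
theorem card_contact {N : ℕ} (hN : 3 ≤ N) {L : Submodule ℝ (ℂ × ℝ)} (hL : finrank ℝ L = 2)
    (hL' : L ∉ polReg N) :
    ((rts N).filter fun w => pt 1 w ≤ L).card ≤ 2 := by
  rcases classify L hL with ⟨ρ, w₀, hρ, hLe⟩ | ⟨s, hLe⟩ | hLe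
  · refine card_same_radius (t := 1) (ρ := ρ) (p := w₀) _ fun w hw => ?_
    have h1 := (Finset.mem_filter.1 hw).2
    rw [hLe] at h1
    unfold pt at h1 ⊢
    rw [Submodule.span_singleton_le_iff_mem, mem_tang] at h1 ⊢
    simp only [Complex.mul_re, Complex.conj_re, Complex.conj_im] at h1 ⊢
    linarith
  · by_contra hc
    rw [not_le, Finset.two_lt_card] at hc
    obtain ⟨a, ha, b, hb, c, hc, hab, hac, hbc⟩ := hc
    have h1 := (Finset.mem_filter.1 ha).2
    have h2 := (Finset.mem_filter.1 hb).2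
    have h3 := (Finset.mem_filter.1 hc).2
    rw [hLe, pt_le_ax] at h1 h2 h3
    have key : ∀ x : Circle, x * x = s → a ≠ x → (x : ℂ) = -a := by
      intro x hx hax
      have h4 : (x : ℂ) ^ 2 = (a : ℂ) ^ 2 := by
        rw [pow_two, pow_two, ← Circle.coe_mul, ← Circle.coe_mul, hx, h1]
      rcases sq_eq_sq_iff_eq_or_eq_neg.1 h4 with h5 | h5
      · exact absurd (Circle.ext h5).symm hax
      · exact h5
    exact hbc (Circle.ext ((key b h2 hab).trans (key c h3 hac).symm))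
  · rw [Finset.card_eq_zero.2]
    · omega
    · refine Finset.eq_empty_of_forall_notMem fun w hw => ?_
      have h1 := (Finset.mem_filter.1 hw).2
      rw [hLe, pt_le_infl] at h1
      exact one_ne_zero h1

end Pool.Agent.SimplV
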