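import Pool.Agent.SimplV.MelIns
import Pool.Agent.SimplV.Vij

set_option autoImplicit false

/-! # Adding a further line (HM_Proof.md, 8.5)

`f = |A' \ polReg N|`. Let `P ∈ pts L A'` be on at least two planes of `A'`. (1) `P` is on a plane
`L' ∈ A' \ polReg N`: `P = L ⊓ L'`, at most `f` points. Otherwise all planes of `A'` through `P`
are in `polReg N`. (2) `P = org`: one point. (3) `P ≤ infl`: if `L ≠ infl` then `P = L ⊓ infl`,
one point. If `L = infl` then `N` is odd and two planes of `polReg N` through a point of `infl`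
are impossible: `pt 0 p` on `tang 1 w` and `tang 1 w'`: `w' = -w` (`meet_infl`), on `tang 1 w` and
`ax s`: `s = -w²` (`meet_ax_infl`), both not `N`-th roots of unity; on two axes: `p² = s = s'`.
(4) `P = pt t p`, `t > 0`. Two tangents `w ≠ w'`: the pair is in the set of `card_vij`. A tangent
`w` and an axis `s = p²`: `w' = s / w ∈ rts N`, `P ≤ tang 1 w'` (`pt_le_tang_refl`); `w' ≠ w`:
again the set of `card_vij`; `w' = w`: `w² = p²`, `P = pt 1 w` is a contact point on `L`, at most
two (`card_contact`). Two axes: `P = org`. The point is determined by the pair `(w, w')` (`tang 1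
w ⊓ tang 1 w'`). So `D₂ ≤ f + 1 + 1 + 2 + 22`. `far_D`: every tangent `tang 1 w ∈ A'` meets `L` in
a point of `pts L A'`, which is on at most two tangents (`card_same_radius`); if it is on exactly
one plane of `A'` it determines `w`. So `#{w : tang 1 w ∈ A'} ≤ D₁ + 2 D₂`. -/

namespace Pool.Agent.SimplV

open Complex Module ComplexConjugate Pool.Agent.Simpl Classical

private theorem far_ptne {P H : Submodule ℝ (ℂ × ℝ)} (hP : finrank ℝ P = 1)
    {H' : Submodule ℝ (ℂ × ℝ)} (hH : finrank ℝ H = 2) (hH' : finrank ℝ H' = 2) (hne : H ≠ H')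
    (h : P ≤ H) (h' : P ≤ H') : P = H ⊓ H' := by
  have h1 := finrank_inf finrank_CR hH hH' hne
  have hfd : FiniteDimensional ℝ (H ⊓ H' : Submodule ℝ (ℂ × ℝ)) :=
    FiniteDimensional.of_finrank_pos (by omega)
  exact Submodule.eq_of_le_of_finrank_eq (le_inf h h') (by omega)

private theorem far_odd {N : ℕ} (hN : ¬ Even N) {w : Circle} (hw : w ^ N = 1) :
    (-w) ^ N ≠ 1 := by
  have hodd : Odd N := Nat.not_even_iff_odd.1 hN
  rw [hodd.neg_pow, hw]
  exact Circle.neg_ne_self 1

private theorem far_two {N : ℕ} (hN : 0 < N) {t : ℝ} {p : Circle}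
    {H H' : Submodule ℝ (ℂ × ℝ)} (hH : H ∈ polReg N) (hH' : H' ∈ polReg N) (hne : H ≠ H')
    (h : pt t p ≤ H) (h' : pt t p ≤ H') :
    (∃ w w' : Circle, w ≠ w' ∧ w ^ N = 1 ∧ w' ^ N = 1 ∧ pt t p ≤ tang 1 w ∧
      pt t p ≤ tang 1 w') ∨
    ∃ w s : Circle, w ^ N = 1 ∧ s ^ N = 1 ∧ pt t p ≤ tang 1 w ∧ pt t p ≤ ax s := by
  rcases (mem_polReg hN H).1 hH with ⟨w, hw, rfl⟩ | ⟨s, hs, rfl⟩
  · rcases (mem_polReg hN H').1 hH' with ⟨w', hw', rfl⟩ | ⟨s, hs, rfl⟩
    · exact Or.inl ⟨w, w', fun he => hne (by rw [he]), hw, hw', h, h'⟩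
    · exact Or.inr ⟨w, s, hw, hs, h, h'⟩
  · rcases (mem_polReg hN H').1 hH' with ⟨w', hw', rfl⟩ | ⟨s', hs', rfl⟩
    · exact Or.inr ⟨w', s, hw', hs, h', h⟩
    · exact absurd (congrArg ax ((pt_le_ax.1 h).symm.trans (pt_le_ax.1 h'))) hne

private theorem far_contact {t : ℝ} {p w : Circle} (ht : 0 < t) (h : pt t p ≤ tang 1 w)
    (hw : w * w = p * p) : pt t p = pt 1 w := by
  have h1 := pt_le_tang.1 h
  rw [one_mul] at h1
  have h2 : ((w : ℂ)) ^ 2 = (p : ℂ) ^ 2 := by
    have h3 := congrArg (fun z : Circle => (z : ℂ)) hw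
    simp only [Circle.coe_mul] at h3
    rw [pow_two, pow_two]
    exact h3
  have h4 : (w : ℂ) * conj (w : ℂ) = 1 := by
    rw [← Circle.coe_inv_eq_conj, ← Circle.coe_mul, mul_inv_cancel, Circle.coe_one]
  rcases sq_eq_sq_iff_eq_or_eq_neg.1 h2 with h3 | h3
  · have h5 : p = w := Circle.ext h3.symm
    subst h5
    rw [h4, Complex.one_re] at h1
    rw [← h1]
  · have h5 : (p : ℂ) = -w := by rw [h3, neg_neg]
    rw [h5, neg_mul, h4, Complex.neg_re, Complex.one_re] at h1
    linarith

theorem far_E {N : ℕ} (hN : 3 ≤ N) {A' : Finset (Submodule ℝ (ℂ × ℝ))}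
    (hA : ∀ H ∈ A', finrank ℝ H = 2) {L : Submodule ℝ (ℂ × ℝ)} (hL : finrank ℝ L = 2)
    (hLA : L ∉ A') (hL' : L ∉ polReg N) (hinf : L = infl → ¬ Even N) :
    D₂ L A' ≤ (A' \ polReg N).card + 26 := by
  have hN0 : 0 < N := by omega
  let E1 := (A' \ polReg N).image fun L' => L ⊓ L'
  let E4 := ((rts N).filter fun w => pt 1 w ≤ L).image fun w => pt 1 w
  let E5 := ((rts N ×ˢ rts N).filter fun x : Circle × Circle =>
    x.1 ≠ x.2 ∧ tang 1 x.1 ⊓ tang 1 x.2 ≤ L).image fun x => tang 1 x.1 ⊓ tang 1 x.2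
  have hsub : ((pts L A').filter fun P => 2 ≤ mult A' P) ⊆
      E1 ∪ ({org, L ⊓ infl} ∪ (E4 ∪ E5)) := by
    intro P hP
    obtain ⟨hP1, hP2⟩ := Finset.mem_filter.1 hP
    obtain ⟨H0, hH0, rfl⟩ := Finset.mem_image.1 hP1
    have hne0 : L ≠ H0 := fun h => hLA (h ▸ hH0)
    have hfr : finrank ℝ (L ⊓ H0 : Submodule ℝ (ℂ × ℝ)) = 1 :=
      finrank_inf finrank_CR hL (hA H0 hH0) hne0
    obtain ⟨P, hPdef⟩ : ∃ P, P = L ⊓ H0 := ⟨_, rfl⟩
    rw [← hPdef] at hP2 hfr ⊢
    have hPL : P ≤ L := hPdef ▸ inf_le_left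
    by_cases hM : ∃ L' ∈ A' \ polReg N, P ≤ L'
    · obtain ⟨L', hL'M, hPL'⟩ := hM
      have hL'A := (Finset.mem_sdiff.1 hL'M).1
      refine Finset.mem_union_left _ (Finset.mem_image.2 ⟨L', hL'M, ?_⟩)
      exact (far_ptne hfr hL (hA L' hL'A) (fun h => hLA (h ▸ hL'A)) hPL hPL').symm
    · refine Finset.mem_union_right _ ?_
      push Not at hM
      obtain ⟨H, hH, H', hH', hne⟩ := Finset.one_lt_card.1 (lt_of_lt_of_le one_lt_two hP2)
      obtain ⟨hHA, hPH⟩ := Finset.mem_filter.1 hH
      obtain ⟨hHA', hPH'⟩ := Finset.mem_filter.1 hH'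
      have hHp : H ∈ polReg N := by
        by_contra h
        exact hM H (Finset.mem_sdiff.2 ⟨hHA, h⟩) hPH
      have hHp' : H' ∈ polReg N := by
        by_contra h
        exact hM H' (Finset.mem_sdiff.2 ⟨hHA', h⟩) hPH'
      rcases classify_pt P hfr with h1 | ⟨t, p, ht, h1⟩
      · refine Finset.mem_union_left _ ?_
        rw [h1]
        exact Finset.mem_insert_self _ _
      subst h1
      have h2 := far_two hN0 hHp hHp' hne hPH hPH'
      rcases ht.eq_or_lt with ht0 | ht0
      · subst ht0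
        have hPi : pt 0 p ≤ infl := pt_le_infl.2 rfl
        by_cases hLi : L = infl
        · exfalso
          have hodd := hinf hLi
          rcases h2 with ⟨w, w', hww, hw, hw', h3, h4⟩ | ⟨w, s, hw, hs, h3, h4⟩
          · have h5 : tang 1 w ≠ tang 1 w' := fun h =>
              hww (tang_inj one_pos one_pos h).2
            have h6 := far_ptne hfr (finrank_tang 1 w) (finrank_tang 1 w') h5 h3 h4
            rcases meet_infl one_pos one_pos h5 (h6 ▸ hPi) with h7 | h7
            · exact hww h7.symm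
            · exact far_odd hodd hw (h7 ▸ hw')
          · have h6 := far_ptne hfr (finrank_tang 1 w) (finrank_ax s) (tang_ne_ax one_pos) h3 h4
            have h7 := meet_ax_infl one_pos (h6 ▸ hPi)
            refine far_odd hodd (w := w * w) ?_ (h7 ▸ hs)
            rw [mul_pow, hw, one_mul]
        · refine Finset.mem_union_left _ (Finset.mem_insert_of_mem ?_)
          rw [Finset.mem_singleton]
          exact far_ptne hfr hL finrank_infl hLi hPL hPi
      · refine Finset.mem_union_right _ ?_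
        have key : ∀ w w' : Circle, w ≠ w' → w ^ N = 1 → w' ^ N = 1 → pt t p ≤ tang 1 w →
            pt t p ≤ tang 1 w' → pt t p ∈ E4 ∪ E5 := by
          intro w w' hww hw hw' h3 h4
          have h5 : tang 1 w ≠ tang 1 w' := fun h => hww (tang_inj one_pos one_pos h).2
          have h6 := far_ptne hfr (finrank_tang 1 w) (finrank_tang 1 w') h5 h3 h4
          refine Finset.mem_union_right _ (Finset.mem_image.2 ⟨(w, w'), ?_, h6.symm⟩)
          refine Finset.mem_filter.2 ⟨Finset.mem_product.2 ⟨(mem_rts hN0 w).2 hw,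
            (mem_rts hN0 w').2 hw'⟩, hww, ?_⟩
          rw [← h6]
          exact hPL
        rcases h2 with ⟨w, w', hww, hw, hw', h3, h4⟩ | ⟨w, s, hw, hs, h3, h4⟩
        · exact key w w' hww hw hw' h3 h4
        · have h5 := pt_le_tang_refl h3
          have h6 : p * p = s := pt_le_ax.1 h4
          have h7 : (p * p / w) ^ N = 1 := by rw [h6, div_pow, hs, hw, div_one]
          by_cases h8 : w = p * p / w
          · have h9 : w * w = p * p := by
              rw [eq_div_iff_mul_eq'] at h8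
              exact h8
            have h10 := far_contact ht0 h3 h9
            refine Finset.mem_union_left _ (Finset.mem_image.2 ⟨w, ?_, h10.symm⟩)
            refine Finset.mem_filter.2 ⟨(mem_rts hN0 w).2 hw, ?_⟩
            rw [← h10]
            exact hPL
          · exact key w (p * p / w) h8 hw h7 h3 h5
  have h1 : E1.card ≤ (A' \ polReg N).card := Finset.card_image_le
  have h4 : E4.card ≤ 2 := Finset.card_image_le.trans (card_contact hN hL hL')
  have h5 : E5.card ≤ 22 := Finset.card_image_le.trans (card_vij hN hL hL' hinf)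
  have h2 : ({org, L ⊓ infl} : Finset (Submodule ℝ (ℂ × ℝ))).card ≤ 2 := Finset.card_le_two
  have h6 := Finset.card_le_card hsub
  have h7 := Finset.card_union_le E1 ({org, L ⊓ infl} ∪ (E4 ∪ E5))
  have h8 := Finset.card_union_le ({org, L ⊓ infl} : Finset (Submodule ℝ (ℂ × ℝ))) (E4 ∪ E5)
  have h9 := Finset.card_union_le E4 E5
  unfold D₂
  omega

theorem far_D {N : ℕ} (hN : 3 ≤ N) {A' : Finset (Submodule ℝ (ℂ × ℝ))}
    (hA : ∀ H ∈ A', finrank ℝ H = 2) {L : Submodule ℝ (ℂ × ℝ)} (hL : finrank ℝ L = 2)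
    (hLA : L ∉ A') :
    N ≤ D₁ L A' + 2 * D₂ L A' + (polReg N \ A').card := by
  have hN0 : 0 < N := by omega
  have h1 := card_polReg_sdiff hN0 A'
  have h2 := Finset.card_filter_add_card_filter_not (s := rts N) (fun w => tang 1 w ∉ A')
  rw [card_rts] at h2
  set T := (rts N).filter fun w => ¬ tang 1 w ∉ A' with hT
  have hTA : ∀ w ∈ T, tang 1 w ∈ A' := fun w hw => not_not.1 (Finset.mem_filter.1 hw).2
  have hmaps : Set.MapsTo (fun w : Circle => L ⊓ tang 1 w) (T : Set Circle)
      (pts L A' : Set (Submodule ℝ (ℂ × ℝ))) := fun w hw =>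
    Finset.mem_coe.2 (Finset.mem_image.2 ⟨tang 1 w, hTA w (Finset.mem_coe.1 hw), rfl⟩)
  have h3 : T.card ≤ D₁ L A' + 2 * D₂ L A' := by
    rw [Finset.card_eq_sum_card_fiberwise hmaps]
    have h4 : ∀ P ∈ pts L A', (T.filter fun w => L ⊓ tang 1 w = P).card ≤
        (if mult A' P = 1 then 1 else 0) + 2 * (if 2 ≤ mult A' P then 1 else 0) := by
      intro P hP
      rcases Nat.lt_or_ge (mult A' P) 2 with hm | hm
      · have h5 : (T.filter fun w => L ⊓ tang 1 w = P).card ≤ mult A' P := by
          refine Finset.card_le_card_of_injOn (fun w => tang 1 w) ?_ ?_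
          · intro w hw
            obtain ⟨hwT, hwP⟩ := Finset.mem_filter.1 (Finset.mem_coe.1 hw)
            refine Finset.mem_coe.2 (Finset.mem_filter.2 ⟨hTA w hwT, ?_⟩)
            rw [← hwP]
            exact inf_le_right
          · intro w _ w' _ h
            exact (tang_inj one_pos one_pos h).2
        split_ifs <;> omega
      · have h5 : (T.filter fun w => L ⊓ tang 1 w = P).card ≤ 2 := by
          rcases (T.filter fun w => L ⊓ tang 1 w = P).eq_empty_or_nonempty with h6 | ⟨w, hw⟩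
          · rw [h6, Finset.card_empty]
            omega
          · obtain ⟨hwT, hwP⟩ := Finset.mem_filter.1 hw
            obtain ⟨t, p, -, hm'⟩ := meet one_pos hL
              (fun h => hLA (h ▸ hTA w hwT) : tang 1 w ≠ L)
            rw [inf_comm, hwP] at hm'
            subst hm'
            refine card_same_radius (t := t) (ρ := 1) (p := p) _ fun w' hw' => ?_
            have h7 := (Finset.mem_filter.1 hw').2
            rw [← h7]
            exact inf_le_right
        have h6 : mult A' P ≠ 1 := by omega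
        rw [if_neg h6, if_pos hm]
        omega
    refine (Finset.sum_le_sum h4).trans (le_of_eq ?_)
    rw [Finset.sum_add_distrib, ← Finset.mul_sum, ← Finset.card_filter, ← Finset.card_filter]
    rfl
  omega

end Pool.Agent.SimplV
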