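import Pool.Agent.SimplV.Rts
import Pool.Agent.Simpl.Concur

set_option autoImplicit false

/-! # The regular arrangement satisfies Melchior's equality (HM_Proof.md, 8.2)

`mem_polReg`. Vertices: `org` (multiplicity `N`: the axes); every other vertex is `pt t p`, `t ≥ 0`
(`classify_pt`). `pt t p ≤ tang 1 w ↔ Re (p conj w) = t`; `pt t p ≤ ax s ↔ p² = s`. If two different
tangents `w`, `w'` contain it then `w w' = p²` (`same_radius`). So if the vertex `pt t p` is on two tangents or
on a tangent and an axis then `(p²)^N = 1`, it is on the axis `ax (p²)` only, on a tangent `w`, and on the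
tangent `p² / w` (`Re (p conj (p²/w)) = Re (w conj p)` ...); if `p²/w ≠ w` the multiplicity is `3` (at most two
tangents, `card_same_radius`); if `w² = p²` then `w = p` and `t = 1` (`t = Re (p conj w) = ±1 ≥ 0`), the vertex
is the contact point `pt 1 w`, multiplicity `2`. There are `N` contact points (`pt 1 w`, `w^N = 1`,
different). The sum is `(3 - N) + N · 1 + 0 = 3`. -/

namespace Pool.Agent.SimplV

open Complex Module ComplexConjugate Pool.Agent.Simpl Classical

private theorem inf_eq {P H H' : Submodule ℝ (ℂ × ℝ)} (hP : finrank ℝ P = 1)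
    (hH : finrank ℝ H = 2) (hH' : finrank ℝ H' = 2) (hne : H ≠ H') (h : P ≤ H) (h' : P ≤ H') :
    H ⊓ H' = P := by
  have h1 := finrank_inf finrank_CR hH hH' hne
  exact (Submodule.eq_of_le_of_finrank_eq (le_inf h h') (hP.trans h1.symm)).symm

private theorem mem_verts {A : Finset (Submodule ℝ (ℂ × ℝ))} {P H H' : Submodule ℝ (ℂ × ℝ)}
    (hH : H ∈ A) (hH' : H' ∈ A) (hne : H ≠ H') (he : H ⊓ H' = P) : P ∈ verts A :=
  Finset.mem_image.2 ⟨(H, H'), Finset.mem_offDiag.2 ⟨hH, hH', hne⟩, he⟩

private theorem mult_eq {N : ℕ} (hN : 0 < N) (P : Submodule ℝ (ℂ × ℝ)) :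
    mult (polReg N) P = ((rts N).filter fun w => P ≤ tang 1 w).card +
      ((rts N).filter fun s => P ≤ ax s).card := by
  have h : (polReg N).filter (P ≤ ·) = ((rts N).filter fun w => P ≤ tang 1 w).image (tang 1) ∪
      ((rts N).filter fun s => P ≤ ax s).image ax := by
    ext L
    simp only [Finset.mem_filter, Finset.mem_union, Finset.mem_image, mem_polReg hN, mem_rts hN]
    constructor
    · rintro ⟨⟨w, hw, rfl⟩ | ⟨s, hs, rfl⟩, hP⟩
      · exact Or.inl ⟨w, ⟨hw, hP⟩, rfl⟩
      · exact Or.inr ⟨s, ⟨hs, hP⟩, rfl⟩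
    · rintro (⟨w, ⟨hw, hP⟩, rfl⟩ | ⟨s, ⟨hs, hP⟩, rfl⟩)
      · exact ⟨Or.inl ⟨w, hw, rfl⟩, hP⟩
      · exact ⟨Or.inr ⟨s, hs, rfl⟩, hP⟩
  unfold mult
  rw [h, Finset.card_union_of_disjoint, Finset.card_image_of_injective,
    Finset.card_image_of_injective]
  · intro a b hab
    exact ax_inj hab
  · intro a b hab
    exact (tang_inj one_pos one_pos hab).2
  · rw [Finset.disjoint_left]
    intro L h1 h2
    obtain ⟨w, -, rfl⟩ := Finset.mem_image.1 h1
    obtain ⟨s, -, hs⟩ := Finset.mem_image.1 h2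
    exact tang_ne_ax one_pos hs.symm

/-- reflection: if `pt t p` is on `tang 1 w` it is on `tang 1 (p² / w)` -/
theorem pt_le_tang_refl {t ρ : ℝ} {p w : Circle} (h : pt t p ≤ tang ρ w) :
    pt t p ≤ tang ρ (p * p / w) := by
  rw [pt_le_tang] at h ⊢
  have h1 : (p : ℂ) * conj ((p * p / w : Circle) : ℂ) = conj ((p : ℂ) * conj (w : ℂ)) := by
    rw [map_mul, Complex.conj_conj, ← Circle.coe_inv_eq_conj, ← Circle.coe_inv_eq_conj,
      ← Circle.coe_mul, ← Circle.coe_mul, inv_div, div_eq_mul_inv, mul_inv_rev]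
    congr 1
    rw [← mul_assoc, ← mul_assoc, mul_comm p w, mul_assoc w p p⁻¹, mul_inv_cancel, mul_one,
      mul_comm]
  rw [h1, Complex.conj_re]
  exact h

private theorem pt_ne_org (t : ℝ) (p : Circle) : pt t p ≠ org := by
  intro h
  have h1 : (((p : ℂ), t) : ℂ × ℝ) ∈ org := by
    rw [← h]
    exact Submodule.mem_span_singleton_self _
  obtain ⟨c, hc⟩ := Submodule.mem_span_singleton.1 h1
  have h2 := congrArg Prod.fst hc
  rw [Prod.smul_fst, smul_zero] at h2
  exact Circle.coe_ne_zero p h2.symm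

private theorem pt_one_inj {w w' : Circle} (h : pt 1 w = pt 1 w') : w = w' := by
  have h1 : (((w : ℂ), 1) : ℂ × ℝ) ∈ pt 1 w' := by
    rw [← h]
    exact Submodule.mem_span_singleton_self _
  obtain ⟨c, hc⟩ := Submodule.mem_span_singleton.1 h1
  have h2 := congrArg Prod.fst hc
  have h3 := congrArg Prod.snd hc
  simp only [Prod.smul_fst, Prod.smul_snd, smul_eq_mul, mul_one] at h2 h3
  rw [h3, one_smul] at h2
  exact Circle.ext h2.symm

private theorem contact (w : Circle) : pt 1 w ≤ tang 1 w := by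
  rw [pt_le_tang, ← Circle.coe_inv_eq_conj, ← Circle.coe_mul, mul_inv_cancel, Circle.coe_one,
    Complex.one_re, mul_one]

/-- the axes through a point -/
private theorem card_ax {N : ℕ} (hN : 0 < N) (t : ℝ) (p : Circle) :
    ((rts N).filter fun s => pt t p ≤ ax s).card = if (p * p) ^ N = 1 then 1 else 0 := by
  by_cases h : (p * p) ^ N = 1
  · rw [if_pos h, Finset.card_eq_one]
    refine ⟨p * p, ?_⟩
    ext s
    rw [Finset.mem_filter, Finset.mem_singleton, pt_le_ax, mem_rts hN]
    constructor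
    · rintro ⟨-, h1⟩
      exact h1.symm
    · rintro rfl
      exact ⟨h, rfl⟩
  · rw [if_neg h, Finset.card_eq_zero]
    refine Finset.filter_eq_empty_iff.2 fun s hs h1 => h ?_
    rw [pt_le_ax] at h1
    rw [h1]
    exact (mem_rts hN s).1 hs

/-- the multiplicity of a vertex -/
private theorem mult_vert {N : ℕ} (hN : 0 < N) {t : ℝ} (ht : 0 ≤ t) {p : Circle}
    (hP : pt t p ∈ verts (polReg N)) :
    (mult (polReg N) (pt t p) : ℤ) =
      3 - (if pt t p ∈ (rts N).image (pt 1) then 1 else 0) := by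
  have h2 := two_le_mult hP
  have hm := mult_eq hN (pt t p)
  rw [card_ax hN] at hm
  have hX := card_same_radius ((rts N).filter fun w => pt t p ≤ tang 1 w)
    (fun w hw => (Finset.mem_filter.1 hw).2)
  have hp : (p * p) ^ N = 1 := by
    by_contra hp
    rw [if_neg hp] at hm
    have h3 : 1 < ((rts N).filter fun w => pt t p ≤ tang 1 w).card := by omega
    obtain ⟨w, hw, w', hw', hne⟩ := Finset.one_lt_card.1 h3
    rw [Finset.mem_filter, mem_rts hN] at hw hw'
    refine hp ?_
    rw [← same_radius hw.2 hw'.2 hne, mul_pow, hw.1, hw'.1, mul_one]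
  rw [if_pos hp] at hm
  by_cases hC : pt t p ∈ (rts N).image (pt 1)
  · rw [if_pos hC]
    obtain ⟨w, hw, hwe⟩ := Finset.mem_image.1 hC
    have h3 : ((rts N).filter fun w => pt t p ≤ tang 1 w).card ≤ 1 := by
      rw [Finset.card_le_one]
      have h4 : ∀ a ∈ (rts N).filter fun w => pt t p ≤ tang 1 w, a = w := by
        intro a ha
        by_contra hne
        rw [Finset.mem_filter, ← hwe] at ha
        have h5 := same_radius ha.2 (contact w) hne
        exact hne (mul_right_cancel h5)
      intro a ha b hb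
      rw [h4 a ha, h4 b hb]
    omega
  · rw [if_neg hC]
    have h3 : ((rts N).filter fun w => pt t p ≤ tang 1 w).card ≠ 1 := by
      intro h4
      obtain ⟨w, hw⟩ := Finset.card_eq_one.1 h4
      have h5 : w ∈ (rts N).filter fun w => pt t p ≤ tang 1 w := by
        rw [hw]
        exact Finset.mem_singleton_self w
      have h6 := h5
      rw [Finset.mem_filter, mem_rts hN] at h6
      have h7 : p * p / w ∈ (rts N).filter fun w => pt t p ≤ tang 1 w := by
        rw [Finset.mem_filter, mem_rts hN]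
        exact ⟨by rw [div_pow, hp, h6.1, div_one], pt_le_tang_refl h6.2⟩
      rw [hw, Finset.mem_singleton, div_eq_iff_eq_mul] at h7
      have h8 : (p : ℂ) ^ 2 = (w : ℂ) ^ 2 := by
        have h9 := congrArg (fun z : Circle => (z : ℂ)) h7
        simp only [Circle.coe_mul] at h9
        linear_combination h9
      have hww : (w : ℂ) * conj (w : ℂ) = 1 := by
        rw [← Circle.coe_inv_eq_conj, ← Circle.coe_mul, mul_inv_cancel, Circle.coe_one]
      have h10 := pt_le_tang.1 h6.2
      rcases sq_eq_sq_iff_eq_or_eq_neg.1 h8 with h9 | h9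
      · refine hC (Finset.mem_image.2 ⟨w, (mem_rts hN w).2 h6.1, ?_⟩)
        rw [h9, hww, Complex.one_re, one_mul] at h10
        rw [← h10, Circle.ext h9]
      · rw [h9, neg_mul, hww, Complex.neg_re, Complex.one_re, one_mul] at h10
        linarith
    omega

theorem mel_polReg {N : ℕ} (hN : 3 ≤ N) : mel (polReg N) = 3 := by
  have hN0 : 0 < N := by omega
  have hfr : ∀ L ∈ polReg N, finrank ℝ L = 2 := by
    intro L hL
    rcases (mem_polReg hN0 L).1 hL with ⟨w, -, rfl⟩ | ⟨s, -, rfl⟩
    · exact finrank_tang 1 w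
    · exact finrank_ax s
  have hmo : (mult (polReg N) org : ℤ) = N := by
    rw [mult_eq hN0]
    have h1 : ((rts N).filter fun w => org ≤ tang 1 w).card = 0 :=
      Finset.card_eq_zero.2 (Finset.filter_eq_empty_iff.2 fun w _ => not_org_le_tang one_pos)
    have h2 : ((rts N).filter fun s => org ≤ ax s) = rts N :=
      Finset.filter_true_of_mem fun s _ => org_le_ax s
    rw [h1, h2, card_rts, zero_add]
  have hov : org ∈ verts (polReg N) := by
    have h1 : 1 < (rts N).card := by rw [card_rts]; omega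
    obtain ⟨s, hs, s', hs', hne⟩ := Finset.one_lt_card.1 h1
    rw [mem_rts hN0] at hs hs'
    have hne' : ax s ≠ ax s' := fun h => hne (ax_inj h)
    exact mem_verts ((mem_polReg hN0 _).2 (Or.inr ⟨s, hs, rfl⟩))
      ((mem_polReg hN0 _).2 (Or.inr ⟨s', hs', rfl⟩)) hne'
      (inf_eq finrank_org (finrank_ax s) (finrank_ax s') hne' (org_le_ax s) (org_le_ax s'))
  have hCv : (rts N).image (pt 1) ⊆ verts (polReg N) := by
    intro P hP
    obtain ⟨w, hw, rfl⟩ := Finset.mem_image.1 hP
    rw [mem_rts hN0] at hw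
    exact mem_verts ((mem_polReg hN0 _).2 (Or.inl ⟨w, hw, rfl⟩))
      ((mem_polReg hN0 _).2 (Or.inr ⟨w * w, by rw [mul_pow, hw, one_mul], rfl⟩))
      (tang_ne_ax one_pos) (inf_eq (finrank_pt 1 w) (finrank_tang 1 w) (finrank_ax _)
      (tang_ne_ax one_pos) (contact w) (pt_le_ax.2 rfl))
  have hCo : org ∉ (rts N).image (pt 1) := by
    intro h
    obtain ⟨w, -, hw⟩ := Finset.mem_image.1 h
    exact pt_ne_org 1 w hw
  have hterm : ∀ P ∈ verts (polReg N), (3 - (mult (polReg N) P : ℤ)) =
      (if P = org then (3 - (N : ℤ)) else 0) +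
        (if P ∈ (rts N).image (pt 1) then 1 else 0) := by
    intro P hP
    by_cases hPo : P = org
    · subst hPo
      rw [if_pos rfl, if_neg hCo, hmo, add_zero]
    · have hfP : finrank ℝ P = 1 := by
        obtain ⟨q, hq, rfl⟩ := Finset.mem_image.1 hP
        obtain ⟨h1, h2, h3⟩ := Finset.mem_offDiag.1 hq
        exact finrank_inf finrank_CR (hfr _ h1) (hfr _ h2) h3
      rcases classify_pt P hfP with h | ⟨t, p, ht, rfl⟩
      · exact absurd h hPo
      · rw [if_neg hPo, mult_vert hN0 ht hP]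
        ring
  unfold mel
  rw [Finset.sum_congr rfl hterm, Finset.sum_add_distrib, Finset.sum_ite_eq' , if_pos hov,
    Finset.sum_ite_mem, Finset.inter_eq_right.2 hCv, Finset.sum_const,
    Finset.card_image_of_injective _ (fun a b hab => pt_one_inj hab), card_rts, nsmul_eq_mul,
    mul_one]
  ring

end Pool.Agent.SimplV
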