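import Pool.Agent.SimplV.MelIns
import Pool.Agent.SimplV.MelReg

set_option autoImplicit false

/-! # Removing an axis from a nearly complete regular arrangement (HM_Proof.md, 8.4)

`B = base N b`, `H = ax s ∈ B \ A'`, `miss = |B \ A'| ≥ 1`, `U` = the `w` with `w^N = 1`, `ι w = s / w`
(an involution of `U` with at most two fixed points). For `w ∈ U` with `ι w ≠ w` the planes `tang 1 w`,
`tang 1 (ι w)` meet `H` in the same point `H ⊓ tang 1 w` (`meet`, `pt_le_ax`, `pt_le_tang_refl`), and
`H ⊓ tang 1 w = H ⊓ tang 1 w'` only for `w' = w` or `w' = ι w` (`same_radius`).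
(a) `2 D₂ ≥ N - 2 - 2 (miss - 1)`: the `w` with `ι w ≠ w` and `tang 1 w`, `tang 1 (ι w)` in `A'` are at
least `N - 2 - 2 (miss - 1)` (every missing tangent kills at most two `w`), two of them for each point.
(b) `D₁ ≤ (miss - 1) + 4`: let `P ∈ pts H A'` be on exactly one plane `L` of `A'`. `L = tang 1 w` with
`ι w ≠ w`: `tang 1 (ι w)` contains `P` and is missing; a missing tangent meets `H` in one point.
`L = tang 1 w` with `w² = s`: at most two. `L = ax s'`: `P = org`. `L = infl`: `P = H ⊓ infl`.
Together `2 D₁ + N ≤ 2 D₂ + 4 miss + 6`. -/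

namespace Pool.Agent.SimplV

open Complex Module ComplexConjugate Pool.Agent.Simpl Classical

private theorem card_sq (s : Circle) (X : Finset Circle) (hX : ∀ w ∈ X, w * w = s) :
    X.card ≤ 2 := by
  by_contra hc
  rw [not_le, Finset.two_lt_card] at hc
  obtain ⟨a, ha, b, hb, c, hc, hab, hac, hbc⟩ := hc
  have key : ∀ x y : Circle, x * x = s → y * y = s → x ≠ y → (x : ℂ) = -(y : ℂ) := by
    intro x y hx hy hxy
    have h1 : (x : ℂ) ^ 2 = (y : ℂ) ^ 2 := by
      rw [pow_two, pow_two, ← Circle.coe_mul, ← Circle.coe_mul, hx, hy]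
    rcases sq_eq_sq_iff_eq_or_eq_neg.1 h1 with h2 | h2
    · exact absurd (Circle.ext h2) hxy
    · exact h2
  have h1 := key a b (hX a ha) (hX b hb) hab
  have h2 := key a c (hX a ha) (hX c hc) hac
  exact hbc (Circle.ext (neg_injective (h1.symm.trans h2)))

/-- the missing tangents -/
private theorem card_miss {N : ℕ} (hN : 0 < N) {b : Bool} {A' : Finset (Submodule ℝ (ℂ × ℝ))}
    {s : Circle} (hs : s ^ N = 1) (hH : ax s ∉ A') :
    ((rts N).filter fun w => tang 1 w ∉ A').card + 1 ≤ (base N b \ A').card := by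
  have h1 := card_polReg_sdiff hN A'
  have h2 : (polReg N \ A').card ≤ (base N b \ A').card := by
    apply Finset.card_le_card
    apply Finset.sdiff_subset_sdiff _ (Finset.Subset.refl _)
    intro x hx
    unfold base
    split_ifs
    · exact Finset.mem_insert_of_mem hx
    · exact hx
  have h3 : 0 < ((rts N).filter fun w => ax w ∉ A').card :=
    Finset.card_pos.2 ⟨s, Finset.mem_filter.2 ⟨(mem_rts hN s).2 hs, hH⟩⟩
  omega

/-- the point of `ax s` on a tangent and on its mirror image -/
private theorem pt_data {s w : Circle} : ∃ (t : ℝ) (p : Circle),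
    ax s ⊓ tang 1 w = pt t p ∧ p * p = s ∧ pt t p ≤ tang 1 w ∧ pt t p ≤ tang 1 (s / w) := by
  obtain ⟨t, p, -, h1⟩ := meet (ρ := 1) (w := w) one_pos (finrank_ax s) (tang_ne_ax one_pos)
  rw [inf_comm] at h1
  have h2 : pt t p ≤ ax s := h1 ▸ inf_le_left
  have h3 : pt t p ≤ tang 1 w := h1 ▸ inf_le_right
  have h4 := pt_le_ax.1 h2
  refine ⟨t, p, h1, h4, h3, ?_⟩
  have h5 := pt_le_tang_refl h3
  rwa [h4] at h5

private theorem inf_refl (s w : Circle) : ax s ⊓ tang 1 (s / w) = ax s ⊓ tang 1 w := by
  obtain ⟨t, p, h1, h2, h3, h4⟩ := pt_data (s := s) (w := w)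
  have h5 : ax s ⊓ tang 1 w ≤ ax s ⊓ tang 1 (s / w) :=
    le_inf inf_le_left (h1 ▸ h4)
  symm
  apply Submodule.eq_of_le_of_finrank_eq h5
  rw [finrank_inf finrank_CR (finrank_ax s) (finrank_tang 1 w) (tang_ne_ax one_pos).symm,
    finrank_inf finrank_CR (finrank_ax s) (finrank_tang 1 (s / w)) (tang_ne_ax one_pos).symm]

private theorem two_mult {A' : Finset (Submodule ℝ (ℂ × ℝ))} {P L L' : Submodule ℝ (ℂ × ℝ)}
    (hL : L ∈ A') (hL' : L' ∈ A') (hne : L ≠ L') (h : P ≤ L) (h' : P ≤ L') : 2 ≤ mult A' P := by
  unfold mult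
  have h1 : ({L, L'} : Finset (Submodule ℝ (ℂ × ℝ))) ⊆ A'.filter (P ≤ ·) := by
    intro x hx
    rw [Finset.mem_insert, Finset.mem_singleton] at hx
    rcases hx with rfl | rfl
    · exact Finset.mem_filter.2 ⟨hL, h⟩
    · exact Finset.mem_filter.2 ⟨hL', h'⟩
  have h2 := Finset.card_le_card h1
  rwa [Finset.card_pair hne] at h2

theorem rem_ax {N : ℕ} (hN : 3 ≤ N) {b : Bool}
    {A' : Finset (Submodule ℝ (ℂ × ℝ))} (hA' : A' ⊆ base N b) {s : Circle} (hs : s ^ N = 1)
    (hH : ax s ∉ A') :
    2 * D₁ (ax s) A' + N ≤ 2 * D₂ (ax s) A' + 4 * (base N b \ A').card + 6 := by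
  have hN0 : 0 < N := by omega
  have hM := card_miss (b := b) hN0 hs hH
  set M := (rts N).filter fun w => tang 1 w ∉ A' with hMdef
  set F := (rts N).filter fun w => w * w = s with hFdef
  have hF : F.card ≤ 2 := card_sq s F fun w hw => (Finset.mem_filter.1 hw).2
  -- many double points
  have ha : N ≤ 2 * D₂ (ax s) A' + 2 * (base N b \ A').card := by
    set G := (rts N).filter fun w => s / w ≠ w ∧ tang 1 w ∈ A' ∧ tang 1 (s / w) ∈ A' with hGdef
    have h1 : rts N ⊆ G ∪ (F ∪ (M ∪ M.image fun w => s / w)) := by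
      intro w hw
      have hwN := (mem_rts hN0 w).1 hw
      by_cases c1 : s / w = w
      · refine Finset.mem_union_right _ (Finset.mem_union_left _ (Finset.mem_filter.2 ⟨hw, ?_⟩))
        rw [div_eq_iff_eq_mul] at c1
        exact c1.symm
      by_cases c2 : tang 1 w ∈ A'
      · by_cases c3 : tang 1 (s / w) ∈ A'
        · exact Finset.mem_union_left _ (Finset.mem_filter.2 ⟨hw, c1, c2, c3⟩)
        · refine Finset.mem_union_right _ (Finset.mem_union_right _ (Finset.mem_union_right _
            (Finset.mem_image.2 ⟨s / w, Finset.mem_filter.2 ⟨(mem_rts hN0 _).2 ?_, c3⟩, ?_⟩)))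
          · rw [div_pow, hs, hwN, div_one]
          · exact div_div_cancel s w
      · exact Finset.mem_union_right _ (Finset.mem_union_right _ (Finset.mem_union_left _
          (Finset.mem_filter.2 ⟨hw, c2⟩)))
    have h2 := Finset.card_le_card h1
    rw [card_rts] at h2
    have h3 := Finset.card_union_le G (F ∪ (M ∪ M.image fun w => s / w))
    have h4 := Finset.card_union_le F (M ∪ M.image fun w => s / w)
    have h5 := Finset.card_union_le M (M.image fun w => s / w)
    have h6 : (M.image fun w => s / w).card ≤ M.card := Finset.card_image_le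
    have h7 : G.card ≤ 2 * D₂ (ax s) A' := by
      unfold D₂
      refine Finset.card_le_mul_card_image_of_maps_to (f := fun w => ax s ⊓ tang 1 w) ?_ 2 ?_
      · intro w hw
        obtain ⟨-, g1, g2, g3⟩ := Finset.mem_filter.1 hw
        obtain ⟨t, p, e1, e2, e3, e4⟩ := pt_data (s := s) (w := w)
        refine Finset.mem_filter.2 ⟨Finset.mem_image.2 ⟨_, g2, rfl⟩, ?_⟩
        refine two_mult g2 g3 ?_ inf_le_right ?_
        · intro he
          exact g1 (tang_inj one_pos one_pos he).2.symm
        · show ax s ⊓ tang 1 w ≤ _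
          rw [e1]
          exact e4
      · intro P hP
        by_cases hne : (G.filter fun w => ax s ⊓ tang 1 w = P).Nonempty
        · obtain ⟨w₀, hw₀⟩ := hne
          have hw₁ := (Finset.mem_filter.1 hw₀).2
          obtain ⟨t, p, e1, -, -, -⟩ := pt_data (s := s) (w := w₀)
          refine card_same_radius (t := t) (ρ := 1) (p := p) _ ?_
          intro w hw
          have hw' := (Finset.mem_filter.1 hw).2
          rw [← e1, hw₁, ← hw']
          exact inf_le_right
        · rw [Finset.not_nonempty_iff_eq_empty] at hne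
          rw [hne]
          simp
    omega
  -- few simple points
  have hb' : D₁ (ax s) A' ≤ (base N b \ A').card + 3 := by
    unfold D₁
    have h1 : ((pts (ax s) A').filter fun P => mult A' P = 1) ⊆
        ({org, ax s ⊓ infl} : Finset (Submodule ℝ (ℂ × ℝ))) ∪
          ((F.image fun w => ax s ⊓ tang 1 w) ∪ (M.image fun w => ax s ⊓ tang 1 w)) := by
      intro P hP
      obtain ⟨hP1, hP2⟩ := Finset.mem_filter.1 hP
      obtain ⟨L, hL, rfl⟩ := Finset.mem_image.1 hP1
      have hLb := hA' hL
      have hcase : L = infl ∨ L ∈ polReg N := by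
        unfold base at hLb
        split_ifs at hLb
        · exact Finset.mem_insert.1 hLb
        · exact Or.inr hLb
      rcases hcase with rfl | hL2
      · exact Finset.mem_union_left _ (Finset.mem_insert_of_mem (Finset.mem_singleton_self _))
      rcases (mem_polReg hN0 L).1 hL2 with ⟨w, hw, rfl⟩ | ⟨s', hs', rfl⟩
      · apply Finset.mem_union_right
        by_cases c1 : w * w = s
        · exact Finset.mem_union_left _ (Finset.mem_image.2
            ⟨w, Finset.mem_filter.2 ⟨(mem_rts hN0 w).2 hw, c1⟩, rfl⟩)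
        · refine Finset.mem_union_right _ (Finset.mem_image.2 ⟨s / w, Finset.mem_filter.2
            ⟨(mem_rts hN0 _).2 ?_, ?_⟩, inf_refl s w⟩)
          · rw [div_pow, hs, hw, div_one]
          · intro hin
            obtain ⟨t, p, e1, e2, e3, e4⟩ := pt_data (s := s) (w := w)
            have h2 : 2 ≤ mult A' (ax s ⊓ tang 1 w) := by
              refine two_mult hL hin ?_ inf_le_right ?_
              · intro he
                have h3 := (tang_inj one_pos one_pos he).2
                apply c1
                rw [eq_div_iff_mul_eq'] at h3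
                exact h3
              · rw [e1]
                exact e4
            omega
      · apply Finset.mem_union_left
        have hne : ax s ≠ ax s' := by
          intro he
          rw [← he] at hL
          exact hH hL
        have h2 : org = ax s ⊓ ax s' := by
          apply Submodule.eq_of_le_of_finrank_eq (le_inf (org_le_ax s) (org_le_ax s'))
          rw [finrank_org, finrank_inf finrank_CR (finrank_ax s) (finrank_ax s') hne]
        rw [← h2]
        exact Finset.mem_insert_self _ _
    have h2 := Finset.card_le_card h1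
    have h3 := Finset.card_union_le ({org, ax s ⊓ infl} : Finset (Submodule ℝ (ℂ × ℝ)))
      ((F.image fun w => ax s ⊓ tang 1 w) ∪ (M.image fun w => ax s ⊓ tang 1 w))
    have h4 := Finset.card_union_le (F.image fun w => ax s ⊓ tang 1 w)
      (M.image fun w => ax s ⊓ tang 1 w)
    have h5 : (F.image fun w => ax s ⊓ tang 1 w).card ≤ F.card := Finset.card_image_le
    have h6 : (M.image fun w => ax s ⊓ tang 1 w).card ≤ M.card := Finset.card_image_le
    have h7 : ({org, ax s ⊓ infl} : Finset (Submodule ℝ (ℂ × ℝ))).card ≤ 2 := Finset.card_le_two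
    omega
  omega

end Pool.Agent.SimplV
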