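import Pool.Agent.SimplV.MelIns
import Pool.Agent.SimplV.MelReg

set_option autoImplicit false

/-! # Removing a tangent from a nearly complete regular arrangement (HM_Proof.md, 8.3)

`B = base N b`, `H = tang 1 w ∈ B \ A'`, `miss = |B \ A'| ≥ 1`. `mem_polReg`, `mem_rts`.
For `w' ≠ w` with `w'^N = 1` the planes `tang 1 w'` and `ax (w w')` meet `H` in the same point
`Q w' = H ⊓ tang 1 w'` (`meet`, `same_radius`: `Q w' = pt t p` with `p² = w w'`); `Q` is injective on
`{w' ≠ w}` (`card_same_radius`: at most two tangents through a point).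
(a) `D₂ ≥ N - 1 - (miss - 1)`: the `w'` for which both planes are in `A'` give different points on two
planes of `A'`; every missing plane `≠ H` is `tang 1 w'` or `ax (w w')` for at most one `w'` (the two
planes determine `w'`).
(b) `D₁ ≤ 1 + (miss - 1)`: let `P ∈ pts H A'` with exactly one plane `L ∈ A'` through it. `L = tang 1 w'`,
`w' ≠ w`: then `ax (w w')` contains `P` and is missing. `L = ax s`, `s ≠ w²`: then `tang 1 (s / w)` contains `P`
(`pt_le_tang_refl`) and is missing. `L = infl` (`b = true`, `N` even): `P = H ⊓ infl` is on `tang 1 (-w)`,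
which is missing. `L = ax (w²)`: `P` is the contact point, one point. A missing plane `≠ H` contains at most
one point of `H`, so choosing it is injective.
Together `D₁ + N ≤ D₂ + 2 miss`. -/

namespace Pool.Agent.SimplV

open Complex Module ComplexConjugate Pool.Agent.Simpl Classical

theorem rem_tang {N : ℕ} (hN : 3 ≤ N) {b : Bool} (hb : b = true → Even N)
    {A' : Finset (Submodule ℝ (ℂ × ℝ))} (hA' : A' ⊆ base N b) {w : Circle} (hw : w ^ N = 1)
    (hH : tang 1 w ∉ A') :
    D₁ (tang 1 w) A' + N ≤ D₂ (tang 1 w) A' + 2 * (base N b \ A').card := by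
  have hN0 : 0 < N := by omega
  set H := tang 1 w with hHdef
  have hH2 : finrank ℝ H = 2 := finrank_tang 1 w
  -- the base planes
  have hreg : ∀ L ∈ polReg N, L ∈ base N b := by
    intro L hL
    unfold base
    split_ifs
    · exact Finset.mem_insert_of_mem hL
    · exact hL
  have htb : ∀ w' : Circle, w' ^ N = 1 → tang 1 w' ∈ base N b := fun w' h =>
    hreg _ ((mem_polReg hN0 _).2 (Or.inl ⟨w', h, rfl⟩))
  have hab : ∀ s : Circle, s ^ N = 1 → ax s ∈ base N b := fun s h =>
    hreg _ ((mem_polReg hN0 _).2 (Or.inr ⟨s, h, rfl⟩))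
  have hbase : ∀ L ∈ base N b, (∃ w' : Circle, w' ^ N = 1 ∧ L = tang 1 w') ∨
      (∃ s : Circle, s ^ N = 1 ∧ L = ax s) ∨ (b = true ∧ L = infl) := by
    intro L hL
    unfold base at hL
    split_ifs at hL with hb'
    · rcases Finset.mem_insert.1 hL with h | h
      · exact Or.inr (Or.inr ⟨hb', h⟩)
      · rcases (mem_polReg hN0 _).1 h with h | h
        · exact Or.inl h
        · exact Or.inr (Or.inl h)
    · rcases (mem_polReg hN0 _).1 hL with h | h
      · exact Or.inl h
      · exact Or.inr (Or.inl h)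
  have hone : ∀ {L P : Submodule ℝ (ℂ × ℝ)}, finrank ℝ L = 2 → H ≠ L → finrank ℝ P = 1 →
      P ≤ H → P ≤ L → P = H ⊓ L := by
    intro L P hL hne hP h1 h2
    exact Submodule.eq_of_le_of_finrank_eq (le_inf h1 h2)
      (by rw [hP, finrank_inf finrank_CR hH2 hL hne])
  have htwo : ∀ {L L' P : Submodule ℝ (ℂ × ℝ)}, L ∈ A' → L' ∈ A' → L ≠ L' → P ≤ L → P ≤ L' →
      2 ≤ mult A' P := by
    intro L L' P h1 h2 h3 h4 h5
    unfold mult
    exact Finset.one_lt_card.2 ⟨L, Finset.mem_filter.2 ⟨h1, h4⟩, L',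
      Finset.mem_filter.2 ⟨h2, h5⟩, h3⟩
  have htne : ∀ {w' : Circle}, w' ≠ w → H ≠ tang 1 w' := by
    intro w' hne h
    exact hne (tang_inj one_pos one_pos h).2.symm
  -- the points of the tangents
  have hQ : ∀ {w' : Circle}, w' ≠ w → ∃ (t : ℝ) (p : Circle), H ⊓ tang 1 w' = pt t p ∧
      p * p = w * w' := by
    intro w' hne
    obtain ⟨t, p, -, h1⟩ := meet one_pos (finrank_tang 1 w') (htne hne)
    refine ⟨t, p, h1, ?_⟩
    exact (same_radius (h1 ▸ inf_le_left : pt t p ≤ tang 1 w)
      (h1 ▸ inf_le_right : pt t p ≤ tang 1 w') (Ne.symm hne)).symm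
  have hQax : ∀ {w' : Circle}, w' ≠ w → H ⊓ tang 1 w' ≤ ax (w * w') := by
    intro w' hne
    obtain ⟨t, p, h1, h2⟩ := hQ hne
    rw [h1]
    exact pt_le_ax.2 h2
  have hQinj : ∀ {w' w'' : Circle}, w' ≠ w → w'' ≠ w → H ⊓ tang 1 w' = H ⊓ tang 1 w'' →
      w' = w'' := by
    intro w' w'' h1 h2 h3
    obtain ⟨t, p, h4, h5⟩ := hQ h1
    have h6 := hQax h2
    rw [← h3, h4, pt_le_ax, h5] at h6
    exact mul_left_cancel h6
  -- the missing planes
  have hHb : H ∈ base N b \ A' := Finset.mem_sdiff.2 ⟨htb w hw, hH⟩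
  have hM : ((base N b \ A').erase H).card + 1 = (base N b \ A').card :=
    Finset.card_erase_add_one hHb
  set M := (base N b \ A').erase H with hMdef
  have hmemM : ∀ {L : Submodule ℝ (ℂ × ℝ)}, H ≠ L → L ∈ base N b → L ∉ A' → L ∈ M := by
    intro L h1 h2 h3
    exact Finset.mem_erase.2 ⟨Ne.symm h1, Finset.mem_sdiff.2 ⟨h2, h3⟩⟩
  -- (a)
  have hcardU : ((rts N).erase w).card = N - 1 := by
    rw [Finset.card_erase_of_mem ((mem_rts hN0 w).2 hw), card_rts]
  have hG : (((rts N).erase w).filter fun w' => tang 1 w' ∈ A' ∧ ax (w * w') ∈ A').card ≤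
      D₂ H A' := by
    unfold D₂
    refine Finset.card_le_card_of_injOn (fun w' => H ⊓ tang 1 w') ?_ ?_
    · intro w' hw'
      rw [Finset.mem_coe, Finset.mem_filter, Finset.mem_erase] at hw'
      rw [Finset.mem_coe, Finset.mem_filter]
      refine ⟨Finset.mem_image.2 ⟨_, hw'.2.1, rfl⟩, ?_⟩
      exact htwo hw'.2.1 hw'.2.2 (tang_ne_ax one_pos) inf_le_right (hQax hw'.1.1)
    · intro w' hw' w'' hw'' h
      rw [Finset.mem_coe, Finset.mem_filter, Finset.mem_erase] at hw' hw''
      exact hQinj hw'.1.1 hw''.1.1 h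
  have hB : (((rts N).erase w).filter fun w' => ¬ (tang 1 w' ∈ A' ∧ ax (w * w') ∈ A')).card ≤
      M.card := by
    refine Finset.card_le_card_of_injOn
      (fun w' => if tang 1 w' ∈ A' then ax (w * w') else tang 1 w') ?_ ?_
    · intro w' hw'
      rw [Finset.mem_coe, Finset.mem_filter, Finset.mem_erase, mem_rts hN0] at hw'
      obtain ⟨⟨h1, h2⟩, h3⟩ := hw'
      rw [Finset.mem_coe]
      by_cases h4 : tang 1 w' ∈ A'
      · simp only [h4, if_true]
        have h5 : ax (w * w') ∉ A' := fun h => h3 ⟨h4, h⟩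
        exact hmemM (tang_ne_ax one_pos) (hab _ (by rw [mul_pow, hw, h2, one_mul])) h5
      · simp only [h4, if_false]
        exact hmemM (htne h1) (htb _ h2) h4
    · intro w' hw' w'' hw'' h
      simp only at h
      by_cases h4 : tang 1 w' ∈ A' <;> by_cases h5 : tang 1 w'' ∈ A'
      · simp only [h4, h5, if_true] at h
        exact mul_left_cancel (ax_inj h)
      · simp only [h4, h5, if_true, if_false] at h
        exact absurd h.symm (tang_ne_ax one_pos)
      · simp only [h4, h5, if_true, if_false] at h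
        exact absurd h (tang_ne_ax one_pos)
      · simp only [h4, h5, if_false] at h
        exact (tang_inj one_pos one_pos h).2
  have hsum := Finset.card_filter_add_card_filter_not (s := (rts N).erase w)
    (fun w' => tang 1 w' ∈ A' ∧ ax (w * w') ∈ A')
  rw [hcardU] at hsum
  -- (b)
  have hsub : ((pts H A').filter fun P => mult A' P = 1).erase (H ⊓ ax (w * w)) ⊆
      M.image fun L => H ⊓ L := by
    intro P hP
    rw [Finset.mem_erase, Finset.mem_filter] at hP
    obtain ⟨hP0, hPp, hP1⟩ := hP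
    obtain ⟨L, hL, rfl⟩ := Finset.mem_image.1 hPp
    have hHL : H ≠ L := fun h => hH (h ▸ hL)
    rw [Finset.mem_image]
    rcases hbase L (hA' hL) with ⟨w', hw', rfl⟩ | ⟨s, hs, rfl⟩ | ⟨hb', rfl⟩
    · have hne : w' ≠ w := fun h => hHL (by rw [h])
      have h1 := hQax hne
      refine ⟨ax (w * w'), hmemM (tang_ne_ax one_pos)
        (hab _ (by rw [mul_pow, hw, hw', one_mul])) ?_, ?_⟩
      · intro h
        have h2 := htwo hL h (tang_ne_ax one_pos) inf_le_right h1
        omega
      · exact (hone (finrank_ax _) (tang_ne_ax one_pos)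
          (finrank_inf finrank_CR hH2 (finrank_tang 1 w') hHL) inf_le_left h1).symm
    · obtain ⟨t, p, -, h1⟩ := meet one_pos (finrank_ax s) hHL
      have h2 : p * p = s := pt_le_ax.1 (h1 ▸ inf_le_right : pt t p ≤ ax s)
      have h3 := pt_le_tang_refl (h1 ▸ inf_le_left : pt t p ≤ tang 1 w)
      rw [h2, ← h1] at h3
      have hne : s / w ≠ w := by
        intro h
        apply hP0
        rw [div_eq_iff_eq_mul.1 h]
      refine ⟨tang 1 (s / w), hmemM (htne hne) (htb _ (by rw [div_pow, hs, hw, div_one])) ?_, ?_⟩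
      · intro h
        have h4 : 2 ≤ mult A' (H ⊓ ax s) := htwo h hL (tang_ne_ax one_pos) h3 inf_le_right
        omega
      · exact (hone (finrank_tang _ _) (htne hne)
          (finrank_inf finrank_CR hH2 (finrank_ax s) hHL) inf_le_left h3).symm
    · obtain ⟨t, p, -, h1⟩ := meet one_pos finrank_infl hHL
      have h2 : t = 0 := pt_le_infl.1 (h1 ▸ inf_le_right : pt t p ≤ infl)
      have h3 : pt t p ≤ tang 1 w := h1 ▸ inf_le_left
      have h4 : pt t p ≤ tang 1 (-w) := by
        rw [pt_le_tang] at h3 ⊢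
        rw [Circle.coe_neg, map_neg, mul_neg, Complex.neg_re, h3, h2]
        ring
      rw [← h1] at h4
      have hne : -w ≠ w := by
        intro h
        have h5 := congrArg (fun z : Circle => (z : ℂ)) h
        simp only [Circle.coe_neg] at h5
        have h6 : (w : ℂ) = 0 := by linear_combination (-1 / 2 : ℂ) * h5
        exact Circle.coe_ne_zero w h6
      have hpow : (-w) ^ N = 1 := by
        rw [(hb hb').neg_pow, hw]
      refine ⟨tang 1 (-w), hmemM (htne hne) (htb _ hpow) ?_, ?_⟩
      · intro h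
        have h5 : 2 ≤ mult A' (H ⊓ infl) := htwo h hL tang_ne_infl h4 inf_le_right
        omega
      · exact (hone (finrank_tang _ _) (htne hne)
          (finrank_inf finrank_CR hH2 finrank_infl hHL) inf_le_left h4).symm
  have hD1 : D₁ H A' ≤ M.card + 1 := by
    unfold D₁
    have h1 := (Finset.card_le_card hsub).trans Finset.card_image_le
    have h2 := Finset.pred_card_le_card_erase
      (s := (pts H A').filter fun P => mult A' P = 1) (a := H ⊓ ax (w * w))
    omega
  omega

end Pool.Agent.SimplV
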