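import Pool.Agent.SimplV.MelInf
import Pool.Agent.SimplV.RemTang
import Pool.Agent.SimplV.RemAx
import Pool.Agent.SimplV.Far

set_option autoImplicit false

/-! # The stability theorem (HM_Proof.md, 8.6)

`b = true` if `infl ∈ A` and `N` is even, `B = base N b`; `mel B = 3` (`mel_polReg`, `mel_insert_infl`).
`B \ A = polReg N \ A`, so `5 |B \ A| ≤ N`.
(a) For `A ∩ B ⊆ A' ⊆ B`: `mel A' ≥ 3 + |B \ A'|`, induction on `|B \ A'|`: if it is `0` then `A' = B`. Otherwise
take `H ∈ B \ A'`; `H ≠ infl` (if `infl ∈ B` then `infl ∈ A ∩ B`), so `H = tang 1 w` or `ax s`; `mel_insert`: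
`mel A' = mel (insert H A') - D₁ + D₂`; `miss = |B \ A'| ≤ N / 5`: `rem_tang`: `D₂ - D₁ ≥ N - 2 miss ≥ 1`;
`rem_ax`: `2 (D₂ - D₁) ≥ N - 4 miss - 6 ≥ N / 5 - 6 > 0`, so `D₂ - D₁ ≥ 1`.
(b) For `A ∩ B ⊆ A'' ⊆ A`: `mel A'' ≥ 3 + |B \ A| + |A'' \ B|`, induction on `|A'' \ B|`: remove
`L ∈ A'' \ B`, `A' = A'' \ {L}`: `D₁ - D₂ ≥ N - |polReg N \ A'| - 3 D₂ ≥ N - N/5 - 3 (26 + |A' \ polReg N|)`,
`|A' \ polReg N| ≤ N/5 - 1` (`L ∈ A \ polReg N`, `L ∉ A'`): `≥ N/5 - 75 ≥ 1`. (`L = infl` only if `N` is odd,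
since `L ∉ B`.) Note `polReg N \ A' = polReg N \ A`.
(c) `3 = mel A ≥ 3 + |B \ A| + |A \ B|`: `A = B`. -/

namespace Pool.Agent.SimplV

open Complex Module ComplexConjugate Pool.Agent.Simpl Classical

private theorem infl_notMem_polReg {N : ℕ} (hN : 0 < N) : infl ∉ polReg N := by
  rw [mem_polReg hN]
  rintro (⟨w, -, h⟩ | ⟨s, -, h⟩)
  · exact tang_ne_infl h.symm
  · exact ax_ne_infl h.symm

private theorem mem_base {N : ℕ} {b : Bool} {H : Submodule ℝ (ℂ × ℝ)} :
    H ∈ base N b ↔ (b = true ∧ H = infl) ∨ H ∈ polReg N := by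
  unfold base
  cases b <;> simp

private theorem finrank_polReg {N : ℕ} (hN : 0 < N) {H : Submodule ℝ (ℂ × ℝ)}
    (hH : H ∈ polReg N) : finrank ℝ H = 2 := by
  rcases (mem_polReg hN H).1 hH with ⟨w, -, rfl⟩ | ⟨s, -, rfl⟩
  · exact finrank_tang 1 w
  · exact finrank_ax s

private theorem finrank_base {N : ℕ} (hN : 0 < N) {b : Bool} {H : Submodule ℝ (ℂ × ℝ)}
    (hH : H ∈ base N b) : finrank ℝ H = 2 := by
  rcases mem_base.1 hH with ⟨-, rfl⟩ | h
  · exact finrank_infl
  · exact finrank_polReg hN h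

private theorem mel_base {N : ℕ} (hN : 3 ≤ N) {b : Bool} (hb : b = true → Even N) :
    mel (base N b) = 3 := by
  cases b with
  | false =>
    have : base N false = polReg N := by simp [base]
    rw [this]
    exact mel_polReg hN
  | true =>
    have : base N true = insert infl (polReg N) := by simp [base]
    rw [this]
    exact mel_insert_infl hN (hb rfl)

/-- part (a) -/
private theorem part_a {N : ℕ} (hN : 500 ≤ N) {b : Bool} (hb : b = true → Even N)
    {A : Finset (Submodule ℝ (ℂ × ℝ))} (hbA : b = true → infl ∈ A)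
    (h1 : 5 * (base N b \ A).card ≤ N) (n : ℕ) :
    ∀ A' : Finset (Submodule ℝ (ℂ × ℝ)), A ∩ base N b ⊆ A' → A' ⊆ base N b →
      (base N b \ A').card = n → 3 + (n : ℤ) ≤ mel A' := by
  induction n with
  | zero =>
    intro A' _ h' hc
    have h2 : base N b ⊆ A' := Finset.sdiff_eq_empty_iff_subset.1 (Finset.card_eq_zero.1 hc)
    have h3 : A' = base N b := Finset.Subset.antisymm h' h2
    rw [h3, mel_base (by omega) hb]
    simp
  | succ n ih =>
    intro A' h h' hc
    have hne : (base N b \ A').Nonempty := by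
      rw [← Finset.card_pos]
      omega
    obtain ⟨H, hH⟩ := hne
    obtain ⟨hHB, hHA⟩ := Finset.mem_sdiff.1 hH
    have e1 : base N b \ insert H A' = (base N b \ A').erase H := by
      ext x
      simp only [Finset.mem_sdiff, Finset.mem_insert, Finset.mem_erase]
      tauto
    have e2 : (base N b \ insert H A').card = n := by
      rw [e1, Finset.card_erase_of_mem hH, hc]
      rfl
    have e3 := ih (insert H A') (h.trans (Finset.subset_insert _ _))
      (Finset.insert_subset hHB h') e2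
    have e4 := mel_insert (A := A') (H := H) (fun L hL =>
      finrank_base (b := b) (N := N) (by omega) (Finset.insert_subset hHB h' hL)) hHA
    have e5 : (base N b \ A').card ≤ (base N b \ A).card := by
      refine Finset.card_le_card fun x hx => ?_
      obtain ⟨hx1, hx2⟩ := Finset.mem_sdiff.1 hx
      refine Finset.mem_sdiff.2 ⟨hx1, fun hx3 => hx2 (h (Finset.mem_inter.2 ⟨hx3, hx1⟩))⟩
    have e6 : D₁ H A' + 1 ≤ D₂ H A' := by
      rcases mem_base.1 hHB with ⟨hbt, hinf⟩ | hp
      · exfalso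
        apply hHA
        apply h
        rw [hinf]
        rw [hinf] at hHB
        exact Finset.mem_inter.2 ⟨hbA hbt, hHB⟩
      · rcases (mem_polReg (by omega) H).1 hp with ⟨w, hw, rfl⟩ | ⟨s, hs, rfl⟩
        · have := rem_tang (N := N) (by omega) hb h' hw hHA
          omega
        · have := rem_ax (N := N) (by omega) h' hs hHA
          omega
    push_cast
    have e7 : (D₁ H A' : ℤ) + 1 ≤ D₂ H A' := by exact_mod_cast e6
    linarith

/-- part (b) -/
private theorem part_b {N : ℕ} (hN : 500 ≤ N) {b : Bool} (hb : b = true → Even N)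
    {A : Finset (Submodule ℝ (ℂ × ℝ))} (hA : ∀ H ∈ A, finrank ℝ H = 2)
    (hbA : b = true → infl ∈ A) (hbn : infl ∈ A → Even N → b = true)
    (h1 : 5 * (polReg N \ A).card ≤ N) (h1' : 5 * (base N b \ A).card ≤ N)
    (h2 : 5 * (A \ polReg N).card ≤ N) (n : ℕ) :
    ∀ A' : Finset (Submodule ℝ (ℂ × ℝ)), A ∩ base N b ⊆ A' → A' ⊆ A →
      (A' \ base N b).card = n → 3 + ((base N b \ A).card : ℤ) + (n : ℤ) ≤ mel A' := by
  induction n with
  | zero =>
    intro A' h h' hc
    have h3 : A' ⊆ base N b := Finset.sdiff_eq_empty_iff_subset.1 (Finset.card_eq_zero.1 hc)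
    have h4 : base N b \ A' = base N b \ A := by
      ext x
      simp only [Finset.mem_sdiff]
      constructor
      · rintro ⟨hx1, hx2⟩
        exact ⟨hx1, fun hx3 => hx2 (h (Finset.mem_inter.2 ⟨hx3, hx1⟩))⟩
      · rintro ⟨hx1, hx2⟩
        exact ⟨hx1, fun hx3 => hx2 (h' hx3)⟩
    have := part_a hN hb hbA h1' _ A' h h3 rfl
    rw [h4] at this
    simpa using this
  | succ n ih =>
    intro A'' h h' hc
    have hne : (A'' \ base N b).Nonempty := by
      rw [← Finset.card_pos]
      omega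
    obtain ⟨L, hL⟩ := hne
    obtain ⟨hLA, hLB⟩ := Finset.mem_sdiff.1 hL
    have hins : insert L (A''.erase L) = A'' := Finset.insert_erase hLA
    have hnot : L ∉ A''.erase L := Finset.notMem_erase L A''
    generalize hA' : A''.erase L = A' at hins hnot
    have hsub : A' ⊆ A'' := by
      rw [← hA']
      exact Finset.erase_subset _ _
    have g1 : A ∩ base N b ⊆ A' := by
      intro x hx
      rw [← hA']
      refine Finset.mem_erase.2 ⟨?_, h hx⟩
      rintro rfl
      exact hLB (Finset.mem_inter.1 hx).2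
    have g2 : (A' \ base N b).card = n := by
      have : A' \ base N b = (A'' \ base N b).erase L := by
        rw [← hA']
        ext x
        simp only [Finset.mem_sdiff, Finset.mem_erase]
        tauto
      rw [this, Finset.card_erase_of_mem hL, hc]
      rfl
    have e3 := ih A' g1 (hsub.trans h') g2
    have hA2 : ∀ H ∈ A', finrank ℝ H = 2 := fun H hH => hA H (h' (hsub hH))
    have hL2 : finrank ℝ L = 2 := hA L (h' hLA)
    have e4 := mel_insert (A := A') (H := L) (fun M hM => by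
      rw [hins] at hM
      exact hA M (h' hM)) hnot
    rw [hins] at e4
    have hLp : L ∉ polReg N := fun hp => hLB (mem_base.2 (Or.inr hp))
    have hinf : L = infl → ¬ Even N := by
      intro hLi hev
      apply hLB
      refine mem_base.2 (Or.inl ⟨hbn ?_ hev, hLi⟩)
      rw [← hLi]
      exact h' hLA
    have f1 := far_E (N := N) (by omega) hA2 hL2 hnot hLp hinf
    have f2 := far_D (N := N) (by omega) hA2 hL2 hnot
    have f3 : (polReg N \ A').card ≤ (polReg N \ A).card := by
      refine Finset.card_le_card fun x hx => ?_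
      obtain ⟨hx1, hx2⟩ := Finset.mem_sdiff.1 hx
      exact Finset.mem_sdiff.2 ⟨hx1, fun hx3 =>
        hx2 (g1 (Finset.mem_inter.2 ⟨hx3, mem_base.2 (Or.inr hx1)⟩))⟩
    have f4 : (A' \ polReg N).card + 1 ≤ (A \ polReg N).card := by
      have hLm : L ∈ A \ polReg N := Finset.mem_sdiff.2 ⟨h' hLA, hLp⟩
      have : A' \ polReg N ⊆ (A \ polReg N).erase L := by
        intro x hx
        obtain ⟨hx1, hx2⟩ := Finset.mem_sdiff.1 hx
        refine Finset.mem_erase.2 ⟨?_, Finset.mem_sdiff.2 ⟨h' (hsub hx1), hx2⟩⟩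
        rintro rfl
        exact hnot hx1
      have h5 := Finset.card_le_card this
      rw [Finset.card_erase_of_mem hLm] at h5
      have h6 : 0 < (A \ polReg N).card := Finset.card_pos.2 ⟨L, hLm⟩
      omega
    have e6 : D₂ L A' + 1 ≤ D₁ L A' := by omega
    have e7 : (D₂ L A' : ℤ) + 1 ≤ D₁ L A' := by exact_mod_cast e6
    push_cast
    linarith

theorem stability {N : ℕ} (hN : 500 ≤ N) {A : Finset (Submodule ℝ (ℂ × ℝ))}
    (hA : ∀ H ∈ A, finrank ℝ H = 2) (hM : Mel A) (h1 : 5 * (polReg N \ A).card ≤ N)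
    (h2 : 5 * (A \ polReg N).card ≤ N) :
    A = polReg N ∨ (Even N ∧ A = insert infl (polReg N)) := by
  obtain ⟨b, hb⟩ : ∃ b : Bool, b = true ↔ (infl ∈ A ∧ Even N) :=
    ⟨decide (infl ∈ A ∧ Even N), by simp⟩
  have hb1 : b = true → Even N := fun h => (hb.1 h).2
  have hb2 : b = true → infl ∈ A := fun h => (hb.1 h).1
  have h1' : base N b \ A = polReg N \ A := by
    ext x
    simp only [Finset.mem_sdiff, mem_base]
    constructor
    · rintro ⟨⟨hx, rfl⟩ | hx, hx'⟩
      · exact absurd (hb2 hx) hx'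
      · exact ⟨hx, hx'⟩
    · rintro ⟨hx, hx'⟩
      exact ⟨Or.inr hx, hx'⟩
  have h3 := part_b hN hb1 hA hb2 (fun h h' => hb.2 ⟨h, h'⟩) h1 (by rw [h1']; exact h1) h2 _ A
    Finset.inter_subset_left (Finset.Subset.refl A) rfl
  rw [mel_iff.1 hM] at h3
  have h4 : (base N b \ A).card = 0 := by omega
  have h5 : (A \ base N b).card = 0 := by omega
  have h6 : A = base N b := Finset.Subset.antisymm
    (Finset.sdiff_eq_empty_iff_subset.1 (Finset.card_eq_zero.1 h5))
    (Finset.sdiff_eq_empty_iff_subset.1 (Finset.card_eq_zero.1 h4))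
  cases b with
  | false =>
    left
    rw [h6]
    simp [base]
  | true =>
    right
    refine ⟨hb1 rfl, ?_⟩
    rw [h6]
    simp [base]

end Pool.Agent.SimplV
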