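import Pool.Agent.SimplV.Defs

set_option autoImplicit false

/-! # Roots of unity on the circle, finite subgroups

`rts N` has `N` elements (`exp (2 π k / N)`, `0 ≤ k < N`, are different) and consists of the `w`
with `w ^ N = 1` (`N ≥ 1`; `w = exp τ`, `N τ` is a multiple of `2 π`). A finite subset `H` closed
under products containing `1` with `N` elements: for `w ∈ H` the map `h ↦ w h` permutes `H`, so
(product over `H`) `w ^ N = 1`; so `H ⊆ rts N`, equal by the cardinality. (Compare `Simpl/CircleGroup.lean`.) -/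

namespace Pool.Agent.SimplV

open Complex Module ComplexConjugate Pool.Agent.Simpl

private theorem exp_inj_range {N : ℕ} {k l : ℕ} (hk : k < N) (hl : l < N)
    (h : Circle.exp (2 * Real.pi * k / N) = Circle.exp (2 * Real.pi * l / N)) : k = l := by
  have hN : 0 < N := by omega
  have hN0 : (0 : ℝ) < N := by exact_mod_cast hN
  have hp := Real.pi_pos
  have hmem : ∀ j : ℕ, j < N → 2 * Real.pi * j / N ∈ Set.Ico (0 : ℝ) (2 * Real.pi) := by
    intro j hj
    have hj' : (j : ℝ) < N := by exact_mod_cast hj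
    refine ⟨by positivity, ?_⟩
    rw [div_lt_iff₀ hN0]
    have h2 : 0 < 2 * Real.pi := by positivity
    exact mul_lt_mul_of_pos_left hj' h2
  have h1 := Circle.exp_injOn_Ico (a := 0) (b := 2 * Real.pi) (by linarith) (hmem k hk)
    (hmem l hl) h
  have h2 : 2 * Real.pi ≠ 0 := by positivity
  have h3 : (k : ℝ) = l := by
    field_simp at h1
    exact h1
  exact_mod_cast h3

private theorem circle_root {N : ℕ} (hN : 0 < N) (w : Circle) :
    w ^ N = 1 ↔ ∃ k < N, Circle.exp (2 * Real.pi * k / N) = w := by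
  have hN0 : (N : ℝ) ≠ 0 := by exact_mod_cast hN.ne'
  constructor
  · intro h
    have : NeZero N := ⟨hN.ne'⟩
    have h1 : Circle.toUnits w ∈ rootsOfUnity N ℂ := by
      rw [_root_.mem_rootsOfUnity, ← map_pow, h, map_one]
    obtain ⟨i, hi, he⟩ := (Complex.mem_rootsOfUnity N _).1 h1
    refine ⟨i, hi, ?_⟩
    apply Circle.ext
    rw [Circle.coe_exp]
    rw [Circle.toUnits_apply, Units.val_mk0] at he
    rw [← he]
    congr 1
    push_cast
    ring
  · rintro ⟨k, -, rfl⟩
    rw [← Circle.exp_natCast_mul]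
    have h1 : (N : ℝ) * (2 * Real.pi * k / N) = k * (2 * Real.pi) := by
      field_simp
    rw [h1, Circle.exp_natCast_mul, Circle.exp_two_pi, one_pow]

theorem mem_rts {N : ℕ} (hN : 0 < N) (w : Circle) : w ∈ rts N ↔ w ^ N = 1 := by
  classical
  rw [circle_root hN]
  unfold rts
  rw [Finset.mem_image]
  simp only [Finset.mem_range]

theorem card_rts {N : ℕ} : (rts N).card = N := by
  classical
  unfold rts
  rw [Finset.card_image_of_injOn, Finset.card_range]
  intro k hk l hl h
  exact exp_inj_range (Finset.mem_range.1 hk) (Finset.mem_range.1 hl) h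

theorem eq_rts (H : Finset Circle) (h1 : 1 ∈ H) (hmul : ∀ a ∈ H, ∀ b ∈ H, a * b ∈ H) :
    H = rts H.card := by
  classical
  have hN : 0 < H.card := Finset.card_pos.2 ⟨1, h1⟩
  have hpow : ∀ w ∈ H, w ^ H.card = 1 := by
    intro w hw
    have h3 : H.image (fun x => w * x) = H := by
      refine Finset.eq_of_subset_of_card_le ?_ ?_
      · intro x hx
        obtain ⟨a, ha, rfl⟩ := Finset.mem_image.1 hx
        exact hmul w hw a ha
      · rw [Finset.card_image_of_injective _ (mul_right_injective w)]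
    have h4 : ∏ x ∈ H, (w * x) = ∏ x ∈ H, x := by
      conv_rhs => rw [← h3]
      rw [Finset.prod_image fun a _ b _ h => mul_right_injective w h]
    rw [Finset.prod_mul_distrib, Finset.prod_const] at h4
    exact mul_eq_right.1 h4
  refine Finset.eq_of_subset_of_card_le (fun w hw => (mem_rts hN w).2 (hpow w hw)) ?_
  rw [card_rts]

theorem mem_polReg {N : ℕ} (hN : 0 < N) (L : Submodule ℝ (ℂ × ℝ)) :
    L ∈ polReg N ↔ (∃ w : Circle, w ^ N = 1 ∧ L = tang 1 w) ∨
      ∃ s : Circle, s ^ N = 1 ∧ L = ax s := by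
  unfold polReg
  rw [Finset.mem_union, Finset.mem_image, Finset.mem_image]
  constructor
  · rintro (⟨k, hk, rfl⟩ | ⟨k, hk, rfl⟩)
    · exact Or.inl ⟨_, (circle_root hN _).2 ⟨k, Finset.mem_range.1 hk, rfl⟩, rfl⟩
    · exact Or.inr ⟨_, (circle_root hN _).2 ⟨k, Finset.mem_range.1 hk, rfl⟩, rfl⟩
  · rintro (⟨w, hw, rfl⟩ | ⟨w, hw, rfl⟩)
    · obtain ⟨k, hk, rfl⟩ := (circle_root hN w).1 hw
      exact Or.inl ⟨k, Finset.mem_range.2 hk, rfl⟩
    · obtain ⟨k, hk, rfl⟩ := (circle_root hN w).1 hw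
      exact Or.inr ⟨k, Finset.mem_range.2 hk, rfl⟩

/-- the number of planes of `polReg N` outside `A`, split into tangents and axes -/
theorem card_polReg_sdiff {N : ℕ} (hN : 0 < N) [DecidableEq (Submodule ℝ (ℂ × ℝ))]
    (A : Finset (Submodule ℝ (ℂ × ℝ))) [DecidablePred fun w : Circle => tang 1 w ∉ A]
    [DecidablePred fun w : Circle => ax w ∉ A] :
    (polReg N \ A).card =
      ((rts N).filter fun w => tang 1 w ∉ A).card + ((rts N).filter fun w => ax w ∉ A).card := by
  have h1 : polReg N \ A = ((rts N).filter fun w => tang 1 w ∉ A).image (tang 1) ∪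
      ((rts N).filter fun w => ax w ∉ A).image ax := by
    ext L
    rw [Finset.mem_sdiff, mem_polReg hN, Finset.mem_union, Finset.mem_image, Finset.mem_image]
    simp only [Finset.mem_filter, mem_rts hN]
    constructor
    · rintro ⟨⟨w, hw, rfl⟩ | ⟨w, hw, rfl⟩, h⟩
      · exact Or.inl ⟨w, ⟨hw, h⟩, rfl⟩
      · exact Or.inr ⟨w, ⟨hw, h⟩, rfl⟩
    · rintro (⟨w, ⟨hw, h⟩, rfl⟩ | ⟨w, ⟨hw, h⟩, rfl⟩)
      · exact ⟨Or.inl ⟨w, hw, rfl⟩, h⟩
      · exact ⟨Or.inr ⟨w, hw, rfl⟩, h⟩
  have h2 : Disjoint (((rts N).filter fun w => tang 1 w ∉ A).image (tang 1))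
      (((rts N).filter fun w => ax w ∉ A).image ax) := by
    rw [Finset.disjoint_left]
    intro L hL hL'
    obtain ⟨w, -, rfl⟩ := Finset.mem_image.1 hL
    obtain ⟨s, -, h3⟩ := Finset.mem_image.1 hL'
    exact tang_ne_ax one_pos h3.symm
  rw [h1, Finset.card_union_of_disjoint h2, Finset.card_image_of_injective _ fun a b h => ?_,
    Finset.card_image_of_injective _ fun a b h => ax_inj h]
  exact (tang_inj one_pos one_pos h).2

theorem card_polReg {N : ℕ} (hN : 0 < N) : (polReg N).card = 2 * N := by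
  classical
  have h := card_polReg_sdiff hN ∅
  have e1 : ((rts N).filter fun w => tang 1 w ∉ (∅ : Finset (Submodule ℝ (ℂ × ℝ)))) = rts N :=
    Finset.filter_true_of_mem fun w _ => Finset.notMem_empty _
  have e2 : ((rts N).filter fun w => ax w ∉ (∅ : Finset (Submodule ℝ (ℂ × ℝ)))) = rts N :=
    Finset.filter_true_of_mem fun w _ => Finset.notMem_empty _
  rw [e1, e2, card_rts, Finset.sdiff_empty] at h
  omega

end Pool.Agent.SimplV
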