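import Pool.Agent.SimplV.Defs

set_option autoImplicit false

/-! # Algebra of `cr`, `dt`, `uv`, `nv`, `af` (complete file) -/

namespace Pool.Agent.SimplV

open Complex Module ComplexConjugate Pool.Agent.Simpl

theorem uv_re (τ : ℝ) : (uv τ).re = Real.cos τ := rfl
theorem uv_im (τ : ℝ) : (uv τ).im = Real.sin τ := rfl
theorem nv_re (τ : ℝ) : (nv τ).re = -Real.sin τ := rfl
theorem nv_im (τ : ℝ) : (nv τ).im = Real.cos τ := rfl

theorem smul_re' (t : ℝ) (x : ℂ) : (t • x).re = t * x.re := by simp
theorem smul_im' (t : ℝ) (x : ℂ) : (t • x).im = t * x.im := by simp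

theorem uv_eq_exp (τ : ℝ) : uv τ = (Circle.exp τ : ℂ) := by
  rw [Circle.coe_exp]
  apply Complex.ext
  · rw [uv_re, Complex.exp_ofReal_mul_I_re]
  · rw [uv_im, Complex.exp_ofReal_mul_I_im]

theorem nv_eq (τ : ℝ) : nv τ = Complex.I * uv τ := by
  apply Complex.ext <;> simp [uv, nv]

theorem cr_self (x : ℂ) : cr x x = 0 := by unfold cr; ring
theorem cr_comm (x y : ℂ) : cr x y = -cr y x := by unfold cr; ring
theorem cr_add_left (x y z : ℂ) : cr (x + y) z = cr x z + cr y z := by
  unfold cr; simp only [Complex.add_re, Complex.add_im]; ring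
theorem cr_add_right (x y z : ℂ) : cr x (y + z) = cr x y + cr x z := by
  unfold cr; simp only [Complex.add_re, Complex.add_im]; ring
theorem cr_sub_left (x y z : ℂ) : cr (x - y) z = cr x z - cr y z := by
  unfold cr; simp only [Complex.sub_re, Complex.sub_im]; ring
theorem cr_sub_right (x y z : ℂ) : cr x (y - z) = cr x y - cr x z := by
  unfold cr; simp only [Complex.sub_re, Complex.sub_im]; ring
theorem cr_neg_left (x y : ℂ) : cr (-x) y = -cr x y := by
  unfold cr; simp only [Complex.neg_re, Complex.neg_im]; ring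
theorem cr_neg_right (x y : ℂ) : cr x (-y) = -cr x y := by
  unfold cr; simp only [Complex.neg_re, Complex.neg_im]; ring
theorem cr_smul_left (t : ℝ) (x y : ℂ) : cr (t • x) y = t * cr x y := by
  unfold cr; rw [smul_re', smul_im']; ring
theorem cr_smul_right (t : ℝ) (x y : ℂ) : cr x (t • y) = t * cr x y := by
  unfold cr; rw [smul_re', smul_im']; ring

theorem dt_comm (x y : ℂ) : dt x y = dt y x := by unfold dt; ring
theorem dt_add_left (x y z : ℂ) : dt (x + y) z = dt x z + dt y z := by
  unfold dt; simp only [Complex.add_re, Complex.add_im]; ring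
theorem dt_add_right (x y z : ℂ) : dt x (y + z) = dt x y + dt x z := by
  unfold dt; simp only [Complex.add_re, Complex.add_im]; ring
theorem dt_sub_left (x y z : ℂ) : dt (x - y) z = dt x z - dt y z := by
  unfold dt; simp only [Complex.sub_re, Complex.sub_im]; ring
theorem dt_sub_right (x y z : ℂ) : dt x (y - z) = dt x y - dt x z := by
  unfold dt; simp only [Complex.sub_re, Complex.sub_im]; ring
theorem dt_neg_left (x y : ℂ) : dt (-x) y = -dt x y := by
  unfold dt; simp only [Complex.neg_re, Complex.neg_im]; ring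
theorem dt_neg_right (x y : ℂ) : dt x (-y) = -dt x y := by
  unfold dt; simp only [Complex.neg_re, Complex.neg_im]; ring
theorem dt_smul_left (t : ℝ) (x y : ℂ) : dt (t • x) y = t * dt x y := by
  unfold dt; rw [smul_re', smul_im']; ring
theorem dt_smul_right (t : ℝ) (x y : ℂ) : dt x (t • y) = t * dt x y := by
  unfold dt; rw [smul_re', smul_im']; ring

theorem dt_eq_re (x y : ℂ) : dt x y = (x * conj y).re := by
  unfold dt; simp [Complex.mul_re]

theorem cr_eq_im (x y : ℂ) : cr x y = (conj x * y).im := by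
  unfold cr; simp [Complex.mul_im]; ring

theorem cr_nv_nv (a b : ℝ) : cr (nv a) (nv b) = Real.sin (b - a) := by
  unfold cr; rw [nv_re, nv_im, nv_re, nv_im, Real.sin_sub]; ring
theorem cr_uv_uv (a b : ℝ) : cr (uv a) (uv b) = Real.sin (b - a) := by
  unfold cr; rw [uv_re, uv_im, uv_re, uv_im, Real.sin_sub]; ring
theorem dt_uv_nv (a b : ℝ) : dt (uv a) (nv b) = Real.sin (a - b) := by
  unfold dt; rw [uv_re, uv_im, nv_re, nv_im, Real.sin_sub]; ring
theorem dt_nv_uv (a b : ℝ) : dt (nv a) (uv b) = Real.sin (b - a) := by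
  rw [dt_comm, dt_uv_nv]
theorem dt_uv_uv (a b : ℝ) : dt (uv a) (uv b) = Real.cos (b - a) := by
  unfold dt; rw [uv_re, uv_im, uv_re, uv_im, Real.cos_sub]; ring
theorem dt_nv_nv (a b : ℝ) : dt (nv a) (nv b) = Real.cos (b - a) := by
  unfold dt; rw [nv_re, nv_im, nv_re, nv_im, Real.cos_sub]; ring

theorem uv_add_pi (a : ℝ) : uv (a + Real.pi) = -uv a := by
  apply Complex.ext
  · rw [uv_re, Real.cos_add_pi, Complex.neg_re, uv_re]
  · rw [uv_im, Real.sin_add_pi, Complex.neg_im, uv_im]
theorem nv_add_pi (a : ℝ) : nv (a + Real.pi) = -nv a := by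
  apply Complex.ext
  · rw [nv_re, Real.sin_add_pi, Complex.neg_re, nv_re]
  · rw [nv_im, Real.cos_add_pi, Complex.neg_im, nv_im]
theorem uv_add_two_pi (a : ℝ) : uv (a + 2 * Real.pi) = uv a := by
  rw [two_mul, ← add_assoc, uv_add_pi, uv_add_pi, neg_neg]
theorem nv_add_two_pi (a : ℝ) : nv (a + 2 * Real.pi) = nv a := by
  rw [two_mul, ← add_assoc, nv_add_pi, nv_add_pi, neg_neg]

theorem uv_ne_zero (a : ℝ) : uv a ≠ 0 := by
  rw [uv_eq_exp]; exact Circle.coe_ne_zero _
theorem nv_ne_zero (a : ℝ) : nv a ≠ 0 := by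
  rw [nv_eq]; exact mul_ne_zero Complex.I_ne_zero (uv_ne_zero a)

/-- coordinates with respect to `uv τ`, `nv τ` -/
theorem decomp (τ : ℝ) (x : ℂ) : x = dt x (uv τ) • uv τ + dt x (nv τ) • nv τ := by
  have h := Real.sin_sq_add_cos_sq τ
  apply Complex.ext
  · rw [Complex.add_re, smul_re', smul_re', uv_re, nv_re]
    unfold dt
    rw [uv_re, uv_im, nv_re, nv_im]
    linear_combination -x.re * h
  · rw [Complex.add_im, smul_im', smul_im', uv_im, nv_im]
    unfold dt
    rw [uv_re, uv_im, nv_re, nv_im]
    linear_combination -x.im * h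

theorem dt_self_nonneg (x : ℂ) : 0 ≤ dt x x := by unfold dt; nlinarith [sq_nonneg x.re, sq_nonneg x.im]

theorem dt_self_eq (x : ℂ) : dt x x = ‖x‖ ^ 2 := by
  rw [← Complex.normSq_eq_norm_sq, Complex.normSq_apply]; rfl

/-- two independent directions determine a vector -/
theorem eq_zero_of_dt {x u v : ℂ} (h : cr u v ≠ 0) (h1 : dt x u = 0) (h2 : dt x v = 0) : x = 0 := by
  unfold dt at h1 h2
  unfold cr at h
  apply Complex.ext
  · rw [Complex.zero_re]
    apply mul_right_cancel₀ h
    linear_combination v.im * h1 - u.im * h2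
  · rw [Complex.zero_im]
    apply mul_right_cancel₀ h
    linear_combination u.re * h2 - v.re * h1

theorem eq_zero_of_cr {x u v : ℂ} (h : cr u v ≠ 0) (h1 : cr x u = 0) (h2 : cr x v = 0) : x = 0 := by
  unfold cr at h1 h2 h
  apply Complex.ext
  · rw [Complex.zero_re]
    apply mul_right_cancel₀ h
    linear_combination u.re * h2 - v.re * h1
  · rw [Complex.zero_im]
    apply mul_right_cancel₀ h
    linear_combination u.im * h2 - v.im * h1

/-- parallel vectors -/
theorem exists_smul_of_cr {u x : ℂ} (hu : u ≠ 0) (h : cr u x = 0) : ∃ t : ℝ, x = t • u := by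
  have h0 : dt u u ≠ 0 := by
    intro h1
    apply hu
    rw [dt_self_eq] at h1
    exact norm_eq_zero.1 (pow_eq_zero_iff (two_ne_zero)|>.1 h1)
  refine ⟨dt x u / dt u u, ?_⟩
  unfold cr at h
  have e1 : dt u u = u.re * u.re + u.im * u.im := rfl
  have e2 : dt x u = x.re * u.re + x.im * u.im := rfl
  apply Complex.ext
  · rw [smul_re', div_mul_eq_mul_div, eq_div_iff h0, e1, e2]
    linear_combination -u.im * h
  · rw [smul_im', div_mul_eq_mul_div, eq_div_iff h0, e1, e2]
    linear_combination u.re * h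

/-- the plane `ax (exp (2 τ))` -/
theorem mem_ax_exp {τ : ℝ} {x : ℂ × ℝ} : x ∈ ax (Circle.exp (2 * τ)) ↔ cr (uv τ) x.1 = 0 := by
  rw [mem_ax, Circle.coe_exp]
  have e1 : Complex.exp ((2 * τ : ℝ) * Complex.I) = uv τ * uv τ := by
    rw [uv_eq_exp, Circle.coe_exp, ← Complex.exp_add]
    congr 1
    push_cast
    ring
  rw [e1]
  have h := Real.sin_sq_add_cos_sq τ
  constructor
  · intro h1
    have h2 := congrArg (fun z : ℂ => (conj (uv τ) * z).im) h1
    have h3 : conj (uv τ) * (uv τ * uv τ * conj x.1) = uv τ * conj x.1 := by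
      have h4 : conj (uv τ) * uv τ = 1 := by
        apply Complex.ext
        · simp only [Complex.mul_re, Complex.conj_re, Complex.conj_im, Complex.one_re]
          rw [uv_re, uv_im]; linear_combination h
        · simp only [Complex.mul_im, Complex.conj_re, Complex.conj_im, Complex.one_im]
          rw [uv_re, uv_im]; ring
      linear_combination (uv τ * conj x.1) * h4
    replace h2 : (conj (uv τ) * x.1).im = (conj (uv τ) * (uv τ * uv τ * conj x.1)).im := h2
    rw [h3] at h2
    have h5 : (uv τ * conj x.1).im = -(conj (uv τ) * x.1).im := by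
      simp only [Complex.mul_im, Complex.conj_re, Complex.conj_im]; ring
    rw [cr_eq_im]
    linarith
  · intro h1
    obtain ⟨t, ht⟩ := exists_smul_of_cr (uv_ne_zero τ) h1
    rw [ht]
    have h4 : uv τ * conj (uv τ) = 1 := by
      apply Complex.ext
      · simp only [Complex.mul_re, Complex.conj_re, Complex.conj_im, Complex.one_re]
        rw [uv_re, uv_im]; linear_combination h
      · simp only [Complex.mul_im, Complex.conj_re, Complex.conj_im, Complex.one_im]
        rw [uv_re, uv_im]; ring
    rw [Complex.real_smul, map_mul, Complex.conj_ofReal]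
    linear_combination -(t * uv τ : ℂ) * h4

/-- the linear part of `af` -/
theorem af_sub (α β γ z z' : ℂ) : af α β γ z - af α β γ z' = af α β 0 (z - z') := by
  unfold af; rw [map_sub]; ring

theorem af_zero_smul (α β : ℂ) (t : ℝ) (z : ℂ) : af α β 0 (t • z) = t • af α β 0 z := by
  unfold af; rw [Complex.real_smul, Complex.real_smul, map_mul, Complex.conj_ofReal]; ring

theorem af_zero_add (α β : ℂ) (z z' : ℂ) : af α β 0 (z + z') = af α β 0 z + af α β 0 z' := by
  unfold af; rw [map_add]; ring

theorem cr_af (α β : ℂ) (x y : ℂ) :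
    cr (af α β 0 x) (af α β 0 y) = (Complex.normSq α - Complex.normSq β) * cr x y := by
  unfold cr af
  simp only [Complex.normSq_apply, Complex.add_re, Complex.add_im, Complex.mul_re, Complex.mul_im,
    Complex.conj_re, Complex.conj_im, Complex.zero_re, Complex.zero_im]
  ring

/-- the transpose of the linear part -/
theorem dt_af (α β u z : ℂ) : dt u (af α β 0 z) = dt (conj α * u + β * conj u) z := by
  unfold dt af
  simp only [Complex.add_re, Complex.add_im, Complex.mul_re, Complex.mul_im,
    Complex.conj_re, Complex.conj_im, Complex.zero_re, Complex.zero_im]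
  ring

end Pool.Agent.SimplV
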