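import Pool.Agent.SimplV.Alg

set_option autoImplicit false

/-! # The directions of the chords (HM_Proof.md, 2.1)

(a) `nv a`, `nv b` with `a ≤ b < a + π`, `r > 0`, `s ≥ 0`: `r • nv a + s • nv b = ρ • nv c` with `ρ > 0`,
`a ≤ c ≤ b`, and `a < c` if `s > 0` and `a < b`, `c < b` if `a < b`.
(b) For `i + 2 ≤ j ≤ i + m` there is a unique `φ` with `θ (i+1) ≤ φ ≤ θ j` and
`q j - q i = ρ • nv φ`, `ρ > 0`: existence by induction on `j` starting with `j = i + 2`
(`q (i+2) - q i = c (i+1) • nv (θ (i+1)) + c (i+2) • nv (θ (i+2))`, not both zero by `two`), using (a) and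
`θ j < θ (i+1) + π` (`θ j ≤ θ (i+m) < θ (i+1+m) = θ (i+1) + π`). Unique because
`nv φ`, `nv φ'` are different for `0 < φ' - φ < π` and so are their positive multiples
(`cr (nv φ) (nv φ') = sin (φ' - φ) > 0`). (Alternatively define `φ i j` by `Classical.choose` and
compare two values through `cr`.)
(c) `φ i j < φ (i+2) j` for `i + 4 ≤ j ≤ i + m`: `q j - q i = (q (i+2) - q i) + (q j - q (i+2))`
with directions `φ i (i+2) ≤ θ (i+2) < θ (i+3) ≤ φ (i+2) j`, apply (a) (strict). In the same way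
`φ i j < φ i (j+2)` for `i + 2 ≤ j`, `j + 2 ≤ i + m`.
(d) Periodicity: `q (j + 2 m) - q (i + 2 m) = q j - q i`, `nv (φ + 2 π) = nv φ`, uniqueness. -/

namespace Pool.Agent.SimplV

open Complex Module ComplexConjugate Pool.Agent.Simpl

theorem add_nv {a b r s : ℝ} (hab : a ≤ b) (hb : b < a + Real.pi) (hr : 0 < r) (hs : 0 ≤ s) :
    ∃ ρ c : ℝ, 0 < ρ ∧ a ≤ c ∧ c ≤ b ∧ (a < b → c < b) ∧ (a < b → 0 < s → a < c) ∧
      r • nv a + s • nv b = ρ • nv c := by
  rcases hab.eq_or_lt with rfl | hab'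
  · exact ⟨r + s, a, by linarith, le_rfl, le_rfl, fun h => h, fun h => absurd h (lt_irrefl a),
      (add_smul _ _ _).symm⟩
  rcases hs.eq_or_lt with rfl | hs'
  · exact ⟨r, a, hr, le_rfl, hab, fun h => h, fun _ h => absurd h (lt_irrefl _),
      by rw [zero_smul, add_zero]⟩
  obtain ⟨z, hz⟩ : ∃ z : ℂ, z = ⟨r + s * Real.cos (b - a), s * Real.sin (b - a)⟩ := ⟨_, rfl⟩
  have hzre : z.re = r + s * Real.cos (b - a) := by rw [hz]
  have hzim : z.im = s * Real.sin (b - a) := by rw [hz]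
  have hsin : 0 < Real.sin (b - a) := Real.sin_pos_of_pos_of_lt_pi (by linarith) (by linarith)
  have him : 0 < z.im := by rw [hzim]; positivity
  have hz0 : z ≠ 0 := by
    intro h
    rw [h, Complex.zero_im] at him
    exact lt_irrefl _ him
  have hn : 0 < ‖z‖ := norm_pos_iff.2 hz0
  obtain ⟨c, hc⟩ : ∃ c, c = a + z.arg := ⟨_, rfl⟩
  have h1 : ‖z‖ * Real.cos z.arg = z.re := Complex.norm_mul_cos_arg z
  have h2 : ‖z‖ * Real.sin z.arg = z.im := Complex.norm_mul_sin_arg z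
  have hsa : 0 < Real.sin z.arg := by
    by_contra h
    push Not at h
    have : ‖z‖ * Real.sin z.arg ≤ 0 := mul_nonpos_of_nonneg_of_nonpos hn.le h
    linarith
  have ha1 : 0 < z.arg := by
    by_contra h
    push Not at h
    exact absurd (Real.sin_nonpos_of_nonpos_of_neg_pi_le h (Complex.neg_pi_lt_arg z).le)
      (not_le.2 hsa)
  have ha2 : z.arg ≤ Real.pi := Complex.arg_le_pi z
  have hvec : r • nv a + s • nv b = ‖z‖ • nv c := by
    have hba : b = a + (b - a) := by ring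
    apply Complex.ext
    · rw [Complex.add_re, smul_re', smul_re', smul_re', nv_re, nv_re, nv_re, hc, Real.sin_add]
      have e1 : Real.sin b = Real.sin a * Real.cos (b - a) + Real.cos a * Real.sin (b - a) := by
        rw [← Real.sin_add, ← hba]
      rw [e1]
      linear_combination (Real.sin a) * h1 + (Real.cos a) * h2 + (Real.sin a) * hzre +
        (Real.cos a) * hzim
    · rw [Complex.add_im, smul_im', smul_im', smul_im', nv_im, nv_im, nv_im, hc, Real.cos_add]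
      have e1 : Real.cos b = Real.cos a * Real.cos (b - a) - Real.sin a * Real.sin (b - a) := by
        rw [← Real.cos_add, ← hba]
      rw [e1]
      linear_combination -(Real.cos a) * h1 + (Real.sin a) * h2 - (Real.cos a) * hzre +
        (Real.sin a) * hzim
  have hcb : c < b := by
    have e1 : cr (‖z‖ • nv c) (nv b) = r * Real.sin (b - a) := by
      rw [← hvec, cr_add_left, cr_smul_left, cr_smul_left, cr_nv_nv, cr_self, mul_zero, add_zero]
    rw [cr_smul_left, cr_nv_nv] at e1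
    have e2 : 0 < ‖z‖ * Real.sin (b - c) := by rw [e1]; positivity
    have e3 : 0 < Real.sin (b - c) := by
      by_contra h
      push Not at h
      exact absurd (mul_nonpos_of_nonneg_of_nonpos hn.le h) (not_le.2 e2)
    by_contra h
    push Not at h
    exact absurd (Real.sin_nonpos_of_nonpos_of_neg_pi_le (x := b - c) (by linarith)
      (by rw [hc]; linarith)) (not_le.2 e3)
  exact ⟨‖z‖, c, hn, by rw [hc]; linarith, hcb.le, fun _ => hcb,
    fun _ _ => by rw [hc]; linarith, hvec⟩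

private theorem nv_unique {x : ℂ} {φ φ' ρ ρ' : ℝ} (hρ : 0 < ρ) (hρ' : 0 < ρ')
    (h : x = ρ • nv φ) (h' : x = ρ' • nv φ') (h1 : φ < φ' + Real.pi) (h2 : φ' < φ + Real.pi) :
    φ = φ' := by
  have e1 : cr x x = ρ * (ρ' * Real.sin (φ' - φ)) := by
    conv_lhs => rw [h]
    rw [cr_smul_left, ← h, h', cr_smul_right, cr_nv_nv]
  rw [cr_self] at e1
  have e2 : Real.sin (φ' - φ) = 0 := by
    rcases mul_eq_zero.1 e1.symm with h3 | h3
    · exact absurd h3 hρ.ne'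
    · rcases mul_eq_zero.1 h3 with h4 | h4
      · exact absurd h4 hρ'.ne'
      · exact h4
  have e3 := (Real.sin_eq_zero_iff_of_lt_of_lt (x := φ' - φ) (by linarith) (by linarith)).1 e2
  linarith

private theorem th_lt {m : ℕ} {θ : ℤ → ℝ} {q : ℤ → ℂ} {c : ℤ → ℝ} (h : Poly m θ q c) {i j : ℤ}
    (hj : j ≤ i + m) : θ j < θ (i + 1) + Real.pi := by
  rw [← h.per (i + 1)]
  exact h.mono (by omega)

private theorem ex_phi {m : ℕ} {θ : ℤ → ℝ} {q : ℤ → ℂ} {c : ℤ → ℝ} (h : Poly m θ q c) (i : ℤ)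
    (n : ℕ) (hn : n + 2 ≤ m) : ∃ φ : ℝ, θ (i + 1) ≤ φ ∧ φ ≤ θ (i + 2 + n) ∧
      ∃ ρ : ℝ, 0 < ρ ∧ q (i + 2 + n) - q i = ρ • nv φ := by
  induction n with
  | zero =>
    have e1 : q (i + 2) - q i = c (i + 1) • nv (θ (i + 1)) + c (i + 2) • nv (θ (i + 2)) := by
      have s1 := h.step i
      have s2 := h.step (i + 1)
      have s3 : i + 1 + 1 = i + 2 := by ring
      rw [s3] at s2
      rw [s2, s1]
      ring
    rw [Nat.cast_zero, add_zero, e1]
    have hlt : θ (i + 1) < θ (i + 2) := h.mono (by omega)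
    rcases (h.nonneg (i + 1)).eq_or_lt with h0 | h0
    · have h3 : c (i + 1 + 1) ≠ 0 := by
        rcases h.two (i + 1) with h3 | h3
        · exact absurd h0.symm h3
        · exact h3
      have s3 : i + 1 + 1 = i + 2 := by ring
      rw [s3] at h3
      exact ⟨θ (i + 2), hlt.le, le_rfl, c (i + 2), lt_of_le_of_ne (h.nonneg _) h3.symm,
        by rw [← h0, zero_smul, zero_add]⟩
    · obtain ⟨ρ, φ, k1, k2, k3, -, -, k4⟩ := add_nv hlt.le
        (th_lt h (i := i) (j := i + 2) (by omega)) h0 (h.nonneg (i + 2))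
      exact ⟨φ, k2, k3, ρ, k1, k4⟩
  | succ n ih =>
    obtain ⟨φ, k1, k2, ρ, k3, k4⟩ := ih (by omega)
    obtain ⟨j, hj⟩ : ∃ j : ℤ, j = i + 2 + n := ⟨_, rfl⟩
    have hj' : i + 2 + ((n + 1 : ℕ) : ℤ) = j + 1 := by rw [hj]; push_cast; ring
    rw [← hj] at k2 k4
    rw [hj']
    have hlt : θ j < θ (j + 1) := h.mono (by omega)
    have hlt2 : θ (j + 1) < θ (i + 1) + Real.pi := th_lt h (by omega)
    obtain ⟨ρ', φ', l1, l2, l3, -, -, l4⟩ := add_nv (a := φ) (b := θ (j + 1)) (by linarith)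
      (by linarith) k3 (h.nonneg (j + 1))
    refine ⟨φ', by linarith, l3, ρ', l1, ?_⟩
    rw [← l4, ← k4, h.step j]
    ring

theorem exists_phi {m : ℕ} {θ : ℤ → ℝ} {q : ℤ → ℂ} {c : ℤ → ℝ} (h : Poly m θ q c) :
    ∃ φ : ℤ → ℤ → ℝ,
      (∀ i j : ℤ, i + 2 ≤ j → j ≤ i + m →
        θ (i + 1) ≤ φ i j ∧ φ i j ≤ θ j ∧ ∃ ρ : ℝ, 0 < ρ ∧ q j - q i = ρ • nv (φ i j)) ∧
      (∀ i j : ℤ, i + 4 ≤ j → j ≤ i + m → φ i j < φ (i + 2) j) ∧
      (∀ i j : ℤ, i + 2 ≤ j → j + 2 ≤ i + m → φ i j < φ i (j + 2)) ∧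
      (∀ i j : ℤ, i + 2 ≤ j → j ≤ i + m →
        φ (i + 2 * m) (j + 2 * m) = φ i j + 2 * Real.pi) := by
  have hex : ∀ i j : ℤ, ∃ φ : ℝ, i + 2 ≤ j → j ≤ i + m →
      θ (i + 1) ≤ φ ∧ φ ≤ θ j ∧ ∃ ρ : ℝ, 0 < ρ ∧ q j - q i = ρ • nv φ := by
    intro i j
    by_cases hij : i + 2 ≤ j ∧ j ≤ i + m
    · obtain ⟨n, hn⟩ := Int.eq_ofNat_of_zero_le (show 0 ≤ j - (i + 2) by omega)
      have hj : j = i + 2 + n := by omega
      obtain ⟨φ, hφ⟩ := ex_phi h i n (by omega)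
      rw [← hj] at hφ
      exact ⟨φ, fun _ _ => hφ⟩
    · exact ⟨0, fun h1 h2 => absurd ⟨h1, h2⟩ hij⟩
  choose φ hφ using hex
  have huniq : ∀ i j : ℤ, i + 2 ≤ j → j ≤ i + m → ∀ ψ ρ : ℝ, 0 < ρ → θ (i + 1) ≤ ψ → ψ ≤ θ j →
      q j - q i = ρ • nv ψ → φ i j = ψ := by
    intro i j h1 h2 ψ ρ hρ h3 h4 h5
    obtain ⟨k1, k2, ρ', k3, k4⟩ := hφ i j h1 h2
    have hlt := th_lt h h2
    exact nv_unique k3 hρ k4 h5 (by linarith) (by linarith)
  refine ⟨φ, hφ, ?_, ?_, ?_⟩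
  · intro i j h1 h2
    obtain ⟨k1, k2, ρ₁, k3, k4⟩ := hφ i (i + 2) le_rfl (by omega)
    obtain ⟨l1, l2, ρ₂, l3, l4⟩ := hφ (i + 2) j (by omega) (by omega)
    have hlt1 : θ (i + 2) < θ (i + 2 + 1) := h.mono (by omega)
    have hlt2 := th_lt h h2
    obtain ⟨ρ, c', m1, m2, m3, m4, m5, m6⟩ := add_nv (a := φ i (i + 2)) (b := φ (i + 2) j)
      (by linarith) (by linarith) k3 l3.le
    rw [huniq i j (by omega) h2 c' ρ m1 (by linarith) (by linarith)
      (by rw [← m6, ← k4, ← l4]; ring)]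
    exact m4 (by linarith)
  · intro i j h1 h2
    obtain ⟨k1, k2, ρ₁, k3, k4⟩ := hφ i j h1 (by omega)
    obtain ⟨l1, l2, ρ₂, l3, l4⟩ := hφ j (j + 2) le_rfl (by omega)
    have hlt1 : θ j < θ (j + 1) := h.mono (by omega)
    have hlt2 := th_lt h h2
    obtain ⟨ρ, c', m1, m2, m3, m4, m5, m6⟩ := add_nv (a := φ i j) (b := φ j (j + 2))
      (by linarith) (by linarith) k3 l3.le
    rw [huniq i (j + 2) (by omega) h2 c' ρ m1 (by linarith) (by linarith)
      (by rw [← m6, ← k4, ← l4]; ring)]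
    exact m5 (by linarith) l3
  · intro i j h1 h2
    obtain ⟨k1, k2, ρ, k3, k4⟩ := hφ i j h1 h2
    have hper : ∀ k : ℤ, θ (k + 2 * m) = θ k + 2 * Real.pi := by
      intro k
      have e1 : k + 2 * (m : ℤ) = k + m + m := by ring
      rw [e1, h.per, h.per]
      ring
    have e2 : i + 2 * (m : ℤ) + 1 = i + 1 + 2 * m := by ring
    refine huniq (i + 2 * m) (j + 2 * m) (by omega) (by omega) _ ρ k3 ?_ ?_ ?_
    · rw [e2, hper]
      linarith
    · rw [hper]
      linarith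
    · rw [h.qper, h.qper, k4, nv_add_two_pi]

end Pool.Agent.SimplV
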