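import Pool.Agent.SimplV.Angle

set_option autoImplicit false

/-! # Convex position (HM_Proof.md, 2.2, 2.3)

* `cr_pos_left`: directions `φ i (i+2) ∈ [θ (i+1), θ (i+2)]`, `φ (i+2) j ∈ [θ (i+3), θ j]`, the difference
is in `(0, π)` because `θ (i+2) < θ (i+3)` and `θ j ≤ θ (i+m) < θ (i+1) + π`; `cr_nv_nv`.
* `cr_pos_right`: the same with `φ i j`, `φ j (j+2)`.
* `q_eq`: `q i = q j`, `i < j < i + 2 m`: if `i + 2 ≤ j ≤ i + m` the chord is not zero by `exists_phi`;
if `i + m ≤ j`, `j + 2 ≤ i + 2 m` consider the chord from `j` to `i + 2 m`.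
So `j = i + 1` or `j = i + 2 m - 1`.
* `card_fiber`: three positions `i < j < l < i + 2 m` with the same value: `j = i + 1` (as
`j < l ≤ i + 2 m - 1`), `l = j + 1 = i + 2` or `l = i + 2 m - 1`. If `l = i + 2` then (`2 m ≥ 4`) by `q_eq` for
`i, l` we get `i + 2 = i + 1` or `i + 2 = i + 2 m - 1`, false. If `l = i + 2 m - 1` then (`q_eq` for `j`, `l`)
`l = j + 1` or `l = j + 2 m - 1 = i + 2 m`, false for `2 ≤ m`. -/

namespace Pool.Agent.SimplV

open Complex Module ComplexConjugate Pool.Agent.Simpl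

variable {m : ℕ} {θ : ℤ → ℝ} {q : ℤ → ℂ} {c : ℤ → ℝ}

private theorem cr_pos_aux {r s a b : ℝ} (hr : 0 < r) (hs : 0 < s) (h1 : a < b)
    (h2 : b < a + Real.pi) : 0 < cr (r • nv a) (s • nv b) := by
  rw [cr_smul_left, cr_smul_right, cr_nv_nv]
  have : 0 < Real.sin (b - a) := Real.sin_pos_of_pos_of_lt_pi (by linarith) (by linarith)
  positivity

private theorem theta_bd (h : Poly m θ q c) {i j : ℤ} (h2 : j ≤ i + m) :
    θ j < θ (i + 1) + Real.pi := by
  have e1 : θ j < θ (i + 1 + m) := h.mono (by omega)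
  rw [h.per] at e1
  exact e1

theorem Poly.cr_pos_left (h : Poly m θ q c) {i j : ℤ} (h1 : i + 4 ≤ j) (h2 : j ≤ i + m) :
    0 < cr (q (i + 2) - q i) (q j - q (i + 2)) := by
  obtain ⟨φ, hφ, -, -, -⟩ := exists_phi h
  obtain ⟨a1, a2, ρ, hρ, a3⟩ := hφ i (i + 2) le_rfl (by omega)
  obtain ⟨b1, b2, ρ', hρ', b3⟩ := hφ (i + 2) j (by omega) (by omega)
  rw [a3, b3]
  have e1 : θ (i + 2) < θ (i + 2 + 1) := h.mono (by omega)
  have e2 := theta_bd h h2
  exact cr_pos_aux hρ hρ' (by linarith) (by linarith)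

theorem Poly.cr_pos_right (h : Poly m θ q c) {i j : ℤ} (h1 : i + 2 ≤ j) (h2 : j + 2 ≤ i + m) :
    0 < cr (q j - q i) (q (j + 2) - q j) := by
  obtain ⟨φ, hφ, -, -, -⟩ := exists_phi h
  obtain ⟨a1, a2, ρ, hρ, a3⟩ := hφ i j h1 (by omega)
  obtain ⟨b1, b2, ρ', hρ', b3⟩ := hφ j (j + 2) le_rfl (by omega)
  rw [a3, b3]
  have e1 : θ j < θ (j + 1) := h.mono (by omega)
  have e2 := theta_bd h h2
  exact cr_pos_aux hρ hρ' (by linarith) (by linarith)

theorem Poly.q_eq (h : Poly m θ q c) (hm : 2 ≤ m) {i j : ℤ} (h1 : i < j) (h2 : j < i + 2 * m)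
    (hq : q i = q j) : j = i + 1 ∨ j = i + 2 * m - 1 := by
  have _ := hm
  by_contra hcon
  rw [not_or] at hcon
  obtain ⟨c1, c2⟩ := hcon
  obtain ⟨φ, hφ, -, -, -⟩ := exists_phi h
  by_cases h3 : j ≤ i + m
  · obtain ⟨-, -, ρ, hρ, a3⟩ := hφ i j (by omega) h3
    rw [hq, sub_self] at a3
    rcases smul_eq_zero.1 a3.symm with h4 | h4
    · exact hρ.ne' h4
    · exact nv_ne_zero _ h4
  · obtain ⟨-, -, ρ, hρ, a3⟩ := hφ j (i + 2 * m) (by omega) (by omega)
    rw [h.qper, hq, sub_self] at a3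
    rcases smul_eq_zero.1 a3.symm with h4 | h4
    · exact hρ.ne' h4
    · exact nv_ne_zero _ h4

private theorem three (h : Poly m θ q c) (hm : 3 ≤ m) {i j l : ℤ} (h1 : i < j) (h2 : j < l)
    (h3 : l < i + 2 * m) (hq : q i = q j) (hq' : q j = q l) : False := by
  have e1 := h.q_eq (by omega) h1 (by omega) hq
  have e2 := h.q_eq (by omega) h2 (by omega) hq'
  have e3 := h.q_eq (by omega) (h1.trans h2) h3 (hq.trans hq')
  omega

theorem Poly.card_fiber (h : Poly m θ q c) (hm : 3 ≤ m) (i₀ : ℤ) (z : ℂ) :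
    ((Finset.Ico i₀ (i₀ + 2 * m)).filter fun i => q i = z).card ≤ 2 := by
  by_contra hcon
  rw [not_le, Finset.two_lt_card] at hcon
  obtain ⟨a, ha, b, hb, d, hd, hab, had, hbd⟩ := hcon
  obtain ⟨ha1, ha2⟩ := Finset.mem_filter.1 ha
  obtain ⟨hb1, hb2⟩ := Finset.mem_filter.1 hb
  obtain ⟨hd1, hd2⟩ := Finset.mem_filter.1 hd
  rw [Finset.mem_Ico] at ha1 hb1 hd1
  rcases lt_or_gt_of_ne hab with h1 | h1 <;> rcases lt_or_gt_of_ne had with h2 | h2 <;>
    rcases lt_or_gt_of_ne hbd with h3 | h3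
  · exact three h hm h1 h3 (by omega) (ha2.trans hb2.symm) (hb2.trans hd2.symm)
  · exact three h hm h2 h3 (by omega) (ha2.trans hd2.symm) (hd2.trans hb2.symm)
  · omega
  · exact three h hm h2 h1 (by omega) (hd2.trans ha2.symm) (ha2.trans hb2.symm)
  · exact three h hm h1 h2 (by omega) (hb2.trans ha2.symm) (ha2.trans hd2.symm)
  · omega
  · exact three h hm h3 h2 (by omega) (hb2.trans hd2.symm) (hd2.trans ha2.symm)
  · exact three h hm h3 h1 (by omega) (hd2.trans hb2.symm) (hb2.trans ha2.symm)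

/-- periodic counting: a window of length `2 m` may be moved -/
theorem card_shift {m : ℕ} (p : ℤ → Prop) [DecidablePred p] (hp : ∀ i, p (i + 2 * m) ↔ p i)
    (i₀ i₁ : ℤ) :
    ((Finset.Ico i₀ (i₀ + 2 * m)).filter p).card =
      ((Finset.Ico i₁ (i₁ + 2 * m)).filter p).card := by
  have step : ∀ i : ℤ, ((Finset.Ico (i + 1) (i + 1 + 2 * m)).filter p).card =
      ((Finset.Ico i (i + 2 * m)).filter p).card := by
    intro i
    rcases Nat.eq_zero_or_pos m with h0 | h0
    · subst h0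
      simp
    have e1 : Finset.Ico i (i + 2 * m) = insert i (Finset.Ico (i + 1) (i + 2 * m)) := by
      ext x
      simp only [Finset.mem_Ico, Finset.mem_insert]
      omega
    have e2 : Finset.Ico (i + 1) (i + 1 + 2 * m) =
        insert (i + 2 * m) (Finset.Ico (i + 1) (i + 2 * m)) := by
      ext x
      simp only [Finset.mem_Ico, Finset.mem_insert]
      omega
    rw [e1, e2, Finset.filter_insert, Finset.filter_insert]
    by_cases h : p i
    · rw [if_pos h, if_pos ((hp i).2 h), Finset.card_insert_of_notMem,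
        Finset.card_insert_of_notMem]
      · simp
      · simp
    · rw [if_neg h, if_neg (fun h' => h ((hp i).1 h'))]
  have all : ∀ k : ℤ, ((Finset.Ico (i₀ + k) (i₀ + k + 2 * m)).filter p).card =
      ((Finset.Ico i₀ (i₀ + 2 * m)).filter p).card := by
    intro k
    induction k using Int.induction_on with
    | zero => rw [add_zero]
    | succ k ih =>
      rw [← ih, ← step (i₀ + k), add_assoc i₀ (k : ℤ) 1]
    | pred k ih =>
      rw [← ih, ← step (i₀ + (-(k : ℤ) - 1))]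
      have e : i₀ + (-(k : ℤ) - 1) + 1 = i₀ + -(k : ℤ) := by ring
      rw [e]
  have := all (i₁ - i₀)
  rw [add_sub_cancel] at this
  exact this.symm

end Pool.Agent.SimplV
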