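import Pool.Agent.SimplV.DualB

set_option autoImplicit false

/-! # Most pairs of lines meet on a line through the centre (HM_Proof.md, 1.1)

Vertices of `A` (`verts A`, all one-dimensional): `org` (a vertex as `2 ≤ S.card`, multiplicity
`m = S.card`, `Dual.mult_org`); the other vertices lie on at most one plane `ax s` (two planes `ax s`,
`ax s'` meet in `org` only). Let `n = P.card`. For a vertex `v ≠ org` let `k v` be the number of
`p ∈ P` with `v ≤ pl p`. `Off` = the vertices `≠ org` on no `ax s`, `s ∈ S`: `mult A v = k v ≥ 2`.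
`On` = the vertices `≠ org` on one `ax s`: `mult A v = k v + 1`, `k v ≥ 1`.

(a) Every ordered pair `(p, p')` of different elements of `P` has exactly one vertex
`v = pl p ⊓ pl p'` on both planes (`v ≠ org`): `n (n - 1) = ∑_{v ∈ Off} k (k-1) + ∑_{v ∈ On} k (k-1)`, and
the pair is in `nonA P S` iff the vertex is in `Off` (`inf_pl_le_ax`, `InS`): the number of elements of
`nonA P S` is `∑_{v ∈ Off} k (k-1)`.
(b) Every pair `(s, p)` has exactly one vertex `ax s ⊓ pl p`, it is in `On`: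
`m n = ∑_{v ∈ On} k v`.
(c) `Mel A`: `3 = (3 - m) + ∑_{Off} (3 - k) + ∑_{On} (2 - k)`.

So `(n - m)(n - 1) = n (n-1) - m n + m = ∑_{Off} (k (k-1) + 3 - k) + ∑_{On} (k (k-1) - k + 2 - k)
= ∑_{Off} (k² - 2k + 3) + ∑_{On} (k-1)(k-2)`. For all integers `9 k (k-1) ≤ 10 (k² - 2k + 3)` because
`(k-5)(k-6) ≥ 0`; and `(k-1)(k-2) ≥ 0`.

(`Finset.card_eq_sum_card_fiberwise`, `Finset.sum_filter`, ... are useful; work in `ℤ`.) -/

namespace Pool.Agent.SimplV

open Complex Module ComplexConjugate Pool.Agent.Simpl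

/-- two different planes through a common line -/
private theorem ct_eq {v H H' : Submodule ℝ (ℂ × ℝ)} (hv : finrank ℝ v = 1)
    (h : finrank ℝ H = 2) (h' : finrank ℝ H' = 2) (hne : H ≠ H') : H ⊓ H' = v ↔ v ≤ H ∧ v ≤ H' := by
  constructor
  · rintro rfl
    exact ⟨inf_le_left, inf_le_right⟩
  · rintro ⟨h1, h2⟩
    refine (Submodule.eq_of_le_of_finrank_eq (le_inf h1 h2) ?_).symm
    rw [hv, finrank_inf finrank_CR h h' hne]

private theorem ct_int (k : ℤ) : 9 * (k * (k - 1)) ≤ 10 * (k ^ 2 - 2 * k + 3) := by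
  have h : 0 ≤ (k - 5) * (k - 6) := by
    rcases le_or_gt k 5 with h | h
    · nlinarith
    · exact mul_nonneg (by omega) (by omega)
  nlinarith

private theorem ct_int' (k : ℤ) : 0 ≤ (k - 1) * (k - 2) := by
  rcases le_or_gt k 1 with h | h
  · nlinarith
  · exact mul_nonneg (by omega) (by omega)

theorem nonA_le {A : Finset (Submodule ℝ (ℂ × ℝ))} {P : Finset ℂ} {S : Finset Circle}
    (hM : Mel A) (h : Dual A P S) (hS : 2 ≤ S.card) :
    9 * ((nonA P S).card : ℤ) ≤ 10 * (((P.card : ℤ) - S.card) * ((P.card : ℤ) - 1)) := by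
  classical
  have hA : A = P.image pl ∪ S.image ax := by
    ext H
    rw [Finset.mem_union, Finset.mem_image, Finset.mem_image]
    constructor
    · intro hH
      rcases h.cases H hH with ⟨p, hp, rfl⟩ | ⟨s, hs, rfl⟩
      · exact Or.inl ⟨p, hp, rfl⟩
      · exact Or.inr ⟨s, hs, rfl⟩
    · rintro (⟨p, hp, rfl⟩ | ⟨s, hs, rfl⟩)
      · exact (h.pl_mem p).2 hp
      · exact (h.ax_mem s).2 hs
  obtain ⟨k, hk⟩ : ∃ k : Submodule ℝ (ℂ × ℝ) → ℕ, ∀ v, k v = (P.filter fun p => v ≤ pl p).card :=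
    ⟨_, fun _ => rfl⟩
  obtain ⟨a, ha⟩ : ∃ a : Submodule ℝ (ℂ × ℝ) → ℕ, ∀ v, a v = (S.filter fun s => v ≤ ax s).card :=
    ⟨_, fun _ => rfl⟩
  have hmult : ∀ v, mult A v = k v + a v := by
    intro v
    unfold mult
    rw [hA, Finset.filter_union, Finset.card_union_of_disjoint, Finset.filter_image,
      Finset.filter_image, Finset.card_image_of_injective _ fun p p' h => pl_inj h,
      Finset.card_image_of_injective _ fun s s' h => ax_inj h, hk, ha]
    rw [Finset.disjoint_left]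
    intro H h1 h2
    obtain ⟨p, -, hp⟩ := Finset.mem_image.1 (Finset.mem_filter.1 h1).1
    obtain ⟨s, -, hs⟩ := Finset.mem_image.1 (Finset.mem_filter.1 h2).1
    exact pl_ne_ax p s (hp.trans hs.symm)
  -- the vertices
  have hfr := h.finrank_eq
  have hverts : ∀ v, v ∈ verts A ↔ ∃ H ∈ A, ∃ H' ∈ A, H ≠ H' ∧ H ⊓ H' = v := by
    intro v
    unfold verts
    simp only [Finset.mem_image, Finset.mem_offDiag, Prod.exists]
    constructor
    · rintro ⟨H, H', ⟨h1, h2, h3⟩, h4⟩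
      exact ⟨H, h1, H', h2, h3, h4⟩
    · rintro ⟨H, h1, H', h2, h3, h4⟩
      exact ⟨H, H', ⟨h1, h2, h3⟩, h4⟩
  have hv1 : ∀ v ∈ verts A, finrank ℝ v = 1 := by
    intro v hv
    obtain ⟨H, h1, H', h2, h3, h4⟩ := (hverts v).1 hv
    rw [← h4]
    exact finrank_inf finrank_CR (hfr H h1) (hfr H' h2) h3
  have horg : ∀ s s' : Circle, s ≠ s' → ax s ⊓ ax s' = org := fun s s' hss =>
    (ct_eq finrank_org (finrank_ax s) (finrank_ax s') fun h1 => hss (ax_inj h1)).2
      ⟨org_le_ax s, org_le_ax s'⟩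
  have horgv : org ∈ verts A := by
    obtain ⟨s, hs, s', hs', hne⟩ := Finset.one_lt_card.1 (by omega : 1 < S.card)
    exact (hverts _).2 ⟨ax s, (h.ax_mem s).2 hs, ax s', (h.ax_mem s').2 hs',
      fun h1 => hne (ax_inj h1), horg s s' hne⟩
  have ha1 : ∀ v ∈ (verts A).erase org, a v = 0 ∨ a v = 1 := by
    intro v hv
    obtain ⟨h1, h2⟩ := Finset.mem_erase.1 hv
    have h3 : a v ≤ 1 := by
      rw [ha, Finset.card_le_one]
      intro s hs s' hs'
      by_contra hne
      apply h1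
      rw [Finset.mem_filter] at hs hs'
      rw [← horg s s' hne]
      refine Submodule.eq_of_le_of_finrank_eq (le_inf hs.2 hs'.2) ?_
      rw [hv1 v h2, horg s s' hne, finrank_org]
    omega
  have hplne : ∀ {p p' : ℂ}, p ≠ p' → pl p ≠ pl p' := fun h1 h2 => h1 (pl_inj h2)
  have hmem1 : ∀ p ∈ P, ∀ p' ∈ P, p ≠ p' → pl p ⊓ pl p' ∈ (verts A).erase org := by
    intro p hp p' hp' hne
    rw [Finset.mem_erase]
    refine ⟨fun h1 => not_org_le_pl p (h1 ▸ inf_le_left), (hverts _).2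
      ⟨pl p, (h.pl_mem p).2 hp, pl p', (h.pl_mem p').2 hp', hplne hne, rfl⟩⟩
  have hmem2 : ∀ p ∈ P, ∀ s ∈ S, pl p ⊓ ax s ∈ (verts A).erase org := by
    intro p hp s hs
    rw [Finset.mem_erase]
    refine ⟨fun h1 => not_org_le_pl p (h1 ▸ inf_le_left), (hverts _).2
      ⟨pl p, (h.pl_mem p).2 hp, ax s, (h.ax_mem s).2 hs, pl_ne_ax p s, rfl⟩⟩
  -- the pairs of points
  have hfib : ∀ v ∈ (verts A).erase org, (P.offDiag.filter fun x => pl x.1 ⊓ pl x.2 = v) =
      (P.filter fun p => v ≤ pl p).offDiag := by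
    intro v hv
    ext ⟨p, p'⟩
    simp only [Finset.mem_filter, Finset.mem_offDiag]
    constructor
    · rintro ⟨⟨h1, h2, h3⟩, h4⟩
      rw [ct_eq (hv1 v (Finset.mem_erase.1 hv).2) (finrank_pl p) (finrank_pl p') (hplne h3)] at h4
      exact ⟨⟨h1, h4.1⟩, ⟨h2, h4.2⟩, h3⟩
    · rintro ⟨⟨h1, h2⟩, ⟨h3, h4⟩, h5⟩
      refine ⟨⟨h1, h3, h5⟩, ?_⟩
      rw [ct_eq (hv1 v (Finset.mem_erase.1 hv).2) (finrank_pl p) (finrank_pl p') (hplne h5)]
      exact ⟨h2, h4⟩
  have hoff : ∀ v, (((P.filter fun p => v ≤ pl p).offDiag.card : ℕ) : ℤ) =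
      (k v : ℤ) * (k v - 1) := by
    intro v
    rw [Finset.offDiag_card, ← hk, Nat.cast_sub (Nat.le_mul_self _)]
    push_cast
    ring
  have hI : (P.card : ℤ) * (P.card - 1) =
      ∑ v ∈ (verts A).erase org, (k v : ℤ) * (k v - 1) := by
    have h1 := Finset.card_eq_sum_card_fiberwise (s := P.offDiag)
      (f := fun x : ℂ × ℂ => pl x.1 ⊓ pl x.2) (t := (verts A).erase org) (by
      intro x hx
      obtain ⟨h2, h3, h4⟩ := Finset.mem_offDiag.1 hx
      exact hmem1 _ h2 _ h3 h4)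
    have h2 : ((P.offDiag.card : ℕ) : ℤ) = (P.card : ℤ) * (P.card - 1) := by
      rw [Finset.offDiag_card, Nat.cast_sub (Nat.le_mul_self _)]
      push_cast
      ring
    rw [← h2, h1, Nat.cast_sum]
    refine Finset.sum_congr rfl fun v hv => ?_
    rw [hfib v hv, hoff v]
  have hII : ((nonA P S).card : ℤ) =
      ∑ v ∈ (verts A).erase org, if a v = 0 then (k v : ℤ) * (k v - 1) else 0 := by
    have h1 := Finset.card_eq_sum_card_fiberwise (s := nonA P S)
      (f := fun x : ℂ × ℂ => pl x.1 ⊓ pl x.2) (t := (verts A).erase org) (by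
      intro x hx
      obtain ⟨h2, h3, h4⟩ := Finset.mem_offDiag.1 (Finset.mem_filter.1 hx).1
      exact hmem1 _ h2 _ h3 h4)
    rw [h1, Nat.cast_sum]
    refine Finset.sum_congr rfl fun v hv => ?_
    have hInS : ∀ x ∈ (P.filter fun p => v ≤ pl p).offDiag, InS S (x.1 - x.2) ↔ a v ≠ 0 := by
      intro x hx
      obtain ⟨h2, h3, h4⟩ := Finset.mem_offDiag.1 hx
      rw [Finset.mem_filter] at h2 h3
      have h5 := (ct_eq (hv1 v (Finset.mem_erase.1 hv).2) (finrank_pl x.1) (finrank_pl x.2)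
        (hplne h4)).2 ⟨h2.2, h3.2⟩
      unfold InS
      rw [ha, Finset.card_ne_zero]
      constructor
      · rintro ⟨s, hs, h6⟩
        refine ⟨s, Finset.mem_filter.2 ⟨hs, ?_⟩⟩
        rw [← h5]
        exact (inf_pl_le_ax h4 s).2 h6
      · rintro ⟨s, hs⟩
        obtain ⟨h6, h7⟩ := Finset.mem_filter.1 hs
        refine ⟨s, h6, (inf_pl_le_ax h4 s).1 ?_⟩
        rw [h5]
        exact h7
    have h2 : ((nonA P S).filter fun x => pl x.1 ⊓ pl x.2 = v) =
        ((P.filter fun p => v ≤ pl p).offDiag.filter fun x => a v = 0) := by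
      rw [← hfib v hv]
      ext x
      have h3 := hInS x
      rw [← hfib v hv] at h3
      unfold nonA
      simp only [Finset.mem_filter] at h3 ⊢
      constructor
      · rintro ⟨⟨h4, h5⟩, h6⟩
        refine ⟨⟨h4, h6⟩, ?_⟩
        by_contra h7
        exact h5 ((h3 ⟨h4, h6⟩).2 h7)
      · rintro ⟨⟨h4, h5⟩, h6⟩
        exact ⟨⟨h4, fun h7 => (h3 ⟨h4, h5⟩).1 h7 h6⟩, h5⟩
    rw [h2]
    split_ifs with h3
    · rw [Finset.filter_true_of_mem fun _ _ => h3, hoff v]
    · rw [Finset.filter_false_of_mem fun _ _ => h3, Finset.card_empty, Nat.cast_zero]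
  have hIII : (P.card : ℤ) * S.card = ∑ v ∈ (verts A).erase org, (k v : ℤ) * a v := by
    have h1 := Finset.card_eq_sum_card_fiberwise (s := P ×ˢ S)
      (f := fun x : ℂ × Circle => pl x.1 ⊓ ax x.2) (t := (verts A).erase org) (by
      intro x hx
      obtain ⟨h2, h3⟩ := Finset.mem_product.1 hx
      exact hmem2 _ h2 _ h3)
    rw [← Nat.cast_mul, ← Finset.card_product, h1, Nat.cast_sum]
    refine Finset.sum_congr rfl fun v hv => ?_
    rw [hk, ha, ← Nat.cast_mul, ← Finset.card_product]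
    congr 2
    ext ⟨p, s⟩
    simp only [Finset.mem_filter, Finset.mem_product]
    constructor
    · rintro ⟨⟨h2, h3⟩, h4⟩
      rw [ct_eq (hv1 v (Finset.mem_erase.1 hv).2) (finrank_pl p) (finrank_ax s)
        (pl_ne_ax p s)] at h4
      exact ⟨⟨h2, h4.1⟩, ⟨h3, h4.2⟩⟩
    · rintro ⟨⟨h2, h3⟩, h4, h5⟩
      refine ⟨⟨h2, h4⟩, ?_⟩
      rw [ct_eq (hv1 v (Finset.mem_erase.1 hv).2) (finrank_pl p) (finrank_ax s) (pl_ne_ax p s)]
      exact ⟨h3, h5⟩
  have hIV : (S.card : ℤ) = ∑ v ∈ (verts A).erase org, (3 - (k v : ℤ) - a v) := by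
    have h1 : ∑ P ∈ verts A, (3 - (mult A P : ℤ)) = 3 := hM
    rw [← Finset.add_sum_erase _ _ horgv, h.mult_org] at h1
    have h2 : ∑ v ∈ (verts A).erase org, (3 - (mult A v : ℤ)) =
        ∑ v ∈ (verts A).erase org, (3 - (k v : ℤ) - a v) := by
      refine Finset.sum_congr rfl fun v _ => ?_
      rw [hmult v]
      push_cast
      ring
    rw [← h2]
    linarith
  have hkey : 0 ≤ ∑ v ∈ (verts A).erase org, (10 * ((k v : ℤ) * (k v - 1) - k v * a v +
      (3 - (k v : ℤ) - a v)) - 9 * (if a v = 0 then (k v : ℤ) * (k v - 1) else 0)) := by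
    refine Finset.sum_nonneg fun v hv => ?_
    rcases ha1 v hv with h1 | h1
    · rw [if_pos h1, h1]
      have h2 := ct_int (k v)
      push_cast
      nlinarith
    · rw [if_neg (by omega), h1]
      have h2 := ct_int' (k v)
      push_cast
      nlinarith
  rw [Finset.sum_sub_distrib, ← Finset.mul_sum, ← Finset.mul_sum, ← hII,
    Finset.sum_add_distrib, Finset.sum_sub_distrib, ← hI, ← hIII, ← hIV] at hkey
  have h9 : ((P.card : ℤ) - S.card) * ((P.card : ℤ) - 1) =
      P.card * (P.card - 1) - P.card * S.card + S.card := by ring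
  rw [h9]
  linarith

end Pool.Agent.SimplV
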