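import Pool.Agent.Simpl.PBasic

set_option autoImplicit false

/-! # Simplicial arrangements with a point of high multiplicity: definitions

Paper proof: `/team-store/HM_Proof.md` (section numbers in the docstrings of the other files). -/

namespace Pool.Agent.SimplV

open Complex Module ComplexConjugate Pool.Agent.Simpl

/-- The plane `Re (z conj p) = t` of `ℂ × ℝ` dual to the point `p` of the plane; these are the planes
which do not contain `org`. -/
noncomputable def pl (p : ℂ) : Submodule ℝ (ℂ × ℝ) where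
  carrier := {x | (x.1 * conj p).re = x.2}
  zero_mem' := by simp
  add_mem' := by
    intro u v hu hv
    simp only [Set.mem_ofPred_eq, Prod.fst_add, Prod.snd_add, add_mul, Complex.add_re] at *
    linear_combination hu + hv
  smul_mem' := by
    intro r v hv
    simp only [Set.mem_ofPred_eq, Prod.smul_fst, Prod.smul_snd, smul_eq_mul] at *
    rw [← hv, Complex.real_smul, mul_assoc, Complex.re_ofReal_mul]

theorem mem_pl {p : ℂ} {x : ℂ × ℝ} : x ∈ pl p ↔ (x.1 * conj p).re = x.2 := Iff.rfl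

/-- The cross product of the plane `ℂ`. -/
def cr (x y : ℂ) : ℝ := x.re * y.im - x.im * y.re

/-- The scalar product of the plane `ℂ`. -/
def dt (x y : ℂ) : ℝ := x.re * y.re + x.im * y.im

/-- The unit vector with argument `τ`. -/
noncomputable def uv (τ : ℝ) : ℂ := ⟨Real.cos τ, Real.sin τ⟩

/-- The unit vector with argument `τ + π / 2`. -/
noncomputable def nv (τ : ℝ) : ℂ := ⟨-Real.sin τ, Real.cos τ⟩

/-- A real affine map of the plane `ℂ`. -/
noncomputable def af (α β γ z : ℂ) : ℂ := α * z + β * conj z + γ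

/-- `P` = the points dual to the planes of `A` not through `org`, `S` = the planes through `org`. -/
structure Dual (A : Finset (Submodule ℝ (ℂ × ℝ))) (P : Finset ℂ) (S : Finset Circle) : Prop where
  pl_mem : ∀ p, pl p ∈ A ↔ p ∈ P
  ax_mem : ∀ s, ax s ∈ A ↔ s ∈ S
  cases : ∀ H ∈ A, (∃ p ∈ P, H = pl p) ∨ ∃ s ∈ S, H = ax s

/-- `x` is orthogonal to a line `ax s`, `s ∈ S`. For `p ≠ p'` this holds for `x = p - p'` iff
`pl p ⊓ pl p'` is on a line `ax s`, `s ∈ S`. -/
def InS (S : Finset Circle) (x : ℂ) : Prop := ∃ s ∈ S, x = -((s : ℂ) * conj x)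

/-- Enumeration of the rays of the lines `ax s`, `s ∈ S`. -/
structure Rays (S : Finset Circle) (m : ℕ) (θ : ℤ → ℝ) : Prop where
  mono : StrictMono θ
  per : ∀ k, θ (k + m) = θ k + Real.pi
  mem : ∀ τ : ℝ, Circle.exp (2 * τ) ∈ S ↔ ∃ k, θ k = τ

/-- The closed convex polygon `q` (`2 m` steps `c k • nv (θ k)`, some may be zero, but not two
consecutive ones). -/
structure Poly (m : ℕ) (θ : ℤ → ℝ) (q : ℤ → ℂ) (c : ℤ → ℝ) : Prop where
  mono : StrictMono θ
  per : ∀ k, θ (k + m) = θ k + Real.pi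
  qper : ∀ k, q (k + 2 * m) = q k
  step : ∀ k, q (k + 1) = q k + c (k + 1) • nv (θ (k + 1))
  nonneg : ∀ k, 0 ≤ c k
  two : ∀ k, c k ≠ 0 ∨ c (k + 1) ≠ 0

/-- `x` is parallel to some `nv (θ k)`. -/
def Ind (θ : ℤ → ℝ) (x : ℂ) : Prop := ∃ k : ℤ, ∃ t : ℝ, x = t • nv (θ k)

/-- The four chords of the square `(i, j)` are parallel to vectors `nv (θ k)`. -/
def AllA (θ : ℤ → ℝ) (q : ℤ → ℂ) (i j : ℤ) : Prop :=
  Ind θ (q j - q i) ∧ Ind θ (q j - q (i + 2)) ∧ Ind θ (q (j + 2) - q i) ∧
    Ind θ (q (j + 2) - q (i + 2))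

/-- Good squares. -/
def Good (θ : ℤ → ℝ) (q : ℤ → ℂ) (i j : ℤ) : Prop :=
  AllA θ q i j ∧ cr (q j - q (i + 2)) (q (j + 2) - q i) = 0

/-- Windows of nine good squares. -/
def Window (θ : ℤ → ℝ) (q : ℤ → ℂ) (i j : ℤ) : Prop :=
  ∀ a b : ℤ, 0 ≤ a → a ≤ 2 → 0 ≤ b → b ≤ 2 → Good θ q (i + 2 * a) (j + 2 * b)

/-- The ordered pairs of `P` whose difference is not orthogonal to a line of `S`. -/
noncomputable def nonA (P : Finset ℂ) (S : Finset Circle) : Finset (ℂ × ℂ) := by
  classical
  exact P.offDiag.filter fun x => ¬ InS S (x.1 - x.2)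

/-- `∑ (3 - mult P)` over the vertices (`Mel A` says that it is `3`). -/
noncomputable def mel (A : Finset (Submodule ℝ (ℂ × ℝ))) : ℤ :=
  ∑ P ∈ verts A, (3 - (mult A P : ℤ))

theorem mel_iff {A : Finset (Submodule ℝ (ℂ × ℝ))} : Mel A ↔ mel A = 3 := Iff.rfl

/-- The `N`-th roots of unity on the circle. -/
noncomputable def rts (N : ℕ) : Finset Circle := by
  classical
  exact (Finset.range N).image fun k : ℕ => Circle.exp (2 * Real.pi * k / N)

/-- The regular arrangement, with the line at infinity if `b = true`. -/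
noncomputable def base (N : ℕ) (b : Bool) : Finset (Submodule ℝ (ℂ × ℝ)) := by
  classical
  exact if b then insert infl (polReg N) else polReg N

end Pool.Agent.SimplV
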