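import Pool.Agent.SimplV.Alg

set_option autoImplicit false

/-! # Dual points of the planes (HM_Proof.md, introduction)

Everything is elementary linear algebra in `ℂ × ℝ`; see `Simpl/PBasic.lean` for the same facts about
`tang`, `ax`, `infl`, `pt` (`finrank_CR`, `classify`, `classify_pt`, `ax_inj`, `org_le_ax`, ...).

* `pl_tang`: `Re (z conj w) = ρ t` divided by `ρ`.
* `exists_dual`: `classify` says that every plane is `tang ρ w = pl (w / ρ)`, `ax s`, or
  `infl = pl 0`. Take `P` = the image of `A` under a map choosing `p` with `H = pl p`, restricted to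
  the planes for which it exists, the same for `S`.
* `inf_pl_le_ax`: for `p ≠ p'` the points of `pl p ⊓ pl p'` are the multiples of `(z, t)`,
  `z = I * (p - p')`, `t = Re (z conj p)`. It is in `ax s` iff `z = s conj z` iff
  `p - p' = -(s conj (p - p'))`.
* `inf_le_of_ax`: `pl p ⊓ ax s` etc. are one-dimensional; `finrank_inf` of the library.
* `nearPencil`: `H₀ = pl p`, `L = org`.
-/

namespace Pool.Agent.SimplV

open Complex Module ComplexConjugate Pool.Agent.Simpl

theorem pl_zero : pl 0 = infl := by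
  ext x
  rw [mem_pl, mem_infl, map_zero, mul_zero, Complex.zero_re, eq_comm]

theorem pl_tang {ρ : ℝ} (hρ : 0 < ρ) (w : Circle) : tang ρ w = pl ((w : ℂ) / ρ) := by
  ext x
  rw [mem_tang, mem_pl]
  have h4 : x.1 * conj ((w : ℂ) / (ρ : ℂ)) = (x.1 * conj (w : ℂ)) / (ρ : ℂ) := by
    rw [map_div₀, Complex.conj_ofReal]
    ring
  rw [h4, Complex.div_ofReal_re, div_eq_iff hρ.ne', mul_comm x.2 ρ]

private theorem exists_tang {p : ℂ} (hp : p ≠ 0) :
    ∃ (ρ : ℝ) (w : Circle), 0 < ρ ∧ pl p = tang ρ w := by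
  have hn : 0 < ‖p‖ := norm_pos_iff.2 hp
  have hw : ‖p / (‖p‖ : ℂ)‖ = 1 := by
    rw [norm_div, Complex.norm_real, norm_norm, div_self hn.ne']
  refine ⟨‖p‖⁻¹, ⟨p / (‖p‖ : ℂ), mem_sphere_zero_iff_norm.2 hw⟩, inv_pos.2 hn, ?_⟩
  rw [pl_tang (inv_pos.2 hn)]
  congr 1
  have h1 : (‖p‖ : ℂ) ≠ 0 := Complex.ofReal_ne_zero.2 hn.ne'
  show p = (p / (‖p‖ : ℂ)) / ((‖p‖⁻¹ : ℝ) : ℂ)
  rw [Complex.ofReal_inv]
  field_simp

theorem finrank_pl (p : ℂ) : finrank ℝ (pl p) = 2 := by
  by_cases hp : p = 0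
  · rw [hp, pl_zero]
    exact finrank_infl
  · obtain ⟨ρ, w, -, h⟩ := exists_tang hp
    rw [h]
    exact finrank_tang ρ w

theorem pl_inj {p p' : ℂ} (h : pl p = pl p') : p = p' := by
  have h1 : ∀ z : ℂ, (z * conj p').re = (z * conj p).re := by
    intro z
    have h2 : ((z, (z * conj p).re) : ℂ × ℝ) ∈ pl p := rfl
    rw [h] at h2
    exact h2
  have h2 := h1 1
  have h3 := h1 Complex.I
  simp only [one_mul, Complex.conj_re] at h2
  simp only [Complex.mul_re, Complex.I_re, Complex.I_im, Complex.conj_re, Complex.conj_im,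
    zero_mul, one_mul, zero_sub, neg_neg] at h3
  exact Complex.ext h2.symm h3.symm

private theorem zero_one_mem_ax' (s : Circle) : ((0, 1) : ℂ × ℝ) ∈ ax s :=
  (Submodule.span_singleton_le_iff_mem _ _).1 (org_le_ax s)

private theorem zero_one_mem_pl (p : ℂ) : ((0, 1) : ℂ × ℝ) ∉ pl p := by
  rw [mem_pl]
  simp only [zero_mul, Complex.zero_re]
  exact zero_ne_one

theorem pl_ne_ax (p : ℂ) (s : Circle) : pl p ≠ ax s := by
  intro he
  exact zero_one_mem_pl p (he ▸ zero_one_mem_ax' s)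

theorem not_org_le_pl (p : ℂ) : ¬ org ≤ pl p := fun h1 =>
  zero_one_mem_pl p ((Submodule.span_singleton_le_iff_mem _ _).1 h1)

theorem inf_pl_le_ax {p p' : ℂ} (h : p ≠ p') (s : Circle) :
    pl p ⊓ pl p' ≤ ax s ↔ p - p' = -((s : ℂ) * conj (p - p')) := by
  have hd : p - p' ≠ 0 := sub_ne_zero.2 h
  have hcd : conj (p - p') ≠ 0 := fun h0 => hd ((map_eq_zero _).1 h0)
  constructor
  · intro h1
    have h2 : ((Complex.I * (p - p'), (Complex.I * (p - p') * conj p).re) : ℂ × ℝ) ∈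
        pl p ⊓ pl p' := by
      refine ⟨rfl, ?_⟩
      show (Complex.I * (p - p') * conj p').re = (Complex.I * (p - p') * conj p).re
      simp only [Complex.mul_re, Complex.mul_im, Complex.sub_re, Complex.sub_im, Complex.I_re,
        Complex.I_im, Complex.conj_re, Complex.conj_im]
      ring
    have h3 := h1 h2
    rw [mem_ax] at h3
    replace h3 : Complex.I * (p - p') = s * conj (Complex.I * (p - p')) := h3
    rw [map_mul, Complex.conj_I] at h3
    refine mul_left_cancel₀ Complex.I_ne_zero ?_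
    rw [h3]
    ring
  · intro h1 x hx
    obtain ⟨h2, h3⟩ := hx
    replace h2 : (x.1 * conj p).re = x.2 := h2
    replace h3 : (x.1 * conj p').re = x.2 := h3
    have h4 : x.1 * conj (p - p') + conj x.1 * (p - p') = 0 := by
      have h5 := Complex.add_conj (x.1 * conj (p - p'))
      rw [map_mul, Complex.conj_conj] at h5
      rw [h5]
      have h6 : (x.1 * conj (p - p')).re = 0 := by
        rw [map_sub, mul_sub, Complex.sub_re, h2, h3, sub_self]
      rw [h6, mul_zero, Complex.ofReal_zero]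
    rw [mem_ax]
    refine mul_right_cancel₀ hcd ?_
    linear_combination h4 - conj x.1 * h1

theorem exists_dual (A : Finset (Submodule ℝ (ℂ × ℝ))) (hA : ∀ H ∈ A, finrank ℝ H = 2) :
    ∃ P S, Dual A P S := by
  classical
  have hex : ∀ H ∈ A, (∃ p, H = pl p) ∨ ∃ s, H = ax s := by
    intro H hH
    rcases classify H (hA H hH) with ⟨ρ, w, hρ, h⟩ | h | h
    · left
      exact ⟨_, h.trans (pl_tang hρ w)⟩
    · right
      exact h
    · left
      exact ⟨0, h.trans pl_zero.symm⟩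
  have hf : ∀ H : Submodule ℝ (ℂ × ℝ), ∃ p : ℂ, (∃ q, H = pl q) → H = pl p := by
    intro H
    by_cases h : ∃ q, H = pl q
    · obtain ⟨q, hq⟩ := h
      exact ⟨q, fun _ => hq⟩
    · exact ⟨0, fun h' => absurd h' h⟩
  have hg : ∀ H : Submodule ℝ (ℂ × ℝ), ∃ s : Circle, (∃ q, H = ax q) → H = ax s := by
    intro H
    by_cases h : ∃ q, H = ax q
    · obtain ⟨q, hq⟩ := h
      exact ⟨q, fun _ => hq⟩
    · exact ⟨1, fun h' => absurd h' h⟩
  choose f hf using hf
  choose g hg using hg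
  have hP : ∀ p, p ∈ (A.filter fun H => ∃ q, H = pl q).image f ↔ pl p ∈ A := by
    intro p
    rw [Finset.mem_image]
    constructor
    · rintro ⟨H, hH, rfl⟩
      obtain ⟨h1, h2⟩ := Finset.mem_filter.1 hH
      rw [← hf H h2]
      exact h1
    · intro h1
      exact ⟨pl p, Finset.mem_filter.2 ⟨h1, p, rfl⟩, (pl_inj (hf (pl p) ⟨p, rfl⟩)).symm⟩
  have hS : ∀ s, s ∈ (A.filter fun H => ∃ q, H = ax q).image g ↔ ax s ∈ A := by
    intro s
    rw [Finset.mem_image]
    constructor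
    · rintro ⟨H, hH, rfl⟩
      obtain ⟨h1, h2⟩ := Finset.mem_filter.1 hH
      rw [← hg H h2]
      exact h1
    · intro h1
      exact ⟨ax s, Finset.mem_filter.2 ⟨h1, s, rfl⟩, (ax_inj (hg (ax s) ⟨s, rfl⟩)).symm⟩
  refine ⟨(A.filter fun H => ∃ q, H = pl q).image f, (A.filter fun H => ∃ q, H = ax q).image g,
    ⟨fun p => (hP p).symm, fun s => (hS s).symm, ?_⟩⟩
  intro H hH
  rcases hex H hH with ⟨p, rfl⟩ | ⟨s, rfl⟩
  · exact Or.inl ⟨p, (hP p).2 hH, rfl⟩
  · exact Or.inr ⟨s, (hS s).2 hH, rfl⟩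

variable {A : Finset (Submodule ℝ (ℂ × ℝ))} {P : Finset ℂ} {S : Finset Circle}

theorem Dual.finrank_eq (h : Dual A P S) : ∀ H ∈ A, finrank ℝ H = 2 := by
  intro H hH
  rcases h.cases H hH with ⟨p, -, rfl⟩ | ⟨s, -, rfl⟩
  · exact finrank_pl p
  · exact finrank_ax s

theorem Dual.card_eq (h : Dual A P S) : A.card = P.card + S.card := by
  rw [← Finset.card_disjSum]
  symm
  refine Finset.card_nbij (Sum.elim pl ax) ?_ ?_ ?_
  · rintro (p | s) hx
    · exact (h.pl_mem p).2 (Finset.inl_mem_disjSum.1 hx)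
    · exact (h.ax_mem s).2 (Finset.inr_mem_disjSum.1 hx)
  · rintro (p | s) - (p' | s') - hxy
    · exact congrArg Sum.inl (pl_inj hxy)
    · exact absurd hxy (pl_ne_ax p s')
    · exact absurd hxy.symm (pl_ne_ax p' s)
    · exact congrArg Sum.inr (ax_inj hxy)
  · intro H hH
    rcases h.cases H hH with ⟨p, hp, rfl⟩ | ⟨s, hs, rfl⟩
    · exact ⟨Sum.inl p, Finset.mem_coe.2 (Finset.inl_mem_disjSum.2 hp), rfl⟩
    · exact ⟨Sum.inr s, Finset.mem_coe.2 (Finset.inr_mem_disjSum.2 hs), rfl⟩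

theorem Dual.mult_org (h : Dual A P S) : mult A org = S.card := by
  classical
  unfold mult
  symm
  refine Finset.card_nbij ax ?_ ?_ ?_
  · intro s hs
    exact Finset.mem_filter.2 ⟨(h.ax_mem s).2 hs, org_le_ax s⟩
  · intro s _ s' _ hss
    exact ax_inj hss
  · intro H hH
    obtain ⟨h1, h2⟩ := Finset.mem_filter.1 (Finset.mem_coe.1 hH)
    rcases h.cases H h1 with ⟨p, hp, rfl⟩ | ⟨s, hs, rfl⟩
    · exact absurd h2 (not_org_le_pl p)
    · exact ⟨s, Finset.mem_coe.2 hs, rfl⟩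

theorem Dual.nonempty (h : Dual A P S) (hA : IsArrangement A) : P.Nonempty := by
  by_contra h0
  rw [Finset.not_nonempty_iff_eq_empty] at h0
  have h1 : org ≤ ⨅ H ∈ A, H := by
    refine le_iInf fun H => le_iInf fun hH => ?_
    rcases h.cases H hH with ⟨p, hp, -⟩ | ⟨s, -, rfl⟩
    · rw [h0] at hp
      exact absurd hp (Finset.notMem_empty p)
    · exact org_le_ax s
  rw [hA.2, le_bot_iff] at h1
  have h2 := finrank_org
  rw [h1, finrank_bot] at h2
  exact zero_ne_one h2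

theorem Dual.nearPencil (h : Dual A P S) (hP : P.card = 1) : IsNearPencil A := by
  obtain ⟨p, rfl⟩ := Finset.card_eq_one.1 hP
  refine ⟨pl p, (h.pl_mem p).2 (Finset.mem_singleton_self p), org, finrank_org,
    not_org_le_pl p, ?_⟩
  intro H hH hne
  rcases h.cases H hH with ⟨q, hq, rfl⟩ | ⟨s, -, rfl⟩
  · rw [Finset.mem_singleton.1 hq] at hne
    exact absurd rfl hne
  · exact org_le_ax s

end Pool.Agent.SimplV
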