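import Pool.Agent.SimplV.Alg

set_option autoImplicit false

/-! # Elliptic maps (HM_Proof.md, 6.1, 6.2)

* `elliptic`: `c = Re α`, `-1 < c < 1`, `s = √(1 - c²) > 0`; `σ = -s` if `0 ≤ Im α`, `σ = s` otherwise, so
`σ * Im α ≤ 0`; `ω = ⟨c, σ⟩`, `|ω| = 1`, `ω² - 2 c ω + 1 = 0`, `ω ≠ 1`. `α₁ = conj β`, `β₁ = ω - α`,
`γ₁ = (α₁ γ + β₁ conj γ) / (ω - 1)`. The identity `L (T z) = ω L z` compares the coefficients of `z`,
`conj z`, `1`: `α₁ α + β₁ conj β = ω α₁` (clear), `α₁ β + β₁ conj α = ω β₁`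
(`|β|² + ω conj α - |α|² = ω² - ω α`, i.e. `ω² - ω (α + conj α) + 1 = 0` with `|α|² - |β|² = 1`),
`α₁ γ + β₁ conj γ + γ₁ = ω γ₁` (clear).
`normSq α₁ - normSq β₁ = |β|² - |ω - α|² = -2 + 2 Re (conj ω α) = -2 + 2 c² + 2 σ Im α
= -2 σ² + 2 σ Im α < 0`.
* `norm_eq`: `cr (x - ω y) (ω x - y) = Im ω (|y|² - |x|²)` up to sign when `|ω| = 1`: expand in real and
imaginary parts (`nlinarith`/`linear_combination` with `ω.re² + ω.im² = 1`). -/

namespace Pool.Agent.SimplV

open Complex Module ComplexConjugate Pool.Agent.Simpl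

theorem elliptic {α β γ : ℂ} (hdet : Complex.normSq α - Complex.normSq β = 1)
    (h1 : -1 < α.re) (h2 : α.re < 1) :
    ∃ α₁ β₁ γ₁ ω : ℂ, Complex.normSq α₁ - Complex.normSq β₁ ≠ 0 ∧ Complex.normSq ω = 1 ∧
      ω.im ≠ 0 ∧ ∀ z, af α₁ β₁ γ₁ (af α β γ z) = ω * af α₁ β₁ γ₁ z := by
  have hpos : 0 < 1 - α.re ^ 2 := by nlinarith
  obtain ⟨σ, hσ, hσ'⟩ : ∃ σ : ℝ, σ ^ 2 = 1 - α.re ^ 2 ∧ σ * α.im ≤ 0 := by
    by_cases h : 0 ≤ α.im
    · refine ⟨-Real.sqrt (1 - α.re ^ 2), ?_, ?_⟩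
      · rw [neg_sq, Real.sq_sqrt hpos.le]
      · nlinarith [Real.sqrt_nonneg (1 - α.re ^ 2)]
    · refine ⟨Real.sqrt (1 - α.re ^ 2), ?_, ?_⟩
      · rw [Real.sq_sqrt hpos.le]
      · push Not at h
        nlinarith [Real.sqrt_nonneg (1 - α.re ^ 2)]
  have hσ0 : σ ≠ 0 := by
    rintro rfl
    rw [zero_pow two_ne_zero] at hσ
    linarith
  obtain ⟨ω, hω⟩ : ∃ ω : ℂ, ω = ⟨α.re, σ⟩ := ⟨_, rfl⟩
  have hre : ω.re = α.re := by rw [hω]
  have him : ω.im = σ := by rw [hω]
  have hquad : ω ^ 2 - ω * (α + conj α) + 1 = 0 := by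
    apply Complex.ext
    · simp only [pow_two, Complex.add_re, Complex.sub_re, Complex.mul_re, Complex.add_im,
        Complex.conj_re, Complex.conj_im, Complex.one_re, Complex.zero_re]
      rw [hre, him]
      linear_combination -hσ
    · simp only [pow_two, Complex.add_im, Complex.sub_im, Complex.mul_im, Complex.add_re,
        Complex.conj_re, Complex.conj_im, Complex.one_im, Complex.zero_im]
      rw [hre, him]
      ring
  have hω1 : ω - 1 ≠ 0 := by
    intro h
    have h3 := congrArg Complex.im h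
    rw [Complex.sub_im, Complex.one_im, sub_zero, him, Complex.zero_im] at h3
    exact hσ0 h3
  have hd : α * conj α - β * conj β = 1 := by
    rw [Complex.mul_conj, Complex.mul_conj]
    exact_mod_cast hdet
  refine ⟨conj β, ω - α, (conj β * γ + (ω - α) * conj γ) / (ω - 1), ω, ?_, ?_, ?_, ?_⟩
  · have h3 : Complex.normSq (conj β) - Complex.normSq (ω - α) = -2 * σ ^ 2 + 2 * (σ * α.im) := by
      rw [Complex.normSq_conj]
      simp only [Complex.normSq_apply, Complex.sub_re, Complex.sub_im] at hdet ⊢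
      rw [hre, him]
      linear_combination -hdet + hσ
    rw [h3]
    have h4 : 0 < σ ^ 2 := by positivity
    intro h5
    linarith
  · rw [Complex.normSq_apply, hre, him]
    linear_combination hσ
  · rw [him]
    exact hσ0
  · intro z
    have h3 : (conj β * γ + (ω - α) * conj γ) / (ω - 1) * (ω - 1) =
        conj β * γ + (ω - α) * conj γ := div_mul_cancel₀ _ hω1
    unfold af
    rw [map_add, map_add, map_mul, map_mul, Complex.conj_conj]
    linear_combination -h3 - (conj z) * hd - (conj z) * hquad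

theorem norm_eq {x y ω : ℂ} (hω : Complex.normSq ω = 1) (hω' : ω.im ≠ 0)
    (h : cr (x - ω * y) (ω * x - y) = 0) : ‖x‖ = ‖y‖ := by
  have h1 : cr (x - ω * y) (ω * x - y) =
      ω.im * (Complex.normSq x - Complex.normSq y) + (Complex.normSq ω - 1) * cr x y := by
    unfold cr
    simp only [Complex.normSq_apply, Complex.sub_re, Complex.sub_im, Complex.mul_re,
      Complex.mul_im]
    ring
  rw [h, hω, sub_self, zero_mul, add_zero] at h1
  have h2 : Complex.normSq x = Complex.normSq y := by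
    have h3 := (mul_eq_zero.1 h1.symm).resolve_left hω'
    linarith
  rw [Complex.normSq_eq_norm_sq, Complex.normSq_eq_norm_sq] at h2
  exact (pow_left_inj₀ (norm_nonneg x) (norm_nonneg y) two_ne_zero).1 h2

end Pool.Agent.SimplV
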