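import Pool.Agent.SimplV.DualB

set_option autoImplicit false

/-! # Affine maps of the dual plane are projective maps (HM_Proof.md, 6.4)

`M z = α z + β conj z` has determinant `D = normSq α - normSq β ≠ 0`; its inverse transpose with respect to
`dt` is `N z = (α z - β ... )`: explicitly `M⁻¹ w = (conj α w - β conj w) / D`, and
`dt (N z) (M p) = dt z p` for `N z = (α z - conj β ... )`; the transpose of `M` is
`Mᵗ z = conj α z + β conj z` (`dt_af`), its inverse is `N z = (α z - β conj z) / D`.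
`e (z, t) = (N z, t + dt (N z) γ)`, inverse `(z, t) ↦ (Mᵗ z, t - dt z γ)`. If `t = dt z p` (`(z, t) ∈ pl p`,
`dt_eq_re`) then `t + dt (N z) γ = dt (N z) (M p) + dt (N z) γ = dt (N z) (af α β γ p)`, so `e (pl p)` is
contained in `pl (af α β γ p)`; equality by the inverse or by dimension. `e (0, t) = (0, t)`. -/

namespace Pool.Agent.SimplV

open Complex Module ComplexConjugate Pool.Agent.Simpl

/-- The determinant of the linear part. -/
private noncomputable def eqD (α β : ℂ) : ℝ := Complex.normSq α - Complex.normSq β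

/-- The inverse transpose of the linear part. -/
private noncomputable def eqN (α β z : ℂ) : ℂ := (eqD α β)⁻¹ • (α * z - β * conj z)

/-- The transpose of the linear part. -/
private noncomputable def eqT (α β z : ℂ) : ℂ := conj α * z + β * conj z

private theorem eqD_eq (α β : ℂ) : (eqD α β : ℂ) = α * conj α - β * conj β := by
  rw [Complex.mul_conj, Complex.mul_conj]
  unfold eqD
  push_cast
  ring

private theorem eq_TN {α β : ℂ} (h : eqD α β ≠ 0) (z : ℂ) : eqT α β (eqN α β z) = z := by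
  have h1 : (eqD α β : ℂ) ≠ 0 := Complex.ofReal_ne_zero.2 h
  unfold eqT eqN
  rw [Complex.real_smul, map_mul, map_sub, map_mul, map_mul, Complex.conj_ofReal,
    Complex.conj_conj]
  push_cast
  field_simp
  rw [eqD_eq]
  ring

private theorem eq_NT {α β : ℂ} (h : eqD α β ≠ 0) (z : ℂ) : eqN α β (eqT α β z) = z := by
  have h1 : (eqD α β : ℂ) ≠ 0 := Complex.ofReal_ne_zero.2 h
  unfold eqT eqN
  rw [Complex.real_smul, map_add, map_mul, map_mul, Complex.conj_conj, Complex.conj_conj]
  push_cast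
  field_simp
  rw [eqD_eq]
  ring

private theorem eqN_add (α β z z' : ℂ) : eqN α β (z + z') = eqN α β z + eqN α β z' := by
  unfold eqN
  rw [← smul_add, map_add]
  congr 1
  ring

private theorem eqN_smul (α β : ℂ) (t : ℝ) (z : ℂ) : eqN α β (t • z) = t • eqN α β z := by
  unfold eqN
  rw [smul_comm t, Complex.real_smul (x := t), Complex.real_smul (x := t), map_mul,
    Complex.conj_ofReal]
  congr 1
  ring

/-- The equivalence. -/
private noncomputable def eqE {α β : ℂ} (h : eqD α β ≠ 0) (γ : ℂ) :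
    (ℂ × ℝ) ≃ₗ[ℝ] (ℂ × ℝ) where
  toFun x := (eqN α β x.1, x.2 + dt (eqN α β x.1) γ)
  map_add' x y := by
    refine Prod.ext (eqN_add α β x.1 y.1) ?_
    change x.2 + y.2 + dt (eqN α β (x.1 + y.1)) γ =
      x.2 + dt (eqN α β x.1) γ + (y.2 + dt (eqN α β y.1) γ)
    rw [eqN_add, dt_add_left]
    ring
  map_smul' t x := by
    refine Prod.ext (eqN_smul α β t x.1) ?_
    change t * x.2 + dt (eqN α β (t • x.1)) γ = t * (x.2 + dt (eqN α β x.1) γ)
    rw [eqN_smul, dt_smul_left]
    ring
  invFun x := (eqT α β x.1, x.2 - dt x.1 γ)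
  left_inv x := by
    refine Prod.ext (eq_TN h x.1) ?_
    change x.2 + dt (eqN α β x.1) γ - dt (eqN α β x.1) γ = x.2
    ring
  right_inv x := by
    refine Prod.ext (eq_NT h x.1) ?_
    change x.2 - dt x.1 γ + dt (eqN α β (eqT α β x.1)) γ = x.2
    rw [eq_NT h]
    ring

private theorem eqE_apply {α β : ℂ} (h : eqD α β ≠ 0) (γ : ℂ) (x : ℂ × ℝ) :
    eqE h γ x = (eqN α β x.1, x.2 + dt (eqN α β x.1) γ) := rfl

private theorem eqE_symm_apply {α β : ℂ} (h : eqD α β ≠ 0) (γ : ℂ) (x : ℂ × ℝ) :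
    (eqE h γ).symm x = (eqT α β x.1, x.2 - dt x.1 γ) := rfl

private theorem eq_af (α β γ p u : ℂ) : dt u (af α β γ p) = dt (eqT α β u) p + dt u γ := by
  have e : af α β γ p = af α β 0 p + γ := by
    unfold af
    ring
  rw [e, dt_add_right, dt_af]
  rfl

theorem exists_equiv {α β : ℂ} (h : Complex.normSq α ≠ Complex.normSq β) (γ : ℂ) :
    ∃ e : (ℂ × ℝ) ≃ₗ[ℝ] (ℂ × ℝ), (∀ p, (pl p).map e.toLinearMap = pl (af α β γ p)) ∧
      org.map e.toLinearMap = org := by
  have hD : eqD α β ≠ 0 := sub_ne_zero.2 h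
  refine ⟨eqE hD γ, fun p => ?_, ?_⟩
  · ext x
    rw [mem_pl, ← dt_eq_re, eq_af]
    constructor
    · rintro ⟨y, hy, rfl⟩
      have hy' : dt y.1 p = y.2 := by
        rw [dt_eq_re]
        exact hy
      change dt (eqT α β (eqN α β y.1)) p + dt (eqN α β y.1) γ = y.2 + dt (eqN α β y.1) γ
      rw [eq_TN hD, hy']
    · intro hx
      refine ⟨(eqE hD γ).symm x, ?_, (eqE hD γ).apply_symm_apply x⟩
      change ((eqT α β x.1) * conj p).re = x.2 - dt x.1 γ
      rw [← dt_eq_re]
      linarith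
  · unfold org
    rw [Submodule.map_span, Set.image_singleton]
    have e : (eqE hD γ).toLinearMap ((0 : ℂ), (1 : ℝ)) = ((0 : ℂ), (1 : ℝ)) := by
      change ((eqN α β 0, 1 + dt (eqN α β 0) γ) : ℂ × ℝ) = (0, 1)
      have e0 : eqN α β 0 = 0 := by
        unfold eqN
        simp
      rw [e0]
      simp [dt]
    rw [e]

theorem af_injective {α β : ℂ} (h : Complex.normSq α ≠ Complex.normSq β) (γ : ℂ) :
    Function.Injective (af α β γ) := by
  intro z z' hz
  have hD : eqD α β ≠ 0 := sub_ne_zero.2 h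
  have h1 : (eqD α β : ℂ) ≠ 0 := Complex.ofReal_ne_zero.2 hD
  have h2 : af α β 0 (z - z') = 0 := by
    rw [← af_sub α β γ, hz, sub_self]
  have h3 : (eqD α β : ℂ) * (z - z') =
      conj α * af α β 0 (z - z') - β * conj (af α β 0 (z - z')) := by
    rw [eqD_eq]
    unfold af
    simp only [map_add, map_mul, Complex.conj_conj, map_zero, add_zero]
    ring
  rw [h2, map_zero, mul_zero, mul_zero, sub_zero] at h3
  exact sub_eq_zero.1 ((mul_eq_zero.1 h3).resolve_left h1)

end Pool.Agent.SimplV
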