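import Pool.Agent.SimplV.Alg

set_option autoImplicit false

/-! # The linearisation lemma (HM_Proof.md, 4.1)

Write `[u, v] = cr u v`. All the vectors `x a - y b` with `a + b = s` are parallel to one vector `d s`
(`s = 0, ..., 6`; `hpar` for `(a, b)` connects `(a, b+1)` and `(a+1, b)`), and `[d s, d (s+1)] ≠ 0` for
`s ≤ 5` (`hx`: take `a ≤ 2`, `b ≤ 3` with `a + b = s`). Rescale the `d s` one after the other such that
`[d s, d (s+1)] = 1` for `s = 0, ..., 5`.
`x a - y b = t a b • d (a + b)` with `t a b ≠ 0`. Let `u a = x a - x (a+1)`, `a ≤ 2`. From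
`u a = t a b • d (a+b) - t (a+1) b • d (a+b+1)`: `[u a, d (a+b+1)] = t a b`,
`[u a, d (a+b)] = t (a+1) b` for `b ≤ 3`.
`d (s+1) + d (s-1) = κ s • d s`, `1 ≤ s ≤ 5` (`[d (s-1) + d (s+1), d s] = 1 - 1 = 0`).
For `a = 0, 1`, `b ≤ 3`: `[u (a+1), d (a+b+2)] = t (a+1) b = [u a, d (a+b)]` (*).
Adding (*) for `b` and `b + 2` (`b = 0, 1`): `κ (a+b+3) [u (a+1), d (a+b+3)] = κ (a+b+1) [u a, d (a+b+1)]`
and (*) for `b + 1` with `[u a, d (a+b+1)] = t a b ≠ 0` gives `κ (a+b+3) = κ (a+b+1)`: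
`κ 3 = κ 1`, `κ 4 = κ 2`, `κ 5 = κ 3`.
Let `M` be the real linear map with `M (d 0) = d 2`, `M (d 1) = d 3`; every real linear map of `ℂ` is
`z ↦ α z + β conj z`. `normSq α - normSq β = [d 2, d 3] / [d 0, d 1] = 1` (`cr_af`). `M (d s) = d (s+2)`
for `s ≤ 4`: `M (d (s+1)) = M (κ s d s - d (s-1)) = κ s d (s+2) - d (s+1)
= κ (s+2) d (s+2) - d (s+1) = d (s+3)` for `s = 1, 2, 3`.
`[M (u a), d (a+b+2)] = [M (u a), M (d (a+b))] = [u a, d (a+b)] = [u (a+1), d (a+b+2)]` for `b = 0, 1`, so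
`M (u a) = u (a+1)` (`eq_zero_of_cr`).
`T z = x 1 + M (z - x 0)`, i.e. `γ = x 1 - M (x 0)`. `T (x 0) = x 1`, `T (x 1) = x 1 - M (u 0) = x 2`,
`T (x 2) = x 2 - M (u 1) = x 3`. `T (y b) = x 1 - M (x 0 - y b) = x 1 - t 0 b • d (b+2)
= x 1 - t 1 (b+1) • d (b+2) = y (b+1)` for `b ≤ 2`, as `t 0 b = [u 0, d (b+1)] = t 1 (b+1)`. -/

namespace Pool.Agent.SimplV

open Complex Module ComplexConjugate Pool.Agent.Simpl

/-- every pair of images of a basis is attained by a real linear map -/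
theorem exists_linear {d₀ d₁ : ℂ} (h : cr d₀ d₁ ≠ 0) (e₀ e₁ : ℂ) :
    ∃ α β : ℂ, af α β 0 d₀ = e₀ ∧ af α β 0 d₁ = e₁ := by
  obtain ⟨D, hD⟩ : ∃ D : ℂ, D = d₀ * conj d₁ - d₁ * conj d₀ := ⟨_, rfl⟩
  have hD0 : D ≠ 0 := by
    intro h0
    apply h
    have h1 := congrArg Complex.im (hD.symm.trans h0)
    simp only [Complex.sub_im, Complex.mul_im, Complex.conj_re, Complex.conj_im,
      Complex.zero_im] at h1
    unfold cr
    linarith
  refine ⟨(e₀ * conj d₁ - e₁ * conj d₀) / D, (d₀ * e₁ - d₁ * e₀) / D, ?_, ?_⟩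
  · unfold af
    field_simp
    rw [hD]
    ring
  · unfold af
    field_simp
    rw [hD]
    ring

private theorem lin_par {u v w : ℂ} (hv : v ≠ 0) (h1 : cr u v = 0) (h2 : cr v w = 0) :
    cr u w = 0 := by
  obtain ⟨t, ht⟩ := exists_smul_of_cr hv h2
  rw [ht, cr_smul_right, h1, mul_zero]

private theorem lin_ne {u v : ℂ} (h : cr u v ≠ 0) : u ≠ 0 ∧ v ≠ 0 := by
  constructor
  · rintro rfl
    apply h
    unfold cr
    simp
  · rintro rfl
    apply h
    unfold cr
    simp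

/-- the directions, normalised -/
private theorem lin_norm (e : ℕ → ℂ) (he : ∀ s ≤ 5, cr (e s) (e (s + 1)) ≠ 0) :
    ∃ (d : ℕ → ℂ) (r : ℕ → ℝ), (∀ s ≤ 6, r s ≠ 0 ∧ e s = r s • d s) ∧
      ∀ s ≤ 5, cr (d s) (d (s + 1)) = 1 := by
  let d : ℕ → ℂ := fun n => Nat.rec (e 0) (fun k dk => (cr dk (e (k + 1)))⁻¹ • e (k + 1)) n
  have hd0 : d 0 = e 0 := rfl
  have hds : ∀ k, d (k + 1) = (cr (d k) (e (k + 1)))⁻¹ • e (k + 1) := fun k => rfl
  have key : ∀ s ≤ 6, ∃ r : ℝ, r ≠ 0 ∧ e s = r • d s := by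
    intro s
    induction s with
    | zero => exact fun _ => ⟨1, one_ne_zero, by rw [hd0, one_smul]⟩
    | succ k ih =>
      intro hk
      obtain ⟨r, hr, hre⟩ := ih (by omega)
      have h1 := he k (by omega)
      rw [hre, cr_smul_left] at h1
      have h2 : cr (d k) (e (k + 1)) ≠ 0 := right_ne_zero_of_mul h1
      exact ⟨_, h2, by rw [hds, smul_smul, mul_inv_cancel₀ h2, one_smul]⟩
  have key2 : ∀ s ≤ 5, cr (d s) (d (s + 1)) = 1 := by
    intro s hs
    obtain ⟨r, hr, hre⟩ := key s (by omega)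
    have h1 := he s hs
    rw [hre, cr_smul_left] at h1
    have h2 : cr (d s) (e (s + 1)) ≠ 0 := right_ne_zero_of_mul h1
    rw [hds, cr_smul_right, inv_mul_cancel₀ h2]
  choose! r hr using key
  exact ⟨d, r, hr, key2⟩

theorem lin (x y : ℕ → ℂ)
    (hpar : ∀ a b : ℕ, a ≤ 2 → b ≤ 2 → cr (x a - y (b + 1)) (x (a + 1) - y b) = 0)
    (hx : ∀ a b : ℕ, a ≤ 2 → b ≤ 3 → cr (x a - y b) (x (a + 1) - y b) ≠ 0)
    (hy : ∀ a b : ℕ, a ≤ 3 → b ≤ 2 → cr (x a - y b) (x a - y (b + 1)) ≠ 0) :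
    ∃ α β γ : ℂ, Complex.normSq α - Complex.normSq β = 1 ∧
      ∀ a : ℕ, a ≤ 2 → af α β γ (x a) = x (a + 1) ∧ af α β γ (y a) = y (a + 1) := by
  have hne : ∀ a b : ℕ, a ≤ 3 → b ≤ 3 → x a - y b ≠ 0 := by
    intro a b ha hb
    rcases Nat.lt_or_ge a 3 with h1 | h1
    · exact (lin_ne (hx a b (by omega) hb)).1
    · obtain rfl : a = 3 := by omega
      exact (lin_ne (hx 2 b le_rfl hb)).2
  have hsw : ∀ a b : ℕ, a ≤ 2 → b ≤ 2 → cr (x (a + 1) - y b) (x a - y (b + 1)) = 0 := by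
    intro a b ha hb
    rw [cr_comm, hpar a b ha hb, neg_zero]
  obtain ⟨e, he⟩ : ∃ e : ℕ → ℂ, e = fun s => if s ≤ 3 then x 0 - y s else x (s - 3) - y 3 :=
    ⟨_, rfl⟩
  have hee : ∀ a b : ℕ, a ≤ 3 → b ≤ 3 → cr (x a - y b) (e (a + b)) = 0 := by
    intro a
    induction a with
    | zero =>
      intro b _ hb
      rw [he]
      simp only [Nat.zero_add, hb, if_true, cr_self]
    | succ k ih =>
      intro b hk hb
      rcases Nat.lt_or_ge b 3 with h1 | h1
      · have h2 := ih (b + 1) (by omega) (by omega)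
        rw [show k + (b + 1) = k + 1 + b by ring] at h2
        exact lin_par (hne k (b + 1) (by omega) (by omega)) (hsw k b (by omega) (by omega)) h2
      · obtain rfl : b = 3 := by omega
        rw [he]
        have h2 : ¬ (k + 1 + 3 ≤ 3) := by omega
        simp only [h2, if_false, Nat.add_sub_cancel, cr_self]
  have hen : ∀ s ≤ 5, cr (e s) (e (s + 1)) ≠ 0 := by
    intro s hs
    rw [he]
    simp only
    rcases Nat.lt_or_ge s 3 with h1 | h1
    · rw [if_pos (by omega), if_pos (by omega)]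
      exact hy 0 s (by omega) (by omega)
    · rcases Nat.eq_or_lt_of_le h1 with h2 | h2
      · subst h2
        rw [if_pos (by omega), if_neg (by omega)]
        exact hx 0 3 (by omega) (by omega)
      · rw [if_neg (by omega), if_neg (by omega)]
        obtain ⟨k, rfl⟩ := Nat.exists_eq_add_of_lt h2
        have h3 := hx (k + 1) 3 (by omega) le_rfl
        rw [show 3 + k + 1 - 3 = k + 1 by omega, show 3 + k + 1 + 1 - 3 = k + 1 + 1 by omega]
        exact h3
  obtain ⟨d, r, hr, hd⟩ := lin_norm e hen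
  have ht0 : ∀ a b : ℕ, a ≤ 3 → b ≤ 3 → ∃ t : ℝ, t ≠ 0 ∧ x a - y b = t • d (a + b) := by
    intro a b ha hb
    obtain ⟨hr1, hr2⟩ := hr (a + b) (by omega)
    have h1 := hee a b ha hb
    rw [hr2, cr_smul_right] at h1
    have h2 : cr (x a - y b) (d (a + b)) = 0 := (mul_eq_zero.1 h1).resolve_left hr1
    have h3 : d (a + b) ≠ 0 := by
      intro h0
      rcases Nat.lt_or_ge (a + b) 6 with h4 | h4
      · exact (lin_ne (by rw [hd (a + b) (by omega)]; exact one_ne_zero :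
          cr (d (a + b)) (d (a + b + 1)) ≠ 0)).1 h0
      · have h5 : a + b = 5 + 1 := by omega
        rw [h5] at h0
        exact (lin_ne (by rw [hd 5 (by omega)]; exact one_ne_zero :
          cr (d 5) (d (5 + 1)) ≠ 0)).2 h0
    obtain ⟨t, ht⟩ := exists_smul_of_cr h3 (by rw [cr_comm, h2, neg_zero])
    refine ⟨t, ?_, ht⟩
    rintro rfl
    rw [zero_smul] at ht
    exact hne a b ha hb ht
  choose! t ht using ht0
  obtain ⟨u, hu⟩ : ∃ u : ℕ → ℂ, ∀ a, u a = x a - x (a + 1) := ⟨fun a => x a - x (a + 1),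
    fun a => rfl⟩
  have hua : ∀ a b : ℕ, a ≤ 2 → b ≤ 3 →
      u a = t a b • d (a + b) - t (a + 1) b • d (a + b + 1) := by
    intro a b ha hb
    rw [← (ht a b (by omega) hb).2]
    have h1 := (ht (a + 1) b (by omega) hb).2
    rw [show a + 1 + b = a + b + 1 by ring] at h1
    rw [← h1, hu]
    ring
  have A1 : ∀ a b : ℕ, a ≤ 2 → b ≤ 3 → cr (u a) (d (a + b + 1)) = t a b := by
    intro a b ha hb
    rw [hua a b ha hb, cr_sub_left, cr_smul_left, cr_smul_left, cr_self, hd (a + b) (by omega)]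
    ring
  have A2 : ∀ a b : ℕ, a ≤ 2 → b ≤ 3 → cr (u a) (d (a + b)) = t (a + 1) b := by
    intro a b ha hb
    rw [hua a b ha hb, cr_sub_left, cr_smul_left, cr_smul_left, cr_self,
      cr_comm (d (a + b + 1)), hd (a + b) (by omega)]
    ring
  obtain ⟨κ, hκ⟩ : ∃ κ : ℕ → ℝ, ∀ s ≤ 4, d (s + 2) = κ (s + 1) • d (s + 1) - d s := by
    refine ⟨fun s => cr (d (s - 1)) (d (s + 1)), fun s hs => ?_⟩
    have e1 := hd s (by omega)
    have e2 := hd (s + 1) (by omega)
    have h1 : cr (d s) (d (s + 1)) ≠ 0 := by rw [e1]; exact one_ne_zero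
    rw [← sub_eq_zero]
    refine eq_zero_of_cr h1 ?_ ?_
    · have h2 : (fun s => cr (d (s - 1)) (d (s + 1))) (s + 1) = cr (d s) (d (s + 2)) := rfl
      rw [cr_sub_left, cr_sub_left, cr_smul_left, cr_self, cr_comm (d (s + 1)) (d s), e1,
        h2, cr_comm (d (s + 2)) (d s)]
      ring
    · rw [cr_sub_left, cr_sub_left, cr_smul_left, cr_self, e1, cr_comm (d (s + 2)), e2]
      ring
  have hst : ∀ a b : ℕ, a ≤ 1 → b ≤ 3 → cr (u (a + 1)) (d (a + b + 2)) = cr (u a) (d (a + b)) := by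
    intro a b ha hb
    rw [A2 a b (by omega) hb, ← A1 (a + 1) b (by omega) hb]
    congr 2
    ring
  have hκ2 : ∀ a b : ℕ, a ≤ 1 → b ≤ 1 → κ (a + b + 3) = κ (a + b + 1) := by
    intro a b ha hb
    have e1 := hst a b ha (by omega)
    have e2 := hst a (b + 1) ha (by omega)
    have e3 := hst a (b + 2) ha (by omega)
    rw [show a + (b + 1) = a + b + 1 by ring] at e2
    rw [show a + (b + 2) = a + b + 2 by ring] at e3
    have e4 := hκ (a + b) (by omega)
    have e5 := hκ (a + b + 2) (by omega)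
    have e6 := A1 a b (by omega) (by omega)
    have e7 := (ht a b (by omega) (by omega)).1
    have e8 : cr (u a) (d (a + b + 2)) = κ (a + b + 1) * t a b - cr (u a) (d (a + b)) := by
      rw [e4, cr_sub_right, cr_smul_right, e6]
    have e9 : cr (u (a + 1)) (d (a + b + 2 + 2)) =
        κ (a + b + 3) * t a b - cr (u (a + 1)) (d (a + b + 2)) := by
      rw [e5, cr_sub_right, cr_smul_right]
      change κ (a + b + 3) * cr (u (a + 1)) (d (a + b + 3)) - _ = _
      rw [show a + b + 3 = a + b + 1 + 2 by ring, e2, e6]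
    have e10 : κ (a + b + 3) * t a b = κ (a + b + 1) * t a b := by linarith
    exact mul_right_cancel₀ e7 e10
  have k31 : κ 3 = κ 1 := hκ2 0 0 (by omega) (by omega)
  have k42 : κ 4 = κ 2 := hκ2 0 1 (by omega) (by omega)
  have k53 : κ 5 = κ 3 := hκ2 1 1 (by omega) (by omega)
  have d2 : d 2 = κ 1 • d 1 - d 0 := hκ 0 (by omega)
  have d3 : d 3 = κ 2 • d 2 - d 1 := hκ 1 (by omega)
  have d4 : d 4 = κ 3 • d 3 - d 2 := hκ 2 (by omega)
  have d5 : d 5 = κ 4 • d 4 - d 3 := hκ 3 (by omega)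
  have d6 : d 6 = κ 5 • d 5 - d 4 := hκ 4 (by omega)
  have h01 : cr (d 0) (d 1) = 1 := hd 0 (by omega)
  have h23 : cr (d 2) (d 3) = 1 := hd 2 (by omega)
  have h34 : cr (d 3) (d 4) = 1 := hd 3 (by omega)
  obtain ⟨α, β, m0, m1⟩ := exists_linear (d₀ := d 0) (d₁ := d 1)
    (by rw [h01]; exact one_ne_zero) (d 2) (d 3)
  have hdet : Complex.normSq α - Complex.normSq β = 1 := by
    have h1 := cr_af α β (d 0) (d 1)
    rw [m0, m1, h01, h23, mul_one] at h1
    exact h1.symm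
  have hM : ∀ z w : ℂ, af α β 0 (z - w) = af α β 0 z - af α β 0 w := fun z w =>
    (af_sub α β 0 z w).symm
  have m2 : af α β 0 (d 2) = d 4 := by
    rw [d4, k31]
    nth_rewrite 1 [d2]
    rw [hM, af_zero_smul, m0, m1]
  have m3 : af α β 0 (d 3) = d 5 := by
    rw [d5, k42]
    nth_rewrite 1 [d3]
    rw [hM, af_zero_smul, m1, m2]
  have m4 : af α β 0 (d 4) = d 6 := by
    rw [d6, k53]
    nth_rewrite 1 [d4]
    rw [hM, af_zero_smul, m2, m3]
  have hcr : ∀ z w : ℂ, cr (af α β 0 z) (af α β 0 w) = cr z w := fun z w => by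
    rw [cr_af, hdet, one_mul]
  have U0 : af α β 0 (u 0) = u 1 := by
    rw [← sub_eq_zero]
    refine eq_zero_of_cr (u := d 2) (v := d 3) (by rw [h23]; exact one_ne_zero) ?_ ?_
    · rw [cr_sub_left]
      have h1 : cr (u 1) (d 2) = cr (u 0) (d 0) := hst 0 0 (by omega) (by omega)
      have h2 := hcr (u 0) (d 0)
      rw [m0] at h2
      rw [h1, h2, sub_self]
    · rw [cr_sub_left]
      have h1 : cr (u 1) (d 3) = cr (u 0) (d 1) := hst 0 1 (by omega) (by omega)
      have h2 := hcr (u 0) (d 1)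
      rw [m1] at h2
      rw [h1, h2, sub_self]
  have U1 : af α β 0 (u 1) = u 2 := by
    rw [← sub_eq_zero]
    refine eq_zero_of_cr (u := d 3) (v := d 4) (by rw [h34]; exact one_ne_zero) ?_ ?_
    · rw [cr_sub_left]
      have h1 : cr (u 2) (d 3) = cr (u 1) (d 1) := hst 1 0 (by omega) (by omega)
      have h2 := hcr (u 1) (d 1)
      rw [m1] at h2
      rw [h1, h2, sub_self]
    · rw [cr_sub_left]
      have h1 : cr (u 2) (d 4) = cr (u 1) (d 2) := hst 1 1 (by omega) (by omega)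
      have h2 := hcr (u 1) (d 2)
      rw [m2] at h2
      rw [h1, h2, sub_self]
  have hT : ∀ z, af α β (x 1 - af α β 0 (x 0)) z = x 1 - af α β 0 (x 0 - z) := by
    intro z
    rw [hM]
    unfold af
    ring
  refine ⟨α, β, x 1 - af α β 0 (x 0), hdet, fun a ha => ⟨?_, ?_⟩⟩
  · rw [hT]
    rw [hu] at U0 U1
    rw [hu] at U0 U1
    interval_cases a
    · have h0 : af α β 0 (x 0 - x 0) = 0 := by
        rw [sub_self]
        unfold af
        simp
      rw [h0, sub_zero]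
    · rw [U0]
      ring
    · rw [show x 0 - x 2 = (x 0 - x (0 + 1)) - (x 2 - x (1)) by ring, hM, U0]
      have h1 : af α β 0 (x 2 - x 1) = -(x 2 - x 3) := by
        have h2 := hM 0 (x 1 - x (1 + 1))
        rw [U1, zero_sub, neg_sub] at h2
        have h3 : af α β 0 0 = 0 := by
          unfold af
          simp
        rw [h3, zero_sub] at h2
        exact h2
      rw [h1]
      ring
  · rw [hT]
    have e1 := (ht 0 a (by omega) (by omega)).2
    have e2 := (ht 1 (a + 1) (by omega) (by omega)).2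
    have e3 : t 0 a = t 1 (a + 1) := by
      have f1 := A1 0 a (by omega) (by omega)
      have f2 := A2 0 (a + 1) (by omega) (by omega)
      rw [← f1, ← f2]
      congr 2
    have e4 : af α β 0 (d (0 + a)) = d (1 + (a + 1)) := by
      interval_cases a
      · exact m0
      · exact m1
      · exact m2
    rw [e1, af_zero_smul, e4, e3, ← e2]
    ring

end Pool.Agent.SimplV
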