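import Pool.Agent.SimplV.Convex
import Pool.Agent.SimplV.Lin

set_option autoImplicit false

/-! # One affine map (HM_Proof.md, 4.2)

For `i ∈ G` with `8 ≤ j₀ - i ≤ m - 6`, `Window θ q i j₀`: apply `lin` to `x a = q (i + 2a)`,
`y b = q (j₀ + 2b)`. `hpar`: from `Good θ q (i + 2a) (j₀ + 2b)`:
`cr (q (j₀+2b) - q (i+2a+2)) (q (j₀+2b+2) - q (i+2a)) = 0`, up to signs and order.
`hx`: `cr (x a - y b) (x (a+1) - y b) = cr (x (a+1) - x a) (y b - x (a+1))` up to sign, not zero by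
`Poly.cr_pos_left` (positions `i + 2a`, `j₀ + 2b`: the difference is in `[4, m]`). `hy`:
`Poly.cr_pos_right` in the same way (difference in `[2, m-2]`). It gives `T_i` with
`T_i (q (i+2a)) = q (i+2a+2)`, `T_i (q (j₀+2b)) = q (j₀+2b+2)`, `a, b ≤ 2`. The case
`8 ≤ i - j₀ ≤ m - 6`, `Window θ q j₀ i` is the same with the roles exchanged.
All the `T_i` agree at `q j₀`, `q (j₀+2)`, `q (j₀+4)`, which are not collinear (`Poly.cr_pos_left` with
`j = i + 4`), so they are equal (`af_unique`). If `G` is empty there is nothing to prove for the elements of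
`G`, but the statement about `j₀` needs an element, so `G.Nonempty` is assumed. -/

namespace Pool.Agent.SimplV

open Complex Module ComplexConjugate Pool.Agent.Simpl

theorem af_unique {α β γ α' β' γ' x y z : ℂ} (h : cr (y - x) (z - x) ≠ 0)
    (hx : af α β γ x = af α' β' γ' x) (hy : af α β γ y = af α' β' γ' y)
    (hz : af α β γ z = af α' β' γ' z) : α = α' ∧ β = β' ∧ γ = γ' := by
  unfold af at hx hy hz
  have hne : (y - x) * conj (z - x) - (z - x) * conj (y - x) ≠ 0 := by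
    intro h0
    apply h
    have h1 := congrArg Complex.im h0
    simp only [Complex.sub_im, Complex.mul_im, Complex.conj_re, Complex.conj_im, Complex.sub_re,
      Complex.zero_im] at h1
    unfold cr
    simp only [Complex.sub_re, Complex.sub_im]
    linear_combination (-1 / 2 : ℝ) * h1
  have e1 : (α - α') * (y - x) + (β - β') * conj (y - x) = 0 := by
    rw [map_sub]
    linear_combination hy - hx
  have e2 : (α - α') * (z - x) + (β - β') * conj (z - x) = 0 := by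
    rw [map_sub]
    linear_combination hz - hx
  have ha : α - α' = 0 := by
    apply mul_right_cancel₀ hne
    linear_combination conj (z - x) * e1 - conj (y - x) * e2
  have hb : β - β' = 0 := by
    apply mul_right_cancel₀ hne
    linear_combination (y - x) * e2 - (z - x) * e1
  refine ⟨sub_eq_zero.1 ha, sub_eq_zero.1 hb, ?_⟩
  linear_combination hx - x * ha - conj x * hb

private theorem ext_one {m : ℕ} {θ : ℤ → ℝ} {q : ℤ → ℂ} {c : ℤ → ℝ} (h : Poly m θ q c)
    {i j : ℤ} (h8 : 8 ≤ j - i) (h6 : j - i ≤ m - 6) (hW : Window θ q i j) :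
    ∃ α β γ : ℂ, Complex.normSq α - Complex.normSq β = 1 ∧
      (af α β γ (q i) = q (i + 2) ∧ af α β γ (q (i + 2)) = q (i + 4) ∧
        af α β γ (q (i + 4)) = q (i + 6)) ∧
      (af α β γ (q j) = q (j + 2) ∧ af α β γ (q (j + 2)) = q (j + 4) ∧
        af α β γ (q (j + 4)) = q (j + 6)) := by
  obtain ⟨α, β, γ, hn, hT⟩ := lin (fun a : ℕ => q (i + 2 * a)) (fun b : ℕ => q (j + 2 * b))
    (by
      intro a b ha hb
      have h1 := (hW a b (by positivity) (by exact_mod_cast ha) (by positivity)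
        (by exact_mod_cast hb)).2
      have e1 : i + 2 * ((a + 1 : ℕ) : ℤ) = i + 2 * a + 2 := by push_cast; ring
      have e2 : j + 2 * ((b + 1 : ℕ) : ℤ) = j + 2 * b + 2 := by push_cast; ring
      simp only [e1, e2]
      rw [← neg_sub (q (j + 2 * b + 2)), ← neg_sub (q (j + 2 * b)), cr_neg_left, cr_neg_right,
        neg_neg, cr_comm, h1, neg_zero])
    (by
      intro a b ha hb
      have e1 : i + 2 * ((a + 1 : ℕ) : ℤ) = i + 2 * a + 2 := by push_cast; ring
      simp only [e1]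
      have h1 := h.cr_pos_left (i := i + 2 * a) (j := j + 2 * b) (by omega) (by omega)
      have h2 : cr (q (i + 2 * a) - q (j + 2 * b)) (q (i + 2 * a + 2) - q (j + 2 * b)) =
          cr (q (i + 2 * a + 2) - q (i + 2 * a)) (q (j + 2 * b) - q (i + 2 * a + 2)) := by
        unfold cr
        simp only [Complex.sub_re, Complex.sub_im]
        ring
      rw [h2]
      exact h1.ne')
    (by
      intro a b ha hb
      have e2 : j + 2 * ((b + 1 : ℕ) : ℤ) = j + 2 * b + 2 := by push_cast; ring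
      simp only [e2]
      have h1 := h.cr_pos_right (i := i + 2 * a) (j := j + 2 * b) (by omega) (by omega)
      have h2 : cr (q (i + 2 * a) - q (j + 2 * b)) (q (i + 2 * a) - q (j + 2 * b + 2)) =
          cr (q (j + 2 * b) - q (i + 2 * a)) (q (j + 2 * b + 2) - q (j + 2 * b)) := by
        unfold cr
        simp only [Complex.sub_re, Complex.sub_im]
        ring
      rw [h2]
      exact h1.ne')
  have h0 := hT 0 (by omega)
  have h1 := hT 1 (by omega)
  have h2 := hT 2 (by omega)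
  simp only [Nat.cast_zero, mul_zero, add_zero, zero_add, Nat.cast_one, mul_one, Nat.reduceAdd,
    Nat.cast_ofNat] at h0 h1 h2
  norm_num at h0 h1 h2
  exact ⟨α, β, γ, hn, ⟨h0.1, h1.1, h2.1⟩, ⟨h0.2, h1.2, h2.2⟩⟩

theorem exists_T {m : ℕ} {θ : ℤ → ℝ} {q : ℤ → ℂ} {c : ℤ → ℝ} (h : Poly m θ q c) (hm : 20 ≤ m)
    {j₀ : ℤ} {G : Finset ℤ} (hne : G.Nonempty)
    (hG : ∀ i ∈ G, (8 ≤ j₀ - i ∧ j₀ - i ≤ m - 6 ∧ Window θ q i j₀) ∨
        (8 ≤ i - j₀ ∧ i - j₀ ≤ m - 6 ∧ Window θ q j₀ i)) :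
    ∃ α β γ : ℂ, Complex.normSq α - Complex.normSq β = 1 ∧
      af α β γ (q j₀) = q (j₀ + 2) ∧
      ∀ i ∈ G, af α β γ (q i) = q (i + 2) ∧ af α β γ (q (i + 2)) = q (i + 4) ∧
        cr (q i - q (j₀ + 2)) (q (i + 2) - q j₀) = 0 := by
  have key : ∀ i ∈ G, ∃ α β γ : ℂ, Complex.normSq α - Complex.normSq β = 1 ∧
      (af α β γ (q i) = q (i + 2) ∧ af α β γ (q (i + 2)) = q (i + 4)) ∧
      (af α β γ (q j₀) = q (j₀ + 2) ∧ af α β γ (q (j₀ + 2)) = q (j₀ + 4) ∧
        af α β γ (q (j₀ + 4)) = q (j₀ + 6)) ∧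
      cr (q i - q (j₀ + 2)) (q (i + 2) - q j₀) = 0 := by
    intro i hi
    rcases hG i hi with ⟨h1, h2, h3⟩ | ⟨h1, h2, h3⟩
    · obtain ⟨α, β, γ, hn, ha, hb⟩ := ext_one h h1 h2 h3
      refine ⟨α, β, γ, hn, ⟨ha.1, ha.2.1⟩, hb, ?_⟩
      have h4 := (h3 0 0 le_rfl (by norm_num) le_rfl (by norm_num)).2
      simp only [mul_zero, add_zero] at h4
      rw [← neg_sub (q (j₀ + 2)), ← neg_sub (q j₀), cr_neg_left, cr_neg_right, neg_neg, cr_comm,
        h4, neg_zero]
    · obtain ⟨α, β, γ, hn, ha, hb⟩ := ext_one h h1 h2 h3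
      refine ⟨α, β, γ, hn, ⟨hb.1, hb.2.1⟩, ha, ?_⟩
      have h4 := (h3 0 0 le_rfl (by norm_num) le_rfl (by norm_num)).2
      simp only [mul_zero, add_zero] at h4
      exact h4
  obtain ⟨i₀, hi₀⟩ := hne
  obtain ⟨α, β, γ, hn, -, hb, -⟩ := key i₀ hi₀
  refine ⟨α, β, γ, hn, hb.1, fun i hi => ?_⟩
  obtain ⟨α', β', γ', hn', ha', hb', hc'⟩ := key i hi
  have hcr : cr (q (j₀ + 2) - q j₀) (q (j₀ + 4) - q j₀) ≠ 0 := by
    have h1 := h.cr_pos_left (i := j₀) (j := j₀ + 4) (by omega) (by omega)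
    have h2 : cr (q (j₀ + 2) - q j₀) (q (j₀ + 4) - q j₀) =
        cr (q (j₀ + 2) - q j₀) (q (j₀ + 4) - q (j₀ + 2)) := by
      unfold cr
      simp only [Complex.sub_re, Complex.sub_im]
      ring
    rw [h2]
    exact h1.ne'
  obtain ⟨rfl, rfl, rfl⟩ := af_unique hcr (hb.1.trans hb'.1.symm) (hb.2.1.trans hb'.2.1.symm)
    (hb.2.2.trans hb'.2.2.symm)
  exact ⟨ha'.1, ha'.2, hc'⟩

end Pool.Agent.SimplV
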