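import Mathlib

set_option autoImplicit false

/-! # A set with few products outside a small set is nearly a coset (HM_Proof.md, 7.1)

`k = 2 h₂ + h₁`, `12 k ≤ 1`, `N = X.card > 0`.
(a) `X' = {x ∈ X : #{y ∈ X : x * y ∉ B} ≤ h₂ N}`: `|X \ X'| h₂ N ≤ h₂² N²`, so `|X'| ≥ (1 - h₂) N` if
`h₂ > 0`; if `h₂ = 0` no pair is bad and `X' = X`.
(b) for `x, x' ∈ X'`: `x X ∩ B` and `x' X ∩ B` have at least `(1 - h₂) N` elements, so
`|x X ∩ x' X| ≥ 2 (1 - h₂) N - |B| ≥ (1 - k) N`.
(c) For `c < 1` let `S c = {z : |z X ∩ X| ≥ (1 - c) N}` (finite: `z = y / x`, `x, y ∈ X`);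
`x'⁻¹ x ∈ S k` for `x, x' ∈ X'` (b). `1 ∈ S c` for `c ≥ 0`; `S c` is closed under inverses
(`|z⁻¹ X ∩ X| = |X ∩ z X|`); `S c * S d ⊆ S (c + d)`:
`|z w X ∩ X| ≥ |z w X ∩ z X| + |z X ∩ X| - |z X|`. `|S c| (1 - c) N ≤ ∑_z |z X ∩ X| ≤ N²`, so
`|S c| (1 - c) ≤ N`.
(d) `S (4k) ⊆ S (2k)`: for `w ∈ S (4k)` the sets `w S k` and `S k` are in `S (5k)`, `|S k| ≥ |X'|
≥ (1 - h₂) N` (`x'⁻¹ X' ⊆ S k`), and `2 (1 - h₂) N > N / (1 - 5k) ≥ |S (5k)|` (`h₂ ≤ 1/24`, `k ≤ 1/12`:
`23/12 > 12/7`), so they meet: `w = a b⁻¹`, `a, b ∈ S k`, `w ∈ S (2k)`.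
(e) `H = S (2k)`: closed under products (`S (2k) S (2k) ⊆ S (4k) ⊆ S (2k)`) and inverses,
`(1 - 2k) |H| ≤ N`. `x₀ ∈ X'` (nonempty): `x₀⁻¹ x ∈ S k ⊆ H` for `x ∈ X'`. -/

namespace Pool.Agent.SimplV

/-- number of `x ∈ X` with `z * x ∈ X` -/
private noncomputable def rr {G : Type} [CommGroup G] [DecidableEq G] (X : Finset G) (z : G) : ℝ :=
  ((X.filter fun x => z * x ∈ X).card : ℝ)

private noncomputable def SS {G : Type} [CommGroup G] [DecidableEq G] (X : Finset G) (c : ℝ) :
    Finset G := by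
  classical
  exact ((X ×ˢ X).image fun p : G × G => p.2 * p.1⁻¹).filter fun z => (1 - c) * X.card ≤ rr X z

private lemma mem_SS {G : Type} [CommGroup G] [DecidableEq G] {X : Finset G} (hX : X.Nonempty)
    {c : ℝ} (hc : c < 1) (z : G) : z ∈ SS X c ↔ (1 - c) * X.card ≤ rr X z := by
  classical
  unfold SS
  rw [Finset.mem_filter]
  refine ⟨fun h => h.2, fun h => ⟨?_, h⟩⟩
  have hN : (0 : ℝ) < X.card := by exact_mod_cast hX.card_pos
  have hpos : 0 < rr X z := lt_of_lt_of_le (mul_pos (by linarith) hN) h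
  unfold rr at hpos
  have hpos' : 0 < (X.filter fun x => z * x ∈ X).card := by exact_mod_cast hpos
  obtain ⟨x, hx⟩ := Finset.card_pos.1 hpos'
  rw [Finset.mem_filter] at hx
  rw [Finset.mem_image]
  exact ⟨(x, z * x), Finset.mem_product.2 ⟨hx.1, hx.2⟩, by simp⟩

private lemma rr_one {G : Type} [CommGroup G] [DecidableEq G] (X : Finset G) :
    rr X 1 = X.card := by
  unfold rr
  congr 2
  apply Finset.filter_true_of_mem
  intro x hx
  simpa using hx

private lemma rr_inv {G : Type} [CommGroup G] [DecidableEq G] (X : Finset G) (z : G) :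
    rr X z⁻¹ = rr X z := by
  unfold rr
  congr 1
  refine Finset.card_bij (fun x _ => z⁻¹ * x) ?_ ?_ ?_
  · intro x hx
    rw [Finset.mem_filter] at hx ⊢
    exact ⟨hx.2, by simpa using hx.1⟩
  · intro a _ b _ h
    exact mul_left_cancel h
  · intro y hy
    rw [Finset.mem_filter] at hy
    refine ⟨z * y, ?_, by simp⟩
    rw [Finset.mem_filter]
    exact ⟨hy.2, by simpa using hy.1⟩

private lemma rr_mul {G : Type} [CommGroup G] [DecidableEq G] (X : Finset G) (z w : G) :
    rr X z + rr X w - X.card ≤ rr X (z * w) := by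
  unfold rr
  have h1 : (X.filter fun x => w * x ∈ X).card ≤
      (X.filter fun x => z * w * x ∈ X).card + (X.filter fun x => z * x ∉ X).card := by
    have hsub : (X.filter fun x => w * x ∈ X) ⊆
        (X.filter fun x => z * w * x ∈ X) ∪
          ((X.filter fun x => z * x ∉ X).image fun y => w⁻¹ * y) := by
      intro x hx
      rw [Finset.mem_filter] at hx
      rw [Finset.mem_union]
      by_cases h : z * w * x ∈ X
      · left
        rw [Finset.mem_filter]
        exact ⟨hx.1, h⟩
      · right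
        rw [Finset.mem_image]
        refine ⟨w * x, ?_, by simp⟩
        rw [Finset.mem_filter]
        exact ⟨hx.2, by rwa [← mul_assoc]⟩
    refine (Finset.card_le_card hsub).trans ((Finset.card_union_le _ _).trans ?_)
    exact Nat.add_le_add_left Finset.card_image_le _
  have h2 : (X.filter fun x => z * x ∈ X).card + (X.filter fun x => z * x ∉ X).card = X.card :=
    Finset.card_filter_add_card_filter_not _
  have h1' : ((X.filter fun x => w * x ∈ X).card : ℝ) ≤
      (X.filter fun x => z * w * x ∈ X).card + (X.filter fun x => z * x ∉ X).card := by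
    exact_mod_cast h1
  have h2' : ((X.filter fun x => z * x ∈ X).card : ℝ) + (X.filter fun x => z * x ∉ X).card =
      X.card := by exact_mod_cast h2
  linarith

private lemma SS_card {G : Type} [CommGroup G] [DecidableEq G] {X : Finset G} (hX : X.Nonempty)
    {c : ℝ} (hc : c < 1) : (1 - c) * (SS X c).card ≤ X.card := by
  classical
  have hN : (0 : ℝ) < X.card := by exact_mod_cast hX.card_pos
  have h1 : ∑ z ∈ SS X c, (X.filter fun x => z * x ∈ X).card ≤ X.card * X.card := by
    rw [← Finset.card_product,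
      ← Finset.card_sigma (SS X c) (fun z => X.filter fun x => z * x ∈ X)]
    refine Finset.card_le_card_of_injOn (fun p : (_ : G) × G => (p.2, p.1 * p.2)) ?_ ?_
    · intro p hp
      have hp' := Finset.mem_sigma.1 (Finset.mem_coe.1 hp)
      have hp2 := Finset.mem_filter.1 hp'.2
      exact Finset.mem_coe.2 (Finset.mem_product.2 ⟨hp2.1, hp2.2⟩)
    · rintro ⟨a, b⟩ _ ⟨a', b'⟩ _ h
      have hb : b = b' := congrArg Prod.fst h
      have ha : a * b = a' * b' := congrArg Prod.snd h
      subst hb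
      have : a = a' := mul_right_cancel ha
      subst this
      rfl
  have h2 : ((SS X c).card : ℝ) * ((1 - c) * X.card) ≤ X.card * X.card := by
    calc ((SS X c).card : ℝ) * ((1 - c) * X.card) = ∑ _z ∈ SS X c, (1 - c) * (X.card : ℝ) := by
          rw [Finset.sum_const, nsmul_eq_mul]
      _ ≤ ∑ z ∈ SS X c, rr X z := Finset.sum_le_sum fun z hz => (mem_SS hX hc z).1 hz
      _ = ((∑ z ∈ SS X c, (X.filter fun x => z * x ∈ X).card : ℕ) : ℝ) := by
          unfold rr
          push_cast
          rfl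
      _ ≤ ((X.card * X.card : ℕ) : ℝ) := by exact_mod_cast h1
      _ = X.card * X.card := by push_cast; rfl
  have h3 : ((1 - c) * (SS X c).card) * X.card ≤ (X.card : ℝ) * X.card := by
    calc ((1 - c) * (SS X c).card) * (X.card : ℝ) = ((SS X c).card : ℝ) * ((1 - c) * X.card) := by
          ring
      _ ≤ _ := h2
  exact le_of_mul_le_mul_right h3 hN

private lemma diff_mem {G : Type} [CommGroup G] [DecidableEq G] {X B : Finset G}
    {h₁ h₂ : ℝ} (hB : (B.card : ℝ) ≤ (1 + h₁) * X.card) {x x' : G}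
    (hx : ((X.filter fun y => x * y ∉ B).card : ℝ) ≤ h₂ * X.card)
    (hx' : ((X.filter fun y => x' * y ∉ B).card : ℝ) ≤ h₂ * X.card) :
    (1 - (2 * h₂ + h₁)) * X.card ≤ rr X (x'⁻¹ * x) := by
  set U := (X.filter fun y => x * y ∈ B).image fun y => x * y with hU
  set V := (X.filter fun y => x' * y ∈ B).image fun y => x' * y with hV
  have hUc : U.card = (X.filter fun y => x * y ∈ B).card :=
    Finset.card_image_of_injective _ (mul_right_injective x)
  have hVc : V.card = (X.filter fun y => x' * y ∈ B).card :=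
    Finset.card_image_of_injective _ (mul_right_injective x')
  have hUB : U ⊆ B := by
    intro b hb
    obtain ⟨y, hy, rfl⟩ := Finset.mem_image.1 hb
    exact (Finset.mem_filter.1 hy).2
  have hVB : V ⊆ B := by
    intro b hb
    obtain ⟨y, hy, rfl⟩ := Finset.mem_image.1 hb
    exact (Finset.mem_filter.1 hy).2
  have h1 : (X.filter fun y => x * y ∈ B).card + (X.filter fun y => x * y ∉ B).card = X.card :=
    Finset.card_filter_add_card_filter_not _
  have h2 : (X.filter fun y => x' * y ∈ B).card + (X.filter fun y => x' * y ∉ B).card = X.card :=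
    Finset.card_filter_add_card_filter_not _
  have h3 : (U ∪ V).card + (U ∩ V).card = U.card + V.card := Finset.card_union_add_card_inter U V
  have h4 : (U ∪ V).card ≤ B.card := Finset.card_le_card (Finset.union_subset hUB hVB)
  have h5 : (U ∩ V).card ≤ (X.filter fun y => x'⁻¹ * x * y ∈ X).card := by
    refine Finset.card_le_card_of_injOn (fun b => x⁻¹ * b) ?_ ?_
    · intro b hb
      have hb' := Finset.mem_inter.1 (Finset.mem_coe.1 hb)
      obtain ⟨y, hy, hyb⟩ := Finset.mem_image.1 hb'.1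
      obtain ⟨y', hy', hyb'⟩ := Finset.mem_image.1 hb'.2
      have hyX := (Finset.mem_filter.1 hy).1
      have hyX' := (Finset.mem_filter.1 hy').1
      refine Finset.mem_coe.2 (Finset.mem_filter.2 ⟨?_, ?_⟩)
      · have : x⁻¹ * b = y := by rw [← hyb]; simp
        simpa [this] using hyX
      · have : x'⁻¹ * x * (x⁻¹ * b) = y' := by
          rw [← hyb']
          simp only [mul_assoc, mul_inv_cancel_left, inv_mul_cancel_left]
        simpa [this] using hyX'
    · intro a _ b _ h
      exact mul_left_cancel h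
  unfold rr
  have h1' : ((X.filter fun y => x * y ∈ B).card : ℝ) + (X.filter fun y => x * y ∉ B).card =
      X.card := by exact_mod_cast h1
  have h2' : ((X.filter fun y => x' * y ∈ B).card : ℝ) + (X.filter fun y => x' * y ∉ B).card =
      X.card := by exact_mod_cast h2
  have h3' : ((U ∪ V).card : ℝ) + (U ∩ V).card = U.card + V.card := by exact_mod_cast h3
  have h4' : ((U ∪ V).card : ℝ) ≤ B.card := by exact_mod_cast h4
  have h5' : ((U ∩ V).card : ℝ) ≤ (X.filter fun y => x'⁻¹ * x * y ∈ X).card := by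
    exact_mod_cast h5
  have hUc' : (U.card : ℝ) = (X.filter fun y => x * y ∈ B).card := by exact_mod_cast hUc
  have hVc' : (V.card : ℝ) = (X.filter fun y => x' * y ∈ B).card := by exact_mod_cast hVc
  nlinarith

private lemma card_good {G : Type} [CommGroup G] [DecidableEq G] (X B : Finset G)
    (hX : X.Nonempty) (h₂ : ℝ) (hh₂ : 0 ≤ h₂)
    (hXB : (((X ×ˢ X).filter fun x : G × G => x.1 * x.2 ∉ B).card : ℝ) ≤ h₂ ^ 2 * X.card ^ 2)
    (X' : Finset G)
    (hX' : ∀ x, x ∈ X' ↔ x ∈ X ∧ ((X.filter fun y => x * y ∉ B).card : ℝ) ≤ h₂ * X.card) :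
    (1 - h₂) * X.card ≤ (X'.card : ℝ) := by
  have hN : (0 : ℝ) < X.card := by exact_mod_cast hX.card_pos
  have hsub : X' ⊆ X := fun x hx => ((hX' x).1 hx).1
  have hsum : ∑ x ∈ X, (X.filter fun y => x * y ∉ B).card =
      ((X ×ˢ X).filter fun x : G × G => x.1 * x.2 ∉ B).card := by
    rw [Finset.card_filter, Finset.sum_product]
    refine Finset.sum_congr rfl fun x _ => ?_
    rw [Finset.card_filter]
  have hsum' : ∑ x ∈ X, ((X.filter fun y => x * y ∉ B).card : ℝ) ≤ h₂ ^ 2 * X.card ^ 2 := by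
    have : ∑ x ∈ X, ((X.filter fun y => x * y ∉ B).card : ℝ) =
        (((X ×ˢ X).filter fun x : G × G => x.1 * x.2 ∉ B).card : ℝ) := by
      rw [← hsum]
      push_cast
      rfl
    rw [this]
    exact hXB
  have hd : (X'.card : ℝ) = X.card - (X \ X').card := by
    have := Finset.card_sdiff_add_card_eq_card hsub
    have h' : (((X \ X').card : ℝ)) + X'.card = X.card := by exact_mod_cast this
    linarith
  rcases hh₂.eq_or_lt with h0 | hpos
  · -- h₂ = 0
    subst h0
    have hz : ∀ x ∈ X, ((X.filter fun y => x * y ∉ B).card : ℝ) ≤ 0 := by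
      intro x hx
      have : ((X.filter fun y => x * y ∉ B).card : ℝ) ≤
          ∑ x ∈ X, ((X.filter fun y => x * y ∉ B).card : ℝ) :=
        Finset.single_le_sum (f := fun x => ((X.filter fun y => x * y ∉ B).card : ℝ))
          (fun i _ => Nat.cast_nonneg _) hx
      refine this.trans (hsum'.trans ?_)
      simp
    have : X \ X' = ∅ := by
      rw [Finset.sdiff_eq_empty_iff_subset]
      intro x hx
      rw [hX']
      exact ⟨hx, by simpa using hz x hx⟩
    rw [hd, this]
    simp
  · have h1 : ((X \ X').card : ℝ) * (h₂ * X.card) ≤ h₂ ^ 2 * X.card ^ 2 := by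
      calc ((X \ X').card : ℝ) * (h₂ * X.card) = ∑ _x ∈ X \ X', h₂ * (X.card : ℝ) := by
            rw [Finset.sum_const, nsmul_eq_mul]
        _ ≤ ∑ x ∈ X \ X', ((X.filter fun y => x * y ∉ B).card : ℝ) := by
            refine Finset.sum_le_sum fun x hx => ?_
            rw [Finset.mem_sdiff] at hx
            by_contra hcon
            exact hx.2 ((hX' x).2 ⟨hx.1, (not_le.1 hcon).le⟩)
        _ ≤ ∑ x ∈ X, ((X.filter fun y => x * y ∉ B).card : ℝ) :=
            Finset.sum_le_sum_of_subset_of_nonneg Finset.sdiff_subset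
              fun i _ _ => Nat.cast_nonneg _
        _ ≤ _ := hsum'
    have h2 : ((X \ X').card : ℝ) ≤ h₂ * X.card := by
      have h3 : ((X \ X').card : ℝ) * (h₂ * X.card) ≤ (h₂ * X.card) * (h₂ * X.card) := by
        calc _ ≤ _ := h1
          _ = _ := by ring
      exact le_of_mul_le_mul_right h3 (mul_pos hpos hN)
    rw [hd]
    linarith

theorem fre {G : Type} [CommGroup G] [DecidableEq G] (X B : Finset G) (hX : X.Nonempty)
    (h₁ h₂ : ℝ) (hh₁ : 0 ≤ h₁) (hh₂ : 0 ≤ h₂) (hk : 12 * (2 * h₂ + h₁) ≤ 1)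
    (hB : (B.card : ℝ) ≤ (1 + h₁) * X.card)
    (hXB : (((X ×ˢ X).filter fun x : G × G => x.1 * x.2 ∉ B).card : ℝ) ≤ h₂ ^ 2 * X.card ^ 2) :
    ∃ H : Finset G, 1 ∈ H ∧ (∀ a ∈ H, ∀ b ∈ H, a * b ∈ H) ∧
      (1 - 2 * (2 * h₂ + h₁)) * H.card ≤ X.card ∧
      ∃ x₀ ∈ X, (1 - h₂) * X.card ≤ ((X.filter fun x => x₀⁻¹ * x ∈ H).card : ℝ) := by
  classical
  have hN : (0 : ℝ) < X.card := by exact_mod_cast hX.card_pos
  obtain ⟨k, hkd⟩ : ∃ k, k = 2 * h₂ + h₁ := ⟨_, rfl⟩
  rw [← hkd] at hk ⊢
  have hk0 : 0 ≤ k := by rw [hkd]; positivity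
  have hk1 : k ≤ 1 / 12 := by linarith
  have hh2 : h₂ ≤ 1 / 24 := by linarith
  set X' := X.filter fun x => ((X.filter fun y => x * y ∉ B).card : ℝ) ≤ h₂ * X.card with hX'
  have hmem : ∀ x, x ∈ X' ↔ x ∈ X ∧ ((X.filter fun y => x * y ∉ B).card : ℝ) ≤ h₂ * X.card :=
    fun x => by rw [hX', Finset.mem_filter]
  have hcard := card_good X B hX h₂ hh₂ hXB X' hmem
  have hX'ne : X'.Nonempty := by
    rw [← Finset.card_pos]
    have : (0 : ℝ) < X'.card := lt_of_lt_of_le (mul_pos (by linarith) hN) hcard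
    exact_mod_cast this
  obtain ⟨x₀, hx₀⟩ := hX'ne
  have hdiff : ∀ x ∈ X', ∀ x' ∈ X', x'⁻¹ * x ∈ SS X k := by
    intro x hx x' hx'
    rw [mem_SS hX (by linarith)]
    have := diff_mem hB ((hmem x).1 hx).2 ((hmem x').1 hx').2
    rwa [hkd]
  have hSk : (1 - h₂) * X.card ≤ ((SS X k).card : ℝ) := by
    refine hcard.trans ?_
    have : X'.card ≤ (SS X k).card :=
      Finset.card_le_card_of_injOn (fun x => x₀⁻¹ * x)
        (fun x hx => Finset.mem_coe.2 (hdiff x (Finset.mem_coe.1 hx) x₀ hx₀))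
        (fun a _ b _ h => mul_left_cancel h)
    exact_mod_cast this
  have hmul : ∀ c d : ℝ, c < 1 → d < 1 → c + d < 1 → ∀ a ∈ SS X c, ∀ b ∈ SS X d,
      a * b ∈ SS X (c + d) := by
    intro c d hc hd hcd a ha b hb
    rw [mem_SS hX hc] at ha
    rw [mem_SS hX hd] at hb
    rw [mem_SS hX hcd]
    have := rr_mul X a b
    nlinarith
  have hinv : ∀ c : ℝ, c < 1 → ∀ a ∈ SS X c, a⁻¹ ∈ SS X c := by
    intro c hc a ha
    rw [mem_SS hX hc] at ha ⊢
    rwa [rr_inv]
  have hmono : ∀ c d : ℝ, c < 1 → d < 1 → c ≤ d → SS X c ⊆ SS X d := by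
    intro c d hc hd hcd a ha
    rw [mem_SS hX hc] at ha
    rw [mem_SS hX hd]
    refine le_trans ?_ ha
    nlinarith
  have h42 : ∀ w ∈ SS X (4 * k), w ∈ SS X (2 * k) := by
    intro w hw
    have hne : ((SS X k).image (fun b => w * b) ∩ SS X k).Nonempty := by
      by_contra hcon
      rw [Finset.not_nonempty_iff_eq_empty] at hcon
      have hu : ((SS X k).image (fun b => w * b) ∪ SS X k).card = (SS X k).card + (SS X k).card := by
        have h := Finset.card_union_add_card_inter ((SS X k).image (fun b => w * b)) (SS X k)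
        rw [hcon, Finset.card_empty, Nat.add_zero,
          Finset.card_image_of_injective _ (mul_right_injective w)] at h
        exact h
      have hsub : ((SS X k).image (fun b => w * b) ∪ SS X k) ⊆ SS X (4 * k + k) := by
        apply Finset.union_subset
        · intro y hy
          obtain ⟨b, hb, rfl⟩ := Finset.mem_image.1 hy
          exact hmul _ _ (by linarith) (by linarith) (by linarith) w hw b hb
        · exact hmono _ _ (by linarith) (by linarith) (by linarith)
      have hc1 := Finset.card_le_card hsub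
      rw [hu] at hc1
      have hc2 : ((SS X k).card : ℝ) + (SS X k).card ≤ (SS X (4 * k + k)).card := by
        exact_mod_cast hc1
      have hc3 := SS_card hX (c := 4 * k + k) (by linarith)
      have hc4 : (1 - (4 * k + k)) * (2 * ((1 - h₂) * X.card)) ≤ X.card := by
        refine le_trans ?_ hc3
        apply mul_le_mul_of_nonneg_left _ (by linarith)
        linarith
      have hc5 : (7 / 12 : ℝ) * (2 * (23 / 24 * X.card)) ≤ X.card := by
        refine le_trans ?_ hc4
        apply mul_le_mul (by linarith) _ (by positivity) (by linarith)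
        apply mul_le_mul_of_nonneg_left _ (by norm_num)
        apply mul_le_mul_of_nonneg_right (by linarith) hN.le
      linarith
    obtain ⟨a, ha⟩ := hne
    rw [Finset.mem_inter, Finset.mem_image] at ha
    obtain ⟨⟨b, hb, hab⟩, ha⟩ := ha
    have hw' : w = a * b⁻¹ := by rw [← hab]; simp
    rw [hw', two_mul]
    exact hmul _ _ (by linarith) (by linarith) (by linarith) a ha _
      (hinv _ (by linarith) b hb)
  refine ⟨SS X (2 * k), ?_, ?_, ?_, x₀, ((hmem x₀).1 hx₀).1, ?_⟩
  · rw [mem_SS hX (by linarith), rr_one]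
    nlinarith
  · intro a ha b hb
    apply h42
    have := hmul (2 * k) (2 * k) (by linarith) (by linarith) (by linarith) a ha b hb
    have h4 : 2 * k + 2 * k = 4 * k := by ring
    rwa [h4] at this
  · exact SS_card hX (by linarith)
  · refine hcard.trans ?_
    have : X'.card ≤ (X.filter fun x => x₀⁻¹ * x ∈ SS X (2 * k)).card := by
      apply Finset.card_le_card
      intro x hx
      rw [Finset.mem_filter]
      exact ⟨((hmem x).1 hx).1, hmono k (2 * k) (by linarith) (by linarith) (by linarith)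
        (hdiff x hx x₀ hx₀)⟩
    exact_mod_cast this

end Pool.Agent.SimplV
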