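import Pool.Agent.SimplV.Sign

set_option autoImplicit false

/-! # The affine map has no eigenvalue `≤ -1` or `1` (HM_Proof.md, 5.2, 5.3)

`exists_eigen`: for a real root `μ` of `μ² - 2 (Re α) μ + 1 = 0` the real linear map
`u ↦ conj α * u + β * conj u` (trace `2 Re α`, determinant `1`) has the eigenvalue `μ`; by `dt_af`
`dt u (af α β 0 z) = μ dt u z`.
For `j ∈ G`: `S_j = q (j+2) - q j`, `S_(j+2) = q (j+4) - q (j+2) = T (q (j+2)) - T (q j) = af α β 0 (S_j)`
(`af_sub`), so `dt u S_(j+2) = μ dt u S_j`.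
* `neg`: `Re α ≤ -1`: `μ = Re α - √(Re α ^2 - 1) < 0`. If `SameSign θ u j` then (`dt_edge_pos`, `dt_edge_neg`)
`dt u S_j` and `dt u S_(j+2)` have the same strict sign, contradiction. So `G` is contained in the set of
`card_mixed`, `|G| ≤ 8`.
* `one`: `Re α = 1`, `μ = 1`: `dt u S_j = dt u (T (q j) - q j) = dt u (af α β 0 (q j)) + dt u γ - dt u (q j)
= dt u γ =: e` for all `j ∈ G`. If `e > 0`: for `j ∈ G` with `SameSign` all four are positive (the negative
case would give `dt u S_j < 0`), so `dt u (nv (θ (j+1))) > 0`; `|G| ≤ 8 + m` by `card_mixed` and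
`card_pos` (window shifted by one). If `e < 0` replace `u` by `-u`. If `e = 0`, `|G| ≤ 8`. -/

namespace Pool.Agent.SimplV

open Complex Module ComplexConjugate Pool.Agent.Simpl

theorem exists_eigen {α β : ℂ} (hdet : Complex.normSq α - Complex.normSq β = 1) {μ : ℝ}
    (hμ : μ ^ 2 - 2 * α.re * μ + 1 = 0) :
    ∃ u : ℂ, u ≠ 0 ∧ ∀ z, dt u (af α β 0 z) = μ * dt u z := by
  obtain ⟨a, ha⟩ : ∃ a : ℂ, a = conj α - (μ : ℂ) := ⟨_, rfl⟩
  have hn : a * conj a = β * conj β := by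
    rw [Complex.mul_conj, Complex.mul_conj]
    congr 1
    rw [ha]
    simp only [Complex.normSq_apply, Complex.sub_re, Complex.sub_im, Complex.conj_re,
      Complex.conj_im, Complex.ofReal_re, Complex.ofReal_im] at hdet ⊢
    linear_combination hdet + hμ
  have hex : ∃ u : ℂ, u ≠ 0 ∧ a * u + β * conj u = 0 := by
    by_cases h1 : conj a - β = 0
    · by_cases h2 : conj a + β = 0
      · have hb : β = 0 := by
          have h3 : (2 : ℂ) * β = 0 := by linear_combination h2 - h1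
          rcases mul_eq_zero.1 h3 with h4 | h4
          · exact absurd h4 two_ne_zero
          · exact h4
        have hca : conj a = 0 := by
          rw [hb, add_zero] at h2
          exact h2
        have ha0 : a = 0 := by
          rw [← Complex.conj_conj a, hca, map_zero]
        exact ⟨1, one_ne_zero, by rw [hb, ha0]; ring⟩
      · refine ⟨Complex.I * (conj a + β), mul_ne_zero Complex.I_ne_zero h2, ?_⟩
        rw [map_mul, map_add, Complex.conj_conj, Complex.conj_I]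
        linear_combination Complex.I * hn
    · refine ⟨conj a - β, h1, ?_⟩
      rw [map_sub, Complex.conj_conj]
      linear_combination hn
  obtain ⟨u, hu, hu1⟩ := hex
  refine ⟨u, hu, fun z => ?_⟩
  have h2 : conj α * u + β * conj u = μ • u := by
    rw [Complex.real_smul]
    rw [ha] at hu1
    linear_combination hu1
  rw [dt_af, h2, dt_smul_left]

theorem edge_map {q : ℤ → ℂ} {α β γ : ℂ} {j : ℤ} (h1 : af α β γ (q j) = q (j + 2))
    (h2 : af α β γ (q (j + 2)) = q (j + 4)) :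
    q (j + 4) - q (j + 2) = af α β 0 (q (j + 2) - q j) := by
  have h := af_sub α β γ (q (j + 2)) (q j)
  rw [h2, h1] at h
  exact h

open Classical in
/-- the exceptions of `card_mixed` -/
private theorem ne_exc {m : ℕ} {θ : ℤ → ℝ} {q : ℤ → ℂ} {c : ℤ → ℝ} (h : Poly m θ q c)
    (hm : 1 ≤ m) {u : ℂ} (hu : u ≠ 0) (i₀ : ℤ) : ∃ A : Finset ℤ, A.card ≤ 8 ∧
      ∀ j ∈ Finset.Ico i₀ (i₀ + 2 * m), ¬ SameSign θ u j → j ∈ A := by
  refine ⟨_, card_mixed hm h.mono h.per hu i₀, fun j h1 h2 => ?_⟩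
  rw [Finset.mem_filter]
  exact ⟨h1, h2⟩

/-- the two edges after `j` -/
private theorem ne_edges {m : ℕ} {θ : ℤ → ℝ} {q : ℤ → ℂ} {c : ℤ → ℝ} (h : Poly m θ q c)
    {u : ℂ} {j : ℤ} (hs : SameSign θ u j) :
    (0 < dt u (nv (θ (j + 1))) ∧ 0 < dt u (q (j + 2) - q j) ∧
      0 < dt u (q (j + 4) - q (j + 2))) ∨
    (dt u (q (j + 2) - q j) < 0 ∧ dt u (q (j + 4) - q (j + 2)) < 0) := by
  have e1 : j + 2 + 2 = j + 4 := by ring
  rcases hs with hs | hs
  · left
    have h2 := dt_edge_pos h (u := u) (j := j + 2) (hs _ (by omega) (by omega))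
      (hs _ (by omega) (by omega))
    rw [e1] at h2
    exact ⟨hs _ (by omega) (by omega), dt_edge_pos h (hs _ (by omega) (by omega))
      (hs _ (by omega) (by omega)), h2⟩
  · right
    have h2 := dt_edge_neg h (u := u) (j := j + 2) (hs _ (by omega) (by omega))
      (hs _ (by omega) (by omega))
    rw [e1] at h2
    exact ⟨dt_edge_neg h (hs _ (by omega) (by omega)) (hs _ (by omega) (by omega)), h2⟩

theorem not_neg {m : ℕ} {θ : ℤ → ℝ} {q : ℤ → ℂ} {c : ℤ → ℝ} (h : Poly m θ q c) (hm : 1 ≤ m)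
    {α β γ : ℂ} (hdet : Complex.normSq α - Complex.normSq β = 1) {i₀ : ℤ} {G : Finset ℤ}
    (hG : G ⊆ Finset.Ico i₀ (i₀ + 2 * m))
    (hT : ∀ i ∈ G, af α β γ (q i) = q (i + 2) ∧ af α β γ (q (i + 2)) = q (i + 4))
    (hcard : 8 < G.card) : -1 < α.re := by
  by_contra hα
  push Not at hα
  obtain ⟨μ, hμd⟩ : ∃ μ : ℝ, μ = α.re - Real.sqrt (α.re ^ 2 - 1) := ⟨_, rfl⟩
  have hsq : Real.sqrt (α.re ^ 2 - 1) ^ 2 = α.re ^ 2 - 1 := Real.sq_sqrt (by nlinarith)
  have hμ : μ ^ 2 - 2 * α.re * μ + 1 = 0 := by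
    rw [hμd]
    linear_combination hsq
  have hμ0 : μ < 0 := by
    have := Real.sqrt_nonneg (α.re ^ 2 - 1)
    rw [hμd]
    linarith
  obtain ⟨u, hu, hue⟩ := exists_eigen hdet hμ
  obtain ⟨A, hA, hA'⟩ := ne_exc h hm hu i₀
  have hGA : G ⊆ A := by
    intro j hj
    refine hA' j (hG hj) fun hs => ?_
    have e1 := edge_map (hT j hj).1 (hT j hj).2
    have e2 : dt u (q (j + 4) - q (j + 2)) = μ * dt u (q (j + 2) - q j) := by
      rw [e1, hue]
    rcases ne_edges h hs with ⟨-, h1, h2⟩ | ⟨h1, h2⟩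
    · have := mul_neg_of_neg_of_pos hμ0 h1
      linarith
    · have := mul_pos_of_neg_of_neg hμ0 h1
      linarith
  have := Finset.card_le_card hGA
  omega

private theorem ne_pos {m : ℕ} {θ : ℤ → ℝ} {q : ℤ → ℂ} {c : ℤ → ℝ} (h : Poly m θ q c)
    (hm : 1 ≤ m) {α β γ u : ℂ} (hu : u ≠ 0) (hue : ∀ z, dt u (af α β 0 z) = dt u z)
    (he : 0 ≤ dt u γ) {i₀ : ℤ} {G : Finset ℤ}
    (hG : G ⊆ Finset.Ico i₀ (i₀ + 2 * m))
    (hT : ∀ i ∈ G, af α β γ (q i) = q (i + 2) ∧ af α β γ (q (i + 2)) = q (i + 4))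
    (hcard : m + 8 < G.card) : False := by
  classical
  obtain ⟨A, hA, hA'⟩ := ne_exc h hm hu i₀
  obtain ⟨B, hB, hB'⟩ : ∃ B : Finset ℤ, B.card ≤ m ∧
      ∀ k ∈ Finset.Ico (i₀ + 1) (i₀ + 1 + 2 * m), 0 < dt u (nv (θ k)) → k ∈ B :=
    ⟨_, card_pos h.per u (i₀ + 1), fun _ h1 h2 => Finset.mem_filter.2 ⟨h1, h2⟩⟩
  have hGA : G ⊆ A ∪ B.image fun k => k - 1 := by
    intro j hj
    have hj' := Finset.mem_Ico.1 (hG hj)
    by_cases hs : SameSign θ u j
    · rcases ne_edges h hs with ⟨h0, -, -⟩ | ⟨h1, -⟩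
      · refine Finset.mem_union_right _ (Finset.mem_image.2 ⟨j + 1, hB' _ ?_ h0, by ring⟩)
        rw [Finset.mem_Ico]
        constructor <;> omega
      · have e1 : af α β γ (q j) = af α β 0 (q j) + γ := by
          unfold af
          ring
        have e2 : q (j + 2) = af α β 0 (q j) + γ := by
          rw [← (hT j hj).1, e1]
        rw [dt_sub_right, e2, dt_add_right, hue] at h1
        linarith
    · exact Finset.mem_union_left _ (hA' j (hG hj) hs)
  have h1 := Finset.card_le_card hGA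
  have h2 := Finset.card_union_le A (B.image fun k => k - 1)
  have h3 : (B.image fun k => k - 1).card ≤ B.card := Finset.card_image_le
  omega

theorem not_one {m : ℕ} {θ : ℤ → ℝ} {q : ℤ → ℂ} {c : ℤ → ℝ} (h : Poly m θ q c) (hm : 1 ≤ m)
    {α β γ : ℂ} (hdet : Complex.normSq α - Complex.normSq β = 1) {i₀ : ℤ} {G : Finset ℤ}
    (hG : G ⊆ Finset.Ico i₀ (i₀ + 2 * m))
    (hT : ∀ i ∈ G, af α β γ (q i) = q (i + 2) ∧ af α β γ (q (i + 2)) = q (i + 4))
    (hcard : m + 8 < G.card) : α.re ≠ 1 := by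
  intro hα
  have hμ : (1 : ℝ) ^ 2 - 2 * α.re * 1 + 1 = 0 := by
    rw [hα]
    norm_num
  obtain ⟨u, hu, hue⟩ := exists_eigen hdet hμ
  have hue' : ∀ z, dt u (af α β 0 z) = dt u z := fun z => by rw [hue z, one_mul]
  rcases le_total 0 (dt u γ) with he | he
  · exact ne_pos h hm hu hue' he hG hT hcard
  · refine ne_pos h hm (u := -u) (neg_ne_zero.2 hu) (fun z => ?_) ?_ hG hT hcard
    · rw [dt_neg_left, dt_neg_left, hue']
    · rw [dt_neg_left]
      linarith

end Pool.Agent.SimplV
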