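import Pool.Agent.SimplV.Convex
import Pool.Agent.SimplV.NonEll

set_option autoImplicit false

/-! # Hyperbolic maps, local part (HM_Proof.md, 5.4, first half)

`μ = Re α + √(Re α ^2 - 1) > 1` and `1/μ` are the roots of `x² - 2 (Re α) x + 1`. `exists_eigen` gives
`u₁` (for `μ`) and `u₂` (for `1/μ`), both `≠ 0`; `cr u₁ u₂ ≠ 0` (a common direction would have two
eigenvalues: `u₂ = t • u₁`, `t ≠ 0`, and `dt u₁ (af α β 0 z) = μ dt u₁ z = μ⁻¹ dt u₁ z` for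
all `z`); replacing `u₂` by `-u₂` we may assume `cr u₁ u₂ > 0`.
`k₁ = dt u₁ γ / (μ - 1)`, `F₁ z = dt u₁ z + k₁`: `F₁ (T z) = μ F₁ z`. `k₂ = dt u₂ γ / (μ⁻¹ - 1)`,
`F₂ z = dt u₂ z + k₂`: `F₂ (T z) = μ⁻¹ F₂ z`.
For `j ∈ G`, `S = q (j+2) - q j`, `S' = q (j+4) - q (j+2) = af α β 0 S` (`edge_map`). `cr S S' > 0`
(`Poly.cr_pos_left` with `j + 4`). Identity: `cr u₁ u₂ * cr S S' = dt u₁ S * dt u₂ S' - dt u₂ S * dt u₁ S'
= (μ⁻¹ - μ) dt u₁ S * dt u₂ S`. So `dt u₁ S * dt u₂ S < 0`. And `dt u₁ S = F₁ (T (q j)) - F₁ (q j)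
= (μ - 1) F₁ (q j)`, `dt u₂ S = (μ⁻¹ - 1) F₂ (q j)`, so `F₁ (q j) * F₂ (q j) > 0`, and `F₁ (q j)` has the
sign of `dt u₁ S`. -/

namespace Pool.Agent.SimplV

open Complex Module ComplexConjugate Pool.Agent.Simpl

/-- the Binet-Cauchy identity -/
private theorem cr_mul_cr (u v x y : ℂ) :
    cr u v * cr x y = dt u x * dt v y - dt v x * dt u y := by
  unfold cr dt; ring

private theorem af_eq (α β γ z : ℂ) : af α β γ z = af α β 0 z + γ := by
  unfold af; ring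

/-- eigenvectors for two eigenvalues are independent -/
private theorem cr_ne_zero_of_eigen {α β : ℂ} {μ ν : ℝ} (hμν : μ ≠ ν) {u v : ℂ} (hu : u ≠ 0)
    (hv : v ≠ 0) (h1 : ∀ z, dt u (af α β 0 z) = μ * dt u z)
    (h2 : ∀ z, dt v (af α β 0 z) = ν * dt v z) : cr u v ≠ 0 := by
  intro h0
  obtain ⟨t, ht⟩ := exists_smul_of_cr hu h0
  have ht0 : t ≠ 0 := by
    rintro rfl
    exact hv (by rw [ht, zero_smul])
  have h3 := h2 u
  rw [ht, dt_smul_left, dt_smul_left, h1 u] at h3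
  have h4 : dt u u = 0 := by
    have h5 : t * ((μ - ν) * dt u u) = 0 := by linear_combination h3
    rcases mul_eq_zero.1 h5 with h6 | h6
    · exact absurd h6 ht0
    · rcases mul_eq_zero.1 h6 with h7 | h7
      · exact absurd (sub_eq_zero.1 h7) hμν
      · exact h7
  rw [dt_self_eq] at h4
  exact hu (norm_eq_zero.1 ((pow_eq_zero_iff two_ne_zero).1 h4))

/-- eigenvectors with positive cross product -/
private theorem exists_pair {α β : ℂ} (hdet : Complex.normSq α - Complex.normSq β = 1)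
    (hα : 1 < α.re) : ∃ (μ ν : ℝ) (u v : ℂ), 1 < μ ∧ ν < 1 ∧ 0 < cr u v ∧ u ≠ 0 ∧ v ≠ 0 ∧
      (∀ z, dt u (af α β 0 z) = μ * dt u z) ∧ ∀ z, dt v (af α β 0 z) = ν * dt v z := by
  have hs0 : 0 < α.re ^ 2 - 1 := by nlinarith
  have hs := Real.sqrt_pos.2 hs0
  have hsq : Real.sqrt (α.re ^ 2 - 1) ^ 2 = α.re ^ 2 - 1 := Real.sq_sqrt hs0.le
  set s := Real.sqrt (α.re ^ 2 - 1) with hsdef
  obtain ⟨u, hu, h1⟩ := exists_eigen hdet (μ := α.re + s) (by linear_combination hsq)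
  obtain ⟨v, hv, h2⟩ := exists_eigen hdet (μ := α.re - s) (by linear_combination hsq)
  have hν : α.re - s < 1 := by
    by_contra hcon
    nlinarith
  have hcr := cr_ne_zero_of_eigen (by linarith : α.re + s ≠ α.re - s) hu hv h1 h2
  rcases lt_or_gt_of_ne hcr with hc | hc
  · refine ⟨α.re + s, α.re - s, u, -v, by linarith, hν, ?_, hu, neg_ne_zero.2 hv, h1, ?_⟩
    · rw [cr_neg_right]; linarith
    · intro z
      rw [dt_neg_left, dt_neg_left, h2]; ring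
  · exact ⟨α.re + s, α.re - s, u, v, by linarith, hν, hc, hu, hv, h1, h2⟩

/-- `dt u` of an edge -/
private theorem dt_edge {α β γ : ℂ} {μ : ℝ} (hμ : μ ≠ 1) {u z w : ℂ}
    (h1 : ∀ z, dt u (af α β 0 z) = μ * dt u z) (hz : af α β γ z = w) :
    dt u (w - z) = (μ - 1) * (dt u z + dt u γ / (μ - 1)) := by
  have hne : μ - 1 ≠ 0 := sub_ne_zero.2 hμ
  rw [← hz, af_eq, dt_sub_right, dt_add_right, h1, mul_add, mul_div_cancel₀ _ hne]
  ring

theorem hyp_local {m : ℕ} {θ : ℤ → ℝ} {q : ℤ → ℂ} {c : ℤ → ℝ} (h : Poly m θ q c) (hm : 4 ≤ m)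
    {α β γ : ℂ} (hdet : Complex.normSq α - Complex.normSq β = 1) (hα : 1 < α.re) {G : Finset ℤ}
    (hT : ∀ i ∈ G, af α β γ (q i) = q (i + 2) ∧ af α β γ (q (i + 2)) = q (i + 4)) :
    ∃ (u₁ u₂ : ℂ) (k₁ k₂ : ℝ), u₁ ≠ 0 ∧ u₂ ≠ 0 ∧ ∀ j ∈ G,
      (0 < dt u₁ (q (j + 2) - q j) ∧ dt u₂ (q (j + 2) - q j) < 0 ∧
        0 < dt u₁ (q j) + k₁ ∧ 0 < dt u₂ (q j) + k₂) ∨
      (dt u₁ (q (j + 2) - q j) < 0 ∧ 0 < dt u₂ (q (j + 2) - q j) ∧
        dt u₁ (q j) + k₁ < 0 ∧ dt u₂ (q j) + k₂ < 0) := by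
  obtain ⟨μ, ν, u, v, hμ, hν, hcr, hu, hv, h1, h2⟩ := exists_pair hdet hα
  refine ⟨u, v, dt u γ / (μ - 1), dt v γ / (ν - 1), hu, hv, ?_⟩
  intro j hj
  obtain ⟨t1, t2⟩ := hT j hj
  have e1 := dt_edge (ne_of_gt hμ) h1 t1
  have e2 := dt_edge (ne_of_lt hν) h2 t1
  have hpos : 0 < cr (q (j + 2) - q j) (q (j + 4) - q (j + 2)) :=
    h.cr_pos_left (i := j) (j := j + 4) le_rfl (by omega)
  have hid := cr_mul_cr u v (q (j + 2) - q j) (q (j + 4) - q (j + 2))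
  rw [edge_map t1 t2, h1, h2, ← edge_map t1 t2] at hid
  have hprod : 0 < (ν - μ) * (dt u (q (j + 2) - q j) * dt v (q (j + 2) - q j)) := by
    have := mul_pos hcr hpos
    rw [hid] at this
    linarith
  have hneg : dt u (q (j + 2) - q j) * dt v (q (j + 2) - q j) < 0 := by
    by_contra hcon
    rw [not_lt] at hcon
    have : (ν - μ) * (dt u (q (j + 2) - q j) * dt v (q (j + 2) - q j)) ≤ 0 :=
      mul_nonpos_of_nonpos_of_nonneg (by linarith) hcon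
    linarith
  rcases mul_neg_iff.1 hneg with ⟨a, b⟩ | ⟨a, b⟩
  · left
    refine ⟨a, b, ?_, ?_⟩
    · rw [e1] at a
      by_contra hcon
      rw [not_lt] at hcon
      have := mul_nonpos_of_nonneg_of_nonpos (by linarith : 0 ≤ μ - 1) hcon
      linarith
    · rw [e2] at b
      by_contra hcon
      rw [not_lt] at hcon
      have := mul_nonneg_of_nonpos_of_nonpos (by linarith : ν - 1 ≤ 0) hcon
      linarith
  · right
    refine ⟨a, b, ?_, ?_⟩
    · rw [e1] at a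
      by_contra hcon
      rw [not_lt] at hcon
      have := mul_nonneg (by linarith : 0 ≤ μ - 1) hcon
      linarith
    · rw [e2] at b
      by_contra hcon
      rw [not_lt] at hcon
      have := mul_nonpos_of_nonpos_of_nonneg (by linarith : ν - 1 ≤ 0) hcon
      linarith

end Pool.Agent.SimplV
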