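import Pool.Agent.SimplV.Alg

set_option autoImplicit false

/-! # Level sets (HM_Proof.md, 2.4)

`f j = dt (q j) (uv (θ k))`, `f (j+1) - f j = c (j+1) * sin (θ k - θ (j+1))` (`step`, `dt_nv_uv`). For
`j + 1 ∈ (k - m, k)` the sine is positive, for `j + 1 ∈ (k, k + m)` negative. So on the positions
`j ∈ [k - m, k - 1]` the function is weakly increasing and `f j = f (j+1) = f (j+2)` is impossible
(`two`); so every value is taken at most twice there; the same on `[k, k + m - 1]`. So every value is taken
at most 4 times on `[k - m, k + m)`, and on every window of `2 m` integers by periodicity. -/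

namespace Pool.Agent.SimplV

open Complex Module ComplexConjugate Pool.Agent.Simpl

/-- A weakly increasing function without three equal consecutive values takes each value at most twice. -/
theorem card_level_aux (g : ℤ → ℝ) (A B : ℤ) (a : ℝ) (hm : ∀ j, A ≤ j → j + 1 < B → g j ≤ g (j + 1))
    (hn : ∀ j, A ≤ j → j + 2 < B → ¬ (g j = g (j + 1) ∧ g (j + 1) = g (j + 2))) :
    ((Finset.Ico A B).filter fun j => g j = a).card ≤ 2 := by
  classical
  have hmono : ∀ i, A ≤ i → ∀ j, i ≤ j → j < B → g i ≤ g j := by
    intro i hi j hij
    induction j, hij using Int.le_induction with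
    | base => intro _; exact le_rfl
    | succ j hj ih =>
      intro hB
      exact (ih (by omega)).trans (hm j (by omega) hB)
  rcases (Finset.eq_empty_or_nonempty ((Finset.Ico A B).filter fun j => g j = a)) with he | hne
  · rw [he]; simp
  · obtain ⟨j0, hj0, hmin⟩ := Finset.exists_min_image _ (fun j => j) hne
    have hsub : ((Finset.Ico A B).filter fun j => g j = a) ⊆ {j0, j0 + 1} := by
      intro j hj
      have h1 := hmin j hj
      simp only [Finset.mem_filter, Finset.mem_Ico] at hj hj0
      simp only [Finset.mem_insert, Finset.mem_singleton]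
      by_contra hcon
      push Not at hcon
      have h2 : j0 + 2 ≤ j := by
        have := hcon.1
        have := hcon.2
        omega
      have e1 : g j0 ≤ g (j0 + 1) := hm j0 hj0.1.1 (by omega)
      have e2 : g (j0 + 1) ≤ g (j0 + 2) := by
        have := hm (j0 + 1) (by omega) (by omega)
        rwa [show j0 + 1 + 1 = j0 + 2 by ring] at this
      have e3 : g (j0 + 2) ≤ g j := hmono _ (by omega) _ h2 hj.1.2
      have e4 := hj0.2
      have e5 := hj.2
      exact hn j0 hj0.1.1 (by omega) ⟨by linarith, by linarith⟩
    exact (Finset.card_le_card hsub).trans Finset.card_le_two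

theorem Poly.card_level {m : ℕ} {θ : ℤ → ℝ} {q : ℤ → ℂ} {c : ℤ → ℝ} (h : Poly m θ q c)
    (i₀ k : ℤ) (a : ℝ) :
    ((Finset.Ico i₀ (i₀ + 2 * m)).filter fun j => dt (q j) (uv (θ k)) = a).card ≤ 4 := by
  classical
  set g : ℤ → ℝ := fun j => dt (q j) (uv (θ k)) with hg
  have hstep : ∀ j, g (j + 1) = g j + c (j + 1) * Real.sin (θ k - θ (j + 1)) := by
    intro j
    simp only [hg]
    rw [h.step j, dt_add_left, dt_smul_left, dt_nv_uv]
  -- signs of the sines
  have hkm : θ (k - m) = θ k - Real.pi := by
    have := h.per (k - m)
    rw [show k - (m : ℤ) + m = k by ring] at this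
    linarith
  have hpos : ∀ i, k - m < i → i < k → 0 < Real.sin (θ k - θ i) := by
    intro i h1 h2
    have a1 := h.mono h1
    have a2 := h.mono h2
    apply Real.sin_pos_of_pos_of_lt_pi
    · linarith
    · linarith
  have hneg : ∀ i, k < i → i < k + m → Real.sin (θ k - θ i) < 0 := by
    intro i h1 h2
    have a1 := h.mono h1
    have a2 := h.mono h2
    have a3 := h.per k
    apply Real.sin_neg_of_neg_of_neg_pi_lt
    · linarith
    · linarith
  -- the first stretch
  have s1 : ((Finset.Ico (k - m) k).filter fun j => g j = a).card ≤ 2 := by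
    apply card_level_aux
    · intro j hj1 hj2
      rw [hstep j]
      have := mul_nonneg (h.nonneg (j + 1)) (hpos (j + 1) (by omega) hj2).le
      linarith
    · rintro j hj1 hj2 ⟨e1, e2⟩
      have f1 := hpos (j + 1) (by omega) (by omega)
      have f2 := hpos (j + 1 + 1) (by omega) (by omega)
      have e3 := hstep j
      have e4 := hstep (j + 1)
      rw [show j + 2 = j + 1 + 1 by ring] at e2
      rcases h.two (j + 1) with hc | hc
      · apply hc
        have : c (j + 1) * Real.sin (θ k - θ (j + 1)) = 0 := by linarith
        exact (mul_eq_zero.1 this).resolve_right f1.ne'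
      · apply hc
        have : c (j + 1 + 1) * Real.sin (θ k - θ (j + 1 + 1)) = 0 := by linarith
        exact (mul_eq_zero.1 this).resolve_right f2.ne'
  -- the second stretch
  have s2 : ((Finset.Ico k (k + m)).filter fun j => g j = a).card ≤ 2 := by
    have : ((Finset.Ico k (k + m)).filter fun j => g j = a) =
        ((Finset.Ico k (k + m)).filter fun j => (fun i => -g i) j = -a) := by
      apply Finset.filter_congr
      intro j _
      simp
    rw [this]
    apply card_level_aux
    · intro j hj1 hj2
      have := mul_nonpos_of_nonneg_of_nonpos (h.nonneg (j + 1)) (hneg (j + 1) (by omega) hj2).le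
      have e := hstep j
      linarith
    · rintro j hj1 hj2 ⟨e1, e2⟩
      have f1 := hneg (j + 1) (by omega) (by omega)
      have f2 := hneg (j + 1 + 1) (by omega) (by omega)
      have e3 := hstep j
      have e4 := hstep (j + 1)
      rw [show j + 2 = j + 1 + 1 by ring] at e2
      rcases h.two (j + 1) with hc | hc
      · apply hc
        have : c (j + 1) * Real.sin (θ k - θ (j + 1)) = 0 := by linarith
        exact (mul_eq_zero.1 this).resolve_right f1.ne
      · apply hc
        have : c (j + 1 + 1) * Real.sin (θ k - θ (j + 1 + 1)) = 0 := by linarith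
        exact (mul_eq_zero.1 this).resolve_right f2.ne
  -- the whole period
  have s3 : ((Finset.Ico (k - m) (k + m)).filter fun j => g j = a).card ≤ 4 := by
    have hu : Finset.Ico (k - m) (k + m) = Finset.Ico (k - m) k ∪ Finset.Ico k (k + m) := by
      rw [Finset.Ico_union_Ico_eq_Ico] <;> omega
    rw [hu, Finset.filter_union]
    exact (Finset.card_union_le _ _).trans (by omega)
  -- periodicity
  have hper : Function.Periodic g (2 * (m : ℤ)) := by
    intro j
    simp only [hg]
    rw [h.qper j]
  rcases Nat.eq_zero_or_pos m with hm0 | hmpos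
  · subst hm0
    simp
  have hN : (0 : ℤ) < 2 * m := by exact_mod_cast (by omega : 0 < 2 * m)
  refine le_trans ?_ s3
  apply Finset.card_le_card_of_injOn (fun j => (k - m) + (j - (k - m)) % (2 * m))
  · intro j hj
    have hj' := Finset.mem_coe.1 hj
    rw [Finset.mem_filter, Finset.mem_Ico] at hj'
    refine Finset.mem_coe.2 ?_
    rw [Finset.mem_filter, Finset.mem_Ico]
    beta_reduce
    have b1 := Int.emod_nonneg (j - (k - m)) hN.ne'
    have b2 := Int.emod_lt_of_pos (j - (k - m)) hN
    refine ⟨⟨by omega, by omega⟩, ?_⟩
    have e := Int.emod_add_mul_ediv (j - (k - m)) (2 * m)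
    have hp := hper.int_mul ((j - (k - m)) / (2 * m)) ((k - m) + (j - (k - m)) % (2 * m))
    rw [Int.cast_id, show (k - m) + (j - (k - m)) % (2 * m) + ((j - (k - m)) / (2 * m)) * (2 * m) = j by
      linear_combination e] at hp
    exact hp.symm.trans hj'.2
  · intro i hi j hj hij
    have hi' := Finset.mem_coe.1 hi
    have hj' := Finset.mem_coe.1 hj
    rw [Finset.mem_filter, Finset.mem_Ico] at hi' hj'
    have e0 : (i - (k - m)) % (2 * m) = (j - (k - m)) % (2 * m) := by
      have : (k - m) + (i - (k - m)) % (2 * m) = (k - m) + (j - (k - m)) % (2 * (m : ℤ)) := hij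
      linarith
    have e1 := Int.emod_add_mul_ediv (i - (k - m)) (2 * m)
    have e2 := Int.emod_add_mul_ediv (j - (k - m)) (2 * m)
    have e3 : i - j = 2 * m * ((i - (k - m)) / (2 * m) - (j - (k - m)) / (2 * m)) := by
      linear_combination e0 - e1 + e2
    have e4 : (i - (k - m)) / (2 * m) - (j - (k - m)) / (2 * m) = 0 := by
      set t := (i - (k - m)) / (2 * (m : ℤ)) - (j - (k - m)) / (2 * m) with ht
      by_contra hne
      rcases lt_or_gt_of_ne hne with hlt | hgt
      · have : 2 * (m : ℤ) * t ≤ 2 * m * (-1) := mul_le_mul_of_nonneg_left (by omega) hN.le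
        omega
      · have : 2 * (m : ℤ) * 1 ≤ 2 * m * t := mul_le_mul_of_nonneg_left (by omega) hN.le
        omega
    rw [e4, mul_zero] at e3
    linarith

end Pool.Agent.SimplV
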