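import Pool.Agent.SimplV.Rot

set_option autoImplicit false

/-! # Nearly all squares are good, sum over the shifts (HM_Proof.md, 3.2)

`NA d = #{i ∈ [0, 2m) : ¬ Ind (q (i + d) - q i)}` (`2 ≤ d ≤ m`). By `card_shift`
`#{i ∈ [0,2m) : ¬ AllA i (i + d)} ≤ NA d + NA (d - 2) + NA (d + 2) + NA d` (the chord from `i + 2` to
`i + d` etc.). With `rot_sum`: the sum is `≤ 3 · 4 · ∑_{2 ≤ d ≤ m} NA d`.
`∑_{2 ≤ d ≤ m} NA d` is the number of pairs `(i, d)`, `i ∈ [0,2m)`, `d ∈ [2, m]`, with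
`¬ Ind (q (i + d) - q i)`. Map it to `nonA P S` by `(q (i + d), q i)` (in `P`, different since `Ind θ 0`
holds, not `InS`). Fibres have at most 4 elements: `i` has at most 2 values (`Poly.card_fiber`), and for
given `i` the integer `j = i + d` is in `[i, i + 2m)`, at most 2 values. So `∑ NA d ≤ 4 (nonA P S).card`. -/

namespace Pool.Agent.SimplV

open Complex Module ComplexConjugate Pool.Agent.Simpl Classical

private theorem sb_trans {m : ℕ} (p : ℤ → Prop) [DecidablePred p] (hp : ∀ i, p (i + 2 * m) ↔ p i) (e : ℤ) :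
    ((Finset.Ico (0 : ℤ) (2 * m)).filter fun i => p (i + e)).card =
      ((Finset.Ico (0 : ℤ) (2 * m)).filter p).card := by
  have h1 := card_shift p hp e 0
  rw [zero_add] at h1
  rw [← h1]
  refine Finset.card_bij (fun i _ => i + e) ?_ ?_ ?_
  · intro i hi
    rw [Finset.mem_filter, Finset.mem_Ico] at hi ⊢
    exact ⟨⟨by omega, by omega⟩, hi.2⟩
  · intro i _ j _ h
    exact add_right_cancel h
  · intro j hj
    rw [Finset.mem_filter, Finset.mem_Ico] at hj
    refine ⟨j - e, ?_, by ring⟩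
    rw [Finset.mem_filter, Finset.mem_Ico, sub_add_cancel]
    exact ⟨⟨by omega, by omega⟩, hj.2⟩

private theorem sb_mem {θ : ℤ → ℝ} {q : ℤ → ℂ} {P : Finset ℂ} {S : Finset Circle}
    (hq : ∀ k, q k ∈ P) (hI : ∀ x, InS S x ↔ Ind θ x) {i j : ℤ} (h : ¬ Ind θ (q i - q j)) :
    (q i, q j) ∈ nonA P S := by
  unfold nonA
  rw [Finset.mem_filter, Finset.mem_offDiag]
  refine ⟨⟨hq i, hq j, fun hc => h ?_⟩, fun hc => h ((hI _).1 hc)⟩
  have hc' : q i = q j := hc
  exact ⟨0, 0, by rw [hc', sub_self, zero_smul]⟩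

private theorem sb_sum {m : ℕ} {θ : ℤ → ℝ} {q : ℤ → ℂ} {c : ℤ → ℝ} (h : Poly m θ q c)
    (hm : 3 ≤ m) {P : Finset ℂ} {S : Finset Circle} (hq : ∀ k, q k ∈ P)
    (hI : ∀ x, InS S x ↔ Ind θ x) :
    ∑ d ∈ Finset.Icc (2 : ℤ) m,
      ((Finset.Ico (0 : ℤ) (2 * m)).filter fun i => ¬ Ind θ (q (i + d) - q i)).card ≤
      4 * (nonA P S).card := by
  have h1 : ∑ d ∈ Finset.Icc (2 : ℤ) m,
      ((Finset.Ico (0 : ℤ) (2 * m)).filter fun i => ¬ Ind θ (q (i + d) - q i)).card =
      (((Finset.Ico (0 : ℤ) (2 * m)) ×ˢ (Finset.Icc (2 : ℤ) m)).filter fun x : ℤ × ℤ =>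
        ¬ Ind θ (q (x.1 + x.2) - q x.1)).card := by
    simp only [Finset.card_filter]
    rw [Finset.sum_product_right]
  rw [h1]
  refine Finset.card_le_mul_card_image_of_maps_to
    (f := fun x : ℤ × ℤ => (q (x.1 + x.2), q x.1)) ?_ 4 ?_
  · intro x hx
    exact sb_mem hq hI (Finset.mem_filter.1 hx).2
  · rintro ⟨u, v⟩ -
    have hA := h.card_fiber hm 0 v
    rw [zero_add] at hA
    have h2 := Finset.card_le_mul_card_image_of_maps_to (f := fun x : ℤ × ℤ => x.1)
      (s := ((((Finset.Ico (0 : ℤ) (2 * m)) ×ˢ (Finset.Icc (2 : ℤ) m)).filter fun x : ℤ × ℤ =>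
        ¬ Ind θ (q (x.1 + x.2) - q x.1)).filter fun x : ℤ × ℤ =>
          (q (x.1 + x.2), q x.1) = (u, v)))
      (t := (Finset.Ico (0 : ℤ) (2 * m)).filter fun i => q i = v) (by
        intro x hx
        rw [Finset.mem_filter, Finset.mem_filter, Finset.mem_product] at hx
        rw [Finset.mem_filter]
        exact ⟨hx.1.1.1, (Prod.mk.inj hx.2).2⟩) 2 (by
        intro i hi
        refine le_trans ?_ (h.card_fiber hm i u)
        refine Finset.card_le_card_of_injOn (fun x : ℤ × ℤ => x.1 + x.2) ?_ ?_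
        · intro x hx
          rw [Finset.mem_coe, Finset.mem_filter, Finset.mem_filter, Finset.mem_filter,
            Finset.mem_product, Finset.mem_Icc] at hx
          have e1 : x.1 = i := hx.2
          rw [Finset.mem_coe, Finset.mem_filter, Finset.mem_Ico]
          have e2 := hx.1.1.1.2
          refine ⟨⟨?_, ?_⟩, (Prod.mk.inj hx.1.2).1⟩
          · change i ≤ x.1 + x.2
            omega
          · change x.1 + x.2 < i + 2 * m
            omega
        · intro x hx y hy hxy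
          rw [Finset.mem_coe, Finset.mem_filter] at hx hy
          have e1 : x.1 = i := hx.2
          have e2 : y.1 = i := hy.2
          have e3 : x.1 + x.2 = y.1 + y.2 := hxy
          exact Prod.ext (e1.trans e2.symm) (by omega))
    refine h2.trans ?_
    omega

theorem sum_bad {m : ℕ} {θ : ℤ → ℝ} {q : ℤ → ℂ} {c : ℤ → ℝ} (h : Poly m θ q c) (hm : 6 ≤ m)
    {P : Finset ℂ} {S : Finset Circle} (hq : ∀ k, q k ∈ P) (hI : ∀ x, InS S x ↔ Ind θ x) :
    ∑ d ∈ Finset.Icc (4 : ℤ) (m - 2),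
      ((Finset.Ico (0 : ℤ) (2 * m)).filter fun i => ¬ Good θ q i (i + d)).card ≤
      48 * (nonA P S).card := by
  set NA : ℤ → ℕ := fun d =>
    ((Finset.Ico (0 : ℤ) (2 * m)).filter fun i => ¬ Ind θ (q (i + d) - q i)).card with hNA
  have hper : ∀ d i : ℤ, (¬ Ind θ (q (i + 2 * m + d) - q (i + 2 * m))) ↔
      ¬ Ind θ (q (i + d) - q i) := by
    intro d i
    rw [h.qper i, show i + 2 * m + d = i + d + 2 * m by ring, h.qper (i + d)]
  have hone : ∀ d : ℤ, ((Finset.Ico (0 : ℤ) (2 * m)).filter fun i =>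
      ¬ AllA θ q i (i + d)).card ≤ NA d + NA (d - 2) + NA (d + 2) + NA d := by
    intro d
    have t1 : ((Finset.Ico (0 : ℤ) (2 * m)).filter fun i =>
        ¬ Ind θ (q (i + 2 + (d - 2)) - q (i + 2))).card = NA (d - 2) :=
      sb_trans (fun i => ¬ Ind θ (q (i + (d - 2)) - q i)) (hper (d - 2)) 2
    have t2 : ((Finset.Ico (0 : ℤ) (2 * m)).filter fun i =>
        ¬ Ind θ (q (i + 2 + d) - q (i + 2))).card = NA d :=
      sb_trans (fun i => ¬ Ind θ (q (i + d) - q i)) (hper d) 2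
    calc ((Finset.Ico (0 : ℤ) (2 * m)).filter fun i => ¬ AllA θ q i (i + d)).card
        ≤ ((((Finset.Ico (0 : ℤ) (2 * m)).filter fun i => ¬ Ind θ (q (i + d) - q i)) ∪
          ((Finset.Ico (0 : ℤ) (2 * m)).filter fun i =>
            ¬ Ind θ (q (i + 2 + (d - 2)) - q (i + 2)))) ∪
          ((Finset.Ico (0 : ℤ) (2 * m)).filter fun i => ¬ Ind θ (q (i + (d + 2)) - q i)) ∪
          ((Finset.Ico (0 : ℤ) (2 * m)).filter fun i =>
            ¬ Ind θ (q (i + 2 + d) - q (i + 2)))).card := by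
          refine Finset.card_le_card fun i hi => ?_
          rw [Finset.mem_filter] at hi
          obtain ⟨hi1, hi2⟩ := hi
          simp only [Finset.mem_union, Finset.mem_filter]
          unfold AllA at hi2
          rw [show i + 2 + (d - 2) = i + d by ring, show i + (d + 2) = i + d + 2 by ring,
            show i + 2 + d = i + d + 2 by ring]
          by_contra hcon
          push Not at hcon
          exact hi2 ⟨hcon.1.1.1 hi1, hcon.1.1.2 hi1, hcon.1.2 hi1, hcon.2 hi1⟩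
      _ ≤ NA d + NA (d - 2) + NA (d + 2) + NA d := by
          refine (Finset.card_union_le _ _).trans ?_
          refine Nat.add_le_add ?_ t2.le
          refine (Finset.card_union_le _ _).trans ?_
          refine Nat.add_le_add ?_ le_rfl
          refine (Finset.card_union_le _ _).trans ?_
          exact Nat.add_le_add le_rfl t1.le
  have hsumNA : ∑ d ∈ Finset.Icc (2 : ℤ) m, NA d ≤ 4 * (nonA P S).card :=
    sb_sum h (by omega) hq hI
  have hsub : ∀ e : ℤ, -2 ≤ e → e ≤ 2 →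
      ∑ d ∈ Finset.Icc (4 : ℤ) (m - 2), NA (d + e) ≤ ∑ d ∈ Finset.Icc (2 : ℤ) m, NA d := by
    intro e he1 he2
    have h1 : ∑ d ∈ Finset.Icc (4 : ℤ) (m - 2), NA (d + e) =
        ∑ d ∈ (Finset.Icc (4 : ℤ) (m - 2)).image (fun d => d + e), NA d := by
      rw [Finset.sum_image]
      intro a _ b _ hab
      exact add_right_cancel hab
    rw [h1]
    refine Finset.sum_le_sum_of_subset ?_
    intro d hd
    rw [Finset.mem_image] at hd
    obtain ⟨a, ha, rfl⟩ := hd
    rw [Finset.mem_Icc] at ha ⊢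
    constructor <;> omega
  have e0 := hsub 0 (by norm_num) (by norm_num)
  have e1 := hsub (-2) (by norm_num) (by norm_num)
  have e2 := hsub 2 (by norm_num) (by norm_num)
  simp only [add_zero] at e0
  calc ∑ d ∈ Finset.Icc (4 : ℤ) (m - 2),
      ((Finset.Ico (0 : ℤ) (2 * m)).filter fun i => ¬ Good θ q i (i + d)).card
      ≤ ∑ d ∈ Finset.Icc (4 : ℤ) (m - 2), 3 * (NA d + NA (d - 2) + NA (d + 2) + NA d) := by
        refine Finset.sum_le_sum fun d hd => ?_
        rw [Finset.mem_Icc] at hd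
        exact (rot_sum h hd.1 (by omega)).trans (Nat.mul_le_mul_left 3 (hone d))
    _ = 3 * (∑ d ∈ Finset.Icc (4 : ℤ) (m - 2), NA d +
          ∑ d ∈ Finset.Icc (4 : ℤ) (m - 2), NA (d + -2) +
          ∑ d ∈ Finset.Icc (4 : ℤ) (m - 2), NA (d + 2) +
          ∑ d ∈ Finset.Icc (4 : ℤ) (m - 2), NA d) := by
        rw [← Finset.mul_sum, Finset.sum_add_distrib, Finset.sum_add_distrib,
          Finset.sum_add_distrib]
        rfl
    _ ≤ 48 * (nonA P S).card := by omega

/-- ordered pairs of positions in a window which are not parallel to any `nv (θ k)` -/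
theorem card_pairs {m : ℕ} {θ : ℤ → ℝ} {q : ℤ → ℂ} {c : ℤ → ℝ} (h : Poly m θ q c) (hm : 3 ≤ m)
    {P : Finset ℂ} {S : Finset Circle} (hq : ∀ k, q k ∈ P) (hI : ∀ x, InS S x ↔ Ind θ x) (i₀ : ℤ) :
    ((Finset.Ico i₀ (i₀ + 2 * m) ×ˢ Finset.Ico i₀ (i₀ + 2 * m)).filter fun x : ℤ × ℤ =>
      ¬ Ind θ (q x.1 - q x.2)).card ≤ 4 * (nonA P S).card := by
  refine Finset.card_le_mul_card_image_of_maps_to
    (f := fun x : ℤ × ℤ => (q x.1, q x.2)) ?_ 4 ?_
  · intro x hx
    exact sb_mem hq hI (Finset.mem_filter.1 hx).2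
  · rintro ⟨u, v⟩ -
    calc _ ≤ (((Finset.Ico i₀ (i₀ + 2 * m)).filter fun i => q i = u) ×ˢ
          ((Finset.Ico i₀ (i₀ + 2 * m)).filter fun i => q i = v)).card := by
          refine Finset.card_le_card fun x hx => ?_
          rw [Finset.mem_filter, Finset.mem_filter, Finset.mem_product] at hx
          rw [Finset.mem_product, Finset.mem_filter, Finset.mem_filter]
          exact ⟨⟨hx.1.1.1, (Prod.mk.inj hx.2).1⟩, ⟨hx.1.1.2, (Prod.mk.inj hx.2).2⟩⟩
      _ ≤ 4 := by
          rw [Finset.card_product]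
          have a1 := h.card_fiber hm i₀ u
          have a2 := h.card_fiber hm i₀ v
          exact (Nat.mul_le_mul a1 a2)

end Pool.Agent.SimplV
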