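import Pool.Agent.SimplV.Hyp1
import Pool.Agent.SimplV.Level
import Pool.Agent.SimplV.SumBad

set_option autoImplicit false

/-! # The affine map is not hyperbolic (HM_Proof.md, 5.4, second half)

`u₁, u₂, k₁, k₂` from `hyp_local`. `G⁺` = the `j ∈ G` of the first kind, `G⁻` = the second kind,
`G = G⁺ ∪ G⁻`.
(a) `|G⁺| ≤ m + 8`, `|G⁻| ≤ m + 8`: for `j ∈ G⁺` with `SameSign θ u₁ j` the four values are positive
(otherwise `dt u₁ (q (j+2) - q j) < 0` by `dt_edge_neg`), in particular `dt u₁ (nv (θ (j+1))) > 0`: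
`card_mixed` and `card_pos` (window shifted by one). For `G⁻` use `-u₁` (or `card_pos` for `-u₁`).
So `|G⁺|, |G⁻| ≥ |G| - m - 8`.
(b) `K = {k ∈ [i₀ + 1, i₀ + 1 + 2m) : 0 < dt u₁ (nv (θ k)) * dt u₂ (nv (θ k))}` has at most
`2 m - |G| + 16` elements: for `j ∈ G` with `SameSign θ u₁ j` and `SameSign θ u₂ j` the signs are those of
`dt u₁ (q (j+2) - q j)` and `dt u₂ (q (j+2) - q j)`, opposite, so `j + 1 ∉ K`.
(c) For `i ∈ G⁺`, `j ∈ G⁻`: `x = q i - q j` has `dt u₁ x > 0` and `dt u₂ x > 0`. If `Ind θ x`, `x = t • nv (θ k)`,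
we may take `k ∈ [i₀ + 1, i₀ + 1 + 2m)` (`nv (θ (k + 2m)) = nv (θ k)`), and `k ∈ K`
(`t² dt u₁ (nv (θ k)) dt u₂ (nv (θ k)) > 0`). And then `dt (q j) (uv (θ k)) = dt (q i) (uv (θ k))`; for given
`i`, `k` at most 4 such `j` (`Poly.card_level`). So the number of pairs `(i, j)` with `Ind θ (q i - q j)` is
`≤ |G⁺| · |K| · 4 ≤ 4 (m + 8)(2m - |G| + 16)`, the number of the others is `≤ 4 (nonA P S).card`
(`card_pairs`). So `(|G| - m - 8)² ≤ 4 (m + 8)(2m - |G| + 16) + 4 (nonA P S).card`.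
(d) With `|G| ≥ 1.97 m`, `m ≥ 10^5`, `1000 (nonA P S).card ≤ m²`: the left side is
`≥ (0.97 m - 8)² ≥ 0.93 m²`, the right side `≤ 4 · 1.0001 m · 0.0302 m + 0.004 m² ≤ 0.13 m²`. -/

namespace Pool.Agent.SimplV

open Complex Module ComplexConjugate Pool.Agent.Simpl

private theorem hyp2_card_side {m : ℕ} {θ : ℤ → ℝ} {q : ℤ → ℂ} {c : ℤ → ℝ} (h : Poly m θ q c)
    (hm : 1 ≤ m) {u : ℂ} (hu : u ≠ 0) {i₀ : ℤ} {G : Finset ℤ}
    (hG : G ⊆ Finset.Ico i₀ (i₀ + 2 * m)) (hp : ∀ j ∈ G, 0 < dt u (q (j + 2) - q j)) :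
    G.card ≤ m + 8 := by
  classical
  have h1 := card_mixed hm h.mono h.per hu i₀
  have h2 := card_pos h.per u (i₀ + 1)
  have h3 : G.filter (fun j => ¬ SameSign θ u j) ⊆
      (Finset.Ico i₀ (i₀ + 2 * m)).filter fun j => ¬ SameSign θ u j :=
    Finset.filter_subset_filter _ hG
  have h4 : (G.filter fun j => SameSign θ u j).image (fun j => j + 1) ⊆
      (Finset.Ico (i₀ + 1) (i₀ + 1 + 2 * m)).filter fun k => 0 < dt u (nv (θ k)) := by
    intro k hk
    obtain ⟨j, hj, rfl⟩ := Finset.mem_image.1 hk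
    obtain ⟨hj1, hj2⟩ := Finset.mem_filter.1 hj
    have h5 := Finset.mem_Ico.1 (hG hj1)
    refine Finset.mem_filter.2 ⟨Finset.mem_Ico.2 ⟨by omega, by omega⟩, ?_⟩
    rcases hj2 with h6 | h6
    · exact h6 _ le_rfl (by omega)
    · have h7 := dt_edge_neg h (h6 (j + 1) le_rfl (by omega)) (h6 (j + 2) (by omega) (by omega))
      exact absurd (hp j hj1) h7.le.not_gt
  have h5 : ((G.filter fun j => SameSign θ u j).image (fun j => j + 1)).card =
      (G.filter fun j => SameSign θ u j).card :=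
    Finset.card_image_of_injective _ (add_left_injective 1)
  have h6 := Finset.card_filter_add_card_filter_not (s := G) (fun j => SameSign θ u j)
  have h7 := Finset.card_le_card h3
  have h8 := Finset.card_le_card h4
  omega

private theorem hyp2_per {m : ℕ} {θ : ℤ → ℝ} (hper : ∀ k, θ (k + m) = θ k + Real.pi) (k n : ℤ) :
    nv (θ (k + n * (2 * m))) = nv (θ k) := by
  have h1 : Function.Periodic (fun k : ℤ => nv (θ k)) (2 * (m : ℤ)) := by
    intro k
    change nv (θ (k + 2 * m)) = nv (θ k)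
    rw [show k + 2 * (m : ℤ) = k + m + m by ring, hper, hper, nv_add_pi, nv_add_pi, neg_neg]
  exact h1.int_mul n k

private theorem hyp2_window {m : ℕ} (hm : 1 ≤ m) (i₀ k : ℤ) :
    ∃ n : ℤ, k + n * (2 * m) ∈ Finset.Ico i₀ (i₀ + 2 * m) := by
  have h0 : (0 : ℤ) < 2 * m := by omega
  refine ⟨-((k - i₀) / (2 * m)), ?_⟩
  have h1 := Int.emod_add_mul_ediv (k - i₀) (2 * m)
  have h2 := Int.emod_nonneg (k - i₀) h0.ne'
  have h3 := Int.emod_lt_of_pos (k - i₀) h0
  rw [Finset.mem_Ico]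
  have h4 : k + -((k - i₀) / (2 * m)) * (2 * m) = i₀ + (k - i₀) % (2 * m) := by
    linear_combination -h1
  rw [h4]
  omega

theorem not_hyp {m : ℕ} {θ : ℤ → ℝ} {q : ℤ → ℂ} {c : ℤ → ℝ} (h : Poly m θ q c)
    (hm : 100000 ≤ m) {P : Finset ℂ} {S : Finset Circle} (hq : ∀ k, q k ∈ P)
    (hI : ∀ x, InS S x ↔ Ind θ x) (hK : 1000 * (nonA P S).card ≤ m ^ 2)
    {α β γ : ℂ} (hdet : Complex.normSq α - Complex.normSq β = 1) {i₀ : ℤ} {G : Finset ℤ}
    (hG : G ⊆ Finset.Ico i₀ (i₀ + 2 * m))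
    (hT : ∀ i ∈ G, af α β γ (q i) = q (i + 2) ∧ af α β γ (q (i + 2)) = q (i + 4))
    (hcard : 197 * m ≤ 100 * G.card) : α.re ≤ 1 := by
  classical
  by_contra hα
  rw [not_le] at hα
  obtain ⟨u₁, u₂, k₁, k₂, hu₁, hu₂, hloc⟩ := hyp_local h (by omega) hdet hα hT
  have hm1 : 1 ≤ m := by omega
  obtain ⟨Gp, hGp⟩ : ∃ Gp, Gp = G.filter fun j => 0 < dt u₁ (q (j + 2) - q j) := ⟨_, rfl⟩
  obtain ⟨Gm, hGm⟩ : ∃ Gm, Gm = G.filter fun j => ¬ 0 < dt u₁ (q (j + 2) - q j) := ⟨_, rfl⟩
  have hmemp : ∀ j ∈ Gp, j ∈ G ∧ 0 < dt u₁ (q (j + 2) - q j) := fun j hj => by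
    rw [hGp] at hj
    exact Finset.mem_filter.1 hj
  have hmemm : ∀ j ∈ Gm, j ∈ G ∧ ¬ 0 < dt u₁ (q (j + 2) - q j) := fun j hj => by
    rw [hGm] at hj
    exact Finset.mem_filter.1 hj
  have hsum : Gp.card + Gm.card = G.card := by
    rw [hGp, hGm]
    exact Finset.card_filter_add_card_filter_not _
  have hpc : Gp.card ≤ m + 8 :=
    hyp2_card_side h hm1 hu₁ (fun j hj => hG (hmemp j hj).1) fun j hj => (hmemp j hj).2
  have hmc : Gm.card ≤ m + 8 := by
    refine hyp2_card_side h hm1 (neg_ne_zero.2 hu₁) (fun j hj => hG (hmemm j hj).1) fun j hj => ?_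
    obtain ⟨hj1, hj2⟩ := hmemm j hj
    rw [dt_neg_left]
    rcases hloc j hj1 with h1 | h1
    · exact absurd h1.1 hj2
    · linarith [h1.1]
  obtain ⟨K, hKd⟩ : ∃ K, K = (Finset.Ico (i₀ + 1) (i₀ + 1 + 2 * m)).filter fun k =>
      0 < dt u₁ (nv (θ k)) * dt u₂ (nv (θ k)) := ⟨_, rfl⟩
  have hKc : K.card + G.card ≤ 2 * m + 16 := by
    have h1 := card_mixed hm1 h.mono h.per hu₁ i₀
    have h2 := card_mixed hm1 h.mono h.per hu₂ i₀
    have h3 : G.filter (fun j => ¬ (SameSign θ u₁ j ∧ SameSign θ u₂ j)) ⊆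
        ((Finset.Ico i₀ (i₀ + 2 * m)).filter fun j => ¬ SameSign θ u₁ j) ∪
          ((Finset.Ico i₀ (i₀ + 2 * m)).filter fun j => ¬ SameSign θ u₂ j) := by
      intro j hj
      obtain ⟨hj1, hj2⟩ := Finset.mem_filter.1 hj
      rw [Finset.mem_union, Finset.mem_filter, Finset.mem_filter]
      by_cases h4 : SameSign θ u₁ j
      · exact Or.inr ⟨hG hj1, fun h5 => hj2 ⟨h4, h5⟩⟩
      · exact Or.inl ⟨hG hj1, h4⟩
    have h4 : Disjoint ((G.filter fun j => SameSign θ u₁ j ∧ SameSign θ u₂ j).image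
        (fun j => j + 1)) K := by
      rw [Finset.disjoint_left]
      intro k hk hkK
      obtain ⟨j, hj, rfl⟩ := Finset.mem_image.1 hk
      obtain ⟨hj1, hj2, hj3⟩ := Finset.mem_filter.1 hj
      rw [hKd, Finset.mem_filter] at hkK
      have hpos := hkK.2
      rcases hloc j hj1 with ⟨ha, hb, -, -⟩ | ⟨ha, hb, -, -⟩
      · have e1 : 0 < dt u₁ (nv (θ (j + 1))) := by
          rcases hj2 with h6 | h6
          · exact h6 _ le_rfl (by omega)
          · have h7 := dt_edge_neg h (h6 (j + 1) le_rfl (by omega))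
              (h6 (j + 2) (by omega) (by omega))
            exact absurd ha h7.le.not_gt
        have e2 : dt u₂ (nv (θ (j + 1))) < 0 := by
          rcases hj3 with h6 | h6
          · have h7 := dt_edge_pos h (h6 (j + 1) le_rfl (by omega))
              (h6 (j + 2) (by omega) (by omega))
            exact absurd hb h7.le.not_gt
          · exact h6 _ le_rfl (by omega)
        exact absurd hpos (mul_neg_of_pos_of_neg e1 e2).le.not_gt
      · have e1 : dt u₁ (nv (θ (j + 1))) < 0 := by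
          rcases hj2 with h6 | h6
          · have h7 := dt_edge_pos h (h6 (j + 1) le_rfl (by omega))
              (h6 (j + 2) (by omega) (by omega))
            exact absurd ha h7.le.not_gt
          · exact h6 _ le_rfl (by omega)
        have e2 : 0 < dt u₂ (nv (θ (j + 1))) := by
          rcases hj3 with h6 | h6
          · exact h6 _ le_rfl (by omega)
          · have h7 := dt_edge_neg h (h6 (j + 1) le_rfl (by omega))
              (h6 (j + 2) (by omega) (by omega))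
            exact absurd hb h7.le.not_gt
        exact absurd hpos (mul_neg_of_neg_of_pos e1 e2).le.not_gt
    have h5 : ((G.filter fun j => SameSign θ u₁ j ∧ SameSign θ u₂ j).image (fun j => j + 1)) ∪ K ⊆
        Finset.Ico (i₀ + 1) (i₀ + 1 + 2 * m) := by
      intro k hk
      rcases Finset.mem_union.1 hk with h6 | h6
      · obtain ⟨j, hj, rfl⟩ := Finset.mem_image.1 h6
        have h7 := Finset.mem_Ico.1 (hG (Finset.mem_filter.1 hj).1)
        rw [Finset.mem_Ico]
        omega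
      · rw [hKd] at h6
        exact (Finset.mem_filter.1 h6).1
    have h6 := Finset.card_le_card h5
    rw [Finset.card_union_of_disjoint h4, Finset.card_image_of_injective _ (add_left_injective 1),
      Int.card_Ico] at h6
    have h7 := (Finset.card_le_card h3).trans (Finset.card_union_le _ _)
    have h8 := Finset.card_filter_add_card_filter_not (s := G)
      (fun j => SameSign θ u₁ j ∧ SameSign θ u₂ j)
    omega
  -- pairs
  have hInd : ∀ i ∈ Gp, ∀ j ∈ Gm, Ind θ (q i - q j) →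
      ∃ k ∈ K, dt (q j) (uv (θ k)) = dt (q i) (uv (θ k)) := by
    intro i hi j hj hij
    obtain ⟨hi1, hi2⟩ := hmemp i hi
    obtain ⟨hj1, hj2⟩ := hmemm j hj
    have hx : 0 < dt u₁ (q i - q j) ∧ 0 < dt u₂ (q i - q j) := by
      rw [dt_sub_right, dt_sub_right]
      rcases hloc i hi1 with h1 | h1
      · rcases hloc j hj1 with h2 | h2
        · exact absurd h2.1 hj2
        · obtain ⟨-, -, h3, h4⟩ := h1
          obtain ⟨-, -, h5, h6⟩ := h2
          constructor <;> linarith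
      · exact absurd hi2 h1.1.le.not_gt
    obtain ⟨k, t, ht⟩ := hij
    obtain ⟨n, hn⟩ := hyp2_window hm1 (i₀ + 1) k
    have ht' : q i - q j = t • nv (θ (k + n * (2 * m))) := by rw [ht, hyp2_per h.per]
    refine ⟨k + n * (2 * m), ?_, ?_⟩
    · rw [hKd]
      refine Finset.mem_filter.2 ⟨hn, ?_⟩
      rw [ht', dt_smul_right, dt_smul_right] at hx
      have h1 := mul_pos hx.1 hx.2
      have h2 : t * dt u₁ (nv (θ (k + n * (2 * m)))) * (t * dt u₂ (nv (θ (k + n * (2 * m))))) =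
        t ^ 2 * (dt u₁ (nv (θ (k + n * (2 * m)))) * dt u₂ (nv (θ (k + n * (2 * m))))) := by ring
      rw [h2] at h1
      exact pos_of_mul_pos_right h1 (sq_nonneg t)
    · have h1 : dt (q i - q j) (uv (θ (k + n * (2 * m)))) = 0 := by
        rw [ht', dt_smul_left, dt_nv_uv, sub_self, Real.sin_zero, mul_zero]
      rw [dt_sub_left] at h1
      linarith
  have hIc : ∀ i ∈ Gp, (Gm.filter fun j => Ind θ (q i - q j)).card ≤ 4 * K.card := by
    intro i hi
    have h1 : (Gm.filter fun j => Ind θ (q i - q j)) ⊆ K.biUnion fun k =>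
        (Finset.Ico i₀ (i₀ + 2 * m)).filter fun j => dt (q j) (uv (θ k)) = dt (q i) (uv (θ k)) := by
      intro j hj
      obtain ⟨hj1, hj2⟩ := Finset.mem_filter.1 hj
      obtain ⟨k, hk, hk2⟩ := hInd i hi j hj1 hj2
      exact Finset.mem_biUnion.2 ⟨k, hk, Finset.mem_filter.2 ⟨hG (hmemm j hj1).1, hk2⟩⟩
    refine (Finset.card_le_card h1).trans (Finset.card_biUnion_le.trans ?_)
    refine (Finset.sum_le_card_nsmul _ _ 4 fun k _ => h.card_level i₀ k _).trans ?_
    rw [smul_eq_mul, mul_comm]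
  have hpairs : Gp.card * Gm.card ≤ Gp.card * (4 * K.card) + 4 * (nonA P S).card := by
    have h1 := card_pairs h (by omega) hq hI i₀
    have h2 : (Gp ×ˢ Gm).filter (fun x : ℤ × ℤ => ¬ Ind θ (q x.1 - q x.2)) ⊆
        (Finset.Ico i₀ (i₀ + 2 * m) ×ˢ Finset.Ico i₀ (i₀ + 2 * m)).filter fun x : ℤ × ℤ =>
          ¬ Ind θ (q x.1 - q x.2) := by
      apply Finset.filter_subset_filter
      intro x hx
      obtain ⟨hx1, hx2⟩ := Finset.mem_product.1 hx
      exact Finset.mem_product.2 ⟨hG (hmemp _ hx1).1, hG (hmemm _ hx2).1⟩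
    have h3 : ((Gp ×ˢ Gm).filter fun x : ℤ × ℤ => Ind θ (q x.1 - q x.2)).card ≤
        Gp.card * (4 * K.card) := by
      have h4 : ((Gp ×ˢ Gm).filter fun x : ℤ × ℤ => Ind θ (q x.1 - q x.2)) =
          Gp.biUnion fun i => ({i} : Finset ℤ) ×ˢ (Gm.filter fun j => Ind θ (q i - q j)) := by
        ext ⟨i, j⟩
        simp only [Finset.mem_filter, Finset.mem_product, Finset.mem_biUnion,
          Finset.mem_singleton]
        constructor
        · rintro ⟨⟨ha, hb⟩, hc⟩
          exact ⟨i, ha, rfl, hb, hc⟩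
        · rintro ⟨i', ha, rfl, hb, hc⟩
          exact ⟨⟨ha, hb⟩, hc⟩
      rw [h4]
      refine Finset.card_biUnion_le.trans ?_
      refine (Finset.sum_le_card_nsmul _ _ (4 * K.card) fun i hi => ?_).trans ?_
      · rw [Finset.card_product, Finset.card_singleton, one_mul]
        exact hIc i hi
      · rw [smul_eq_mul]
    have h5 := Finset.card_filter_add_card_filter_not (s := Gp ×ˢ Gm)
      (fun x : ℤ × ℤ => Ind θ (q x.1 - q x.2))
    rw [Finset.card_product] at h5
    have h6 := (Finset.card_le_card h2).trans (by convert h1)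
    omega
  -- numbers
  have a1 : 96 * m ≤ 100 * Gp.card := by omega
  have a2 : 84 * m + 400 * K.card ≤ 100 * Gm.card := by omega
  have a3 : (96 * m) * (84 * m) ≤ (100 * Gp.card) * (100 * Gm.card - 400 * K.card) :=
    Nat.mul_le_mul a1 (by omega)
  have a4 : (100 * Gp.card) * (100 * Gm.card - 400 * K.card) + 10000 * (Gp.card * (4 * K.card)) =
      10000 * (Gp.card * Gm.card) := by
    obtain ⟨r, hr⟩ : ∃ r, 100 * Gm.card = 400 * K.card + r := ⟨100 * Gm.card - 400 * K.card, by omega⟩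
    have e1 : 100 * Gm.card - 400 * K.card = r := by omega
    rw [e1]
    have e2 : 10000 * (Gp.card * Gm.card) = 100 * Gp.card * (100 * Gm.card) := by ring
    rw [e2, hr]
    ring
  have a5 : (96 * m) * (84 * m) ≤ 40000 * (nonA P S).card := by omega
  have a6 : (96 * m) * (84 * m) = 8064 * m ^ 2 := by ring
  have a7 : 0 < m ^ 2 := by positivity
  omega

end Pool.Agent.SimplV
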