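import Pool.Agent.SimplV.Win
import Pool.Agent.SimplV.ExT
import Pool.Agent.SimplV.Hyp2
import Pool.Agent.SimplV.Ell

set_option autoImplicit false

/-! # Nearly all points are on one ellipse (HM_Proof.md, 6.3, 6.5)

Assembly. `K = (nonA P S).card`, `n = P.card`: `9 K ≤ 10 (n - m)(n - 1)`, `24000 (n - m) ≤ m`. If `n < m`
then `K = 0` (or `n = 0`, impossible as `q 0 ∈ P`); in any case `9 K ≤ 10 (m/24000)(m + m/24000)`.
`sum_bad` gives `exists_center` with `B = 48 K`: `m (2m - 26 - |G|) ≤ 432 K ≤ 480 (m/24000)(m + m/24000)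
≤ 0.020001 m²`, so `|G| ≥ 1.979999 m - 26 ≥ 1.9799 m` (`m ≥ 400000`).
`exists_T`, `not_neg`, `not_one`, `not_hyp` (`1000 K ≤ m²`): `-1 < Re α < 1`. `elliptic` gives
`L = af α₁ β₁ γ₁` and `ω`. For `i ∈ G`, `x = L (q i)`, `y = L (q j₀)`: `L (q (i+2)) = ω x`,
`L (q (j₀+2)) = ω y`, and `0 = cr (q i - q (j₀+2)) (q (i+2) - q j₀)` gives (`af_sub`, `cr_af`)
`cr (x - ω y) (ω x - y) = 0`, so `‖x‖ = ‖y‖ =: R` (`norm_eq`). `R ≠ 0`: otherwise `L (q i) = L (q (i+2))` is
`0` for `i ∈ G` and `q` would be constant on `G` (`L` is injective, `normSq α₁ ≠ normSq β₁`), but by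
`Poly.card_fiber` at most two positions have the same value. Scale: `α' = α₁/R`, etc.; then
`‖af α' β' γ' (q i)‖ = 1` for `i ∈ G`. By `Poly.card_fiber` the number of the different `q i`, `i ∈ G`, is at
least `|G| / 2 ≥ 0.98995 m`. -/

namespace Pool.Agent.SimplV

open Complex Module ComplexConjugate Pool.Agent.Simpl Classical

private theorem nc_inj {α β γ z w : ℂ} (h : Complex.normSq α - Complex.normSq β ≠ 0)
    (he : af α β γ z = af α β γ w) : z = w := by
  have h1 : af α β 0 (z - w) = 0 := by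
    rw [← af_sub, he, sub_self]
  have h2 : α * (z - w) = -(β * conj (z - w)) := by
    have := h1
    unfold af at this
    linear_combination this
  have h3 : Complex.normSq α * Complex.normSq (z - w) =
      Complex.normSq β * Complex.normSq (z - w) := by
    have := congrArg Complex.normSq h2
    rw [Complex.normSq_neg, Complex.normSq_mul, Complex.normSq_mul, Complex.normSq_conj] at this
    exact this
  have h4 : (Complex.normSq α - Complex.normSq β) * Complex.normSq (z - w) = 0 := by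
    linear_combination h3
  rcases mul_eq_zero.mp h4 with h5 | h5
  · exact absurd h5 h
  · exact sub_eq_zero.mp (Complex.normSq_eq_zero.mp h5)

private theorem nc_num {m K N : ℤ} (hm : 400000 ≤ m) (hN : 1 ≤ N)
    (hK : 9 * K ≤ 10 * ((N - m) * (N - 1))) (hn : 24000 * (N - m) ≤ m) :
    5184000000 * K ≤ 240010 * m ^ 2 := by
  rcases le_or_gt N m with h | h
  · have h1 : (N - m) * (N - 1) ≤ 0 := mul_nonpos_of_nonpos_of_nonneg (by linarith) (by linarith)
    have h2 : K ≤ 0 := by linarith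
    nlinarith [sq_nonneg m]
  · have h1 : 24000 * (N - 1) ≤ 24001 * m := by linarith
    have h2 : (24000 * (N - m)) * (24000 * (N - 1)) ≤ m * (24001 * m) :=
      mul_le_mul hn h1 (by linarith) (by linarith)
    nlinarith

theorem near_circle {m : ℕ} {θ : ℤ → ℝ} {q : ℤ → ℂ} {c : ℤ → ℝ} (h : Poly m θ q c)
    (hm : 400000 ≤ m) {P : Finset ℂ} {S : Finset Circle} (hq : ∀ k, q k ∈ P)
    (hI : ∀ x, InS S x ↔ Ind θ x)
    (hK : 9 * ((nonA P S).card : ℤ) ≤ 10 * (((P.card : ℤ) - m) * ((P.card : ℤ) - 1)))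
    (hn : 24000 * ((P.card : ℤ) - m) ≤ m) :
    ∃ α β γ : ℂ, Complex.normSq α ≠ Complex.normSq β ∧
      989 * m ≤ 1000 * (P.filter fun p => ‖af α β γ p‖ = 1).card := by
  set K := (nonA P S).card with hKdef
  have hN : (1 : ℤ) ≤ P.card := by
    have : 0 < P.card := Finset.card_pos.mpr ⟨q 0, hq 0⟩
    exact_mod_cast this
  have hmZ : (400000 : ℤ) ≤ m := by exact_mod_cast hm
  have hnum : 5184000000 * (K : ℤ) ≤ 240010 * (m : ℤ) ^ 2 :=
    nc_num hmZ hN hK hn
  have hm2 : (0 : ℤ) ≤ (m : ℤ) ^ 2 := by positivity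
  have hK1 : 1000 * K ≤ m ^ 2 := by
    have : (1000 : ℤ) * K ≤ (m : ℤ) ^ 2 := by linarith
    exact_mod_cast this
  obtain ⟨j₀, G, hGs, hGw, hGc⟩ := exists_center h (by omega) (sum_bad h (by omega) hq hI)
  have hGcard : (1978 : ℤ) * m ≤ 1000 * G.card := by
    by_contra hcon
    push Not at hcon
    have h1 : (m : ℤ) * (2 * m - 26 - G.card) ≤ 9 * (48 * (K : ℤ)) := by
      have := hGc
      push_cast at this
      exact this
    have h2 : (m : ℤ) * (1000 * (2 * m - 26 - G.card)) ≥ m * (22 * m - 26000) :=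
      mul_le_mul_of_nonneg_left (by linarith) (by linarith)
    nlinarith
  have hGc2 : 1978 * m ≤ 1000 * G.card := by exact_mod_cast hGcard
  have hne : G.Nonempty := by
    rw [← Finset.card_pos]
    omega
  obtain ⟨α, β, γ, hdet, hj₀, hT⟩ := exists_T h (by omega) hne hGw
  have hT2 : ∀ i ∈ G, af α β γ (q i) = q (i + 2) ∧ af α β γ (q (i + 2)) = q (i + 4) :=
    fun i hi => ⟨(hT i hi).1, (hT i hi).2.1⟩
  have ha1 : -1 < α.re := not_neg h (by omega) hdet hGs hT2 (by omega)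
  have ha2 : α.re ≠ 1 := not_one h (by omega) hdet hGs hT2 (by omega)
  have ha3 : α.re ≤ 1 := not_hyp h (by omega) hq hI hK1 hdet hGs hT2 (by omega)
  obtain ⟨α₁, β₁, γ₁, ω, hd1, hω, hω', hL⟩ := elliptic (γ := γ) hdet ha1 (lt_of_le_of_ne ha3 ha2)
  have hnorm : ∀ i ∈ G, ‖af α₁ β₁ γ₁ (q i)‖ = ‖af α₁ β₁ γ₁ (q j₀)‖ := by
    intro i hi
    obtain ⟨e1, -, e3⟩ := hT i hi
    apply norm_eq hω hω'
    have f1 : af α₁ β₁ γ₁ (q (j₀ + 2)) = ω * af α₁ β₁ γ₁ (q j₀) := by rw [← hj₀, hL]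
    have f2 : af α₁ β₁ γ₁ (q (i + 2)) = ω * af α₁ β₁ γ₁ (q i) := by rw [← e1, hL]
    rw [← f1, ← f2, af_sub, af_sub, cr_af, e3, mul_zero]
  have hR : ‖af α₁ β₁ γ₁ (q j₀)‖ ≠ 0 := by
    intro h0
    obtain ⟨i₁, hi₁⟩ := hne
    have hz : ∀ i ∈ G, q i = q i₁ := by
      intro i hi
      have g1 : af α₁ β₁ γ₁ (q i) = 0 := norm_eq_zero.mp ((hnorm i hi).trans h0)
      have g2 : af α₁ β₁ γ₁ (q i₁) = 0 := norm_eq_zero.mp ((hnorm i₁ hi₁).trans h0)
      exact nc_inj hd1 (g1.trans g2.symm)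
    have hc := h.card_fiber (by omega) (j₀ - m) (q i₁)
    have hsub : G ⊆ (Finset.Ico (j₀ - m) (j₀ - m + 2 * m)).filter fun i => q i = q i₁ := by
      intro i hi
      exact Finset.mem_filter.mpr ⟨hGs hi, hz i hi⟩
    have := (Finset.card_le_card hsub).trans hc
    omega
  set R := ‖af α₁ β₁ γ₁ (q j₀)‖ with hRdef
  have hRc : (R : ℂ) ≠ 0 := by exact_mod_cast hR
  refine ⟨(R : ℂ)⁻¹ * α₁, (R : ℂ)⁻¹ * β₁, (R : ℂ)⁻¹ * γ₁, ?_, ?_⟩
  · rw [Complex.normSq_mul, Complex.normSq_mul]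
    intro he
    have hr : Complex.normSq ((R : ℂ)⁻¹) ≠ 0 := by
      rw [Ne, Complex.normSq_eq_zero]
      exact inv_ne_zero hRc
    exact hd1 (sub_eq_zero.mpr (mul_left_cancel₀ hr he))
  · have haf : ∀ z, af ((R : ℂ)⁻¹ * α₁) ((R : ℂ)⁻¹ * β₁) ((R : ℂ)⁻¹ * γ₁) z =
        (R : ℂ)⁻¹ * af α₁ β₁ γ₁ z := by
      intro z
      unfold af
      ring
    have hmem : ∀ i ∈ G, q i ∈ P.filter fun p =>
        ‖af ((R : ℂ)⁻¹ * α₁) ((R : ℂ)⁻¹ * β₁) ((R : ℂ)⁻¹ * γ₁) p‖ = 1 := by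
      intro i hi
      refine Finset.mem_filter.mpr ⟨hq i, ?_⟩
      rw [haf, norm_mul, hnorm i hi, norm_inv, Complex.norm_real, Real.norm_eq_abs,
        abs_of_nonneg (norm_nonneg _)]
      exact inv_mul_cancel₀ hR
    have hcc := Finset.card_le_mul_card_image_of_maps_to hmem 2 (by
      intro b _
      have hc := h.card_fiber (by omega) (j₀ - m) b
      refine le_trans (Finset.card_le_card ?_) hc
      intro i hi
      rw [Finset.mem_filter] at hi ⊢
      exact ⟨hGs hi.1, hi.2⟩)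
    omega

end Pool.Agent.SimplV
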