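import Pool.Agent.SimplV.Fre
import Pool.Agent.SimplV.Rts

set_option autoImplicit false

/-! # The unit points and the axes are nearly roots of unity (HM_Proof.md, 7.2)

`m = S.card ≥ 10^5`. `n - m ≤ m / 24000`, so `X.card ≤ n ≤ 1.00005 m` and
`Q := #{(x, y) ∈ X² : x y ∉ S} ≤ (10/9)(m/24000)(1.00005 m) + 1.00005 m ≤ 5.64 · 10⁻⁵ m²`
(`n ≥ 1`). `X.card ≥ 0.989 m`. Apply `fre` with `B = S`, `h₁ = 0.0112`, `h₂ = 0.008`:
`m ≤ 1.0112 · 0.989 m`; `Q ≤ 0.008² · (0.989 m)² ≤ h₂² |X|²`; `12 (2 h₂ + h₁) = 0.3264 ≤ 1`.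
`H = rts N`, `N = H.card` (`eq_rts`). `0.9456 N ≤ |X|`, `x₀ ∈ X`, and
`#{x ∈ X : x₀⁻¹ x ∈ H} ≥ 0.992 |X|`; this is `#{w ∈ H : x₀ w ∈ X}` (bijection `w = x₀⁻¹ x`).
So `N ≥ 0.992 · 0.989 m ≥ 0.981 m`, `#{w ∈ H : x₀ w ∉ X} ≤ N - 0.992 · 0.9456 N ≤ 0.062 N`.
For `h ∈ H` with `x₀² h ∉ S`: at least `N - 2 · 0.062 N = 0.876 N` elements `a ∈ H` have `x₀ a ∈ X` and
`x₀ (h a⁻¹) ∈ X` (`a ↦ h a⁻¹` is a bijection of `H`); the pairs `(x₀ a, x₀ h a⁻¹)` have the product `x₀² h ∉ S`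
and are different for different `(h, a)`. So `#{h : x₀² h ∉ S} · 0.876 N ≤ Q ≤ 5.64 · 10⁻⁵ (N / 0.981)²`,
i.e. `#{..} ≤ 0.0001 N`. -/

namespace Pool.Agent.SimplV

open Complex Module ComplexConjugate Pool.Agent.Simpl Classical

private theorem ng_num {m n x Q : ℝ} (hm : 100000 ≤ m) (hn : x ≤ n)
    (hn' : 24000 * (n - m) ≤ m) (hX : 989 * m ≤ 1000 * x)
    (hQ : 9 * Q ≤ 10 * ((n - m) * (n - 1)) + 9 * x) : Q ≤ 564 / 10 ^ 7 * m ^ 2 := by
  have h1 : 0 ≤ n - 1 := by linarith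
  have h2 : n - m ≤ m / 24000 := by linarith
  have h3 : (n - m) * (n - 1) ≤ m / 24000 * (n - 1) := mul_le_mul_of_nonneg_right h2 h1
  have h4 : m / 24000 * (n - 1) ≤ m / 24000 * (m + m / 24000) :=
    mul_le_mul_of_nonneg_left (by linarith) (by linarith)
  have h5 : x ≤ m + m / 24000 := by linarith
  have h6 : (m + m / 24000) * 100000 ≤ (m + m / 24000) * m :=
    mul_le_mul_of_nonneg_left hm (by linarith)
  nlinarith [mul_pos (show (0 : ℝ) < m by linarith) (show (0 : ℝ) < m by linarith)]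

private theorem ng_count (X S : Finset Circle) {N : ℕ} (hN : 0 < N) (x₀ : Circle) :
    (((rts N).filter fun w => x₀ ^ 2 * w ∉ S).card : ℝ) *
        (N - 2 * ((rts N).filter fun w => x₀ * w ∉ X).card) ≤
      ((X ×ˢ X).filter fun x : Circle × Circle => x.1 * x.2 ∉ S).card := by
  set Bd := (rts N).filter fun w => x₀ ^ 2 * w ∉ S with hBd
  set Ms := (rts N).filter fun w => x₀ * w ∉ X with hMs
  have hinv : ∀ h ∈ rts N, ∀ a ∈ rts N, h * a⁻¹ ∈ rts N := by
    intro h hh a ha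
    rw [mem_rts hN] at hh ha ⊢
    rw [mul_pow, inv_pow, hh, ha, inv_one, mul_one]
  let A : Circle → Finset Circle := fun h =>
    (rts N).filter fun a => x₀ * a ∈ X ∧ x₀ * (h * a⁻¹) ∈ X
  have hA : ∀ h ∈ Bd, (N : ℝ) - 2 * Ms.card ≤ (A h).card := by
    intro h hh
    have hh1 : h ∈ rts N := (Finset.mem_filter.1 hh).1
    have h1 : rts N ⊆ A h ∪ (Ms ∪ (rts N).filter fun a => x₀ * (h * a⁻¹) ∉ X) := by
      intro a ha
      simp only [A, hMs, Finset.mem_union, Finset.mem_filter]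
      tauto
    have h2 : ((rts N).filter fun a => x₀ * (h * a⁻¹) ∉ X).card ≤ Ms.card := by
      refine Finset.card_le_card_of_injOn (fun a => h * a⁻¹) ?_ ?_
      · intro a ha
        have ha' := Finset.mem_filter.1 (Finset.mem_coe.1 ha)
        exact Finset.mem_coe.2 (Finset.mem_filter.2 ⟨hinv h hh1 a ha'.1, ha'.2⟩)
      · intro a _ b _ hab
        exact inv_injective (mul_left_cancel hab)
    have h3 := Finset.card_le_card h1
    rw [card_rts] at h3
    have h4 := Finset.card_union_le (A h) (Ms ∪ (rts N).filter fun a => x₀ * (h * a⁻¹) ∉ X)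
    have h5 := Finset.card_union_le Ms ((rts N).filter fun a => x₀ * (h * a⁻¹) ∉ X)
    have h6 : N ≤ (A h).card + 2 * Ms.card := by omega
    have h7 : (N : ℝ) ≤ (A h).card + 2 * Ms.card := by exact_mod_cast h6
    linarith
  have hsum : (Bd.card : ℝ) * (N - 2 * Ms.card) ≤ ∑ h ∈ Bd, ((A h).card : ℝ) := by
    have h1 := Finset.card_nsmul_le_sum Bd (fun h => ((A h).card : ℝ)) _ hA
    rwa [nsmul_eq_mul] at h1
  refine hsum.trans ?_
  rw [← Nat.cast_sum, ← Finset.card_sigma]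
  refine Nat.cast_le.2 (Finset.card_le_card_of_injOn
    (fun p : (_ : Circle) × Circle => (x₀ * p.2, x₀ * (p.1 * p.2⁻¹))) ?_ ?_)
  · rintro ⟨h, a⟩ hp
    have hp' := Finset.mem_sigma.1 (Finset.mem_coe.1 hp)
    have h1 := Finset.mem_filter.1 hp'.1
    have h2 := Finset.mem_filter.1 hp'.2
    refine Finset.mem_coe.2 (Finset.mem_filter.2 ⟨Finset.mem_product.2 h2.2, ?_⟩)
    have h3 : x₀ * a * (x₀ * (h * a⁻¹)) = x₀ ^ 2 * h := by
      rw [pow_two]
      calc x₀ * a * (x₀ * (h * a⁻¹)) = x₀ * x₀ * h * (a * a⁻¹) := by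
            simp only [mul_assoc, mul_comm, mul_left_comm]
        _ = x₀ * x₀ * h := by rw [mul_inv_cancel, mul_one]
    change x₀ * a * (x₀ * (h * a⁻¹)) ∉ S
    rw [h3]
    exact h1.2
  · rintro ⟨h, a⟩ _ ⟨h', a'⟩ _ hab
    have h1 := (Prod.ext_iff.1 hab).1
    have h2 := (Prod.ext_iff.1 hab).2
    have h3 : a = a' := mul_left_cancel h1
    subst h3
    have h4 : h = h' := mul_right_cancel (mul_left_cancel h2)
    subst h4
    rfl

theorem near_group (X S : Finset Circle) (n : ℕ) (hm : 100000 ≤ S.card) (hn : X.card ≤ n)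
    (hn' : 24000 * ((n : ℤ) - S.card) ≤ S.card) (hX : 989 * S.card ≤ 1000 * X.card)
    (hQ : 9 * (((X ×ˢ X).filter fun x : Circle × Circle => x.1 * x.2 ∉ S).card : ℤ) ≤
      10 * (((n : ℤ) - S.card) * ((n : ℤ) - 1)) + 9 * X.card) :
    ∃ (N : ℕ) (x₀ : Circle), 981 * S.card ≤ 1000 * N ∧
      1000 * ((rts N).filter fun w => x₀ * w ∉ X).card ≤ 62 * N ∧
      1000 * ((rts N).filter fun w => x₀ ^ 2 * w ∉ S).card ≤ N := by
  have rm : (100000 : ℝ) ≤ S.card := by exact_mod_cast hm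
  have rn : (X.card : ℝ) ≤ n := by exact_mod_cast hn
  have rn' : (24000 : ℝ) * ((n : ℝ) - S.card) ≤ S.card := by exact_mod_cast hn'
  have rX : (989 : ℝ) * S.card ≤ 1000 * X.card := by exact_mod_cast hX
  have rQ : (9 : ℝ) * (((X ×ˢ X).filter fun x : Circle × Circle => x.1 * x.2 ∉ S).card : ℝ) ≤
      10 * (((n : ℝ) - S.card) * ((n : ℝ) - 1)) + 9 * X.card := by exact_mod_cast hQ
  have hQ1 := ng_num rm rn rn' rX rQ
  have hXc : 0 < X.card := by omega
  have hXn : X.Nonempty := Finset.card_pos.1 hXc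
  have hB : (S.card : ℝ) ≤ (1 + 112 / 10000) * X.card := by linarith
  have hXB : (((X ×ˢ X).filter fun x : Circle × Circle => x.1 * x.2 ∉ S).card : ℝ) ≤
      (8 / 1000) ^ 2 * X.card ^ 2 := by
    refine hQ1.trans ?_
    have h1 : ((989 : ℝ) / 1000 * S.card) ^ 2 ≤ (X.card : ℝ) ^ 2 :=
      pow_le_pow_left₀ (by positivity) (by linarith) 2
    nlinarith [sq_nonneg (S.card : ℝ)]
  obtain ⟨H, h1, hmul, hcard, x₀, -, hcount⟩ := fre X S hXn (112 / 10000) (8 / 1000)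
    (by norm_num) (by norm_num) (by norm_num) hB hXB
  have hHr := eq_rts H h1 hmul
  have hN : 0 < H.card := Finset.card_pos.2 ⟨1, h1⟩
  generalize H.card = N at hHr hN hcard
  subst hHr
  have hbij : (X.filter fun x => x₀⁻¹ * x ∈ rts N).card =
      ((rts N).filter fun w => x₀ * w ∈ X).card := by
    refine Finset.card_nbij' (fun x => x₀⁻¹ * x) (fun w => x₀ * w) ?_ ?_ ?_ ?_
    · intro x hx
      have hx' := Finset.mem_filter.1 (Finset.mem_coe.1 hx)
      refine Finset.mem_coe.2 (Finset.mem_filter.2 ⟨hx'.2, ?_⟩)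
      rw [mul_inv_cancel_left]
      exact hx'.1
    · intro x hx
      have hx' := Finset.mem_filter.1 (Finset.mem_coe.1 hx)
      refine Finset.mem_coe.2 (Finset.mem_filter.2 ⟨hx'.2, ?_⟩)
      rw [inv_mul_cancel_left]
      exact hx'.1
    · intro x _
      exact mul_inv_cancel_left x₀ x
    · intro x _
      exact inv_mul_cancel_left x₀ x
  rw [hbij] at hcount
  have hsplit : ((rts N).filter fun w => x₀ * w ∈ X).card +
      ((rts N).filter fun w => x₀ * w ∉ X).card = N := by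
    have h2 := Finset.card_filter_add_card_filter_not (s := rts N) (fun w => x₀ * w ∈ X)
    rwa [card_rts] at h2
  have hle : ((rts N).filter fun w => x₀ * w ∈ X).card ≤ N := by omega
  have rsplit : (((rts N).filter fun w => x₀ * w ∈ X).card : ℝ) +
      ((rts N).filter fun w => x₀ * w ∉ X).card = N := by exact_mod_cast hsplit
  have rle : (((rts N).filter fun w => x₀ * w ∈ X).card : ℝ) ≤ N := by exact_mod_cast hle
  have hNr : (981 : ℝ) * S.card ≤ 1000 * N := by nlinarith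
  have hms : (1000 : ℝ) * ((rts N).filter fun w => x₀ * w ∉ X).card ≤ 62 * N := by nlinarith
  refine ⟨N, x₀, by exact_mod_cast hNr, by exact_mod_cast hms, ?_⟩
  have hc := (ng_count X S hN x₀).trans hQ1
  have hNp : (0 : ℝ) < N := by exact_mod_cast hN
  have hb0 : (0 : ℝ) ≤ ((rts N).filter fun w => x₀ ^ 2 * w ∉ S).card := Nat.cast_nonneg _
  have hc1 : (((rts N).filter fun w => x₀ ^ 2 * w ∉ S).card : ℝ) * (876 / 1000 * N) ≤
      564 / 10 ^ 7 * (S.card : ℝ) ^ 2 :=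
    (mul_le_mul_of_nonneg_left (by linarith) hb0).trans hc
  have hc2 : (S.card : ℝ) ^ 2 ≤ (1000 / 981 * N) ^ 2 :=
    pow_le_pow_left₀ (by positivity) (by linarith) 2
  have hc3 : ((((rts N).filter fun w => x₀ ^ 2 * w ∉ S).card : ℝ) * 1000) * N ≤ N * N := by
    nlinarith [mul_pos hNp hNp]
  have hc4 := le_of_mul_le_mul_right hc3 hNp
  have hc5 : (1000 : ℝ) * ((rts N).filter fun w => x₀ ^ 2 * w ∉ S).card ≤ N := by linarith
  exact_mod_cast hc5

end Pool.Agent.SimplV
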