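import Pool.Agent.SimplV.UnitPts
import Pool.Agent.SimplV.NearGroup
import Pool.Agent.SimplV.Count

set_option autoImplicit false

/-! # The arrangement is nearly regular (HM_Proof.md, 7.2)

`near_group` with `X = unitPts P`, `n = P.card`; `hQ` from `card_products_le` and `nonA_le`; `|X| ≤ n` as
`X` is the filter of `P` (`card_unitPts`). It gives `N`, `x₀`. Let `w₀ = x₀⁻¹` and
`A' = A.image (map (rot w₀))`. `map_rot_tang`, `map_rot_ax` (`Simpl/PBasic.lean`):
`tang 1 w ∈ A' ↔ tang 1 (x₀ w) ∈ A ↔ x₀ w ∈ X` (`pl_tang` with `ρ = 1`), `ax w ∈ A' ↔ ax (x₀² w) ∈ A ↔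
x₀² w ∈ S`. So by `card_polReg_sdiff` `miss := |polReg N \ A'| ≤ 0.063 N`, and `|A'| = |A| = P.card + S.card`
(`map` is injective), `|A' \ polReg N| = |A'| - (2 N - miss) ≤ (2 + 1/24000) m - 2 N + 0.063 N
≤ (2.00005/0.981 - 1.937) N ≤ 0.11 N`. -/

namespace Pool.Agent.SimplV

open Complex Module ComplexConjugate Pool.Agent.Simpl Classical

private theorem inj_rot (w : Circle) : Function.Injective
    (Submodule.map (rot w).toLinearMap : Submodule ℝ (ℂ × ℝ) → Submodule ℝ (ℂ × ℝ)) :=
  Submodule.map_injective_of_injective (rot w).injective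

private theorem tang_mem_iff {A : Finset (Submodule ℝ (ℂ × ℝ))} {P : Finset ℂ}
    {S : Finset Circle} (h : Dual A P S) (x₀ w : Circle) :
    tang 1 w ∈ A.image (Submodule.map (rot x₀⁻¹).toLinearMap) ↔ x₀ * w ∈ unitPts P := by
  have h1 : tang 1 w = (tang 1 (x₀ * w)).map (rot x₀⁻¹).toLinearMap := by
    rw [map_rot_tang, inv_mul_cancel_left]
  rw [h1, (inj_rot x₀⁻¹).mem_finset_image, pl_tang one_pos, h.pl_mem, mem_unitPts,
    Complex.ofReal_one, div_one]

private theorem ax_mem_iff {A : Finset (Submodule ℝ (ℂ × ℝ))} {P : Finset ℂ}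
    {S : Finset Circle} (h : Dual A P S) (x₀ w : Circle) :
    ax w ∈ A.image (Submodule.map (rot x₀⁻¹).toLinearMap) ↔ x₀ ^ 2 * w ∈ S := by
  have h1 : ax w = (ax (x₀ ^ 2 * w)).map (rot x₀⁻¹).toLinearMap := by
    rw [map_rot_ax, inv_pow, inv_mul_cancel_left]
  rw [h1, (inj_rot x₀⁻¹).mem_finset_image, h.ax_mem]

theorem near_regular {A : Finset (Submodule ℝ (ℂ × ℝ))} {P : Finset ℂ} {S : Finset Circle}
    (hM : Mel A) (h : Dual A P S) (hm : 100000 ≤ S.card)
    (hn : 24000 * ((P.card : ℤ) - S.card) ≤ S.card)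
    (hX : 989 * S.card ≤ 1000 * (P.filter fun p => ‖p‖ = 1).card) :
    ∃ (N : ℕ) (w₀ : Circle), 500 ≤ N ∧
      5 * (polReg N \ A.image (Submodule.map (rot w₀).toLinearMap)).card ≤ N ∧
      5 * (A.image (Submodule.map (rot w₀).toLinearMap) \ polReg N).card ≤ N := by
  have hX1 : (unitPts P).card ≤ P.card := by
    rw [card_unitPts]
    exact Finset.card_filter_le _ _
  rw [← card_unitPts] at hX
  have h1 := card_products_le P S
  have h2 := nonA_le hM h (by omega)
  obtain ⟨N, x₀, g1, g2, g3⟩ := near_group (unitPts P) S P.card hm hX1 hn hX (by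
    have h1' : ((((unitPts P ×ˢ unitPts P).filter
      fun x : Circle × Circle => x.1 * x.2 ∉ S).card : ℕ) : ℤ) ≤
      (nonA P S).card + (unitPts P).card := by exact_mod_cast h1
    linarith)
  have hN : 0 < N := by omega
  have e1 := card_polReg_sdiff hN (A.image (Submodule.map (rot x₀⁻¹).toLinearMap))
  have e2 : ((rts N).filter fun w => tang 1 w ∉
      A.image (Submodule.map (rot x₀⁻¹).toLinearMap)).card =
      ((rts N).filter fun w => x₀ * w ∉ unitPts P).card := by
    refine congrArg Finset.card (Finset.filter_congr fun w _ => ?_)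
    rw [tang_mem_iff h]
  have e3 : ((rts N).filter fun w => ax w ∉
      A.image (Submodule.map (rot x₀⁻¹).toLinearMap)).card =
      ((rts N).filter fun w => x₀ ^ 2 * w ∉ S).card := by
    refine congrArg Finset.card (Finset.filter_congr fun w _ => ?_)
    rw [ax_mem_iff h]
  rw [e2, e3] at e1
  have e4 : (A.image (Submodule.map (rot x₀⁻¹).toLinearMap)).card = P.card + S.card := by
    rw [Finset.card_image_of_injective _ (inj_rot x₀⁻¹), h.card_eq]
  have e5 := card_polReg hN
  have e6 := Finset.card_sdiff_add_card_inter (polReg N)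
    (A.image (Submodule.map (rot x₀⁻¹).toLinearMap))
  have e7 := Finset.card_sdiff_add_card_inter
    (A.image (Submodule.map (rot x₀⁻¹).toLinearMap)) (polReg N)
  rw [Finset.inter_comm, e4] at e7
  rw [e5] at e6
  refine ⟨N, x₀⁻¹, by omega, by omega, by omega⟩

end Pool.Agent.SimplV
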