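import Pool.Agent.SimplV.PolyEx
import Pool.Agent.SimplV.NearCirc
import Pool.Agent.SimplV.Equiv
import Pool.Agent.SimplV.NearReg
import Pool.Agent.SimplV.Stab
import Pool.Agent.SimplV.MapS
import Pool.Agent.Simpl.Melchior

set_option autoImplicit false

/-! # Arrangements with a point of multiplicity almost `n / 2` (assembly)

`melchior` gives `Mel A`. `exists_dual`: `P`, `S`; `m = S.card = mult A org`, `A.card = P.card + m`.
`P` is nonempty (`Dual.nonempty`); `P.card = 1`: near-pencil (`Dual.nearPencil`). Let `P.card ≥ 2`.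
`m ≥ 0.49999 · 10^6 ≥ 400000`, `P.card - m = n - 2m ≤ m (1/0.49999 - 2) ≤ m / 24000`.
`exists_poly`, `nonA_le`, `near_circle`: `α, β, γ`; `exists_equiv`: `e`. `A' = A.image (map e)`: `Mel A'`
(`mel_map`), planes; `exists_dual`: `P'`, `S'`. `p ∈ P ↔ af α β γ p ∈ P'`, every `p' ∈ P'` is
`af α β γ p` (the plane `pl p'` is `map e H`, `H ∈ A`, `H` does not contain `org`, `H = pl p`), so
`P'.card = P.card` (`af_injective`) and the numbers of the unit points agree;
`S'.card = mult A' org = mult A org` (`mult_map` of `Simpl/Core.lean`, `org.map e = org`), or by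
`A'.card = A.card`. `near_regular`: `N`, `w₀`; `A'' = A'.image (map (rot w₀))` has `Mel`; `stability`. -/

namespace Pool.Agent.SimplV

open Complex Module ComplexConjugate Pool.Agent.Simpl Classical

theorem core_org {A : Finset (Submodule ℝ (ℂ × ℝ))} (hA : IsArrangement A)
    (hS : IsSimplicial A) (hn : 1000000 ≤ A.card)
    (hm : (1 / 2 - 1 / 100000 : ℝ) * A.card ≤ mult A org) :
    IsNearPencil A ∨ ∃ N : ℕ, 3 ≤ N ∧ ∃ e : (ℂ × ℝ) ≃ₗ[ℝ] (ℂ × ℝ),
      A.image (Submodule.map e.toLinearMap) = polReg N ∨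
      (Even N ∧ A.image (Submodule.map e.toLinearMap) = insert infl (polReg N)) := by
  obtain ⟨P, S, h⟩ := exists_dual A hA.1
  have hM := melchior finrank_CR A hA hS
  have hP0 : 0 < P.card := Finset.card_pos.2 (h.nonempty hA)
  rcases Nat.eq_or_lt_of_le (Nat.succ_le_of_lt hP0) with h1 | h1
  · exact Or.inl (h.nearPencil h1.symm)
  right
  have hP : 2 ≤ P.card := h1
  rw [h.mult_org] at hm
  have hcard := h.card_eq
  have hcardR : (A.card : ℝ) = P.card + S.card := by exact_mod_cast hcard
  have hnR : (1000000 : ℝ) ≤ A.card := by exact_mod_cast hn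
  have hSR : (400000 : ℝ) ≤ S.card := by linarith
  have hS4 : 400000 ≤ S.card := by exact_mod_cast hSR
  have hPS : 24000 * ((P.card : ℤ) - S.card) ≤ S.card := by
    have h2 : 24000 * ((P.card : ℝ) - S.card) ≤ S.card := by
      rw [hcardR] at hm
      linarith
    exact_mod_cast h2
  obtain ⟨θ, q, c, hpoly, hq, hI⟩ := exists_poly hS h hP (by omega)
  have hK := nonA_le hM h (by omega)
  obtain ⟨α, β, γ, hαβ, hcirc⟩ := near_circle hpoly hS4 hq hI hK hPS
  obtain ⟨e, he, heo⟩ := exists_equiv hαβ γ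
  set A' := A.image (Submodule.map e.toLinearMap) with hA'
  have hM' : Mel A' := mel_map A e hM
  have hA2 : ∀ H ∈ A', finrank ℝ H = 2 := (isArrangement_map A e hA).1
  obtain ⟨P', S', h'⟩ := exists_dual A' hA2
  have hmem : ∀ p, p ∈ P ↔ af α β γ p ∈ P' := by
    intro p
    rw [← h.pl_mem, ← h'.pl_mem, ← he p, hA', Finset.mem_image]
    constructor
    · intro hp
      exact ⟨_, hp, rfl⟩
    · rintro ⟨H, hH, hHe⟩
      rw [← map_inj e hHe]
      exact hH
  have hP' : P' = P.image (af α β γ) := by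
    ext p'
    rw [Finset.mem_image]
    constructor
    · intro hp'
      have h3 := (h'.pl_mem p').2 hp'
      obtain ⟨H, hH, hHe⟩ := Finset.mem_image.1 h3
      rcases h.cases H hH with ⟨p, hp, rfl⟩ | ⟨s, hs, rfl⟩
      · refine ⟨p, hp, ?_⟩
        rw [he p] at hHe
        exact pl_inj hHe
      · exfalso
        refine not_org_le_pl p' ?_
        rw [← hHe, ← heo]
        exact Submodule.map_mono (org_le_ax s)
    · rintro ⟨p, hp, rfl⟩
      exact (hmem p).1 hp
  have hinj := af_injective hαβ γ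
  have hPcard : P'.card = P.card := by
    rw [hP', Finset.card_image_of_injective _ hinj]
  have hScard : S'.card = S.card := by
    rw [← h'.mult_org, ← h.mult_org, ← mult_map' A e org, heo]
  have hcirc' : 989 * S'.card ≤ 1000 * (P'.filter fun p => ‖p‖ = 1).card := by
    rw [hScard]
    refine hcirc.trans (Nat.mul_le_mul_left _ ?_)
    rw [hP', Finset.filter_image, Finset.card_image_of_injective _ hinj]
  obtain ⟨N, w₀, hN, h5, h6⟩ := near_regular hM' h' (by omega) (by rw [hPcard, hScard]; exact hPS)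
    hcirc'
  have hM2 : Mel (A'.image (Submodule.map (rot w₀).toLinearMap)) := mel_map A' (rot w₀) hM'
  have hA3 : ∀ H ∈ A'.image (Submodule.map (rot w₀).toLinearMap), finrank ℝ H = 2 := by
    intro H hH
    obtain ⟨H', hH', rfl⟩ := Finset.mem_image.1 hH
    rw [← hA2 H' hH']
    exact LinearEquiv.finrank_map_eq (rot w₀) H'
  refine ⟨N, by omega, e.trans (rot w₀), ?_⟩
  rw [image_trans]
  exact stability hN hA3 hM2 h5 h6

end Pool.Agent.SimplV
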