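import Pool.Agent.SimplV.MelIns
import Pool.Agent.SimplV.MelReg

set_option autoImplicit false

/-! # The regular arrangement with the line at infinity (HM_Proof.md, 8.2)

By `mel_insert` and `mel_polReg` it is enough that `D₁ infl (polReg N) = D₂ infl (polReg N)`, `N` even. A point
of `infl` on a plane of `polReg N` is `pt 0 p`; `pt 0 p ≤ tang 1 w ↔ Re (p conj w) = 0 ↔ w² = -p²`
(`w = ± I p`); `pt 0 p ≤ ax s ↔ p² = s`. If `pt 0 p` is on a tangent `w` then it is also on the tangent `-w` and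
on the axis `s = p² = -w²` (`(-w²)^N = 1` as `N` is even): at least two planes. Otherwise it is on exactly
one axis. So the points correspond to the `s` with `s^N = 1` (the point of `ax s` at infinity); it has
`mult = 1` iff `-s` is not the square of a `w` with `w^N = 1`, i.e. (`N = 2 K`) iff `(-s)^K ≠ 1`
(if `(-s)^K = 1` any square root `w` of `-s` has `w^N = 1`). `(-s)^K = ±1` for all `s` with `s^N = 1`.
Multiplication by `ζ = exp (2 π / N)` (`ζ^K = -1`) exchanges the two kinds of `s`, so `D₁ = D₂`. -/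

namespace Pool.Agent.SimplV

open Complex Module ComplexConjugate Pool.Agent.Simpl Classical

private theorem mi_sq (s : Circle) : ∃ p : Circle, p * p = s := by
  refine ⟨Circle.exp (Complex.arg s / 2), ?_⟩
  rw [← Circle.exp_add, add_halves, Circle.exp_arg]

private theorem mi_re (u : Circle) : (u : ℂ).re = 0 ↔ u * u = -1 := by
  have h1 := Circle.normSq_coe u
  rw [Complex.normSq_apply] at h1
  constructor
  · intro h
    rw [h] at h1
    refine Circle.ext (Complex.ext ?_ ?_)
    · rw [Circle.coe_mul, Complex.mul_re, h, Circle.coe_neg, Circle.coe_one, Complex.neg_re,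
        Complex.one_re]
      linarith
    · rw [Circle.coe_mul, Complex.mul_im, h, Circle.coe_neg, Circle.coe_one, Complex.neg_im,
        Complex.one_im]
      ring
  · intro h
    have h2 := congrArg (fun z : Circle => (z : ℂ).re) h
    simp only [Circle.coe_mul, Complex.mul_re, Circle.coe_neg, Circle.coe_one, Complex.neg_re,
      Complex.one_re] at h2
    have h3 : (u : ℂ).re * (u : ℂ).re = 0 := by linarith
    exact mul_self_eq_zero.1 h3

private theorem mi_tang {p w : Circle} : pt 0 p ≤ tang 1 w ↔ w * w = -(p * p) := by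
  rw [pt_le_tang, mul_zero, ← Circle.coe_inv_eq_conj, ← Circle.coe_mul, mi_re]
  have e : p * w⁻¹ * (p * w⁻¹) = (p * p) * (w * w)⁻¹ := by
    rw [mul_inv_rev]
    exact mul_mul_mul_comm _ _ _ _
  rw [e, mul_inv_eq_iff_eq_mul]
  constructor
  · intro h
    rw [h, neg_mul, one_mul, neg_neg]
  · intro h
    rw [h, neg_mul, one_mul, neg_neg]

private theorem mi_ax {s p : Circle} (hp : p * p = s) : infl ⊓ ax s = pt 0 p := by
  have h1 : pt 0 p ≤ infl ⊓ ax s := le_inf (pt_le_infl.2 rfl) (pt_le_ax.2 hp)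
  refine (Submodule.eq_of_le_of_finrank_eq h1 ?_).symm
  rw [finrank_pt, finrank_inf finrank_CR finrank_infl (finrank_ax s) (Ne.symm ax_ne_infl)]

private theorem mi_tg {w p : Circle} (hp : w * w = -(p * p)) : infl ⊓ tang 1 w = pt 0 p := by
  have h1 : pt 0 p ≤ infl ⊓ tang 1 w := le_inf (pt_le_infl.2 rfl) (mi_tang.2 hp)
  refine (Submodule.eq_of_le_of_finrank_eq h1 ?_).symm
  rw [finrank_pt, finrank_inf finrank_CR finrank_infl (finrank_tang 1 w) (Ne.symm tang_ne_infl)]

private theorem mi_inj {s s' : Circle} (h : infl ⊓ ax s = infl ⊓ ax s') : s = s' := by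
  obtain ⟨p, hp⟩ := mi_sq s
  have h1 : pt 0 p ≤ ax s' := by
    rw [← mi_ax hp, h]
    exact inf_le_right
  exact hp.symm.trans (pt_le_ax.1 h1)

private theorem mi_pts {N : ℕ} (hN : 0 < N) (he : Even N) :
    pts infl (polReg N) = (rts N).image fun s => infl ⊓ ax s := by
  ext P
  unfold pts
  rw [Finset.mem_image, Finset.mem_image]
  constructor
  · rintro ⟨L, hL, rfl⟩
    rcases (mem_polReg hN L).1 hL with ⟨w, hw, rfl⟩ | ⟨s, hs, rfl⟩
    · obtain ⟨p, hp⟩ := mi_sq (-(w * w))
      refine ⟨-(w * w), (mem_rts hN _).2 ?_, ?_⟩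
      · rw [he.neg_pow, mul_pow, hw, mul_one]
      · rw [mi_ax hp, mi_tg (p := p) (by rw [hp, neg_neg])]
    · exact ⟨s, (mem_rts hN s).2 hs, rfl⟩
  · rintro ⟨s, hs, rfl⟩
    exact ⟨ax s, (mem_polReg hN _).2 (Or.inr ⟨s, (mem_rts hN s).1 hs, rfl⟩), rfl⟩

private theorem mi_one {N : ℕ} (hN : 0 < N) {s : Circle} (hs : s ^ N = 1) :
    (mult (polReg N) (infl ⊓ ax s) = 1 ↔ ¬ ∃ w : Circle, w ^ N = 1 ∧ w * w = -s) ∧
    (2 ≤ mult (polReg N) (infl ⊓ ax s) ↔ ∃ w : Circle, w ^ N = 1 ∧ w * w = -s) := by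
  obtain ⟨p, hp⟩ := mi_sq s
  rw [mi_ax hp]
  have hm : mult (polReg N) (pt 0 p) = ((polReg N).filter (pt 0 p ≤ ·)).card := rfl
  have hax : ax s ∈ (polReg N).filter (pt 0 p ≤ ·) :=
    Finset.mem_filter.2 ⟨(mem_polReg hN _).2 (Or.inr ⟨s, hs, rfl⟩), pt_le_ax.2 hp⟩
  by_cases h : ∃ w : Circle, w ^ N = 1 ∧ w * w = -s
  · have h2 : 2 ≤ mult (polReg N) (pt 0 p) := by
      obtain ⟨w, hw, hws⟩ := h
      rw [hm]
      have hsub : ({ax s, tang 1 w} : Finset (Submodule ℝ (ℂ × ℝ))) ⊆
          (polReg N).filter (pt 0 p ≤ ·) := by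
        intro L hL
        rw [Finset.mem_insert, Finset.mem_singleton] at hL
        rcases hL with rfl | rfl
        · exact hax
        · exact Finset.mem_filter.2 ⟨(mem_polReg hN _).2 (Or.inl ⟨w, hw, rfl⟩),
            mi_tang.2 (by rw [hws, hp])⟩
      have h3 := Finset.card_le_card hsub
      rwa [Finset.card_pair (Ne.symm (tang_ne_ax one_pos))] at h3
    constructor
    · constructor
      · intro h4
        omega
      · intro h4
        exact absurd h h4
    · exact ⟨fun _ => h, fun _ => h2⟩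
  · have h2 : mult (polReg N) (pt 0 p) = 1 := by
      rw [hm]
      refine Finset.card_eq_one.2 ⟨ax s, ?_⟩
      ext L
      rw [Finset.mem_singleton]
      constructor
      · intro hL
        obtain ⟨hL1, hL2⟩ := Finset.mem_filter.1 hL
        rcases (mem_polReg hN L).1 hL1 with ⟨w, hw, rfl⟩ | ⟨s', hs', rfl⟩
        · exact absurd ⟨w, hw, by rw [mi_tang.1 hL2, hp]⟩ h
        · rw [← pt_le_ax.1 hL2, hp]
      · rintro rfl
        exact hax
    constructor
    · exact ⟨fun _ => h, fun _ => h2⟩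
    · constructor
      · intro h4
        omega
      · intro h4
        exact absurd h4 h

private theorem mi_D {N : ℕ} (hN : 3 ≤ N) (he : Even N) :
    D₁ infl (polReg N) = D₂ infl (polReg N) := by
  have hN0 : 0 < N := by omega
  unfold D₁ D₂
  rw [mi_pts hN0 he, Finset.filter_image, Finset.filter_image,
    Finset.card_image_of_injective _ (fun s s' h => mi_inj h),
    Finset.card_image_of_injective _ (fun s s' h => mi_inj h)]
  obtain ⟨K, hK⟩ := he
  have hE : ∀ s : Circle, s ^ N = 1 →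
      ((∃ w : Circle, w ^ N = 1 ∧ w * w = -s) ↔ (-s) ^ K = 1) := by
    intro s _
    constructor
    · rintro ⟨w, hw, hws⟩
      rw [← hws, ← hw, hK, pow_add, mul_pow]
    · intro h
      obtain ⟨w, hw⟩ := mi_sq (-s)
      refine ⟨w, ?_, hw⟩
      rw [hK, pow_add, ← mul_pow, hw, h]
  have hpm : ∀ s : Circle, s ^ N = 1 → (-s) ^ K = 1 ∨ (-s) ^ K = -1 := by
    intro s hs
    have h1 : (-s) ^ K * (-s) ^ K = 1 := by
      rw [← pow_add, ← hK, Even.neg_pow ⟨K, hK⟩, hs]
    have h2 : (((-s) ^ K : Circle) : ℂ) * (((-s) ^ K : Circle) : ℂ) = 1 := by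
      rw [← Circle.coe_mul, h1, Circle.coe_one]
    rcases mul_self_eq_one_iff.1 h2 with h3 | h3
    · left
      exact Circle.ext (by rw [h3, Circle.coe_one])
    · right
      exact Circle.ext (by rw [h3, Circle.coe_neg, Circle.coe_one])
  have hne : (-1 : Circle) ≠ 1 := by
    intro h
    have h1 := congrArg (fun z : Circle => (z : ℂ)) h
    simp only [Circle.coe_neg, Circle.coe_one] at h1
    have h2 := congrArg Complex.re h1
    norm_num at h2
  set ζ : Circle := Circle.exp (2 * Real.pi / N) with hζ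
  have hNr : (N : ℝ) ≠ 0 := by positivity
  have hζK : ζ ^ K = -1 := by
    have h1 : ζ ^ K = Circle.exp (K * (2 * Real.pi / N)) := by
      rw [hζ, ← Circle.exp_natCast_mul]
    have h2 : (K : ℝ) * (2 * Real.pi / N) = Real.pi := by
      have h3 : (N : ℝ) = K + K := by exact_mod_cast hK
      have h4 : (K : ℝ) ≠ 0 := by
        intro h5
        rw [h5] at h3
        exact hNr (by linarith)
      rw [h3]
      field_simp
      ring
    rw [h1, h2]
    refine Circle.ext ?_
    rw [Circle.coe_exp, Complex.exp_pi_mul_I, Circle.coe_neg, Circle.coe_one]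
  have hζN : ζ ^ N = 1 := by
    rw [hK, pow_add, hζK, neg_mul_neg, one_mul]
  have hmul : ∀ s : Circle, (-(ζ * s)) ^ K = -((-s) ^ K) := by
    intro s
    rw [← mul_neg, mul_pow, hζK, neg_mul, one_mul]
  refine Finset.card_nbij' (fun s => ζ * s) (fun s => ζ⁻¹ * s) ?_ ?_ ?_ ?_
  · intro s hs
    obtain ⟨h1, h2⟩ := Finset.mem_filter.1 (Finset.mem_coe.1 hs)
    have h3 := (mem_rts hN0 s).1 h1
    have h4 := (mi_one hN0 h3).1.1 h2
    rw [hE s h3] at h4
    have h5 := (hpm s h3).resolve_left h4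
    have h6 : (ζ * s) ^ N = 1 := by rw [mul_pow, hζN, h3, one_mul]
    refine Finset.mem_coe.2 (Finset.mem_filter.2 ⟨(mem_rts hN0 _).2 h6, ?_⟩)
    refine (mi_one hN0 h6).2.2 ((hE _ h6).2 ?_)
    rw [hmul, h5, neg_neg]
  · intro s hs
    obtain ⟨h1, h2⟩ := Finset.mem_filter.1 (Finset.mem_coe.1 hs)
    have h3 := (mem_rts hN0 s).1 h1
    have h4 := (hE s h3).1 ((mi_one hN0 h3).2.1 h2)
    have h6 : (ζ⁻¹ * s) ^ N = 1 := by rw [mul_pow, inv_pow, hζN, h3, inv_one, one_mul]
    refine Finset.mem_coe.2 (Finset.mem_filter.2 ⟨(mem_rts hN0 _).2 h6, ?_⟩)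
    refine (mi_one hN0 h6).1.2 ?_
    rw [hE _ h6]
    intro h7
    have h8 := hmul (ζ⁻¹ * s)
    rw [mul_inv_cancel_left, h4, h7] at h8
    exact hne h8.symm
  · intro s _
    exact inv_mul_cancel_left _ _
  · intro s _
    exact mul_inv_cancel_left _ _

theorem mel_insert_infl {N : ℕ} (hN : 3 ≤ N) (he : Even N) :
    mel (insert infl (polReg N)) = 3 := by
  have hN0 : 0 < N := by omega
  rw [mel_insert, mel_polReg hN, mi_D hN he]
  · ring
  · intro L hL
    rw [Finset.mem_insert] at hL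
    rcases hL with rfl | hL
    · exact finrank_infl
    · rcases (mem_polReg hN0 L).1 hL with ⟨w, -, rfl⟩ | ⟨s, -, rfl⟩
      · exact finrank_tang 1 w
      · exact finrank_ax s
  · intro h
    rcases (mem_polReg hN0 _).1 h with ⟨w, -, h1⟩ | ⟨s, -, h1⟩
    · exact tang_ne_infl h1.symm
    · exact ax_ne_infl h1.symm

end Pool.Agent.SimplV
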