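import Pool.Agent.SimplV.Defs

set_option autoImplicit false

/-! # Adding one line (HM_Proof.md, 8.1)

`pts H A` = the points `H ⊓ L`, `L ∈ A`; `D₁` of them are on exactly one plane of `A`, `D₂` on at least two.
All planes are different two-dimensional subspaces of `ℂ × ℝ` (`finrank_CR`), so `H ⊓ L` is one-dimensional
(`finrank_inf` of the library) and a one-dimensional `P` contained in `H` and `L` is `H ⊓ L`.
`verts (insert H A) = verts A ∪ pts H A`. `mult (insert H A) P = mult A P + (1 if P ≤ H)`.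
For `P ∈ verts A` not in `H` nothing changes. For `P ∈ verts A`, `P ≤ H`: `mult A P ≥ 2`, `P ∈ pts H A`
(`P = H ⊓ L` for a plane `L ∈ A` containing `P`), the summand drops by `1`; these are exactly the
`P ∈ pts H A` with `2 ≤ mult A P` (such a `P` is `L ⊓ L'` for two planes of `A` containing it). For
`P ∈ pts H A` with `mult A P = 1` (not in `verts A`) the new summand is `3 - 2 = 1`. -/

namespace Pool.Agent.SimplV

open Complex Module ComplexConjugate Pool.Agent.Simpl Classical

/-- the points of `H` on the planes of `A` -/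
noncomputable def pts (H : Submodule ℝ (ℂ × ℝ)) (A : Finset (Submodule ℝ (ℂ × ℝ))) :
    Finset (Submodule ℝ (ℂ × ℝ)) := A.image fun L => H ⊓ L

/-- the number of the points of `H` on exactly one plane of `A` -/
noncomputable def D₁ (H : Submodule ℝ (ℂ × ℝ)) (A : Finset (Submodule ℝ (ℂ × ℝ))) : ℕ :=
  ((pts H A).filter fun P => mult A P = 1).card

/-- the number of the points of `H` on at least two planes of `A` -/
noncomputable def D₂ (H : Submodule ℝ (ℂ × ℝ)) (A : Finset (Submodule ℝ (ℂ × ℝ))) : ℕ :=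
  ((pts H A).filter fun P => 2 ≤ mult A P).card

private theorem eq_inf {H H' P : Submodule ℝ (ℂ × ℝ)} (h : finrank ℝ H = 2)
    (h' : finrank ℝ H' = 2) (hne : H ≠ H') (hP : finrank ℝ P = 1) (h1 : P ≤ H) (h2 : P ≤ H') :
    P = H ⊓ H' :=
  Submodule.eq_of_le_of_finrank_eq (le_inf h1 h2) (by rw [hP, finrank_inf finrank_CR h h' hne])

theorem mel_insert {A : Finset (Submodule ℝ (ℂ × ℝ))} {H : Submodule ℝ (ℂ × ℝ)}
    (hA : ∀ L ∈ insert H A, finrank ℝ L = 2) (hH : H ∉ A) :
    mel (insert H A) = mel A + D₁ H A - D₂ H A := by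
  have hH2 : finrank ℝ H = 2 := hA H (Finset.mem_insert_self _ _)
  have hA2 : ∀ L ∈ A, finrank ℝ L = 2 := fun L hL => hA L (Finset.mem_insert_of_mem hL)
  have hne : ∀ L ∈ A, H ≠ L := fun L hL h => hH (h ▸ hL)
  have hpts : ∀ P ∈ pts H A, finrank ℝ P = 1 ∧ P ≤ H ∧ 1 ≤ mult A P := by
    intro P hP
    obtain ⟨L, hL, rfl⟩ := Finset.mem_image.1 hP
    refine ⟨finrank_inf finrank_CR hH2 (hA2 L hL) (hne L hL), inf_le_left, ?_⟩
    unfold mult
    exact Finset.card_pos.2 ⟨L, Finset.mem_filter.2 ⟨hL, inf_le_right⟩⟩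
  have hvfin : ∀ P ∈ verts A, finrank ℝ P = 1 := by
    intro P hP
    obtain ⟨x, hx, rfl⟩ := Finset.mem_image.1 hP
    obtain ⟨h1, h2, h3⟩ := Finset.mem_offDiag.1 hx
    exact finrank_inf finrank_CR (hA2 _ h1) (hA2 _ h2) h3
  have hmult : ∀ P, mult (insert H A) P = mult A P + if P ≤ H then 1 else 0 := by
    intro P
    unfold mult
    rw [Finset.filter_insert]
    split_ifs with h
    · rw [Finset.card_insert_of_notMem]
      exact fun h1 => hH (Finset.mem_filter.1 h1).1
    · rfl
  have hverts : verts (insert H A) = verts A ∪ pts H A := by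
    ext P
    unfold verts pts
    simp only [Finset.mem_union, Finset.mem_image, Finset.mem_offDiag, Prod.exists,
      Finset.mem_insert]
    constructor
    · rintro ⟨L, L', ⟨h1 | h1, h2 | h2, h3⟩, rfl⟩
      · exact absurd (h1.trans h2.symm) h3
      · right
        exact ⟨L', h2, by rw [h1]⟩
      · right
        exact ⟨L, h1, by rw [h2, inf_comm]⟩
      · left
        exact ⟨L, L', ⟨h1, h2, h3⟩, rfl⟩
    · rintro (⟨L, L', ⟨h1, h2, h3⟩, rfl⟩ | ⟨L, hL, rfl⟩)
      · exact ⟨L, L', ⟨Or.inr h1, Or.inr h2, h3⟩, rfl⟩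
      · exact ⟨H, L, ⟨Or.inl rfl, Or.inr hL, hne L hL⟩, rfl⟩
  have hmem : ∀ P ∈ pts H A, (P ∈ verts A ↔ 2 ≤ mult A P) := by
    intro P hP
    constructor
    · exact two_le_mult
    · intro h2
      unfold mult at h2
      obtain ⟨L, hL, L', hL', hLL⟩ := Finset.one_lt_card.1 (by omega : 1 < (A.filter (P ≤ ·)).card)
      rw [Finset.mem_filter] at hL hL'
      have h3 := eq_inf (hA2 L hL.1) (hA2 L' hL'.1) hLL (hpts P hP).1 hL.2 hL'.2
      rw [h3]
      exact Finset.mem_image.2 ⟨(L, L'), Finset.mem_offDiag.2 ⟨hL.1, hL'.1, hLL⟩, rfl⟩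
  have hset : (verts A).filter (fun P => P ≤ H) = (pts H A).filter fun P => 2 ≤ mult A P := by
    ext P
    rw [Finset.mem_filter, Finset.mem_filter]
    constructor
    · rintro ⟨h1, h2⟩
      have h3 := two_le_mult h1
      refine ⟨?_, h3⟩
      unfold mult at h3
      obtain ⟨L, hL⟩ := Finset.card_pos.1 (by omega : 0 < (A.filter (P ≤ ·)).card)
      rw [Finset.mem_filter] at hL
      rw [eq_inf hH2 (hA2 L hL.1) (hne L hL.1) (hvfin P h1) h2 hL.2]
      exact Finset.mem_image.2 ⟨L, hL.1, rfl⟩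
    · rintro ⟨h1, h2⟩
      exact ⟨(hmem P h1).2 h2, (hpts P h1).2.1⟩
  have hset2 : pts H A \ verts A = (pts H A).filter fun P => mult A P = 1 := by
    ext P
    rw [Finset.mem_sdiff, Finset.mem_filter]
    constructor
    · rintro ⟨h1, h2⟩
      refine ⟨h1, ?_⟩
      have h3 := (hpts P h1).2.2
      by_contra hc
      exact h2 ((hmem P h1).2 (by omega))
    · rintro ⟨h1, h2⟩
      refine ⟨h1, fun h3 => ?_⟩
      have h4 := (hmem P h1).1 h3
      omega
  unfold mel
  rw [hverts, ← Finset.union_sdiff_self_eq_union,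
    Finset.sum_union Finset.disjoint_sdiff, hset2]
  have h1 : ∑ P ∈ verts A, (3 - (mult (insert H A) P : ℤ)) =
      ∑ P ∈ verts A, (3 - (mult A P : ℤ)) - D₂ H A := by
    have h2 : ∀ P ∈ verts A, (3 - (mult (insert H A) P : ℤ)) =
        (3 - (mult A P : ℤ)) - if P ≤ H then (1 : ℤ) else 0 := by
      intro P _
      rw [hmult]
      split_ifs
      · push_cast; ring
      · push_cast; ring
    rw [Finset.sum_congr rfl h2, Finset.sum_sub_distrib]
    congr 1
    rw [Finset.sum_boole, hset]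
    rfl
  have h3 : ∑ P ∈ (pts H A).filter (fun P => mult A P = 1), (3 - (mult (insert H A) P : ℤ)) =
      D₁ H A := by
    have h4 : ∀ P ∈ (pts H A).filter (fun P => mult A P = 1),
        (3 - (mult (insert H A) P : ℤ)) = 1 := by
      intro P hP
      rw [Finset.mem_filter] at hP
      rw [hmult, if_pos (hpts P hP.1).2.1, hP.2]
      norm_num
    rw [Finset.sum_congr rfl h4, Finset.sum_const, nsmul_eq_mul, mul_one]
    rfl
  rw [h1, h3]
  ring

end Pool.Agent.SimplV
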