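import Pool.Agent.SimplV.Alg

set_option autoImplicit false

/-! # Tools for the cells in a sector (HM_Proof.md, 1.4, 1.5)

`fpl p (z, t) = t - dt z p` has kernel `pl p`; `fax τ (z, t) = cr (uv τ) z` has kernel
`ax (exp (2 τ))` (`mem_ax_exp`).

* `ax_side`: `H' = ax s`, `s ∈ S`. `s = exp (2 θ j)` for some `j` (every `s : Circle` is `exp (2 τ)`;
  `Rays.mem`), adding multiples of `m` to `j` (`exp (2 (τ + π)) = exp (2 τ)`) we may take
  `k < j ≤ k + m`. As `s` is none of the two values excluded: if `a ≠ θ k` then ... precisely: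
  for two vectors `z = uv a`, `z' = uv b` with `θ k ≤ a, b ≤ θ (k + 1)`, not on the line `j`, the signs
  of `sin (a - θ j)` and `sin (b - θ j)` agree: both angles are in `[θ j - π, θ j]` if `k < j ≤ k + m`
  (`θ j - π = θ (j - m) ≤ θ k`, `θ (k + 1) ≤ θ j`), so both sines are `≤ 0`, and they are not zero if the
  points are not on the line.
* `lex_max`: `P` nonempty, `w`, `w'` independent: there is `p ∈ P` and `ε₀ > 0` such that for all
  `0 < ε ≤ ε₀` and all `p' ∈ P`, `p' ≠ p`: `dt p' (w + ε • w') < dt p (w + ε • w')`; and `p` maximises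
  `dt · w`. (Among the maximisers of `dt · w` take one with maximal `dt · w'`: for `p' ≠ p` either
  `dt (p - p') w > 0` or `= 0` and `dt (p - p') w' > 0` (not both zero by `eq_zero_of_dt`); finitely
  many `p'`.) -/

namespace Pool.Agent.SimplV

open Complex Module ComplexConjugate Pool.Agent.Simpl

/-- functional with kernel `pl p` -/
noncomputable def fpl (p : ℂ) : (ℂ × ℝ) →ₗ[ℝ] ℝ where
  toFun x := x.2 - dt x.1 p
  map_add' x y := by
    simp only [Prod.snd_add, Prod.fst_add, dt_add_left]; ring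
  map_smul' r x := by
    simp only [Prod.smul_snd, Prod.smul_fst, dt_smul_left, smul_eq_mul, RingHom.id_apply]; ring

/-- functional with kernel `ax (exp (2 τ))` -/
noncomputable def fax (τ : ℝ) : (ℂ × ℝ) →ₗ[ℝ] ℝ where
  toFun x := cr (uv τ) x.1
  map_add' x y := by
    simp only [Prod.fst_add, cr_add_right]
  map_smul' r x := by
    simp only [Prod.smul_fst, cr_smul_right, smul_eq_mul, RingHom.id_apply]

private lemma seca_exp_eq {a τ : ℝ} (h : Real.sin (a - τ) = 0) :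
    Circle.exp (2 * a) = Circle.exp (2 * τ) := by
  obtain ⟨n, hn⟩ := Real.sin_eq_zero_iff.mp h
  have e : 2 * a = 2 * τ + n * (2 * Real.pi) := by linarith
  rw [e]
  exact (Circle.periodic_exp.int_mul n) (2 * τ)

private lemma seca_no {S : Finset Circle} {m : ℕ} {θ : ℤ → ℝ} (h : Rays S m θ) (k : ℤ) {c τ : ℝ}
    (hs : Circle.exp (2 * τ) ∈ S) (h0 : Real.sin (c - τ) = 0) (h1 : θ k < c)
    (h2 : c < θ (k + 1)) : False := by
  rw [← seca_exp_eq h0] at hs
  obtain ⟨j, hj⟩ := (h.mem c).mp hs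
  rw [← hj] at h1 h2
  have h3 := h.mono.lt_iff_lt.mp h1
  have h4 := h.mono.lt_iff_lt.mp h2
  omega

private lemma seca_unif {α : Type*} (P : Finset α) (Q : α → ℝ → Prop)
    (h : ∀ x ∈ P, ∃ e : ℝ, 0 < e ∧ ∀ ε : ℝ, 0 < ε → ε ≤ e → Q x ε) :
    ∃ e : ℝ, 0 < e ∧ ∀ ε : ℝ, 0 < ε → ε ≤ e → ∀ x ∈ P, Q x ε := by
  classical
  induction P using Finset.induction_on with
  | empty => exact ⟨1, one_pos, by simp⟩
  | insert a s ha ih =>
    obtain ⟨e1, he1, h1⟩ := ih fun x hx => h x (Finset.mem_insert_of_mem hx)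
    obtain ⟨e2, he2, h2⟩ := h a (Finset.mem_insert_self a s)
    refine ⟨min e1 e2, lt_min he1 he2, ?_⟩
    intro ε hε hε2 x hx
    rcases Finset.mem_insert.mp hx with rfl | hx
    · exact h2 ε hε (hε2.trans (min_le_right _ _))
    · exact h1 ε hε (hε2.trans (min_le_left _ _)) x hx

theorem ker_fpl (p : ℂ) : LinearMap.ker (fpl p) = pl p := by
  ext x
  rw [LinearMap.mem_ker, mem_pl, ← dt_eq_re]
  change x.2 - dt x.1 p = 0 ↔ _
  constructor
  · intro h
    linarith
  · intro h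
    linarith

theorem ker_fax (τ : ℝ) : LinearMap.ker (fax τ) = ax (Circle.exp (2 * τ)) := by
  ext x
  rw [LinearMap.mem_ker, mem_ax_exp]
  rfl

theorem exists_exp_two (s : Circle) : ∃ τ : ℝ, Circle.exp (2 * τ) = s := by
  refine ⟨Complex.arg s / 2, ?_⟩
  have e : 2 * (Complex.arg s / 2) = Complex.arg s := by ring
  rw [e]
  exact Circle.exp_arg s

variable {S : Finset Circle} {m : ℕ} {θ : ℤ → ℝ}

theorem Rays.lt_add_pi (h : Rays S m θ) (hm : 2 ≤ m) (k : ℤ) : θ (k + 1) < θ k + Real.pi := by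
  rw [← h.per k]
  apply h.mono
  have : (2 : ℤ) ≤ m := by exact_mod_cast hm
  omega

/-- `ax (exp (2 θ k)) ≠ ax (exp (2 θ (k + 1)))` -/
theorem Rays.ax_ne (h : Rays S m θ) (hm : 2 ≤ m) (k : ℤ) :
    ax (Circle.exp (2 * θ k)) ≠ ax (Circle.exp (2 * θ (k + 1))) := by
  intro he
  have h1 : ((uv (θ k), 0) : ℂ × ℝ) ∈ ax (Circle.exp (2 * θ k)) := by
    rw [mem_ax_exp]
    exact cr_self _
  rw [he, mem_ax_exp] at h1
  rw [cr_uv_uv] at h1
  have h2 := h.lt_add_pi hm k
  have h3 : θ k < θ (k + 1) := h.mono (by omega)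
  have h4 : Real.sin (θ (k + 1) - θ k) = 0 := by
    rw [← neg_sub, Real.sin_neg, h1, neg_zero]
  have h5 : 0 < Real.sin (θ (k + 1) - θ k) :=
    Real.sin_pos_of_pos_of_lt_pi (by linarith) (by linarith)
  exact absurd h4 h5.ne'

theorem Rays.ax_side (h : Rays S m θ) (hm : 1 ≤ m) (k : ℤ) {a b : ℝ} (ha : θ k ≤ a)
    (ha' : a ≤ θ (k + 1)) (hb : θ k ≤ b) (hb' : b ≤ θ (k + 1)) {s : Circle} (hs : s ∈ S)
    {z z' : ℂ × ℝ} {r r' : ℝ} (hr : 0 < r) (hr' : 0 < r') (hz : z.1 = r • uv a)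
    (hz' : z'.1 = r' • uv b) (hzs : z ∉ ax s) (hzs' : z' ∉ ax s) :
    ∃ f : (ℂ × ℝ) →ₗ[ℝ] ℝ, LinearMap.ker f = ax s ∧ 0 < f z * f z' := by
  obtain ⟨τ, rfl⟩ := exists_exp_two s
  refine ⟨fax τ, ker_fax τ, ?_⟩
  have e1 : fax τ z = r * Real.sin (a - τ) := by
    change cr (uv τ) z.1 = _
    rw [hz, cr_smul_right, cr_uv_uv]
  have e2 : fax τ z' = r' * Real.sin (b - τ) := by
    change cr (uv τ) z'.1 = _
    rw [hz', cr_smul_right, cr_uv_uv]
  have n1 : Real.sin (a - τ) ≠ 0 := by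
    intro h0
    apply hzs
    rw [mem_ax_exp]
    change fax τ z = 0
    rw [e1, h0, mul_zero]
  have n2 : Real.sin (b - τ) ≠ 0 := by
    intro h0
    apply hzs'
    rw [mem_ax_exp]
    change fax τ z' = 0
    rw [e2, h0, mul_zero]
  have key : 0 < Real.sin (a - τ) * Real.sin (b - τ) := by
    by_contra hcon
    have h0 : Real.sin (a - τ) * Real.sin (b - τ) < 0 :=
      lt_of_le_of_ne (not_lt.mp hcon) (mul_ne_zero n1 n2)
    have h1 : (0 : ℝ) ∈ Set.uIcc (Real.sin (a - τ)) (Real.sin (b - τ)) := by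
      rw [Set.mem_uIcc]
      rcases mul_neg_iff.mp h0 with ⟨u, v⟩ | ⟨u, v⟩
      · exact Or.inr ⟨v.le, u.le⟩
      · exact Or.inl ⟨u.le, v.le⟩
    have h2 : ContinuousOn (fun x : ℝ => Real.sin (x - τ)) (Set.uIcc a b) := by fun_prop
    obtain ⟨c, hc, hc0⟩ := intermediate_value_uIcc h2 h1
    have hca : c ≠ a := by
      rintro rfl
      exact n1 hc0
    have hcb : c ≠ b := by
      rintro rfl
      exact n2 hc0
    rcases Set.mem_uIcc.mp hc with ⟨u, v⟩ | ⟨u, v⟩
    · exact seca_no h k hs hc0 (lt_of_le_of_lt ha (lt_of_le_of_ne u hca.symm))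
        (lt_of_lt_of_le (lt_of_le_of_ne v hcb) hb')
    · exact seca_no h k hs hc0 (lt_of_le_of_lt hb (lt_of_le_of_ne u hcb.symm))
        (lt_of_lt_of_le (lt_of_le_of_ne v hca) ha')
  rw [e1, e2]
  have : r * Real.sin (a - τ) * (r' * Real.sin (b - τ)) =
      (r * r') * (Real.sin (a - τ) * Real.sin (b - τ)) := by ring
  rw [this]
  positivity

/-- a point strictly inside the sector is on no line of `S` -/
theorem Rays.not_mem_ax (h : Rays S m θ) (k : ℤ) {a : ℝ} (ha : θ k < a)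
    (ha' : a < θ (k + 1)) {s : Circle} (hs : s ∈ S) {z : ℂ × ℝ} {r : ℝ} (hr : 0 < r)
    (hz : z.1 = r • uv a) : z ∉ ax s := by
  obtain ⟨τ, rfl⟩ := exists_exp_two s
  intro hm
  rw [mem_ax_exp, hz, cr_smul_right, cr_uv_uv] at hm
  have h0 : Real.sin (a - τ) = 0 := by
    rcases mul_eq_zero.mp hm with h0 | h0
    · exact absurd h0 hr.ne'
    · exact h0
  exact seca_no h k hs h0 ha ha'

/-- a point on the ray `θ k` is on no line of `S` but `ax (exp (2 θ k))` -/
theorem Rays.eq_of_mem_ax (k : ℤ) {s : Circle} {z : ℂ × ℝ} {r : ℝ} (hr : 0 < r)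
    (hz : z.1 = r • uv (θ k)) (hzs : z ∈ ax s) : s = Circle.exp (2 * θ k) := by
  obtain ⟨τ, rfl⟩ := exists_exp_two s
  rw [mem_ax_exp, hz, cr_smul_right, cr_uv_uv] at hzs
  have h0 : Real.sin (θ k - τ) = 0 := by
    rcases mul_eq_zero.mp hzs with h0 | h0
    · exact absurd h0 hr.ne'
    · exact h0
  exact (seca_exp_eq h0).symm

theorem lex_max {P : Finset ℂ} (hP : P.Nonempty) {w w' : ℂ} (hw : cr w w' ≠ 0) :
    ∃ p ∈ P, (∀ p' ∈ P, dt p' w ≤ dt p w) ∧ ∃ ε₀ : ℝ, 0 < ε₀ ∧ ∀ ε : ℝ, 0 < ε → ε ≤ ε₀ →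
      ∀ p' ∈ P, p' ≠ p → dt p' (w + ε • w') < dt p (w + ε • w') := by
  classical
  obtain ⟨p0, hp0, hmax⟩ := P.exists_max_image (fun p => dt p w) hP
  have hne : (P.filter fun p => dt p w = dt p0 w).Nonempty :=
    ⟨p0, Finset.mem_filter.mpr ⟨hp0, rfl⟩⟩
  obtain ⟨p, hp, hmax2⟩ :=
    (P.filter fun p => dt p w = dt p0 w).exists_max_image (fun p => dt p w') hne
  rw [Finset.mem_filter] at hp
  refine ⟨p, hp.1, ?_, ?_⟩
  · intro p' hp'
    rw [hp.2]
    exact hmax p' hp'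
  have h1 : ∀ p' ∈ P, ∃ e : ℝ, 0 < e ∧ ∀ ε : ℝ, 0 < ε → ε ≤ e →
      (p' ≠ p → dt p' (w + ε • w') < dt p (w + ε • w')) := by
    intro p' hp'
    by_cases hpp : p' = p
    · exact ⟨1, one_pos, fun ε _ _ hne => absurd hpp hne⟩
    have hA : dt p' w ≤ dt p w := by
      rw [hp.2]
      exact hmax p' hp'
    rcases hA.lt_or_eq with hlt | heq
    · refine ⟨(dt p w - dt p' w) / (|dt p w' - dt p' w'| + 1), ?_, ?_⟩
      · apply div_pos (by linarith)
        positivity
      · intro ε hε hε2 _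
        rw [le_div_iff₀ (by positivity)] at hε2
        have h3 : -|dt p w' - dt p' w'| ≤ dt p w' - dt p' w' := neg_abs_le _
        rw [dt_add_right, dt_add_right, dt_smul_right, dt_smul_right]
        nlinarith [abs_nonneg (dt p w' - dt p' w')]
    · have hmem : p' ∈ P.filter fun p => dt p w = dt p0 w :=
        Finset.mem_filter.mpr ⟨hp', by rw [heq, hp.2]⟩
      have hB : dt p' w' ≤ dt p w' := hmax2 p' hmem
      have hB2 : dt p' w' < dt p w' := by
        refine lt_of_le_of_ne hB fun he => hpp ?_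
        have hz : p' - p = 0 := by
          apply eq_zero_of_dt hw
          · rw [dt_sub_left, heq, sub_self]
          · rw [dt_sub_left, he, sub_self]
        exact sub_eq_zero.mp hz
      refine ⟨1, one_pos, ?_⟩
      intro ε hε _ _
      rw [dt_add_right, dt_add_right, dt_smul_right, dt_smul_right, heq]
      nlinarith
  obtain ⟨e, he, h2⟩ := seca_unif P
    (fun p' ε => p' ≠ p → dt p' (w + ε • w') < dt p (w + ε • w')) h1
  exact ⟨e, he, fun ε hε hε2 p' hp' => h2 ε hε hε2 p' hp'⟩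

/-- `uv a + ε • uv b` with `a < b < a + π` is a positive multiple of `uv c`, `a < c < b` -/
theorem uv_add_uv {a b ε : ℝ} (hab : a < b) (hb : b < a + Real.pi) (hε : 0 < ε) :
    ∃ r c : ℝ, 0 < r ∧ a < c ∧ c < b ∧ uv a + ε • uv b = r • uv c := by
  have hs : 0 < Real.sin (b - a) := Real.sin_pos_of_pos_of_lt_pi (by linarith) (by linarith)
  have hcont : ContinuousOn (fun c : ℝ => Real.sin (a - c) + ε * Real.sin (b - c))
      (Set.Icc a b) := by fun_prop
  have h0 : (0 : ℝ) ∈ Set.Ioo (Real.sin (a - b) + ε * Real.sin (b - b))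
      (Real.sin (a - a) + ε * Real.sin (b - a)) := by
    constructor
    · rw [sub_self, Real.sin_zero, mul_zero, add_zero, ← neg_sub, Real.sin_neg]
      linarith
    · rw [sub_self, Real.sin_zero, zero_add]
      positivity
  obtain ⟨c, hc, hc0⟩ := intermediate_value_Ioo' hab.le hcont h0
  have h1 : cr (uv c) (uv a + ε • uv b) = 0 := by
    rw [cr_add_right, cr_smul_right, cr_uv_uv, cr_uv_uv]
    exact hc0
  obtain ⟨t, ht⟩ := exists_smul_of_cr (uv_ne_zero c) h1
  have h2 : cr (uv a) (uv a + ε • uv b) = t * Real.sin (c - a) := by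
    rw [ht, cr_smul_right, cr_uv_uv]
  rw [cr_add_right, cr_self, zero_add, cr_smul_right, cr_uv_uv] at h2
  have h3 : 0 < Real.sin (c - a) :=
    Real.sin_pos_of_pos_of_lt_pi (by linarith [hc.1]) (by linarith [hc.2])
  have h4 : 0 < t := by
    by_contra hcon
    have h5 : t * Real.sin (c - a) ≤ 0 := mul_nonpos_of_nonpos_of_nonneg (not_lt.mp hcon) h3.le
    have h6 : 0 < ε * Real.sin (b - a) := mul_pos hε hs
    linarith
  exact ⟨t, c, h4, hc.1, hc.2, ht⟩

end Pool.Agent.SimplV
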