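import Pool.Agent.SimplV.DualB
import Pool.Agent.SimplV.Walls3
import Pool.Agent.SimplV.SecA

set_option autoImplicit false

/-! # No point of `P` is maximal on three consecutive sectors (HM_Proof.md, 1.5)

Suppose `P' = P.erase p` is nonempty. Let `p' ∈ P'`.
(a) `dt p' (uv (θ j)) < dt p (uv (θ j))` for `j = k, k+1`: otherwise equality; put `v = p - p'`,
`dt v (uv (θ j)) = 0`, so `v = c • nv (θ j)` (`decomp`), and `dt v (uv (θ (j ± 1))) ≥ 0` where
`dt (nv (θ j)) (uv (θ (j ± 1))) = sin (θ (j ± 1) - θ j)` (`dt_nv_uv`) has opposite signs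
(`0 < θ (j+1) - θ j < π`, `Rays.lt_add_pi`): `c = 0`, `p = p'`.
(b) So `dt p' z < dt p z` for `z = w`, `z = w'` (`w = uv (θ k)`, `w' = uv (θ (k+1))`) and for their
positive combinations.
(c) `lex_max` for `P'`, `w`, `w'`: `p'' ∈ P'` and `z = w + ε • w'` with `dt p' z < dt p'' z` for
`p' ∈ P'`, `p' ≠ p''`; `z = r • uv c`, `θ k < c < θ (k+1)` (`uv_add_uv`).
(d) `x = (z, t₀)` with `dt p'' z < t₀ < dt p z`. It is in no plane of `A` (`Rays.not_mem_ax`).
`W = {ax (exp (2 θ k)), ax (exp (2 θ (k+1))), pl p, pl p''}`, four different planes of `A`. Witnesses: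
`(w, t)` with `max_{P'} dt p' w < t < dt p w`, `(w', t')` similarly, `(z, dt p z)`, `(z, dt p'' z)`.
Same side with respect to `pl p'`, `p' ∈ P'`: `fpl p'` is positive at `x` and at the witnesses (for the last
one if `p' ≠ p''`); `fpl p` is negative at `x`, `(w, t)`, `(w', t')`, `(z, dt p'' z)`. For `ax s`:
`Rays.ax_side`. Contradiction to `walls_le_three`. -/

namespace Pool.Agent.SimplV

open Complex Module ComplexConjugate Pool.Agent.Simpl

/-- Step (a). -/
private theorem nt_strict {S : Finset Circle} {m : ℕ} {θ : ℤ → ℝ} (hr : Rays S m θ) (hm : 2 ≤ m)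
    {p p' : ℂ} {j : ℤ} (h0 : dt p' (uv (θ j)) ≤ dt p (uv (θ j)))
    (h1 : dt p' (uv (θ (j + 1))) ≤ dt p (uv (θ (j + 1))))
    (h2 : dt p' (uv (θ (j - 1))) ≤ dt p (uv (θ (j - 1)))) (hne : p' ≠ p) :
    dt p' (uv (θ j)) < dt p (uv (θ j)) := by
  refine lt_of_le_of_ne h0 fun he => hne ?_
  have hv : dt (p - p') (uv (θ j)) = 0 := by
    rw [dt_sub_left]
    linarith
  have hd := decomp (θ j) (p - p')
  rw [hv, zero_smul, zero_add] at hd
  obtain ⟨c, hc⟩ : ∃ c, c = dt (p - p') (nv (θ j)) := ⟨_, rfl⟩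
  rw [← hc] at hd
  have e1 : dt (p - p') (uv (θ (j + 1))) = c * Real.sin (θ (j + 1) - θ j) := by
    rw [hd, dt_smul_left, dt_nv_uv]
  have e2 : dt (p - p') (uv (θ (j - 1))) = -(c * Real.sin (θ j - θ (j - 1))) := by
    rw [hd, dt_smul_left, dt_nv_uv, ← neg_sub (θ j), Real.sin_neg]
    ring
  have s1 : 0 < Real.sin (θ (j + 1) - θ j) := by
    apply Real.sin_pos_of_pos_of_lt_pi
    · have := hr.mono (show j < j + 1 by omega)
      linarith
    · have := hr.lt_add_pi hm j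
      linarith
  have s2 : 0 < Real.sin (θ j - θ (j - 1)) := by
    apply Real.sin_pos_of_pos_of_lt_pi
    · have := hr.mono (show j - 1 < j by omega)
      linarith
    · have := hr.lt_add_pi hm (j - 1)
      rw [sub_add_cancel] at this
      linarith
  rw [dt_sub_left] at e1 e2
  have c1 : 0 ≤ c := by
    by_contra hcn
    have := mul_neg_of_neg_of_pos (not_le.1 hcn) s1
    linarith
  have c2 : c ≤ 0 := by
    by_contra hcn
    have := mul_pos (not_le.1 hcn) s2
    linarith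
  have c0 : c = 0 := le_antisymm c2 c1
  rw [c0, zero_smul] at hd
  exact (sub_eq_zero.1 hd).symm

private theorem nt_fpl (p : ℂ) (z : ℂ) (t : ℝ) : fpl p (z, t) = t - dt p z := by
  rw [dt_comm]
  rfl

private theorem nt_mem_pl (p : ℂ) (z : ℂ) (t : ℝ) : ((z, t) : ℂ × ℝ) ∈ pl p ↔ dt p z = t := by
  rw [mem_pl, dt_comm, dt_eq_re]

theorem no_three {A : Finset (Submodule ℝ (ℂ × ℝ))} {P : Finset ℂ} {S : Finset Circle}
    (hS : IsSimplicial A) (h : Dual A P S) {m : ℕ} {θ : ℤ → ℝ}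
    (hr : Rays S m θ) (hm : 3 ≤ m) (k : ℤ) {p : ℂ} (hp : p ∈ P)
    (hmax : ∀ p' ∈ P, ∀ j : ℤ, k - 1 ≤ j → j ≤ k + 2 →
      dt p' (uv (θ j)) ≤ dt p (uv (θ j))) : P = {p} := by
  classical
  by_contra hP
  have hne : (P.erase p).Nonempty := by
    by_contra h0
    rw [Finset.not_nonempty_iff_eq_empty, Finset.erase_eq_empty_iff] at h0
    rcases h0 with h0 | h0
    · rw [h0] at hp
      exact absurd hp (Finset.notMem_empty p)
    · exact hP h0
  have hm2 : 2 ≤ m := by omega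
  have hm1 : 1 ≤ m := by omega
  have hab : θ k < θ (k + 1) := hr.mono (show k < k + 1 by omega)
  have hba := hr.lt_add_pi hm2 k
  -- strict maximality on the two rays
  have st0 : ∀ p' ∈ P, p' ≠ p → dt p' (uv (θ k)) < dt p (uv (θ k)) := fun p' hp' hne' =>
    nt_strict hr hm2 (hmax p' hp' k (by omega) (by omega))
      (hmax p' hp' (k + 1) (by omega) (by omega)) (hmax p' hp' (k - 1) (by omega) (by omega)) hne'
  have st1 : ∀ p' ∈ P, p' ≠ p → dt p' (uv (θ (k + 1))) < dt p (uv (θ (k + 1))) := by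
    intro p' hp' hne'
    refine nt_strict hr hm2 (hmax p' hp' (k + 1) (by omega) (by omega))
      (hmax p' hp' (k + 1 + 1) (by omega) (by omega)) ?_ hne'
    rw [add_sub_cancel_right]
    exact hmax p' hp' k (by omega) (by omega)
  have hcr : cr (uv (θ k)) (uv (θ (k + 1))) ≠ 0 := by
    rw [cr_uv_uv]
    exact (Real.sin_pos_of_pos_of_lt_pi (by linarith) (by linarith)).ne'
  obtain ⟨q, hq, hqw, ε, hε, hlex⟩ := lex_max hne hcr
  obtain ⟨hqp, hqP⟩ := Finset.mem_erase.1 hq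
  have hlex' := hlex ε hε le_rfl
  obtain ⟨r, c, hr0, hac, hcb, hz⟩ := uv_add_uv hab hba hε
  obtain ⟨z, hzd⟩ : ∃ z, z = uv (θ k) + ε • uv (θ (k + 1)) := ⟨_, rfl⟩
  rw [← hzd] at hlex' hz
  have stz : ∀ p' ∈ P, p' ≠ p → dt p' z < dt p z := by
    intro p' hp' hne'
    rw [hzd, dt_add_right, dt_add_right, dt_smul_right, dt_smul_right]
    have h1 := st0 p' hp' hne'
    have h2 := mul_lt_mul_of_pos_left (st1 p' hp' hne') hε
    linarith
  have qz := stz q hqP hqp
  have leq : ∀ p' ∈ P, p' ≠ p → dt p' z ≤ dt q z := by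
    intro p' hp' hne'
    by_cases h1 : p' = q
    · rw [h1]
    · exact (hlex' p' (Finset.mem_erase.2 ⟨hne', hp'⟩) h1).le
  obtain ⟨t0, ht0⟩ : ∃ t0, t0 = (dt q z + dt p z) / 2 := ⟨_, rfl⟩
  have t0a : dt q z < t0 := by linarith
  have t0b : t0 < dt p z := by linarith
  -- the point is in no plane
  have hx : ∀ H ∈ A, ((z, t0) : ℂ × ℝ) ∉ H := by
    intro H hH hxH
    rcases h.cases H hH with ⟨p', hp', rfl⟩ | ⟨s, hs, rfl⟩
    · rw [nt_mem_pl] at hxH
      by_cases h1 : p' = p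
      · rw [h1] at hxH
        linarith
      · have := leq p' hp' h1
        linarith
    · exact hr.not_mem_ax k hac hcb hs hr0 hz hxH
  -- the sides with respect to the planes through the origin
  have hax : ∀ (d r' : ℝ) (y : ℂ × ℝ), θ k ≤ d → d ≤ θ (k + 1) → 0 < r' → y.1 = r' • uv d →
      ∀ s ∈ S, y ∉ ax s → ∃ f : (ℂ × ℝ) →ₗ[ℝ] ℝ, LinearMap.ker f = ax s ∧
        0 < f (z, t0) * f y := by
    intro d r' y h1 h2 h3 h4 s hs h5
    exact hr.ax_side hm1 k hac.le hcb.le h1 h2 hs hr0 h3 hz h4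
      (hr.not_mem_ax k hac hcb hs hr0 hz) h5
  -- the sides with respect to the planes of the points
  have hneg : ∀ y : ℂ × ℝ, y.2 < dt p y.1 → ∃ f : (ℂ × ℝ) →ₗ[ℝ] ℝ,
      LinearMap.ker f = pl p ∧ 0 < f (z, t0) * f y := by
    rintro ⟨y1, y2⟩ hy
    refine ⟨fpl p, ker_fpl p, ?_⟩
    rw [nt_fpl, nt_fpl]
    exact mul_pos_of_neg_of_neg (by linarith) (by linarith)
  have hpos : ∀ p' ∈ P, p' ≠ p → ∀ y : ℂ × ℝ, dt p' y.1 < y.2 → ∃ f : (ℂ × ℝ) →ₗ[ℝ] ℝ,
      LinearMap.ker f = pl p' ∧ 0 < f (z, t0) * f y := by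
    rintro p' hp' hne' ⟨y1, y2⟩ hy
    refine ⟨fpl p', ker_fpl p', ?_⟩
    rw [nt_fpl, nt_fpl]
    have := leq p' hp' hne'
    exact mul_pos (by linarith) (by linarith)
  -- the four walls
  have hexp : ∀ j : ℤ, Circle.exp (2 * θ j) ∈ S := fun j => (hr.mem _).2 ⟨j, rfl⟩
  have hW := walls_le_three h.finrank_eq hS hx
    ({ax (Circle.exp (2 * θ k)), ax (Circle.exp (2 * θ (k + 1))), pl p, pl q} :
      Finset (Submodule ℝ (ℂ × ℝ))) ?_ ?_
  · rw [Finset.card_insert_of_notMem, Finset.card_insert_of_notMem,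
      Finset.card_insert_of_notMem, Finset.card_singleton] at hW
    · omega
    · rw [Finset.mem_singleton]
      exact fun h1 => hqp (pl_inj h1).symm
    · rw [Finset.mem_insert, Finset.mem_singleton]
      rintro (h1 | h1)
      · exact pl_ne_ax _ _ h1.symm
      · exact pl_ne_ax _ _ h1.symm
    · rw [Finset.mem_insert, Finset.mem_insert, Finset.mem_singleton]
      rintro (h1 | h1 | h1)
      · exact hr.ax_ne hm2 k h1
      · exact pl_ne_ax _ _ h1.symm
      · exact pl_ne_ax _ _ h1.symm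
  · intro H hH
    rw [Finset.mem_insert, Finset.mem_insert, Finset.mem_insert, Finset.mem_singleton] at hH
    rcases hH with rfl | rfl | rfl | rfl
    · exact (h.ax_mem _).2 (hexp k)
    · exact (h.ax_mem _).2 (hexp (k + 1))
    · exact (h.pl_mem _).2 hp
    · exact (h.pl_mem _).2 hqP
  · intro H hH
    rw [Finset.mem_insert, Finset.mem_insert, Finset.mem_insert, Finset.mem_singleton] at hH
    rcases hH with rfl | rfl | rfl | rfl
    · refine ⟨(uv (θ k), (dt q (uv (θ k)) + dt p (uv (θ k))) / 2), ?_, fun H' hH' hne' => ?_⟩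
      · rw [mem_ax_exp]
        exact cr_self _
      have h1 := st0 q hqP hqp
      rcases h.cases H' hH' with ⟨p', hp', rfl⟩ | ⟨s, hs, rfl⟩
      · by_cases h2 : p' = p
        · rw [h2]
          exact hneg _ (by simp only; linarith)
        · refine hpos p' hp' h2 _ ?_
          have h3 := hqw p' (Finset.mem_erase.2 ⟨h2, hp'⟩)
          simp only
          linarith
      · refine hax (θ k) 1 _ le_rfl hab.le one_pos (one_smul _ _).symm s hs fun h2 => hne' ?_
        rw [Rays.eq_of_mem_ax (θ := θ) k one_pos (one_smul _ _).symm h2]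
    · obtain ⟨q', hq', hmx⟩ := Finset.exists_max_image (P.erase p)
        (fun p' => dt p' (uv (θ (k + 1)))) hne
      obtain ⟨hqp', hqP'⟩ := Finset.mem_erase.1 hq'
      refine ⟨(uv (θ (k + 1)), (dt q' (uv (θ (k + 1))) + dt p (uv (θ (k + 1)))) / 2), ?_,
        fun H' hH' hne' => ?_⟩
      · rw [mem_ax_exp]
        exact cr_self _
      have h1 := st1 q' hqP' hqp'
      rcases h.cases H' hH' with ⟨p', hp', rfl⟩ | ⟨s, hs, rfl⟩
      · by_cases h2 : p' = p
        · rw [h2]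
          exact hneg _ (by simp only; linarith)
        · refine hpos p' hp' h2 _ ?_
          have h3 := hmx p' (Finset.mem_erase.2 ⟨h2, hp'⟩)
          simp only at h3 ⊢
          linarith
      · refine hax (θ (k + 1)) 1 _ hab.le le_rfl one_pos (one_smul _ _).symm s hs
          fun h2 => hne' ?_
        rw [Rays.eq_of_mem_ax (θ := θ) (k + 1) one_pos (one_smul _ _).symm h2]
    · refine ⟨(z, dt p z), (nt_mem_pl _ _ _).2 rfl, fun H' hH' hne' => ?_⟩
      rcases h.cases H' hH' with ⟨p', hp', rfl⟩ | ⟨s, hs, rfl⟩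
      · have h2 : p' ≠ p := fun h3 => hne' (by rw [h3])
        exact hpos p' hp' h2 _ (stz p' hp' h2)
      · exact hax c r _ hac.le hcb.le hr0 hz s hs (hr.not_mem_ax k hac hcb hs hr0 hz)
    · refine ⟨(z, dt q z), (nt_mem_pl _ _ _).2 rfl, fun H' hH' hne' => ?_⟩
      rcases h.cases H' hH' with ⟨p', hp', rfl⟩ | ⟨s, hs, rfl⟩
      · by_cases h2 : p' = p
        · rw [h2]
          exact hneg _ qz
        · have h3 : p' ≠ q := fun h4 => hne' (by rw [h4])
          exact hpos p' hp' h2 _ (hlex' p' (Finset.mem_erase.2 ⟨h2, hp'⟩) h3)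
      · exact hax c r _ hac.le hcb.le hr0 hz s hs (hr.not_mem_ax k hac hcb hs hr0 hz)

end Pool.Agent.SimplV
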