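import Pool.Agent.SimplV.Defs

set_option autoImplicit false

/-! # Enumeration of the rays (HM_Proof.md, 1.3)

`τ ↦ exp (2 τ)` is a bijection from `[0, π)` to the circle. Let `T` be the finite set of the
`τ ∈ [0, π)` with `exp (2 τ) ∈ S`; `T.card = S.card = m ≥ 1`. Let `e : Fin m → ℝ` be the increasing
enumeration (`Finset.orderEmbOfFin`) and `θ k = e (k mod m) + (k / m) π` (`Int.emod`, `Int.ediv`).
`StrictMono`: it is enough to show `θ k < θ (k + 1)` (`strictMono_int_of_lt_succ`): either the same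
quotient, or `k mod m = m - 1`, `(k + 1) mod m = 0`, and `e (m-1) < π ≤ e 0 + π`.
`mem`: for real `τ` let `τ = τ₀ + j π`, `τ₀ ∈ [0, π)`, `j : ℤ`; `exp (2 τ) = exp (2 τ₀)`. -/

namespace Pool.Agent.SimplV

open Complex Module ComplexConjugate Pool.Agent.Simpl

/-- The half of the argument of `s`, in `[0, π)`. -/
private noncomputable def hg (s : Circle) : ℝ := toIcoMod Real.pi_pos 0 (Complex.arg (s : ℂ) / 2)

private theorem exp_two_add (t : ℝ) (j : ℤ) :
    Circle.exp (2 * (t + j * Real.pi)) = Circle.exp (2 * t) := by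
  rw [Circle.exp_eq_exp]
  exact ⟨j, by ring⟩

private theorem exp_hg (s : Circle) : Circle.exp (2 * hg s) = s := by
  have h1 := toIcoMod_add_toIcoDiv_zsmul Real.pi_pos 0 (Complex.arg (s : ℂ) / 2)
  have h2 : hg s + (toIcoDiv Real.pi_pos 0 (Complex.arg (s : ℂ) / 2) : ℤ) * Real.pi =
      Complex.arg (s : ℂ) / 2 := by
    rw [zsmul_eq_mul] at h1
    exact h1
  rw [← exp_two_add (hg s) (toIcoDiv Real.pi_pos 0 (Complex.arg (s : ℂ) / 2)), h2,
    mul_div_cancel₀ _ (two_ne_zero), Circle.exp_arg]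

private theorem hg_mem (s : Circle) : 0 ≤ hg s ∧ hg s < Real.pi := by
  have h := toIcoMod_mem_Ico Real.pi_pos 0 (Complex.arg (s : ℂ) / 2)
  rw [zero_add] at h
  exact h

private theorem hg_exp {t : ℝ} (h0 : 0 ≤ t) (h1 : t < Real.pi) :
    hg (Circle.exp (2 * t)) = t := by
  obtain ⟨j, hj⟩ := Circle.exp_eq_exp.1 (exp_hg (Circle.exp (2 * t)))
  have h2 := hg_mem (Circle.exp (2 * t))
  have hpi := Real.pi_pos
  have h3 : hg (Circle.exp (2 * t)) - t = j * Real.pi := by linarith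
  have h4 : (j : ℝ) < 1 := by
    by_contra h
    nlinarith
  have h5 : (-1 : ℝ) < j := by
    by_contra h
    nlinarith
  have h6 : j = 0 := by
    have h7 : j < 1 := by exact_mod_cast h4
    have h8 : -1 < j := by exact_mod_cast h5
    omega
  rw [h6] at h3
  push_cast at h3
  linarith

theorem exists_rays (S : Finset Circle) (hS : S.Nonempty) : ∃ θ : ℤ → ℝ, Rays S S.card θ := by
  classical
  set T : Finset ℝ := S.image hg with hT
  have hinj : Function.Injective hg := by
    intro s s' h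
    rw [← exp_hg s, ← exp_hg s', h]
  have hcard : T.card = S.card := Finset.card_image_of_injective S hinj
  have hTmem : ∀ t : ℝ, 0 ≤ t → t < Real.pi → (Circle.exp (2 * t) ∈ S ↔ t ∈ T) := by
    intro t h0 h1
    rw [hT, Finset.mem_image]
    constructor
    · intro h
      exact ⟨_, h, hg_exp h0 h1⟩
    · rintro ⟨s, hs, rfl⟩
      rwa [exp_hg]
  have hTb : ∀ t ∈ T, 0 ≤ t ∧ t < Real.pi := by
    intro t ht
    rw [hT, Finset.mem_image] at ht
    obtain ⟨s, -, rfl⟩ := ht
    exact hg_mem s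
  set m := S.card with hm
  have hm0 : 0 < m := Finset.card_pos.2 hS
  have hmz : (0 : ℤ) < m := by exact_mod_cast hm0
  let e := T.orderEmbOfFin hcard
  have heT : ∀ i, e i ∈ T := fun i => Finset.orderEmbOfFin_mem T hcard i
  have hlt : ∀ k : ℤ, (k % (m : ℤ)).toNat < m := by
    intro k
    have h1 := Int.emod_nonneg k hmz.ne'
    have h2 := Int.emod_lt_of_pos k hmz
    omega
  let E : ℤ → ℝ := fun r => if h : r.toNat < m then e ⟨r.toNat, h⟩ else 0
  have hE : ∀ i : Fin m, E ((i : ℕ) : ℤ) = e i := by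
    intro i
    have h : ((i : ℕ) : ℤ).toNat = (i : ℕ) := Int.toNat_natCast _
    simp only [E, h, i.2, dite_true]
  have hE' : ∀ r : ℤ, 0 ≤ r → r < m → ∃ i : Fin m, ((i : ℕ) : ℤ) = r := by
    intro r h0 h1
    exact ⟨⟨r.toNat, by omega⟩, Int.toNat_of_nonneg h0⟩
  let θ : ℤ → ℝ := fun k => E (k % m) + ((k / m : ℤ) : ℝ) * Real.pi
  have hθ : ∀ (j : ℤ) (i : Fin m), θ (j * m + ((i : ℕ) : ℤ)) = e i + j * Real.pi := by
    intro j i
    have hi : ((i : ℕ) : ℤ) < m := by exact_mod_cast i.2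
    have h1 : (j * m + ((i : ℕ) : ℤ)) % (m : ℤ) = ((i : ℕ) : ℤ) := by
      rw [add_comm, Int.add_mul_emod_self_right]
      exact Int.emod_eq_of_lt (by positivity) hi
    have h2 : (j * m + ((i : ℕ) : ℤ)) / (m : ℤ) = j := by
      rw [add_comm, Int.add_mul_ediv_right _ _ hmz.ne',
        Int.ediv_eq_zero_of_lt (by positivity) hi, zero_add]
    simp only [θ]
    rw [h1, h2, hE]
  have hdecomp : ∀ k : ℤ, ∃ (j : ℤ) (i : Fin m), k = j * m + ((i : ℕ) : ℤ) := by
    intro k
    obtain ⟨i, hi⟩ := hE' (k % m) (Int.emod_nonneg k hmz.ne') (Int.emod_lt_of_pos k hmz)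
    refine ⟨k / m, i, ?_⟩
    rw [hi]
    have := Int.emod_add_mul_ediv k m
    linarith [mul_comm (k / m) (m : ℤ)]
  refine ⟨θ, ?_, ?_, ?_⟩
  · apply strictMono_int_of_lt_succ
    intro k
    obtain ⟨j, i, rfl⟩ := hdecomp k
    by_cases hi : (i : ℕ) + 1 < m
    · have h1 : j * m + ((i : ℕ) : ℤ) + 1 = j * m + (((⟨i + 1, hi⟩ : Fin m) : ℕ) : ℤ) := by
        push_cast
        ring
      rw [h1, hθ, hθ]
      have h2 : e i < e ⟨i + 1, hi⟩ := by
        apply e.strictMono
        rw [Fin.lt_def]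
        exact Nat.lt_succ_self _
      linarith
    · have hi' : (i : ℕ) + 1 = m := by omega
      have h1 : j * m + ((i : ℕ) : ℤ) + 1 = (j + 1) * m + (((⟨0, hm0⟩ : Fin m) : ℕ) : ℤ) := by
        have h3 : ((i : ℕ) : ℤ) + 1 = m := by exact_mod_cast hi'
        have h4 : (((⟨0, hm0⟩ : Fin m) : ℕ) : ℤ) = 0 := rfl
        rw [h4]
        linear_combination h3
      rw [h1, hθ, hθ]
      have h5 := (hTb _ (heT i)).2
      have h6 := (hTb _ (heT ⟨0, hm0⟩)).1
      push_cast
      linarith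
  · intro k
    obtain ⟨j, i, rfl⟩ := hdecomp k
    have h1 : j * m + ((i : ℕ) : ℤ) + m = (j + 1) * m + ((i : ℕ) : ℤ) := by ring
    rw [h1, hθ, hθ]
    push_cast
    ring
  · intro τ
    constructor
    · intro h
      have hpi := Real.pi_pos
      set j := ⌊τ / Real.pi⌋ with hj
      have h1 : (j : ℝ) ≤ τ / Real.pi := Int.floor_le _
      have h2 : τ / Real.pi < j + 1 := Int.lt_floor_add_one _
      rw [le_div_iff₀ hpi] at h1
      rw [div_lt_iff₀ hpi] at h2
      have h3 : τ - j * Real.pi ∈ T := by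
        rw [← hTmem _ (by linarith) (by linarith), ← exp_two_add _ j, sub_add_cancel]
        exact h
      have h4 : τ - j * Real.pi ∈ Set.range e := by
        rw [Finset.range_orderEmbOfFin]
        exact h3
      obtain ⟨i, hi⟩ := h4
      refine ⟨j * m + ((i : ℕ) : ℤ), ?_⟩
      rw [hθ, hi]
      ring
    · rintro ⟨k, rfl⟩
      obtain ⟨j, i, rfl⟩ := hdecomp k
      rw [hθ, exp_two_add, hTmem _ (hTb _ (heT i)).1 (hTb _ (heT i)).2]
      exact heT i

end Pool.Agent.SimplV
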