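import Pool.Agent.SimplV.Top
import Pool.Agent.SimplV.NoThree
import Pool.Agent.SimplV.RaysEx

set_option autoImplicit false

/-! # The polygon of a simplicial arrangement (HM_Proof.md, 1.6)

`θ` from `exists_rays`, `m = S.card`. For `k` let `Q k p` be: `p ∈ P` and `p` maximises
`dt · (uv (θ k))` and `dt · (uv (θ (k+1)))` on `P`. It exists (`exists_top`) and is unique
(`eq_zero_of_dt`, `cr (uv (θ k)) (uv (θ (k+1))) = sin (θ (k+1) - θ k) > 0`). `q k` = the one.
`q (k + 2 m) = q k` because `uv (θ (k + 2 m)) = uv (θ k + 2 π) = uv (θ k)`.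
`q k` and `q (k+1)` both maximise `dt · (uv (θ (k+1)))`: the difference `v = q (k+1) - q k` has
`dt v (uv (θ (k+1))) = 0`, so `v = c • nv (θ (k+1))`, `c = dt v (nv (θ (k+1)))` (`decomp`), and
`0 ≤ dt v (uv (θ (k+2))) = c sin (θ (k+2) - θ (k+1))` gives `c ≥ 0`. Put
`c k = dt (q k - q (k-1)) (nv (θ k))`.
`two`: if `c k = 0` and `c (k+1) = 0` then `q (k-1) = q k = q (k+1) =: p` maximises `dt · (uv (θ j))` for
`j = k-1, ..., k+2`, so `P = {p}` by `no_three`, contradicting `2 ≤ P.card`.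
`InS S x ↔ Ind θ x`: `s = exp (2 τ) ∈ S`, `τ = θ k`: `x = -(s conj x)` iff `x = t • nv (θ k)` for a real
`t` (`nv τ = I uv τ`, `s = uv τ * uv τ`; multiply `x` by `conj (nv τ)`: the equation says that
`x * conj (nv τ)` is real). -/

namespace Pool.Agent.SimplV

open Complex Module ComplexConjugate Pool.Agent.Simpl

private theorem coe_exp_two (τ : ℝ) :
    ((Circle.exp (2 * τ) : Circle) : ℂ) = uv τ * uv τ := by
  rw [uv_eq_exp, ← Circle.coe_mul, ← Circle.exp_add, two_mul]

private theorem par_iff (τ : ℝ) (x : ℂ) :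
    x = -(((Circle.exp (2 * τ) : Circle) : ℂ) * conj x) ↔ ∃ t : ℝ, x = t • nv τ := by
  have h := Real.sin_sq_add_cos_sq τ
  rw [coe_exp_two]
  constructor
  · intro h1
    have h2 := congrArg Complex.re h1
    have h3 := congrArg Complex.im h1
    simp only [Complex.neg_re, Complex.neg_im, Complex.mul_re, Complex.mul_im, Complex.conj_re,
      Complex.conj_im] at h2 h3
    rw [uv_re, uv_im] at h2 h3
    apply exists_smul_of_cr (nv_ne_zero τ)
    unfold cr
    rw [nv_re, nv_im]
    have h4 : 2 * (Real.cos τ * (Real.cos τ * x.re + Real.sin τ * x.im)) = 0 := by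
      linear_combination h2 + x.re * h
    have h5 : 2 * (Real.sin τ * (Real.cos τ * x.re + Real.sin τ * x.im)) = 0 := by
      linear_combination h3 + x.im * h
    linear_combination (-1 / 2 * Real.cos τ) * h4 + (-1 / 2 * Real.sin τ) * h5 +
      (Real.cos τ * x.re + Real.sin τ * x.im) * h
  · rintro ⟨t, rfl⟩
    apply Complex.ext
    · simp only [Complex.neg_re, Complex.mul_re, Complex.mul_im, Complex.conj_re,
        Complex.conj_im, smul_re', smul_im']
      rw [uv_re, uv_im, nv_re, nv_im]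
      linear_combination (t * Real.sin τ) * h
    · simp only [Complex.neg_im, Complex.mul_re, Complex.mul_im, Complex.conj_re,
        Complex.conj_im, smul_re', smul_im']
      rw [uv_re, uv_im, nv_re, nv_im]
      linear_combination (-t * Real.cos τ) * h

theorem inS_iff {S : Finset Circle} {m : ℕ} {θ : ℤ → ℝ} (hr : Rays S m θ) (x : ℂ) :
    InS S x ↔ Ind θ x := by
  constructor
  · rintro ⟨s, hs, hx⟩
    have h1 : Circle.exp (2 * ((s : ℂ).arg / 2)) = s := by
      rw [mul_div_cancel₀ _ (two_ne_zero), Circle.exp_arg]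
    rw [← h1] at hs hx
    obtain ⟨k, hk⟩ := (hr.mem _).1 hs
    obtain ⟨t, ht⟩ := (par_iff _ x).1 hx
    exact ⟨k, t, by rw [hk]; exact ht⟩
  · rintro ⟨k, t, hx⟩
    exact ⟨Circle.exp (2 * θ k), (hr.mem _).2 ⟨k, rfl⟩, (par_iff _ x).2 ⟨t, hx⟩⟩

theorem exists_poly {A : Finset (Submodule ℝ (ℂ × ℝ))} {P : Finset ℂ} {S : Finset Circle}
    (hS : IsSimplicial A) (h : Dual A P S) (hP : 2 ≤ P.card) (hm : 3 ≤ S.card) :
    ∃ (θ : ℤ → ℝ) (q : ℤ → ℂ) (c : ℤ → ℝ), Poly S.card θ q c ∧ (∀ k, q k ∈ P) ∧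
      ∀ x, InS S x ↔ Ind θ x := by
  have hPne : P.Nonempty := Finset.card_pos.1 (by omega)
  obtain ⟨θ, hr⟩ := exists_rays S (Finset.card_pos.1 (by omega))
  choose q hqP hq using fun k => exists_top hS h hPne hr (show 2 ≤ S.card by omega) k
  have hlt : ∀ k, θ k < θ (k + 1) := fun k => hr.mono (by omega)
  have hsin : ∀ k, 0 < Real.sin (θ (k + 1) - θ k) := fun k =>
    Real.sin_pos_of_pos_of_lt_pi (by linarith [hlt k])
      (by linarith [hr.lt_add_pi (show 2 ≤ S.card by omega) k])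
  have huniq : ∀ k, ∀ p ∈ P, ∀ p' ∈ P,
      (∀ x ∈ P, dt x (uv (θ k)) ≤ dt p (uv (θ k)) ∧
        dt x (uv (θ (k + 1))) ≤ dt p (uv (θ (k + 1)))) →
      (∀ x ∈ P, dt x (uv (θ k)) ≤ dt p' (uv (θ k)) ∧
        dt x (uv (θ (k + 1))) ≤ dt p' (uv (θ (k + 1)))) → p = p' := by
    intro k p hp p' hp' h1 h2
    have h3 : cr (uv (θ k)) (uv (θ (k + 1))) ≠ 0 := by
      rw [cr_uv_uv]
      exact (hsin k).ne'
    have h4 : p - p' = 0 := by
      apply eq_zero_of_dt h3
      · rw [dt_sub_left]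
        have h5 := (h1 p' hp').1
        have h6 := (h2 p hp).1
        linarith
      · rw [dt_sub_left]
        have h5 := (h1 p' hp').2
        have h6 := (h2 p hp).2
        linarith
    exact sub_eq_zero.1 h4
  have hθ2 : ∀ k : ℤ, uv (θ (k + 2 * S.card)) = uv (θ k) := by
    intro k
    rw [show k + 2 * (S.card : ℤ) = (k + S.card) + S.card by ring, hr.per, hr.per,
      uv_add_pi, uv_add_pi, neg_neg]
  have hperp : ∀ k, dt (q (k + 1) - q k) (uv (θ (k + 1))) = 0 := by
    intro k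
    rw [dt_sub_left]
    have h1 := (hq k (q (k + 1)) (hqP (k + 1))).2
    have h2 := (hq (k + 1) (q k) (hqP k)).1
    linarith
  have hstep : ∀ k, q (k + 1) - q k =
      dt (q (k + 1) - q k) (nv (θ (k + 1))) • nv (θ (k + 1)) := by
    intro k
    have h1 := decomp (θ (k + 1)) (q (k + 1) - q k)
    rw [hperp k, zero_smul, zero_add] at h1
    exact h1
  refine ⟨θ, q, fun k => dt (q k - q (k - 1)) (nv (θ k)), ⟨hr.mono, hr.per, ?_, ?_, ?_, ?_⟩,
    hqP, fun x => inS_iff hr x⟩
  · intro k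
    refine huniq k _ (hqP _) _ (hqP _) ?_ (hq k)
    intro x hx
    have h1 := hq (k + 2 * S.card) x hx
    rw [show k + 2 * (S.card : ℤ) + 1 = (k + 1) + 2 * S.card by ring, hθ2, hθ2] at h1
    exact h1
  · intro k
    have h1 := hstep k
    simp only [add_sub_cancel_right]
    rw [← h1]
    ring
  · intro k
    have h1 := hstep (k - 1)
    rw [sub_add_cancel] at h1
    have h2 := (hq k (q (k - 1)) (hqP (k - 1))).2
    have h3 : dt (q k - q (k - 1)) (uv (θ (k + 1))) =
        dt (q k - q (k - 1)) (nv (θ k)) * Real.sin (θ (k + 1) - θ k) := by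
      conv_lhs => rw [h1]
      rw [dt_smul_left, dt_nv_uv]
    have h4 : 0 ≤ dt (q k - q (k - 1)) (nv (θ k)) * Real.sin (θ (k + 1) - θ k) := by
      rw [← h3, dt_sub_left]
      linarith
    exact nonneg_of_mul_nonneg_left h4 (hsin k)
  · intro k
    by_contra hcon
    rw [not_or, not_not, not_not] at hcon
    obtain ⟨h1, h2⟩ := hcon
    have h3 := hstep (k - 1)
    rw [sub_add_cancel, h1, zero_smul, sub_eq_zero] at h3
    have h4 := hstep k
    rw [add_sub_cancel_right] at h2
    rw [h2, zero_smul, sub_eq_zero] at h4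
    have h5 := no_three hS h hr hm k (hqP k) (by
      intro p' hp' j hj hj'
      have h6 : j = k - 1 ∨ j = k ∨ j = k + 1 ∨ j = k + 2 := by omega
      rcases h6 with rfl | rfl | rfl | rfl
      · rw [h3]
        exact (hq (k - 1) p' hp').1
      · exact (hq j p' hp').1
      · exact (hq k p' hp').2
      · have h7 := (hq (k + 1) p' hp').2
        rw [h4, show k + 1 + 1 = k + 2 by ring] at h7
        exact h7)
    rw [h5, Finset.card_singleton] at hP
    omega

end Pool.Agent.SimplV
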