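import Pool.Agent.SimplV.Convex

set_option autoImplicit false

/-! # Nearly all squares are good, fixed shift (HM_Proof.md, 3.1)

`φ` from `exists_phi`. For a real `x` let `a x : ℤ` be the integer with `θ (a x) ≤ x < θ (a x + 1)`
(exists: `θ (k + m) = θ k + π`, so `θ` is unbounded in both directions; unique by `StrictMono`).
`g i = a (φ i (i + d))` for the fixed `d`, `4 ≤ d ≤ m - 2`. `g (i + 2 m) = g i + 2 m` because
`φ (i + 2 m) (i + d + 2 m) = φ i (i+d) + 2 π` and `θ (k + 2 m) = θ k + 2 π`. So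
`∑_{i ∈ [0, 2m)} (g (i + 2) - g i) = g (2m) + g (2m+1) - g 0 - g 1 = 4 m`.
Every term is `≥ 0` (`φ i j < φ (i+2) j < φ (i+2) (j+2)`, `a` is monotone).
If `AllA θ q i j` (`j = i + d`): a chord `ρ • nv φ`, `ρ > 0`, is `Ind` iff `φ = θ k` for some `k` (`nv φ`
parallel to `nv (θ l)` iff `φ - θ l` is a multiple of `π`, `θ (l + m) = θ l + π`); so
`φ i j = θ k₀`, `φ (i+2) j = θ k₁`, `φ i (j+2) = θ k₂`, `φ (i+2) (j+2) = θ k₃`, `k₀ < k₁, k₂ < k₃`
and the term is `k₃ - k₀ ≥ 2`. If it is `2` then `k₁ = k₂ = k₀ + 1` and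
`cr (q j - q (i+2)) (q (j+2) - q i) = 0`. So with `X` = the indices with `AllA`, `Y` = those with `AllA`
which are not good: `2 |X| + |Y| ≤ 4 m`, `|X| = 2 m - |not AllA|`, and the indices which are not good
are `Y` and the ones not `AllA`: `|not good| = |Y| + |not AllA| ≤ 3 |not AllA|`. -/

namespace Pool.Agent.SimplV

open Complex Module ComplexConjugate Pool.Agent.Simpl Classical

private theorem theta_per {m : ℕ} {θ : ℤ → ℝ} {q : ℤ → ℂ} {c : ℤ → ℝ} (h : Poly m θ q c)
    (k n : ℤ) : θ (k + n * m) = θ k + n * Real.pi := by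
  induction n using Int.induction_on with
  | zero => simp
  | succ n ih =>
    have h1 := h.per (k + n * m)
    rw [ih] at h1
    rw [show k + ((n : ℤ) + 1) * m = k + n * m + m by ring, h1]
    push_cast
    ring
  | pred n ih =>
    have h1 := h.per (k + (-(n : ℤ) - 1) * m)
    rw [show k + (-(n : ℤ) - 1) * m + m = k + -(n : ℤ) * m by ring, ih] at h1
    push_cast at h1 ⊢
    linarith

private theorem exists_floor {m : ℕ} {θ : ℤ → ℝ} {q : ℤ → ℂ} {c : ℤ → ℝ} (h : Poly m θ q c)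
    (x : ℝ) : ∃ k : ℤ, θ k ≤ x ∧ x < θ (k + 1) := by
  obtain ⟨n, hn⟩ := exists_nat_gt ((x - θ 0) / Real.pi)
  obtain ⟨n', hn'⟩ := exists_nat_gt ((θ 0 - x) / Real.pi)
  rw [div_lt_iff₀ Real.pi_pos] at hn hn'
  have h1 := theta_per h 0 n
  have h2 := theta_per h 0 (-n')
  push_cast at h1 h2
  have hb : ∃ b : ℤ, ∀ z : ℤ, θ z ≤ x → z ≤ b := by
    refine ⟨0 + n * m, fun z hz => ?_⟩
    by_contra hcon
    have h3 := h.mono (not_le.1 hcon)
    linarith
  obtain ⟨k, hk, hk2⟩ := Int.exists_greatest_of_bdd hb ⟨0 + -(n' : ℤ) * m, by linarith⟩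
  refine ⟨k, hk, ?_⟩
  by_contra hcon
  have := hk2 (k + 1) (not_lt.1 hcon)
  omega

private theorem ind_theta {m : ℕ} {θ : ℤ → ℝ} {q : ℤ → ℂ} {c : ℤ → ℝ} (h : Poly m θ q c)
    {ρ φ : ℝ} (hρ : 0 < ρ) {x : ℂ} (hx : x = ρ • nv φ) (hi : Ind θ x) : ∃ k : ℤ, φ = θ k := by
  obtain ⟨k, t, ht⟩ := hi
  have h1 : cr (nv (θ k)) (nv φ) = 0 := by
    have h2 : cr (nv (θ k)) x = 0 := by
      rw [ht, cr_smul_right, cr_self, mul_zero]
    rw [hx, cr_smul_right] at h2
    exact (mul_eq_zero.1 h2).resolve_left hρ.ne'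
  rw [cr_nv_nv] at h1
  obtain ⟨n, hn⟩ := Real.sin_eq_zero_iff.1 h1
  refine ⟨k + n * m, ?_⟩
  rw [theta_per h k n]
  linarith

private theorem tele (g : ℤ → ℤ) (n : ℕ) :
    ∑ i ∈ Finset.Ico (0 : ℤ) n, (g (i + 2) - g i) = g n + g (n + 1) - g 0 - g 1 := by
  induction n with
  | zero => simp
  | succ n ih =>
    have h1 : Finset.Ico (0 : ℤ) ((n + 1 : ℕ) : ℤ) = insert (n : ℤ) (Finset.Ico (0 : ℤ) n) := by
      ext i
      simp only [Finset.mem_Ico, Finset.mem_insert]
      push_cast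
      omega
    rw [h1, Finset.sum_insert (by simp), ih]
    push_cast
    rw [show (n : ℤ) + 1 + 1 = n + 2 by ring]
    ring

theorem rot_sum {m : ℕ} {θ : ℤ → ℝ} {q : ℤ → ℂ} {c : ℤ → ℝ} (h : Poly m θ q c) {d : ℤ}
    (hd : 4 ≤ d) (hd' : d + 2 ≤ m) :
    ((Finset.Ico (0 : ℤ) (2 * m)).filter fun i => ¬ Good θ q i (i + d)).card ≤
      3 * ((Finset.Ico (0 : ℤ) (2 * m)).filter fun i => ¬ AllA θ q i (i + d)).card := by
  obtain ⟨φ, hφ1, hφ2, hφ3, hφ4⟩ := exists_phi h
  choose a ha1 ha2 using exists_floor h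
  -- uniqueness and monotonicity of `a`
  have amono : ∀ x y : ℝ, x ≤ y → a x ≤ a y := by
    intro x y hxy
    have h1 : θ (a x) < θ (a y + 1) := lt_of_le_of_lt ((ha1 x).trans hxy) (ha2 y)
    have := h.mono.lt_iff_lt.1 h1
    omega
  have auniq : ∀ (x : ℝ) (k : ℤ), θ k ≤ x → x < θ (k + 1) → a x = k := by
    intro x k h1 h2
    have h3 := h.mono.lt_iff_lt.1 (lt_of_le_of_lt (ha1 x) h2)
    have h4 := h.mono.lt_iff_lt.1 (lt_of_le_of_lt h1 (ha2 x))
    omega
  have atheta : ∀ k : ℤ, a (θ k) = k := fun k => auniq _ _ le_rfl (h.mono (by omega))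
  have ashift : ∀ x : ℝ, a (x + 2 * Real.pi) = a x + 2 * m := by
    intro x
    apply auniq
    · have := theta_per h (a x) 2
      push_cast at this
      rw [this]
      linarith [ha1 x]
    · have := theta_per h (a x + 1) 2
      push_cast at this
      rw [show a x + 2 * m + 1 = a x + 1 + 2 * (m : ℤ) by ring, this]
      linarith [ha2 x]
  set g : ℤ → ℤ := fun i => a (φ i (i + d)) with hg
  have gper : ∀ i, g (i + 2 * m) = g i + 2 * m := by
    intro i
    simp only [hg]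
    rw [show i + 2 * (m : ℤ) + d = i + d + 2 * m by ring, hφ4 i (i + d) (by omega) (by omega),
      ashift]
  have hsum : ∑ i ∈ Finset.Ico (0 : ℤ) (2 * m), (g (i + 2) - g i) = 4 * m := by
    have h1 := tele g (2 * m)
    push_cast at h1
    rw [h1]
    have h2 := gper 0
    have h3 := gper 1
    rw [zero_add] at h2
    rw [add_comm] at h3
    rw [h2, h3]
    ring
  have hpt : ∀ i ∈ Finset.Ico (0 : ℤ) (2 * m),
      (2 + (if ¬ Good θ q i (i + d) then 1 else 0) -
        3 * (if ¬ AllA θ q i (i + d) then 1 else 0) : ℤ) ≤ g (i + 2) - g i := by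
    intro i _
    have l1 : φ i (i + d) < φ (i + 2) (i + d) := hφ2 i (i + d) (by omega) (by omega)
    have l2 : φ (i + 2) (i + d) < φ (i + 2) (i + d + 2) :=
      hφ3 (i + 2) (i + d) (by omega) (by omega)
    have l3 : φ i (i + d) < φ i (i + d + 2) := hφ3 i (i + d) (by omega) (by omega)
    have l4 : φ i (i + d + 2) < φ (i + 2) (i + d + 2) :=
      hφ2 i (i + d + 2) (by omega) (by omega)
    have hgi : g i = a (φ i (i + d)) := rfl
    have hgi2 : g (i + 2) = a (φ (i + 2) (i + d + 2)) := by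
      simp only [hg]
      rw [show i + 2 + d = i + d + 2 by ring]
    by_cases hA : AllA θ q i (i + d)
    · obtain ⟨A0, A1, A2, A3⟩ := hA
      obtain ⟨-, -, ρ0, r0, e0⟩ := hφ1 i (i + d) (by omega) (by omega)
      obtain ⟨-, -, ρ1, r1, e1⟩ := hφ1 (i + 2) (i + d) (by omega) (by omega)
      obtain ⟨-, -, ρ2, r2, e2⟩ := hφ1 i (i + d + 2) (by omega) (by omega)
      obtain ⟨-, -, ρ3, r3, e3⟩ := hφ1 (i + 2) (i + d + 2) (by omega) (by omega)
      obtain ⟨k0, hk0⟩ := ind_theta h r0 e0 A0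
      obtain ⟨k1, hk1⟩ := ind_theta h r1 e1 A1
      obtain ⟨k2, hk2⟩ := ind_theta h r2 e2 A2
      obtain ⟨k3, hk3⟩ := ind_theta h r3 e3 A3
      rw [hk0, hk1] at l1
      rw [hk1, hk3] at l2
      rw [hk0, hk2] at l3
      rw [hk2, hk3] at l4
      have m1 := h.mono.lt_iff_lt.1 l1
      have m2 := h.mono.lt_iff_lt.1 l2
      have m3 := h.mono.lt_iff_lt.1 l3
      have m4 := h.mono.lt_iff_lt.1 l4
      rw [hgi, hgi2, hk0, hk3, atheta, atheta]
      have hAA : AllA θ q i (i + d) := ⟨A0, A1, A2, A3⟩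
      by_cases hG : Good θ q i (i + d)
      · simp only [hG, hAA, not_true_eq_false, if_false]
        omega
      · have hne : k1 ≠ k2 := by
          intro hk
          apply hG
          refine ⟨hAA, ?_⟩
          rw [e1, e2, hk1, hk2, hk, cr_smul_left, cr_smul_right, cr_self]
          ring
        simp only [hG, hAA, not_true_eq_false, not_false_eq_true, if_false, if_true]
        omega
    · have hG : ¬ Good θ q i (i + d) := fun hG => hA hG.1
      have h1 := amono _ _ (l1.trans l2).le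
      rw [hgi, hgi2]
      simp only [hG, hA, not_false_eq_true, if_true]
      omega
  have htot := Finset.sum_le_sum hpt
  rw [hsum, Finset.sum_sub_distrib, Finset.sum_add_distrib, ← Finset.mul_sum,
    Finset.sum_boole, Finset.sum_boole, Finset.sum_const, Int.card_Ico] at htot
  simp only [sub_zero, nsmul_eq_mul] at htot
  have hm2 : ((2 * (m : ℤ)).toNat : ℤ) = 2 * m := Int.toNat_of_nonneg (by positivity)
  omega

end Pool.Agent.SimplV
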