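import Pool.Agent.SimplV.Alg

set_option autoImplicit false

/-! # Signs of a linear functional along the polygon (HM_Proof.md, 5.1)

`u = |u| uv τ` (polar form, `u ≠ 0`), `g k = dt u (nv (θ k)) = |u| sin (τ - θ k)` (`dt_uv_nv`).
`g (k + m) = - g k`.
* `card_pos`: at most `m` integers `k` in a window of length `2 m` have `g k > 0`: `k` and `k - m`
  cannot both have `g > 0`.
* `card_mixed`: `K` = the integer with `θ K ≤ τ < θ (K+1)`. The sign of `g` is constant on the open
  intervals between `K + n m` and `K + (n + 1) m`. So if none of `j+1, ..., j+4` is congruent to `K`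
  mod `m` then `g (j+1), ..., g (j+4)` have the same strict sign. The exceptions `j` are congruent
  to `K - 1, ..., K - 4` mod `m`: at most 8 in a window of `2 m` integers. -/

namespace Pool.Agent.SimplV

open Complex Module ComplexConjugate Pool.Agent.Simpl Classical

/-- the four values after `j` have the same strict sign -/
def SameSign (θ : ℤ → ℝ) (u : ℂ) (j : ℤ) : Prop :=
  (∀ k : ℤ, j + 1 ≤ k → k ≤ j + 4 → 0 < dt u (nv (θ k))) ∨
    (∀ k : ℤ, j + 1 ≤ k → k ≤ j + 4 → dt u (nv (θ k)) < 0)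

private theorem g_add {m : ℕ} {θ : ℤ → ℝ} (hper : ∀ k, θ (k + m) = θ k + Real.pi) (u : ℂ)
    (k : ℤ) : dt u (nv (θ (k + m))) = -dt u (nv (θ k)) := by
  rw [hper, nv_add_pi, dt_neg_right]

theorem card_pos {m : ℕ} {θ : ℤ → ℝ} (hper : ∀ k, θ (k + m) = θ k + Real.pi) (u : ℂ) (i₀ : ℤ) :
    ((Finset.Ico i₀ (i₀ + 2 * m)).filter fun k => 0 < dt u (nv (θ k))).card ≤ m := by
  have h1 : ((Finset.Ico i₀ (i₀ + 2 * m)).filter fun k => 0 < dt u (nv (θ k))).card ≤
      (Finset.Ico i₀ (i₀ + m)).card := by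
    refine Finset.card_le_card_of_injOn (fun k => if k < i₀ + m then k else k - m) ?_ ?_
    · intro k hk
      rw [Finset.mem_coe, Finset.mem_filter, Finset.mem_Ico] at hk
      rw [Finset.mem_coe, Finset.mem_Ico]
      obtain ⟨⟨ha, hb⟩, -⟩ := hk
      by_cases h : k < i₀ + m
      · simp only [if_pos h]
        exact ⟨ha, h⟩
      · simp only [if_neg h]
        constructor <;> omega
    · intro k hk k' hk' he
      rw [Finset.mem_coe, Finset.mem_filter, Finset.mem_Ico] at hk hk'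
      by_cases h : k < i₀ + m <;> by_cases h' : k' < i₀ + m
      · simpa only [if_pos h, if_pos h'] using he
      · simp only [if_pos h, if_neg h'] at he
        have e : k' = k + m := by omega
        have h2 := hk'.2
        rw [e, g_add hper] at h2
        have h3 := hk.2
        linarith
      · simp only [if_neg h, if_pos h'] at he
        have e : k = k' + m := by omega
        have h2 := hk.2
        rw [e, g_add hper] at h2
        have h3 := hk'.2
        linarith
      · simp only [if_neg h, if_neg h'] at he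
        omega
  rw [Int.card_Ico] at h1
  omega

private theorem per_int {m : ℕ} {θ : ℤ → ℝ} (hper : ∀ k, θ (k + m) = θ k + Real.pi) (k n : ℤ) :
    θ (k + n * m) = θ k + n * Real.pi := by
  induction n using Int.induction_on with
  | zero => simp
  | succ n ih =>
    have e : k + ((n : ℤ) + 1) * m = (k + n * m) + m := by ring
    rw [e, hper, ih]
    push_cast
    ring
  | pred n ih =>
    have e : k + (-(n : ℤ)) * m = (k + (-(n : ℤ) - 1) * m) + m := by ring
    rw [e, hper] at ih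
    push_cast at ih ⊢
    linarith

private theorem exists_K {m : ℕ} {θ : ℤ → ℝ} (hmono : StrictMono θ)
    (hper : ∀ k, θ (k + m) = θ k + Real.pi) (τ : ℝ) : ∃ K : ℤ, θ K ≤ τ ∧ τ < θ (K + 1) := by
  have hpi := Real.pi_pos
  let n : ℤ := ⌊(τ - θ 0) / Real.pi⌋
  have hn1 : (n : ℝ) * Real.pi ≤ τ - θ 0 := by
    have h := Int.floor_le ((τ - θ 0) / Real.pi)
    rwa [le_div_iff₀ hpi] at h
  have hn2 : τ - θ 0 < ((n : ℝ) + 1) * Real.pi := by
    have h := Int.lt_floor_add_one ((τ - θ 0) / Real.pi)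
    rwa [div_lt_iff₀ hpi] at h
  have hA : θ (0 + n * m) = θ 0 + n * Real.pi := per_int hper 0 n
  have hB : θ (0 + (n + 1) * m) = θ 0 + ((n + 1 : ℤ) : ℝ) * Real.pi := per_int hper 0 (n + 1)
  obtain ⟨K, hK, hmax⟩ := Int.exists_greatest_of_bdd (P := fun k => θ k ≤ τ)
    ⟨0 + (n + 1) * m, fun z hz => by
      by_contra hcon
      have h := hmono (not_le.1 hcon)
      rw [hB] at h
      push_cast at h
      linarith⟩
    ⟨0 + n * m, by
      rw [hA]
      linarith⟩
  refine ⟨K, hK, ?_⟩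
  by_contra hcon
  have h := hmax (K + 1) (not_lt.1 hcon)
  omega

private theorem sign_int {m : ℕ} {g : ℤ → ℝ} (hg : ∀ k, g (k + m) = -g k) {K : ℤ}
    (h0 : ∀ k, K < k → k < K + m → g k < 0) (n : ℤ) :
    (∀ k, K + n * m < k → k < K + (n + 1) * m → g k < 0) ∨
      (∀ k, K + n * m < k → k < K + (n + 1) * m → 0 < g k) := by
  induction n using Int.induction_on with
  | zero =>
    left
    intro k h1 h2
    rw [zero_mul, add_zero] at h1
    rw [zero_add, one_mul] at h2
    exact h0 k h1 h2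
  | succ n ih =>
    have key : ∀ k : ℤ, K + ((n : ℤ) + 1) * m < k → k < K + ((n : ℤ) + 1 + 1) * m →
        K + (n : ℤ) * m < k - m ∧ k - m < K + ((n : ℤ) + 1) * m ∧ g k = -g (k - m) := by
      intro k h1 h2
      refine ⟨by linarith, by linarith, ?_⟩
      have h3 := hg (k - m)
      rwa [sub_add_cancel] at h3
    rcases ih with ih | ih
    · right
      intro k h1 h2
      obtain ⟨a, b, c⟩ := key k h1 h2
      rw [c]
      have := ih (k - m) a b
      linarith
    · left
      intro k h1 h2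
      obtain ⟨a, b, c⟩ := key k h1 h2
      rw [c]
      have := ih (k - m) a b
      linarith
  | pred n ih =>
    have key : ∀ k : ℤ, K + (-(n : ℤ) - 1) * m < k → k < K + (-(n : ℤ) - 1 + 1) * m →
        K + (-(n : ℤ)) * m < k + m ∧ k + m < K + (-(n : ℤ) + 1) * m ∧ g (k + m) = -g k := by
      intro k h1 h2
      refine ⟨by linarith, by linarith, hg k⟩
    rcases ih with ih | ih
    · right
      intro k h1 h2
      obtain ⟨a, b, c⟩ := key k h1 h2
      have := ih (k + m) a b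
      linarith
    · left
      intro k h1 h2
      obtain ⟨a, b, c⟩ := key k h1 h2
      have := ih (k + m) a b
      linarith

private theorem card_two {m : ℕ} (hm : 1 ≤ m) (i₀ v : ℤ) :
    ((Finset.Ico i₀ (i₀ + 2 * m)).filter fun j => j ≡ v [ZMOD (m : ℤ)]).card ≤ 2 := by
  have hm0 : (0 : ℤ) < m := by omega
  have h := Int.Ico_filter_modEq_card i₀ (i₀ + 2 * m) hm0 v
  have hq : (m : ℚ) ≠ 0 := by
    have : m ≠ 0 := by omega
    exact_mod_cast this
  have e : (((i₀ + 2 * m : ℤ) : ℚ) - v) / ((m : ℤ) : ℚ) =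
      ((i₀ : ℚ) - v) / ((m : ℤ) : ℚ) + (2 : ℤ) := by
    push_cast
    field_simp
    ring
  rw [e, Int.ceil_add_intCast] at h
  have h2 : ((((Finset.Ico i₀ (i₀ + 2 * m)).filter fun j => j ≡ v [ZMOD (m : ℤ)]).card : ℕ) : ℤ)
      ≤ 2 := by
    refine le_trans (le_of_eq ?_) (le_of_eq (show max ((⌈((i₀ : ℚ) - v) / ((m : ℤ) : ℚ)⌉ + 2) -
      ⌈((i₀ : ℚ) - v) / ((m : ℤ) : ℚ)⌉) 0 = (2 : ℤ) by
        rw [add_sub_cancel_left]; norm_num))
    rw [← h]
  exact_mod_cast h2

theorem card_mixed {m : ℕ} {θ : ℤ → ℝ} (hm : 1 ≤ m) (hmono : StrictMono θ)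
    (hper : ∀ k, θ (k + m) = θ k + Real.pi) {u : ℂ} (hu : u ≠ 0) (i₀ : ℤ) :
    ((Finset.Ico i₀ (i₀ + 2 * m)).filter fun j => ¬ SameSign θ u j).card ≤ 8 := by
  have hpi := Real.pi_pos
  have hm0 : (0 : ℤ) < m := by omega
  have hn : 0 < ‖u‖ := norm_pos_iff.2 hu
  have hu' : u = ‖u‖ • uv (Complex.arg u) := by
    rw [uv_eq_exp, Circle.coe_exp, Complex.real_smul]
    exact (Complex.norm_mul_exp_arg_mul_I u).symm
  have hg : ∀ k, dt u (nv (θ k)) = ‖u‖ * Real.sin (Complex.arg u - θ k) := by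
    intro k
    rw [← dt_uv_nv, ← dt_smul_left, ← hu']
  obtain ⟨K, hK1, hK2⟩ := exists_K hmono hper (Complex.arg u)
  have hneg : ∀ k, K < k → k < K + m → dt u (nv (θ k)) < 0 := by
    intro k h1 h2
    rw [hg k]
    have e1 : θ (K + 1) ≤ θ k := hmono.monotone (by omega)
    have e2 : θ k < θ (K + m) := hmono h2
    rw [hper] at e2
    have h3 : Real.sin (Complex.arg u - θ k) < 0 :=
      Real.sin_neg_of_neg_of_neg_pi_lt (by linarith) (by linarith)
    exact mul_neg_of_pos_of_neg hn h3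
  have hsub : ((Finset.Ico i₀ (i₀ + 2 * m)).filter fun j => ¬ SameSign θ u j) ⊆
      (((Finset.Ico i₀ (i₀ + 2 * m)).filter fun j => j ≡ K - 1 [ZMOD (m : ℤ)]) ∪
      ((Finset.Ico i₀ (i₀ + 2 * m)).filter fun j => j ≡ K - 2 [ZMOD (m : ℤ)])) ∪
      (((Finset.Ico i₀ (i₀ + 2 * m)).filter fun j => j ≡ K - 3 [ZMOD (m : ℤ)]) ∪
      ((Finset.Ico i₀ (i₀ + 2 * m)).filter fun j => j ≡ K - 4 [ZMOD (m : ℤ)])) := by
    intro j hj
    rw [Finset.mem_filter] at hj
    obtain ⟨hj1, hj2⟩ := hj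
    simp only [Finset.mem_union, Finset.mem_filter]
    by_contra hcon
    push Not at hcon
    obtain ⟨⟨c1, c2⟩, c3, c4⟩ := hcon
    have d : ∀ i : ℤ, ¬ j ≡ K - i [ZMOD (m : ℤ)] → ∀ n : ℤ, j + i ≠ K + n * m := by
      intro i hi n he
      apply hi
      rw [Int.modEq_iff_dvd]
      exact ⟨-n, by linarith⟩
    have d1 := d 1 (c1 hj1)
    have d2 := d 2 (c2 hj1)
    have d3 := d 3 (c3 hj1)
    have d4 := d 4 (c4 hj1)
    let n : ℤ := (j + 1 - K) / m
    have hn1 : n * m ≤ j + 1 - K := Int.ediv_mul_le _ (by omega)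
    have hn2 : j + 1 - K < (n + 1) * m := Int.lt_ediv_add_one_mul_self _ hm0
    have f1 := d1 n
    have f2 := d2 (n + 1)
    have f3 := d3 (n + 1)
    have f4 := d4 (n + 1)
    have g1 : K + n * m < j + 1 := lt_of_le_of_ne (by linarith) (Ne.symm f1)
    have g2 : j + 1 < K + (n + 1) * m := by linarith
    have g3 : j + 4 < K + (n + 1) * m := by
      have k2 : j + 2 < K + (n + 1) * m := lt_of_le_of_ne (by linarith [Int.add_one_le_of_lt g2]) f2
      have k3 : j + 3 < K + (n + 1) * m := lt_of_le_of_ne (by linarith [Int.add_one_le_of_lt k2]) f3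
      exact lt_of_le_of_ne (by linarith [Int.add_one_le_of_lt k3]) f4
    apply hj2
    rcases sign_int (g := fun k => dt u (nv (θ k))) (g_add hper u) hneg n with h | h
    · right
      intro k hk1 hk2
      exact h k (by linarith) (by linarith)
    · left
      intro k hk1 hk2
      exact h k (by linarith) (by linarith)
  refine (Finset.card_le_card hsub).trans ((Finset.card_union_le _ _).trans ?_)
  have a1 := card_two hm i₀ (K - 1)
  have a2 := card_two hm i₀ (K - 2)
  have a3 := card_two hm i₀ (K - 3)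
  have a4 := card_two hm i₀ (K - 4)
  have b1 := Finset.card_union_le
    ((Finset.Ico i₀ (i₀ + 2 * m)).filter fun j => j ≡ K - 1 [ZMOD (m : ℤ)])
    ((Finset.Ico i₀ (i₀ + 2 * m)).filter fun j => j ≡ K - 2 [ZMOD (m : ℤ)])
  have b2 := Finset.card_union_le
    ((Finset.Ico i₀ (i₀ + 2 * m)).filter fun j => j ≡ K - 3 [ZMOD (m : ℤ)])
    ((Finset.Ico i₀ (i₀ + 2 * m)).filter fun j => j ≡ K - 4 [ZMOD (m : ℤ)])
  omega

private theorem edge {m : ℕ} {θ : ℤ → ℝ} {q : ℤ → ℂ} {c : ℤ → ℝ} (h : Poly m θ q c) (u : ℂ)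
    (j : ℤ) : dt u (q (j + 2) - q j) =
      c (j + 1) * dt u (nv (θ (j + 1))) + c (j + 2) * dt u (nv (θ (j + 2))) := by
  have h1 := h.step j
  have h2 := h.step (j + 1)
  have e : j + 1 + 1 = j + 2 := by ring
  rw [e] at h2
  rw [h2, h1, ← dt_smul_right, ← dt_smul_right, ← dt_add_right]
  congr 1
  ring

/-- the sign of `dt u` at an edge of the polygon -/
theorem dt_edge_pos {m : ℕ} {θ : ℤ → ℝ} {q : ℤ → ℂ} {c : ℤ → ℝ} (h : Poly m θ q c) {u : ℂ} {j : ℤ}
    (h1 : 0 < dt u (nv (θ (j + 1)))) (h2 : 0 < dt u (nv (θ (j + 2)))) :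
    0 < dt u (q (j + 2) - q j) := by
  rw [edge h]
  have n1 := h.nonneg (j + 1)
  have n2 := h.nonneg (j + 2)
  have e : j + 1 + 1 = j + 2 := by ring
  rcases h.two (j + 1) with h3 | h3
  · have h4 : 0 < c (j + 1) := lt_of_le_of_ne n1 (Ne.symm h3)
    have := mul_pos h4 h1
    have := mul_nonneg n2 h2.le
    linarith
  · rw [e] at h3
    have h4 : 0 < c (j + 2) := lt_of_le_of_ne n2 (Ne.symm h3)
    have := mul_pos h4 h2
    have := mul_nonneg n1 h1.le
    linarith

theorem dt_edge_neg {m : ℕ} {θ : ℤ → ℝ} {q : ℤ → ℂ} {c : ℤ → ℝ} (h : Poly m θ q c) {u : ℂ} {j : ℤ}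
    (h1 : dt u (nv (θ (j + 1))) < 0) (h2 : dt u (nv (θ (j + 2))) < 0) :
    dt u (q (j + 2) - q j) < 0 := by
  have e1 : ∀ z, dt (-u) z = -dt u z := fun z => dt_neg_left u z
  have h3 := dt_edge_pos h (u := -u) (j := j) (by rw [e1]; linarith) (by rw [e1]; linarith)
  rw [e1] at h3
  linarith

end Pool.Agent.SimplV
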