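import Pool.Agent.SimplV.DualB
import Pool.Agent.SimplV.Walls3
import Pool.Agent.SimplV.SecA

set_option autoImplicit false

/-! # One point of `P` is maximal on a sector (HM_Proof.md, 1.4)

`w = uv (θ k)`, `w' = uv (θ (k+1))`, `θ k < θ (k+1) < θ k + π` (`Rays.lt_add_pi`), so `cr w w' ≠
0` (`cr_uv_uv`). `lex_max` for `(w, w')` gives `p₁` (maximising `dt · w`) and for `(w', w)` gives
`p₂` (maximising `dt · w'`), and small `ε` such that `p₁` is the strict maximum of `dt · z₁`, `z₁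
= w + ε • w'`, and `p₂` of `dt · z₂`, `z₂ = w' + ε • w`; by `uv_add_uv` (`uv_add_uv` with `1/ε`
for `z₂`, or write `z₂ = ε • (w + ε⁻¹ • w')`) both are positive multiples of `uv c` with `θ k < c
< θ (k+1)`. Claim `p₁ = p₂`. Otherwise take `x = (z₁, t₀)` with `t₀ > dt p z₁` for all `p ∈ P`; it
is in no plane of `A`. `W = {ax (exp (2 θ k)), ax (exp (2 θ (k+1))), pl p₁, pl p₂}` has four
elements, contained in `A`. Witnesses `y`: `(w, t)`, `(w', t)` with `t` larger than all `dt p w`,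
`dt p w'`; `(z₁, dt p₁ z₁)`; `(z₂, dt p₂ z₂)`. Same side: for `pl p`: `fpl p x = t₀ - dt z₁ p > 0`
and `fpl p y > 0` (for `y = (z₁, dt p₁ z₁)`, `p ≠ p₁`: strict maximum); for `ax s`: `Rays.ax_side`
(with `Rays.not_mem_ax`, `Rays.eq_of_mem_ax`). Contradiction to `walls_le_three`. So `p = p₁ = p₂`
maximises both. -/

namespace Pool.Agent.SimplV

open Complex Module ComplexConjugate Pool.Agent.Simpl

private theorem top_bd (P : Finset ℂ) (z : ℂ) : ∃ t : ℝ, ∀ p ∈ P, dt z p < t := by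
  classical
  obtain ⟨M, hM⟩ := (P.image fun p => dt z p).exists_le
  refine ⟨M + 1, fun p hp => ?_⟩
  have := hM (dt z p) (Finset.mem_image_of_mem _ hp)
  linarith

private theorem top_side {A : Finset (Submodule ℝ (ℂ × ℝ))} {P : Finset ℂ} {S : Finset Circle}
    (h : Dual A P S) {m : ℕ} {θ : ℤ → ℝ} (hr : Rays S m θ) (hm : 1 ≤ m) (k : ℤ)
    {x y : ℂ × ℝ} {a b r r' : ℝ} (ha : θ k ≤ a) (ha' : a ≤ θ (k + 1)) (hb : θ k ≤ b)
    (hb' : b ≤ θ (k + 1)) (hr0 : 0 < r) (hr0' : 0 < r') (hx : x.1 = r • uv a)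
    (hy : y.1 = r' • uv b) (hxS : ∀ s ∈ S, x ∉ ax s) (hxP : ∀ p ∈ P, dt x.1 p < x.2)
    (H : Submodule ℝ (ℂ × ℝ)) (hyS : ∀ s ∈ S, ax s ≠ H → y ∉ ax s)
    (hyP : ∀ p ∈ P, pl p ≠ H → dt y.1 p < y.2) :
    ∀ H' ∈ A, H' ≠ H → ∃ f : (ℂ × ℝ) →ₗ[ℝ] ℝ, LinearMap.ker f = H' ∧ 0 < f x * f y := by
  intro H' hH' hne
  rcases h.cases H' hH' with ⟨p, hp, rfl⟩ | ⟨s, hs, rfl⟩
  · refine ⟨fpl p, ker_fpl p, ?_⟩
    have e1 : fpl p x = x.2 - dt x.1 p := rfl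
    have e2 : fpl p y = y.2 - dt y.1 p := rfl
    rw [e1, e2]
    exact mul_pos (sub_pos.mpr (hxP p hp)) (sub_pos.mpr (hyP p hp hne))
  · exact hr.ax_side hm k ha ha' hb hb' hs hr0 hr0' hx hy (hxS s hs) (hyS s hs hne)

theorem exists_top {A : Finset (Submodule ℝ (ℂ × ℝ))} {P : Finset ℂ} {S : Finset Circle}
    (hS : IsSimplicial A) (h : Dual A P S) (hP : P.Nonempty) {m : ℕ} {θ : ℤ → ℝ}
    (hr : Rays S m θ) (hm : 2 ≤ m) (k : ℤ) :
    ∃ p ∈ P, ∀ p' ∈ P, dt p' (uv (θ k)) ≤ dt p (uv (θ k)) ∧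
      dt p' (uv (θ (k + 1))) ≤ dt p (uv (θ (k + 1))) := by
  classical
  have hlt : θ k < θ (k + 1) := hr.mono (lt_add_one k)
  have hpi : θ (k + 1) < θ k + Real.pi := hr.lt_add_pi hm k
  have hcr : 0 < cr (uv (θ k)) (uv (θ (k + 1))) := by
    rw [cr_uv_uv]
    exact Real.sin_pos_of_pos_of_lt_pi (by linarith) (by linarith)
  have hcr' : cr (uv (θ (k + 1))) (uv (θ k)) ≠ 0 := by
    rw [cr_comm]
    exact neg_ne_zero.mpr hcr.ne'
  obtain ⟨p₁, hp₁, hmax₁, ε₁, hε₁, hs₁⟩ := lex_max hP hcr.ne'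
  obtain ⟨p₂, hp₂, hmax₂, ε₂, hε₂, hs₂⟩ := lex_max hP hcr'
  by_cases hpp : p₁ = p₂
  · refine ⟨p₁, hp₁, fun p' hp' => ⟨hmax₁ p' hp', ?_⟩⟩
    rw [hpp]
    exact hmax₂ p' hp'
  exfalso
  obtain ⟨r₁, c₁, hr₁, hc₁, hc₁', e₁⟩ := uv_add_uv hlt hpi hε₁
  obtain ⟨r₂, c₂, hr₂, hc₂, hc₂', e₂'⟩ := uv_add_uv hlt hpi (inv_pos.mpr hε₂)
  have e₂ : uv (θ (k + 1)) + ε₂ • uv (θ k) = (ε₂ * r₂) • uv c₂ := by
    rw [mul_smul, ← e₂', smul_add, smul_smul, mul_inv_cancel₀ hε₂.ne', one_smul, add_comm]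
  have hr₂' : 0 < ε₂ * r₂ := mul_pos hε₂ hr₂
  set z₁ : ℂ := uv (θ k) + ε₁ • uv (θ (k + 1)) with hz₁
  set z₂ : ℂ := uv (θ (k + 1)) + ε₂ • uv (θ k) with hz₂
  have hst₁ := hs₁ ε₁ hε₁ le_rfl
  have hst₂ := hs₂ ε₂ hε₂ le_rfl
  rw [← hz₁] at hst₁
  rw [← hz₂] at hst₂
  obtain ⟨t₀, ht₀⟩ := top_bd P z₁
  obtain ⟨t₁, ht₁⟩ := top_bd P (uv (θ k))
  obtain ⟨t₂, ht₂⟩ := top_bd P (uv (θ (k + 1)))
  have hxS : ∀ s ∈ S, ((z₁, t₀) : ℂ × ℝ) ∉ ax s := fun s hs =>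
    hr.not_mem_ax k hc₁ hc₁' hs hr₁ e₁
  have hxP : ∀ p ∈ P, dt ((z₁, t₀) : ℂ × ℝ).1 p < ((z₁, t₀) : ℂ × ℝ).2 := ht₀
  have hx : ∀ H ∈ A, ((z₁, t₀) : ℂ × ℝ) ∉ H := by
    intro H hH
    rcases h.cases H hH with ⟨p, hp, rfl⟩ | ⟨s, hs, rfl⟩
    · intro hmem
      rw [mem_pl, ← dt_eq_re] at hmem
      exact absurd hmem (ht₀ p hp).ne
    · exact hxS s hs
  have hm1 : 1 ≤ m := by omega
  set H₀ := ax (Circle.exp (2 * θ k)) with hH₀
  set H₁ := ax (Circle.exp (2 * θ (k + 1))) with hH₁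
  have h₀A : H₀ ∈ A := (h.ax_mem _).mpr ((hr.mem _).mpr ⟨k, rfl⟩)
  have h₁A : H₁ ∈ A := (h.ax_mem _).mpr ((hr.mem _).mpr ⟨k + 1, rfl⟩)
  have h₂A : pl p₁ ∈ A := (h.pl_mem _).mpr hp₁
  have h₃A : pl p₂ ∈ A := (h.pl_mem _).mpr hp₂
  have hcard : ({H₀, H₁, pl p₁, pl p₂} : Finset (Submodule ℝ (ℂ × ℝ))).card = 4 := by
    have n1 : H₀ ≠ H₁ := hr.ax_ne hm k
    have n2 : H₀ ≠ pl p₁ := fun e => pl_ne_ax _ _ e.symm
    have n3 : H₀ ≠ pl p₂ := fun e => pl_ne_ax _ _ e.symm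
    have n4 : H₁ ≠ pl p₁ := fun e => pl_ne_ax _ _ e.symm
    have n5 : H₁ ≠ pl p₂ := fun e => pl_ne_ax _ _ e.symm
    have n6 : pl p₁ ≠ pl p₂ := fun e => hpp (pl_inj e)
    rw [Finset.card_insert_of_notMem, Finset.card_insert_of_notMem,
      Finset.card_insert_of_notMem, Finset.card_singleton]
    · simpa using n6
    · simp only [Finset.mem_insert, Finset.mem_singleton, not_or]
      exact ⟨n4, n5⟩
    · simp only [Finset.mem_insert, Finset.mem_singleton, not_or]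
      exact ⟨n1, n2, n3⟩
  have hle := walls_le_three h.finrank_eq hS hx {H₀, H₁, pl p₁, pl p₂} (by
    intro H hH
    simp only [Finset.mem_insert, Finset.mem_singleton] at hH
    rcases hH with rfl | rfl | rfl | rfl
    · exact h₀A
    · exact h₁A
    · exact h₂A
    · exact h₃A) (by
    intro H hH
    simp only [Finset.mem_insert, Finset.mem_singleton] at hH
    rcases hH with hH | hH | hH | hH
    · refine ⟨(uv (θ k), t₁), ?_, ?_⟩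
      · rw [hH, hH₀, mem_ax_exp]
        exact cr_self _
      · have hy1 : ((uv (θ k), t₁) : ℂ × ℝ).1 = (1 : ℝ) • uv (θ k) := (one_smul ℝ _).symm
        refine top_side h hr hm1 k hc₁.le hc₁'.le le_rfl hlt.le hr₁ one_pos e₁ hy1 hxS hxP H
          ?_ (fun p hp _ => ht₁ p hp)
        intro s _ hne hmem
        have := Rays.eq_of_mem_ax k one_pos hy1 hmem
        exact hne (by rw [hH, hH₀, this])
    · refine ⟨(uv (θ (k + 1)), t₂), ?_, ?_⟩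
      · rw [hH, hH₁, mem_ax_exp]
        exact cr_self _
      · have hy1 : ((uv (θ (k + 1)), t₂) : ℂ × ℝ).1 = (1 : ℝ) • uv (θ (k + 1)) :=
          (one_smul ℝ _).symm
        refine top_side h hr hm1 k hc₁.le hc₁'.le hlt.le le_rfl hr₁ one_pos e₁ hy1 hxS hxP H
          ?_ (fun p hp _ => ht₂ p hp)
        intro s _ hne hmem
        have := Rays.eq_of_mem_ax (k + 1) one_pos hy1 hmem
        exact hne (by rw [hH, hH₁, this])
    · refine ⟨(z₁, dt z₁ p₁), ?_, ?_⟩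
      · rw [hH, mem_pl, ← dt_eq_re]
      · refine top_side h hr hm1 k hc₁.le hc₁'.le hc₁.le hc₁'.le hr₁ hr₁ e₁ e₁ hxS hxP H
          (fun s hs _ => hr.not_mem_ax k hc₁ hc₁' hs hr₁ e₁) ?_
        intro p hp hne
        have hne' : p ≠ p₁ := fun e => hne (by rw [hH, e])
        have := hst₁ p hp hne'
        rw [dt_comm p, dt_comm p₁] at this
        exact this
    · refine ⟨(z₂, dt z₂ p₂), ?_, ?_⟩
      · rw [hH, mem_pl, ← dt_eq_re]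
      · refine top_side h hr hm1 k hc₁.le hc₁'.le hc₂.le hc₂'.le hr₁ hr₂' e₁ e₂ hxS hxP H
          (fun s hs _ => hr.not_mem_ax k hc₂ hc₂' hs hr₂' e₂) ?_
        intro p hp hne
        have hne' : p ≠ p₂ := fun e => hne (by rw [hH, e])
        have := hst₂ p hp hne'
        rw [dt_comm p, dt_comm p₂] at this
        exact this)
  omega

end Pool.Agent.SimplV
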