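import Pool.Agent.SimplV.Rts
import Pool.Agent.SimplV.DualB

set_option autoImplicit false

/-! # Products of the points of `P` on the unit circle (HM_Proof.md, 7.2, beginning)

For `x ≠ y` on the circle: `x - y = -(s conj (x - y))` iff `s = x y` (multiply by `x y`:
`x y conj (x - y) = y - x`). So if `x, y ∈ P`, `x ≠ y` and `x y ∉ S` then `(x, y) ∈ nonA P S`; the pairs with
`x = y` are at most `(unitPts P).card`. -/

namespace Pool.Agent.SimplV

open Complex Module ComplexConjugate Pool.Agent.Simpl Classical

/-- the points of `P` on the unit circle -/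
noncomputable def unitPts (P : Finset ℂ) : Finset Circle :=
  P.preimage (fun w : Circle => (w : ℂ)) (fun _ _ _ _ h => Circle.ext h)

theorem mem_unitPts {P : Finset ℂ} {w : Circle} : w ∈ unitPts P ↔ (w : ℂ) ∈ P := by
  unfold unitPts
  rw [Finset.mem_preimage]

theorem card_unitPts (P : Finset ℂ) :
    (unitPts P).card = (P.filter fun p => ‖p‖ = 1).card := by
  refine Finset.card_bij (fun (w : Circle) _ => (w : ℂ)) ?_ ?_ ?_
  · intro w hw
    rw [Finset.mem_filter]
    exact ⟨mem_unitPts.1 hw, Circle.norm_coe w⟩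
  · intro w _ w' _ h
    exact Circle.ext h
  · intro p hp
    rw [Finset.mem_filter] at hp
    refine ⟨⟨p, mem_sphere_zero_iff_norm.2 hp.2⟩, ?_, rfl⟩
    rw [mem_unitPts]
    exact hp.1

theorem card_products_le (P : Finset ℂ) (S : Finset Circle) :
    ((unitPts P ×ˢ unitPts P).filter fun x : Circle × Circle => x.1 * x.2 ∉ S).card ≤
      (nonA P S).card + (unitPts P).card := by
  classical
  have hsub : ((unitPts P ×ˢ unitPts P).filter fun x : Circle × Circle => x.1 * x.2 ∉ S) ⊆
      ((unitPts P ×ˢ unitPts P).filter fun x : Circle × Circle =>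
        ((x.1 : ℂ), (x.2 : ℂ)) ∈ nonA P S) ∪
      (unitPts P).image (fun w => (w, w)) := by
    rintro ⟨x, y⟩ hx
    rw [Finset.mem_filter, Finset.mem_product] at hx
    obtain ⟨⟨hx1, hx2⟩, hx3⟩ := hx
    simp only at hx1 hx2 hx3
    rw [Finset.mem_union]
    by_cases hxy : x = y
    · right
      rw [Finset.mem_image]
      exact ⟨x, hx1, by rw [hxy]⟩
    · left
      rw [Finset.mem_filter, Finset.mem_product]
      refine ⟨⟨hx1, hx2⟩, ?_⟩
      simp only
      unfold nonA
      rw [Finset.mem_filter, Finset.mem_offDiag]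
      refine ⟨⟨mem_unitPts.1 hx1, mem_unitPts.1 hx2, fun h => hxy (Circle.ext h)⟩, ?_⟩
      rintro ⟨s, hs, h⟩
      simp only at h
      apply hx3
      have hn : (x : ℂ) - y ≠ 0 := fun h0 => hxy (Circle.ext (sub_eq_zero.1 h0))
      have e1 : (x : ℂ) * conj (x : ℂ) = 1 := by
        rw [Complex.mul_conj, Circle.normSq_coe]
        simp
      have e2 : (y : ℂ) * conj (y : ℂ) = 1 := by
        rw [Complex.mul_conj, Circle.normSq_coe]
        simp
      have e3 : (x : ℂ) * y * conj ((x : ℂ) - y) = -((x : ℂ) - y) := by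
        rw [map_sub]
        linear_combination (y : ℂ) * e1 - (x : ℂ) * e2
      have e4 : conj ((x : ℂ) - y) ≠ 0 := by
        intro h0
        exact hn ((map_eq_zero _).1 h0)
      have e5 : (s : ℂ) = (x : ℂ) * y := by
        apply mul_right_cancel₀ e4
        rw [e3]
        linear_combination h
      have e6 : s = x * y := by
        apply Circle.ext
        rw [e5, Circle.coe_mul]
      rw [← e6]
      exact hs
  refine (Finset.card_le_card hsub).trans ((Finset.card_union_le _ _).trans ?_)
  refine Nat.add_le_add ?_ Finset.card_image_le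
  refine Finset.card_le_card_of_injOn (fun x : Circle × Circle => ((x.1 : ℂ), (x.2 : ℂ))) ?_ ?_
  · intro x hx
    rw [Finset.mem_coe, Finset.mem_filter] at hx
    exact hx.2
  · rintro ⟨x, y⟩ _ ⟨x', y'⟩ _ h
    simp only [Prod.mk.injEq] at h
    rw [Circle.ext h.1, Circle.ext h.2]

end Pool.Agent.SimplV
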