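import Pool.Agent.SimplV.Convex

set_option autoImplicit false

/-! # A position with many windows (HM_Proof.md, 3.3)

All predicates are periodic: `Good θ q (i + 2 m) (j + 2 m) ↔ Good θ q i j` (`qper`).
For `8 ≤ d ≤ m - 6` and `0 ≤ a, b ≤ 2` the shift `d + 2 (b - a)` is in `[4, m - 2]`. So
`∑_{8 ≤ d ≤ m-6} #{i ∈ [0,2m) : ¬ Window i (i + d)} ≤ ∑_{a,b} ∑_d #{i : ¬ Good (i + 2a) (i + d + 2b)}
≤ 9 B` (substitute `i + 2 a` for `i` by `card_shift`; for given `a, b` the map `d ↦ d + 2 (b - a)` is injective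
into `[4, m-2]`). In the same way `∑_d #{j ∈ [0,2m) : ¬ Window (j - d) j} ≤ 9 B`.
For `j ∈ [0, 2m)` let `G j` be the set of the `i ∈ [j - m, j + m)` with (`8 ≤ j - i ≤ m - 6` and
`Window i j`) or (`8 ≤ i - j ≤ m - 6` and `Window j i`). `|G j| = 2 (m - 13) - #{d : ¬ Window (j-d) j}
- #{d : ¬ Window j (j+d)}`. Sum over `j`: `∑_j |G j| ≥ 2 m · 2 (m - 13) - 18 B`. So some `j₀` has
`2 m |G j₀| ≥ 2 m · 2 (m - 13) - 18 B`. -/

namespace Pool.Agent.SimplV

open Complex Module ComplexConjugate Pool.Agent.Simpl Classical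

private theorem win_good_per {m : ℕ} {θ : ℤ → ℝ} {q : ℤ → ℂ} {c : ℤ → ℝ} (h : Poly m θ q c)
    (i j : ℤ) : Good θ q (i + 2 * m) (j + 2 * m) ↔ Good θ q i j := by
  have h1 : q (i + 2 * m + 2) = q (i + 2) := by
    rw [show i + 2 * (m : ℤ) + 2 = i + 2 + 2 * m by ring, h.qper]
  have h2 : q (j + 2 * m + 2) = q (j + 2) := by
    rw [show j + 2 * (m : ℤ) + 2 = j + 2 + 2 * m by ring, h.qper]
  simp only [Good, AllA, h1, h2, h.qper]

private theorem win_per {m : ℕ} {θ : ℤ → ℝ} {q : ℤ → ℂ} {c : ℤ → ℝ} (h : Poly m θ q c)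
    (i j : ℤ) : Window θ q (i + 2 * m) (j + 2 * m) ↔ Window θ q i j := by
  unfold Window
  refine forall_congr' fun a => forall_congr' fun b => forall_congr' fun _ =>
    forall_congr' fun _ => forall_congr' fun _ => forall_congr' fun _ => ?_
  rw [show i + 2 * (m : ℤ) + 2 * a = i + 2 * a + 2 * m by ring,
    show j + 2 * (m : ℤ) + 2 * b = j + 2 * b + 2 * m by ring, win_good_per h]

private theorem win_shift {m : ℕ} (p : ℤ → Prop) [DecidablePred p] (hp : ∀ i, p (i + 2 * m) ↔ p i) (s : ℤ) :
    ((Finset.Ico (0 : ℤ) (2 * m)).filter fun i => p (i + s)).card =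
      ((Finset.Ico (0 : ℤ) (2 * m)).filter p).card := by
  have h1 : ((Finset.Ico (0 : ℤ) (2 * m)).filter fun i => p (i + s)).card =
      ((Finset.Ico s (s + 2 * m)).filter p).card := by
    refine Finset.card_bij (fun i _ => i + s) ?_ ?_ ?_
    · intro i hi
      rw [Finset.mem_filter, Finset.mem_Ico] at hi ⊢
      refine ⟨⟨?_, ?_⟩, hi.2⟩ <;> linarith [hi.1.1, hi.1.2]
    · intro i _ j _ hij
      linarith
    · intro j hj
      rw [Finset.mem_filter, Finset.mem_Ico] at hj
      refine ⟨j - s, ?_, by ring⟩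
      rw [Finset.mem_filter, Finset.mem_Ico]
      refine ⟨⟨by linarith [hj.1.1], by linarith [hj.1.2]⟩, ?_⟩
      rw [sub_add_cancel]
      exact hj.2
  rw [h1, card_shift p hp s 0, zero_add]

theorem exists_center {m : ℕ} {θ : ℤ → ℝ} {q : ℤ → ℂ} {c : ℤ → ℝ} (h : Poly m θ q c)
    (hm : 20 ≤ m) {B : ℕ}
    (hB : ∑ d ∈ Finset.Icc (4 : ℤ) (m - 2),
      ((Finset.Ico (0 : ℤ) (2 * m)).filter fun i => ¬ Good θ q i (i + d)).card ≤ B) :
    ∃ (j₀ : ℤ) (G : Finset ℤ), G ⊆ Finset.Ico (j₀ - m) (j₀ - m + 2 * m) ∧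
      (∀ i ∈ G, (8 ≤ j₀ - i ∧ j₀ - i ≤ m - 6 ∧ Window θ q i j₀) ∨
        (8 ≤ i - j₀ ∧ i - j₀ ≤ m - 6 ∧ Window θ q j₀ i)) ∧
      (m : ℤ) * (2 * m - 26 - G.card) ≤ 9 * B := by
  classical
  set I : Finset ℤ := Finset.Ico (0 : ℤ) (2 * m) with hI
  set D : Finset ℤ := Finset.Icc (8 : ℤ) (m - 6) with hD
  have hm' : (20 : ℤ) ≤ m := by exact_mod_cast hm
  -- the number of bad pairs for given offsets
  have key1 : ∀ a b : ℕ, a < 3 → b < 3 → ∑ d ∈ D, (I.filter fun i =>
      ¬ Good θ q (i + 2 * (a : ℤ)) (i + d + 2 * (b : ℤ))).card ≤ B := by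
    intro a b ha hb
    refine le_trans ?_ hB
    have h1 : ∀ d : ℤ, (I.filter fun i =>
        ¬ Good θ q (i + 2 * (a : ℤ)) (i + d + 2 * (b : ℤ))).card =
        (I.filter fun i => ¬ Good θ q i (i + (d + 2 * ((b : ℤ) - a)))).card := by
      intro d
      rw [hI, ← win_shift (fun i => ¬ Good θ q i (i + (d + 2 * ((b : ℤ) - a)))) ?_ (2 * (a : ℤ))]
      · congr 1
        apply Finset.filter_congr
        intro i _
        rw [show i + 2 * (a : ℤ) + (d + 2 * ((b : ℤ) - a)) = i + d + 2 * (b : ℤ) by ring]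
      · intro i
        rw [show i + 2 * (m : ℤ) + (d + 2 * ((b : ℤ) - a)) =
          i + (d + 2 * ((b : ℤ) - a)) + 2 * m by ring, win_good_per h]
    rw [Finset.sum_congr rfl fun d _ => h1 d]
    rw [← Finset.sum_image (s := D) (g := fun d : ℤ => d + 2 * ((b : ℤ) - a))
      (f := fun d => (I.filter fun i => ¬ Good θ q i (i + d)).card)]
    · apply Finset.sum_le_sum_of_subset
      intro d hd
      rw [Finset.mem_image] at hd
      obtain ⟨e, he, rfl⟩ := hd
      rw [hD, Finset.mem_Icc] at he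
      rw [Finset.mem_Icc]
      have ha' : (a : ℤ) ≤ 2 := by exact_mod_cast Nat.lt_succ_iff.mp ha
      have hb' : (b : ℤ) ≤ 2 := by exact_mod_cast Nat.lt_succ_iff.mp hb
      have ha0 : (0 : ℤ) ≤ a := Nat.cast_nonneg a
      have hb0 : (0 : ℤ) ≤ b := Nat.cast_nonneg b
      constructor <;> linarith [he.1, he.2]
    · intro x _ y _ hxy
      simp only at hxy
      linarith
  have key2 : ∀ d : ℤ, (I.filter fun i => ¬ Window θ q i (i + d)).card ≤
      ∑ a ∈ Finset.range 3, ∑ b ∈ Finset.range 3, (I.filter fun i =>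
        ¬ Good θ q (i + 2 * (a : ℤ)) (i + d + 2 * (b : ℤ))).card := by
    intro d
    refine le_trans (Finset.card_le_card (t := (Finset.range 3).biUnion fun a =>
      (Finset.range 3).biUnion fun b => I.filter fun i =>
        ¬ Good θ q (i + 2 * (a : ℤ)) (i + d + 2 * (b : ℤ))) ?_) ?_
    · intro i hi
      rw [Finset.mem_filter] at hi
      obtain ⟨hi1, hi2⟩ := hi
      unfold Window at hi2
      push Not at hi2
      obtain ⟨a, b, ha0, ha2, hb0, hb2, hG⟩ := hi2
      rw [Finset.mem_biUnion]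
      refine ⟨a.toNat, Finset.mem_range.mpr (by omega), ?_⟩
      rw [Finset.mem_biUnion]
      refine ⟨b.toNat, Finset.mem_range.mpr (by omega), ?_⟩
      rw [Finset.mem_filter]
      refine ⟨hi1, ?_⟩
      rw [Int.toNat_of_nonneg ha0, Int.toNat_of_nonneg hb0]
      exact hG
    · refine Finset.card_biUnion_le.trans ?_
      exact Finset.sum_le_sum fun a _ => Finset.card_biUnion_le
  have key3 : ∑ d ∈ D, (I.filter fun i => ¬ Window θ q i (i + d)).card ≤ 9 * B := by
    refine (Finset.sum_le_sum fun d _ => key2 d).trans ?_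
    rw [Finset.sum_comm]
    have h1 : ∀ a ∈ Finset.range 3, ∑ d ∈ D, ∑ b ∈ Finset.range 3, (I.filter fun i =>
        ¬ Good θ q (i + 2 * (a : ℤ)) (i + d + 2 * (b : ℤ))).card ≤ 3 * B := by
      intro a ha
      rw [Finset.sum_comm]
      refine (Finset.sum_le_sum fun b hb => key1 a b (Finset.mem_range.mp ha)
        (Finset.mem_range.mp hb)).trans ?_
      rw [Finset.sum_const, Finset.card_range, smul_eq_mul]
    refine (Finset.sum_le_sum h1).trans ?_
    rw [Finset.sum_const, Finset.card_range, smul_eq_mul]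
    omega
  have key4 : ∑ d ∈ D, (I.filter fun j => ¬ Window θ q (j - d) j).card ≤ 9 * B := by
    refine le_trans (le_of_eq ?_) key3
    refine Finset.sum_congr rfl fun d _ => ?_
    rw [hI, ← win_shift (fun i => ¬ Window θ q i (i + d)) ?_ (-d)]
    · congr 1
      apply Finset.filter_congr
      intro i _
      rw [show i + -d = i - d by ring, sub_add_cancel]
    · intro i
      rw [show i + 2 * (m : ℤ) + d = i + d + 2 * m by ring, win_per h]
  -- the sets `G j`
  set L : ℤ → Finset ℤ := fun j => D.filter fun d => Window θ q (j - d) j with hL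
  set R : ℤ → Finset ℤ := fun j => D.filter fun d => Window θ q j (j + d) with hR
  set G : ℤ → Finset ℤ := fun j => (L j).image (fun d => j - d) ∪ (R j).image (fun d => j + d)
    with hG
  have hDc : (D.card : ℤ) = m - 13 := by
    rw [hD, Int.card_Icc]
    rw [Int.toNat_of_nonneg (by linarith)]
    ring
  have hGc : ∀ j, ((G j).card : ℤ) = 2 * m - 26 -
      ((D.filter fun d => ¬ Window θ q (j - d) j).card +
        (D.filter fun d => ¬ Window θ q j (j + d)).card : ℕ) := by
    intro j
    have h1 : (G j).card = (L j).card + (R j).card := by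
      rw [hG]
      simp only
      rw [Finset.card_union_of_disjoint, Finset.card_image_of_injective,
        Finset.card_image_of_injective]
      · intro x y hxy
        simp only at hxy
        linarith
      · intro x y hxy
        simp only at hxy
        linarith
      · rw [Finset.disjoint_left]
        intro x hx hx'
        rw [Finset.mem_image] at hx hx'
        obtain ⟨d, hd, rfl⟩ := hx
        obtain ⟨e, he, hde⟩ := hx'
        have h3 := (Finset.mem_Icc.mp (Finset.mem_filter.mp hd).1).1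
        have h4 := (Finset.mem_Icc.mp (Finset.mem_filter.mp he).1).1
        linarith
    have h2 : (L j).card + (D.filter fun d => ¬ Window θ q (j - d) j).card = D.card :=
      Finset.card_filter_add_card_filter_not _
    have h3 : (R j).card + (D.filter fun d => ¬ Window θ q j (j + d)).card = D.card :=
      Finset.card_filter_add_card_filter_not _
    push_cast
    rw [h1]
    push_cast
    have h2' : ((L j).card : ℤ) + (D.filter fun d => ¬ Window θ q (j - d) j).card = D.card := by
      exact_mod_cast h2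
    have h3' : ((R j).card : ℤ) + (D.filter fun d => ¬ Window θ q j (j + d)).card = D.card := by
      exact_mod_cast h3
    linarith
  have hsum : ∑ j ∈ I, ((D.filter fun d => ¬ Window θ q (j - d) j).card +
        (D.filter fun d => ¬ Window θ q j (j + d)).card) ≤ 18 * B := by
    rw [Finset.sum_add_distrib]
    have hswap : ∀ (P : ℤ → ℤ → Prop) [∀ j d, Decidable (P j d)], ∑ j ∈ I, (D.filter fun d => P j d).card =
        ∑ d ∈ D, (I.filter fun j => P j d).card := by
      intro P _
      simp only [Finset.card_filter]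
      exact Finset.sum_comm
    rw [hswap fun j d => ¬ Window θ q (j - d) j, hswap fun j d => ¬ Window θ q j (j + d)]
    omega
  have hex : ∃ j ∈ I, (m : ℤ) * (2 * m - 26 - (G j).card) ≤ 9 * B := by
    by_contra hcon
    push Not at hcon
    have hIc : I.card = 2 * m := by
      rw [hI, Int.card_Ico, sub_zero]
      omega
    have hne : I.Nonempty := by
      rw [← Finset.card_pos, hIc]
      omega
    have h1 : ∑ _j ∈ I, (9 * (B : ℤ)) < ∑ j ∈ I, (m : ℤ) * (2 * m - 26 - (G j).card) :=
      Finset.sum_lt_sum_of_nonempty hne hcon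
    rw [Finset.sum_const, hIc, nsmul_eq_mul] at h1
    have h2 : ∑ j ∈ I, (m : ℤ) * (2 * m - 26 - (G j).card) =
        m * ((∑ j ∈ I, ((D.filter fun d => ¬ Window θ q (j - d) j).card +
        (D.filter fun d => ¬ Window θ q j (j + d)).card) : ℕ) : ℤ) := by
      rw [← Finset.mul_sum]
      congr 1
      push_cast
      refine Finset.sum_congr rfl fun j _ => ?_
      rw [hGc j]
      push_cast
      ring
    rw [h2] at h1
    have h3 : ((∑ j ∈ I, ((D.filter fun d => ¬ Window θ q (j - d) j).card +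
        (D.filter fun d => ¬ Window θ q j (j + d)).card) : ℕ) : ℤ) ≤ 18 * B := by
      exact_mod_cast hsum
    have h4 := mul_le_mul_of_nonneg_left h3 (Nat.cast_nonneg m : (0 : ℤ) ≤ m)
    push_cast at h1 h4
    linarith
  obtain ⟨j, -, hj⟩ := hex
  refine ⟨j, G j, ?_, ?_, hj⟩
  · intro i hi
    rw [hG] at hi
    simp only [Finset.mem_union, Finset.mem_image] at hi
    rw [Finset.mem_Ico]
    rcases hi with ⟨d, hd, rfl⟩ | ⟨d, hd, rfl⟩
    · have h3 := Finset.mem_Icc.mp (Finset.mem_filter.mp hd).1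
      constructor <;> linarith [h3.1, h3.2]
    · have h3 := Finset.mem_Icc.mp (Finset.mem_filter.mp hd).1
      constructor <;> linarith [h3.1, h3.2]
  · intro i hi
    rw [hG] at hi
    simp only [Finset.mem_union, Finset.mem_image] at hi
    rcases hi with ⟨d, hd, rfl⟩ | ⟨d, hd, rfl⟩
    · left
      have h3 := Finset.mem_filter.mp hd
      have h4 := Finset.mem_Icc.mp h3.1
      rw [sub_sub_cancel]
      exact ⟨h4.1, h4.2, h3.2⟩
    · right
      have h3 := Finset.mem_filter.mp hd
      have h4 := Finset.mem_Icc.mp h3.1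
      rw [add_sub_cancel_left]
      exact ⟨h4.1, h4.2, h3.2⟩

end Pool.Agent.SimplV
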